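import Pool.Agent.Lib_MP_f1a94e_fl.Defs

/-!
# Piece APXN: the weights of the correlations, determinant `m`, step `ν`
-/

set_option autoImplicit false

namespace Pool.Agent.FanL

open Finset Pool.Agent.GaussMR Pool.Agent.OmAll Pool.Agent.OmEq Pool.Agent.LPr Pool.Agent.OrbL MeasureTheory Filter

/-- the weight is a value of `apxn_K`, determinant `m`, step `ν` -/
private theorem apxnm_wN {h : ℝ → ℝ} {h1 h2 : ℝ} (hh : HF h h1 h2) {J N m ν : ℕ} (hm : 1 ≤ m) (hν : 1 ≤ ν)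
    {X : ℝ} (hX : 0 < X) {e : G × G} (he : En m e) :
    wN h J N ν X e = apxn_K h J N ν h1 (mE e / X, tE e, m / X) := by
  have hn' : (0 : ℝ) < ν := by exact_mod_cast hν
  have hne := clu_nm_ne (by omega : 0 < m) he
  have hP : (0 : ℝ) < nm e.1 := by exact_mod_cast Nat.pos_of_ne_zero hne.1
  have hQ : (0 : ℝ) < nm e.2 := by exact_mod_cast Nat.pos_of_ne_zero hne.2
  have hPQ : (nm e.1 : ℝ) * nm e.2 = mE e ^ 2 + (m : ℝ) ^ 2 := by
    have h4 := dot_sq_add_det_sq e.1 e.2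
    rw [he.1] at h4
    unfold mE
    exact_mod_cast h4.symm
  have hs : √((mE e / X) ^ 2 + ((m : ℝ) / X) ^ 2) = √(nm e.1) * √(nm e.2) / X := by
    rw [← Real.sqrt_mul hP.le, hPQ]
    have h5 : (mE e / X) ^ 2 + ((m : ℝ) / X) ^ 2 = (mE e ^ 2 + (m : ℝ) ^ 2) / X ^ 2 := by ring
    rw [h5, Real.sqrt_div' _ (by positivity), Real.sqrt_sq hX.le]
  have ht : Real.exp (tE e / 2) = √(nm e.2) / √(nm e.1) := by
    unfold tE
    rw [sub_div, Real.exp_sub, ← Real.log_sqrt hQ.le, ← Real.log_sqrt hP.le,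
      Real.exp_log (Real.sqrt_pos.2 hQ), Real.exp_log (Real.sqrt_pos.2 hP)]
  have ht' : Real.exp (-(tE e / 2)) = √(nm e.1) / √(nm e.2) := by
    rw [Real.exp_neg, ht, inv_div]
  have q1 := Real.sqrt_pos.2 hP
  have q2 := Real.sqrt_pos.2 hQ
  have s1 := Real.mul_self_sqrt hP.le
  have s2 := Real.mul_self_sqrt hQ.le
  have f1 : √(nm e.1) * √(nm e.2) / X * (√(nm e.1) / √(nm e.2)) = nm e.1 / X := by
    calc √(nm e.1) * √(nm e.2) / X * (√(nm e.1) / √(nm e.2)) = √(nm e.1) * √(nm e.1) / X := by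
          field_simp
      _ = nm e.1 / X := by rw [s1]
  have f2 : √(nm e.1) * √(nm e.2) / X * (√(nm e.2) / √(nm e.1)) = nm e.2 / X := by
    calc √(nm e.1) * √(nm e.2) / X * (√(nm e.2) / √(nm e.1)) = √(nm e.2) * √(nm e.2) / X := by
          field_simp
      _ = nm e.2 / X := by rw [s2]
  have ha : apxn_a ν (mE e / X, tE e, m / X) = aN ν e / X := by
    unfold apxn_a aN
    simp only
    rw [mul_add, hs, ht, ht', f1, f2]
    field_simp
  unfold wN apxn_K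
  simp only
  rw [ha, hs, ht, ht', f1, f2]
  by_cases h3 : aN ν e / X ≤ h1
  · rw [hh.lo _ h3]
    ring
  · rw [max_eq_left (not_le.1 h3).le]
    have hpos : 0 < aN ν e / X := hh.pos.trans (not_le.1 h3)
    have hpos' : 0 < aN ν e := by
      have := mul_pos hpos hX
      rwa [div_mul_cancel₀ _ hX.ne'] at this
    have e1 : ((nm e.1 : ℝ) / X - mE e / X) / (ν * (aN ν e / X)) = (nm e.1 - mE e) / (ν * aN ν e) := by
      field_simp
    have e2 : (mE e / X - (nm e.2 : ℝ) / X) / (ν * (aN ν e / X)) = (mE e - nm e.2) / (ν * aN ν e) := by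
      field_simp
    rw [e1, e2]

private theorem apxnm_t_bound {h : ℝ → ℝ} {h1 h2 : ℝ} (hh : HF h h1 h2) {J N m ν : ℕ} (hJ : 1 ≤ J) (hN : 1 ≤ N)
    (hm : 1 ≤ m) (hν : 1 ≤ ν) {X : ℝ} (hX : 0 < X) {e : G × G} (he : En m e) (hne : wN h J N ν X e ≠ 0) :
    |tE e| ≤ 2 * Real.log (J + N) := by
  have hn' : (1 : ℝ) ≤ ν := by exact_mod_cast hν
  have hJ' : (1 : ℝ) ≤ J := by exact_mod_cast hJ
  have hN' : (1 : ℝ) ≤ N := by exact_mod_cast hN
  have hnz := clu_nm_ne (by omega : 0 < m) he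
  have hP : (0 : ℝ) < nm e.1 := by exact_mod_cast Nat.pos_of_ne_zero hnz.1
  have hQ : (0 : ℝ) < nm e.2 := by exact_mod_cast Nat.pos_of_ne_zero hnz.2
  have hPQ : (nm e.1 : ℝ) * nm e.2 = mE e ^ 2 + (m : ℝ) ^ 2 := by
    have h4 := dot_sq_add_det_sq e.1 e.2
    rw [he.1] at h4
    unfold mE
    exact_mod_cast h4.symm
  have hA : (ν : ℝ) ^ 2 * aN ν e = nm e.1 + nm e.2 - 2 * mE e := by
    unfold aN
    field_simp
  unfold wN at hne
  have e1 := left_ne_zero_of_mul (left_ne_zero_of_mul hne)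
  have e2 := apxn_rho_ne hN (right_ne_zero_of_mul (left_ne_zero_of_mul hne))
  have e3 := apxn_rho_ne hN (right_ne_zero_of_mul hne)
  have e4 : h (aN ν e / X) ≠ 0 := fun h0 => e1 (by rw [h0]; ring)
  have e5 : h1 < aN ν e / X := by
    by_contra h0
    exact e4 (hh.lo _ (not_lt.1 h0))
  have hpos : 0 < aN ν e := by
    have := mul_pos (hh.pos.trans e5) hX
    rwa [div_mul_cancel₀ _ hX.ne'] at this
  obtain ⟨A, hAe⟩ : ∃ A, A = aN ν e := ⟨_, rfl⟩
  obtain ⟨P, hPe⟩ : ∃ P : ℝ, P = nm e.1 := ⟨_, rfl⟩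
  obtain ⟨Q, hQe⟩ : ∃ Q : ℝ, Q = nm e.2 := ⟨_, rfl⟩
  obtain ⟨d, hde⟩ : ∃ d, d = mE e := ⟨_, rfl⟩
  obtain ⟨M, hM⟩ : ∃ M : ℝ, M = J + N := ⟨_, rfl⟩
  rw [← hAe] at hA hpos
  rw [← hPe, ← hQe, ← hde] at hA hPQ
  rw [← hPe] at hP
  rw [← hQe] at hQ
  rw [← hAe, ← hPe, ← hde, ← hM] at e2
  rw [← hAe, ← hQe, ← hde, ← hM] at e3
  have hnA : 0 < ν * A := by positivity
  rw [lt_div_iff₀ hnA, div_lt_iff₀ hnA] at e2 e3
  have hM1 : 1 ≤ M := by rw [hM]; linarith
  have g1 : 0 < P - d := lt_trans (by positivity) e2.1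
  have g2 : 0 < d - Q := lt_trans (by positivity) e3.1
  have g3 : ν * A ≤ d - Q := by
    have : 1 * (ν * A) ≤ J * (ν * A) := mul_le_mul_of_nonneg_right hJ' hnA.le
    linarith [e3.1]
  have k1 : (ν : ℝ) ^ 2 * A * P = m ^ 2 + (P - d) ^ 2 := by
    rw [hA]
    linear_combination hPQ
  have k2 : (ν : ℝ) ^ 2 * A * Q = m ^ 2 + (d - Q) ^ 2 := by
    rw [hA]
    linear_combination hPQ
  have k3 : (P - d) ^ 2 ≤ (M * (ν * A)) ^ 2 := pow_le_pow_left₀ g1.le e2.2.le 2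
  have k4 : (ν * A) ^ 2 ≤ (d - Q) ^ 2 := pow_le_pow_left₀ hnA.le g3 2
  have hM2 : 1 ≤ M ^ 2 := one_le_pow₀ hM1
  have k5 : P ≤ M ^ 2 * Q := by
    have h5 : (ν : ℝ) ^ 2 * A * P ≤ (ν : ℝ) ^ 2 * A * (M ^ 2 * Q) := by
      have h6 : (ν : ℝ) ^ 2 * A * (M ^ 2 * Q) = M ^ 2 * ((ν : ℝ) ^ 2 * A * Q) := by ring
      rw [h6, k1, k2]
      have h7 : (m : ℝ) ^ 2 ≤ M ^ 2 * m ^ 2 := le_mul_of_one_le_left (by positivity) hM2
      have h8 : M ^ 2 * (ν * A) ^ 2 ≤ M ^ 2 * (d - Q) ^ 2 := mul_le_mul_of_nonneg_left k4 (by positivity)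
      nlinarith
    exact le_of_mul_le_mul_left h5 (by positivity)
  unfold tE
  rw [← hPe, ← hQe, ← hM]
  have l1 : Real.log P ≤ 2 * Real.log M + Real.log Q := by
    have := Real.log_le_log hP k5
    rwa [Real.log_mul (by positivity) hQ.ne', Real.log_pow, Nat.cast_ofNat] at this
  have l2 : Real.log Q ≤ Real.log P := Real.log_le_log hQ (by linarith)
  rw [abs_le]
  have l3 : 0 ≤ Real.log M := Real.log_nonneg hM1
  constructor <;> linarith

/-- PROOF. Let `P = nm e.1`, `Q = nm e.2`, `m = mE e`, `A = aN ν e = (P + Q - 2 m) / ν ^ 2`. If both values of `rho` are not zero then (`apxn_rho_ne`) `r1 = (P - m) / (ν A)` and `r2 = (m - Q) / (ν A)` lie in `(J, J + N)`; `r1 > 0` gives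
`ν A ≠ 0`, and `r1 - r2 = ν ^ 2 A / (ν A) = ν`, so `ν < N`. -/
theorem wN_zero (h : ℝ → ℝ) (J N ν : ℕ) (hJ : 1 ≤ J) (hN : 1 ≤ N) (hν : N ≤ ν) (X : ℝ) (e : G × G) :
    wN h J N ν X e = 0 := by
  by_contra hne
  unfold wN at hne
  have e2 := apxn_rho_ne hN (right_ne_zero_of_mul (left_ne_zero_of_mul hne))
  have e3 := apxn_rho_ne hN (right_ne_zero_of_mul hne)
  have hJ' : (1 : ℝ) ≤ J := by exact_mod_cast hJ
  have hν' : (N : ℝ) ≤ ν := by exact_mod_cast hν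
  have hν0 : (0 : ℝ) < ν := by
    have : 0 < ν := by omega
    exact_mod_cast this
  have hA : (ν : ℝ) ^ 2 * aN ν e = nm e.1 + nm e.2 - 2 * mE e := by
    unfold aN
    field_simp
  have hne0 : (ν : ℝ) * aN ν e ≠ 0 := by
    intro h0
    rw [h0, div_zero] at e2
    linarith [e2.1]
  have hd : ((nm e.1 : ℝ) - mE e) / (ν * aN ν e) - (mE e - nm e.2) / (ν * aN ν e) = ν := by
    rw [← sub_div, div_eq_iff hne0]
    linear_combination -hA
  linarith [e2.2, e3.1]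

/-- PROOF. The proof of `apxN_abs` (m/G23.lean, line 190) with the determinant `m` and the step `ν` separated (there both are `n`). `apxn_K h J N ν h1 (y, t, δ)` is used with `δ = m / X`: `apxn_K_cont hh J N ν hν` and
`apxn_K_zero` (step `ν`) can be used as they are; `apxn_wN` and `apxn_t_bound` (m/G17.lean) have to be redone for `he : En m e`: `nm e.1 * nm e.2 = mE e ^ 2 + m ^ 2`, `wN h J N ν X e = apxn_K h J N ν h1 (mE e / X, tE e, m / X)` (same proof, `hs` with `m`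
for `n`), `|tE e| ≤ 2 log (J + N)` if `wN ≠ 0` (same proof; `k1 : ν ^ 2 * A * P = m ^ 2 + (P - mE) ^ 2`, `k2` similarly). `apxn_WN_ne` with step `ν`; `B = 2 log (J + N) + 2 log (ν + 1)`; `cnt B` for `EN m (b X)`, `m ≤ b X` eventually. -/
theorem apxNm (h : ℝ → ℝ) (h1 h2 : ℝ) (hh : HF h h1 h2) (J N m ν : ℕ) (hJ : 1 ≤ J) (hN : 1 ≤ N) (hm : 1 ≤ m)
    (hν : 1 ≤ ν) (b : ℝ) (hb : 0 < b) :
    Tendsto (fun X : ℝ => (∑ e ∈ EN m (b * X), ‖((wN h J N ν X e : ℝ) : ℂ) - WN h J N ν (mE e / X) (tE e)‖) / X)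
      atTop (nhds 0) := by
  have hm' : (1 : ℝ) ≤ m := by exact_mod_cast hm
  have hν' : (1 : ℝ) ≤ ν := by exact_mod_cast hν
  have hJ' : (1 : ℝ) ≤ J := by exact_mod_cast hJ
  have hN' : (1 : ℝ) ≤ N := by exact_mod_cast hN
  obtain ⟨B, hB⟩ : ∃ B : ℝ, B = 2 * Real.log (J + N) + 2 * Real.log (ν + 1) := ⟨_, rfl⟩
  have hl1 : 0 ≤ Real.log ((J : ℝ) + N) := Real.log_nonneg (by linarith)
  have hl2 : 0 ≤ Real.log ((ν : ℝ) + 1) := Real.log_nonneg (by linarith)
  obtain ⟨C, hC, hcnt⟩ := cnt B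
  have hK := apxn_K_cont hh J N ν hν
  have hcomp : IsCompact (Set.Icc (0 : ℝ) b ×ˢ (Set.Icc (-B) B ×ˢ Set.Icc (0 : ℝ) 1)) :=
    isCompact_Icc.prod (isCompact_Icc.prod isCompact_Icc)
  have huc := hcomp.uniformContinuousOn_of_continuous hK.continuousOn
  rw [Metric.tendsto_atTop]
  intro ε hε
  have hε' : 0 < ε / (2 * (C * b)) := by positivity
  obtain ⟨η, hη, hK2⟩ := Metric.uniformContinuousOn_iff.1 huc (ε / (2 * (C * b))) hε'
  refine ⟨max 1 (max (m / b) (max m (2 * m / η))), fun X hX => ?_⟩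
  have x1 : 1 ≤ X := (le_max_left _ _).trans hX
  have x2 : m / b ≤ X := ((le_max_left _ _).trans (le_max_right _ _)).trans hX
  have x3 : (m : ℝ) ≤ X := ((le_max_left _ _).trans ((le_max_right _ _).trans (le_max_right _ _))).trans hX
  have x4 : 2 * m / η ≤ X :=
    ((le_max_right _ _).trans ((le_max_right _ _).trans (le_max_right _ _))).trans hX
  have hX0 : 0 < X := by linarith
  have y1 : (m : ℝ) ≤ b * X := by
    rw [div_le_iff₀ hb] at x2
    linarith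
  have y2 : (m : ℝ) / X ≤ 1 := by
    rw [div_le_one hX0]
    exact x3
  have y3 : (m : ℝ) / X < η := by
    rw [div_le_iff₀ hη] at x4
    rw [div_lt_iff₀ hX0]
    nlinarith
  have hterm : ∀ e ∈ EN m (b * X), ‖((wN h J N ν X e : ℝ) : ℂ) - WN h J N ν (mE e / X) (tE e)‖ ≤
      if |tE e| ≤ B then ε / (2 * (C * b)) else 0 := by
    intro e he
    rw [mem_EN (by omega)] at he
    have hmE := mE_pos he.1
    have hy : 0 < mE e / X := div_pos hmE hX0
    have hyb : mE e / X ≤ b := by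
      rw [div_le_iff₀ hX0]
      exact he.2
    split_ifs with ht
    · rw [apxnm_wN hh hm hν hX0 he.1, ← apxn_K_zero hh hJ hN hν hy, ← Complex.ofReal_sub,
        Complex.norm_real, ← dist_eq_norm]
      refine (hK2 _ ?_ _ ?_ ?_).le
      · rw [abs_le] at ht
        exact ⟨⟨hy.le, hyb⟩, ⟨ht, ⟨by positivity, y2⟩⟩⟩
      · rw [abs_le] at ht
        exact ⟨⟨hy.le, hyb⟩, ⟨ht, ⟨le_refl _, zero_le_one⟩⟩⟩
      · rw [Prod.dist_eq, Prod.dist_eq]
        simp only [dist_self]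
        rw [Real.dist_eq, sub_zero, abs_of_nonneg (by positivity : (0 : ℝ) ≤ m / X)]
        exact max_lt hη (max_lt hη y3)
    · have z1 : wN h J N ν X e = 0 := by
        by_contra h3
        have := apxnm_t_bound hh hJ hN hm hν hX0 he.1 h3
        exact ht (by rw [hB]; linarith)
      have z2 : WN h J N ν (mE e / X) (tE e) = 0 := by
        by_contra h3
        have h4 := apxn_WN_ne hh hJ hN hν h3
        apply ht
        rw [abs_le, hB]
        have h5 : 0 < 2 / ((J : ℝ) + N) := by positivity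
        constructor <;> linarith [h4.2.2.1, h4.2.2.2]
      rw [z1, z2]
      simp
  rw [dist_zero_right, norm_div, Real.norm_eq_abs X, abs_of_pos hX0, div_lt_iff₀ hX0]
  have hs : ‖∑ e ∈ EN m (b * X), ‖((wN h J N ν X e : ℝ) : ℂ) - WN h J N ν (mE e / X) (tE e)‖‖ ≤
      ∑ e ∈ EN m (b * X), if |tE e| ≤ B then ε / (2 * (C * b)) else 0 := by
    refine (norm_sum_le _ _).trans (sum_le_sum fun e he => ?_)
    rw [norm_norm]
    exact hterm e he
  refine lt_of_le_of_lt hs ?_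
  rw [← sum_filter, sum_const, nsmul_eq_mul]
  have h5 := hcnt m (by omega) (b * X) y1
  calc (((EN m (b * X)).filter (fun e => |tE e| ≤ B)).card : ℝ) * (ε / (2 * (C * b)))
      ≤ C * (b * X) * (ε / (2 * (C * b))) := mul_le_mul_of_nonneg_right h5 hε'.le
    _ = ε * X / 2 := by field_simp
    _ < ε * X := by
      have : 0 < ε * X := by positivity
      linarith

end Pool.Agent.FanL
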