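import Pool.Agent.Lib_MP_f1a94e_fl.Defs

/-!
# Piece APXO: the weights of the unbalanced sum, determinant `n`
-/

set_option autoImplicit false

namespace Pool.Agent.FanL

open Finset Pool.Agent.GaussMR Pool.Agent.OmAll Pool.Agent.OmEq Pool.Agent.LPr Pool.Agent.OrbL MeasureTheory Filter

private theorem apxon_WO_ne {h : ℝ → ℝ} {h1 h2 : ℝ} (hh : HF h h1 h2) {J N : ℕ} (hJ : 1 ≤ J) (hN : 1 ≤ N)
    {y t : ℝ} (hne : WO h J N y t ≠ 0) :
    0 < y ∧ y < ((J : ℝ) + N) * h2 ∧ 0 ≤ t ∧ t < 2 * Real.log (J + N) := by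
  have hJ' : (1 : ℝ) ≤ J := by exact_mod_cast hJ
  have hN' : (1 : ℝ) ≤ N := by exact_mod_cast hN
  unfold WO at hne
  obtain ⟨x, hx⟩ : ∃ x : ℝ, x = Real.exp (t / 2) := ⟨_, rfl⟩
  have hx0 : 0 < x := by rw [hx]; exact Real.exp_pos _
  have hxn : Real.exp (-t / 2) = x⁻¹ := by rw [hx, ← Real.exp_neg, neg_div]
  rw [← hx, hxn] at hne
  have hne' : h (y * x⁻¹) * rho J N x ≠ 0 := by exact_mod_cast hne
  have e1 := left_ne_zero_of_mul hne'
  have e2 := apxn_rho_ne hN (right_ne_zero_of_mul hne')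
  have e3 : h1 < y * x⁻¹ := by
    by_contra h0
    exact e1 (hh.lo _ (not_lt.1 h0))
  have e4 : y * x⁻¹ < h2 := by
    by_contra h0
    exact e1 (hh.hi _ (not_lt.1 h0))
  have hy : 0 < y := by
    by_contra h0
    have h3 : y * x⁻¹ ≤ 0 := mul_nonpos_of_nonpos_of_nonneg (not_lt.1 h0) (by positivity)
    linarith [hh.pos]
  refine ⟨hy, ?_, ?_, ?_⟩
  · rw [← div_eq_mul_inv, div_lt_iff₀ hx0] at e4
    have : h2 * x ≤ h2 * (J + N) := mul_le_mul_of_nonneg_left e2.2.le (by linarith [hh.one])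
    linarith
  · have h3 : 1 ≤ Real.exp (t / 2) := by
      rw [← hx]
      linarith [e2.1]
    have := Real.one_le_exp_iff.1 h3
    linarith
  · have h3 : t / 2 < Real.log (J + N) := by
      rw [Real.lt_log_iff_exp_lt (by positivity), ← hx]
      exact e2.2
    linarith

/-- the weight as a continuous function of `(y, t, δ)` -/
private noncomputable def apxon_K (h : ℝ → ℝ) (J N : ℕ) (h1 : ℝ) (p : ℝ × ℝ × ℝ) : ℝ :=
  h (√(p.1 ^ 2 + p.2.2 ^ 2) * Real.exp (-p.2.1 / 2)) *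
    rho J N (p.1 / max (√(p.1 ^ 2 + p.2.2 ^ 2) * Real.exp (-p.2.1 / 2)) h1)

private theorem apxon_K_cont {h : ℝ → ℝ} {h1 h2 : ℝ} (hh : HF h h1 h2) (J N : ℕ) :
    Continuous (apxon_K h J N h1) := by
  have c0 : Continuous fun p : ℝ × ℝ × ℝ => √(p.1 ^ 2 + p.2.2 ^ 2) * Real.exp (-p.2.1 / 2) := by
    fun_prop
  have c1 : Continuous fun p : ℝ × ℝ × ℝ =>
      max (√(p.1 ^ 2 + p.2.2 ^ 2) * Real.exp (-p.2.1 / 2)) h1 := c0.max continuous_const
  have hne : ∀ p : ℝ × ℝ × ℝ, max (√(p.1 ^ 2 + p.2.2 ^ 2) * Real.exp (-p.2.1 / 2)) h1 ≠ 0 := fun p =>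
    (lt_of_lt_of_le hh.pos (le_max_right _ _)).ne'
  have d1 : Continuous fun p : ℝ × ℝ × ℝ =>
      p.1 / max (√(p.1 ^ 2 + p.2.2 ^ 2) * Real.exp (-p.2.1 / 2)) h1 :=
    Continuous.div (by fun_prop) c1 hne
  exact (hh.cont.comp c0).mul ((apxn_rho_cont J N).comp d1)

private theorem apxon_K_zero {h : ℝ → ℝ} {h1 h2 : ℝ} (hh : HF h h1 h2) {J N : ℕ}
    {y t : ℝ} (hy : 0 < y) : ((apxon_K h J N h1 (y, t, 0) : ℝ) : ℂ) = WO h J N y t := by
  have hs : √(y ^ 2 + (0 : ℝ) ^ 2) = y := by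
    rw [zero_pow two_ne_zero, add_zero, Real.sqrt_sq hy.le]
  obtain ⟨x, hx⟩ : ∃ x : ℝ, x = Real.exp (t / 2) := ⟨_, rfl⟩
  have hx0 : 0 < x := by rw [hx]; exact Real.exp_pos _
  have hxn : Real.exp (-t / 2) = x⁻¹ := by rw [hx, ← Real.exp_neg, neg_div]
  unfold WO apxon_K
  simp only
  rw [hs, hxn, ← hx]
  congr 1
  by_cases h3 : y * x⁻¹ ≤ h1
  · rw [hh.lo _ h3]
    ring
  · have h4 : max (y * x⁻¹) h1 = y * x⁻¹ := max_eq_left (not_le.1 h3).le
    rw [h4]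
    have e1 : y / (y * x⁻¹) = x := by
      field_simp
    rw [e1]

private theorem apxon_w {n : ℕ} (hn : 1 ≤ n) {h : ℝ → ℝ} {h1 h2 : ℝ} (hh : HF h h1 h2) {J N : ℕ} {X : ℝ}
    (hX : 0 < X) {e : G × G} (he : En n e) :
    h (nm e.1 / X) * rho J N (mE e / nm e.1) = apxon_K h J N h1 (mE e / X, tE e, n / X) := by
  have hne := clu_nm_ne (by omega : 0 < n) he
  have hP : (0 : ℝ) < nm e.1 := by exact_mod_cast Nat.pos_of_ne_zero hne.1
  have hQ : (0 : ℝ) < nm e.2 := by exact_mod_cast Nat.pos_of_ne_zero hne.2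
  have hPQ : (nm e.1 : ℝ) * nm e.2 = mE e ^ 2 + (n : ℝ) ^ 2 := by
    have h4 := dot_sq_add_det_sq e.1 e.2
    rw [he.1] at h4
    unfold mE
    exact_mod_cast h4.symm
  have hs : √((mE e / X) ^ 2 + (n / X) ^ 2) = √(nm e.1) * √(nm e.2) / X := by
    rw [← Real.sqrt_mul hP.le, hPQ]
    have h5 : (mE e / X) ^ 2 + (n / X) ^ 2 = (mE e ^ 2 + (n : ℝ) ^ 2) / X ^ 2 := by ring
    rw [h5, Real.sqrt_div' _ (by positivity), Real.sqrt_sq hX.le]
  have ht : Real.exp (tE e / 2) = √(nm e.2) / √(nm e.1) := by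
    unfold tE
    rw [sub_div, Real.exp_sub, ← Real.log_sqrt hQ.le, ← Real.log_sqrt hP.le,
      Real.exp_log (Real.sqrt_pos.2 hQ), Real.exp_log (Real.sqrt_pos.2 hP)]
  have ht' : Real.exp (-tE e / 2) = √(nm e.1) / √(nm e.2) := by
    rw [neg_div, Real.exp_neg, ht, inv_div]
  have q1 := Real.sqrt_pos.2 hP
  have q2 := Real.sqrt_pos.2 hQ
  have s1 := Real.mul_self_sqrt hP.le
  have f1 : √(nm e.1) * √(nm e.2) / X * (√(nm e.1) / √(nm e.2)) = nm e.1 / X := by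
    calc √(nm e.1) * √(nm e.2) / X * (√(nm e.1) / √(nm e.2)) = √(nm e.1) * √(nm e.1) / X := by
          field_simp
      _ = nm e.1 / X := by rw [s1]
  unfold apxon_K
  simp only
  rw [hs, ht', f1]
  by_cases h3 : (nm e.1 : ℝ) / X ≤ h1
  · rw [hh.lo _ h3]
    ring
  · rw [max_eq_left (not_le.1 h3).le]
    have e1 : mE e / X / (nm e.1 / X) = mE e / nm e.1 := by
      field_simp
    rw [e1]

private theorem apxon_t_bound {n J N : ℕ} (hn : 1 ≤ n) (hJ : 1 ≤ J) (hN : 1 ≤ N)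
    {e : G × G} (he : En n e) (hne : rho J N (mE e / nm e.1) ≠ 0) :
    |tE e| ≤ Real.log ((J + N) ^ 2 + n ^ 2) := by
  have hn1 : (1 : ℝ) ≤ n := by exact_mod_cast hn
  have hJ' : (1 : ℝ) ≤ J := by exact_mod_cast hJ
  have hN' : (1 : ℝ) ≤ N := by exact_mod_cast hN
  have hnz := clu_nm_ne (by omega : 0 < n) he
  have hP : (0 : ℝ) < nm e.1 := by exact_mod_cast Nat.pos_of_ne_zero hnz.1
  have hP1 : (1 : ℝ) ≤ nm e.1 := by exact_mod_cast Nat.pos_of_ne_zero hnz.1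
  have hQ : (0 : ℝ) < nm e.2 := by exact_mod_cast Nat.pos_of_ne_zero hnz.2
  have hPQ : (nm e.1 : ℝ) * nm e.2 = mE e ^ 2 + (n : ℝ) ^ 2 := by
    have h4 := dot_sq_add_det_sq e.1 e.2
    rw [he.1] at h4
    unfold mE
    exact_mod_cast h4.symm
  obtain ⟨e1, e2⟩ := apxn_rho_ne hN hne
  obtain ⟨P, hPe⟩ : ∃ P : ℝ, P = nm e.1 := ⟨_, rfl⟩
  obtain ⟨Q, hQe⟩ : ∃ Q : ℝ, Q = nm e.2 := ⟨_, rfl⟩
  obtain ⟨m, hme⟩ : ∃ m, m = mE e := ⟨_, rfl⟩
  obtain ⟨M, hM⟩ : ∃ M : ℝ, M = J + N := ⟨_, rfl⟩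
  unfold tE
  rw [← hPe, ← hQe, ← hme] at hPQ
  rw [← hPe, ← hme] at e1 e2
  rw [← hM] at e2
  rw [← hPe] at hP hP1
  rw [← hQe] at hQ
  rw [← hPe, ← hQe, ← hM]
  rw [lt_div_iff₀ hP] at e1
  rw [div_lt_iff₀ hP] at e2
  have g1 : P ≤ m := by nlinarith
  have g2 : P ≤ Q := by
    by_contra h0
    nlinarith
  have g3 : Q ≤ (M ^ 2 + (n : ℝ) ^ 2) * P := by
    have h5 : P * Q ≤ P * ((M ^ 2 + (n : ℝ) ^ 2) * P) := by
      rw [hPQ]
      have h6 : m ^ 2 ≤ (M * P) ^ 2 := pow_le_pow_left₀ (by linarith) e2.le 2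
      have h7 : (n : ℝ) ^ 2 * 1 ≤ (n : ℝ) ^ 2 * P ^ 2 :=
        mul_le_mul_of_nonneg_left (by nlinarith) (sq_nonneg _)
      nlinarith
    exact le_of_mul_le_mul_left h5 hP
  have l1 : Real.log P ≤ Real.log Q := Real.log_le_log hP g2
  have l2 : Real.log Q ≤ Real.log (M ^ 2 + (n : ℝ) ^ 2) + Real.log P := by
    rw [← Real.log_mul (by positivity) hP.ne']
    exact Real.log_le_log hQ g3
  rw [abs_le]
  have l3 : 0 ≤ Real.log (M ^ 2 + (n : ℝ) ^ 2) := Real.log_nonneg (by nlinarith [sq_nonneg M])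
  constructor <;> linarith

/-- PROOF. The proof of `apxO_abs` (m/G23.lean, line 277, with the private lemmas `apxoa_..` before it) with determinant `n` instead of `1`: copy the lemmas `apxoa_K` (unchanged), `apxoa_K_cont`, `apxoa_K_zero`,
`apxoa_WO_ne` (unchanged, new names) and redo
`w`: for `he : En n e`, `nm e.1 * nm e.2 = mE e ^ 2 + n ^ 2`, so `h (nm e.1 / X) * rho J N (mE e / nm e.1) = K (mE e / X, tE e, n / X)`;
`t_bound`: if `rho J N (mE e / nm e.1) ≠ 0` then `|tE e| ≤ log ((J + N) ^ 2 + n ^ 2)` (with `P = nm e.1 ≥ 1`, `m = mE e`, `Q = nm e.2`: `P ≤ m < M P`, `P Q = m ^ 2 + n ^ 2`, hence `P ≤ Q ≤ (M ^ 2 + n ^ 2) P`).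
The main proof is the one of `apxN_abs` (G23 line 190) / `apxO_abs`: uniform continuity of `K` on `[0,b] x [-B,B] x [0,1]`, `n / X → 0`, `cnt B` for the number of pairs of `EN n (b X)` with `|tE| ≤ B`. -/
theorem apxOn (n : ℕ) (hn : 1 ≤ n) (h : ℝ → ℝ) (h1 h2 : ℝ) (hh : HF h h1 h2) (J N : ℕ) (hJ : 1 ≤ J) (hN : 1 ≤ N)
    (b : ℝ) (hb : 0 < b) :
    Tendsto (fun X : ℝ => (∑ e ∈ EN n (b * X), ‖((h (nm e.1 / X) * rho J N (mE e / nm e.1) : ℝ) : ℂ) -
      WO h J N (mE e / X) (tE e)‖) / X) atTop (nhds 0) := by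
  have hJ' : (1 : ℝ) ≤ J := by exact_mod_cast hJ
  have hN' : (1 : ℝ) ≤ N := by exact_mod_cast hN
  have hn' : (1 : ℝ) ≤ n := by exact_mod_cast hn
  obtain ⟨B, hB⟩ : ∃ B : ℝ, B = Real.log ((J + N) ^ 2 + n ^ 2) := ⟨_, rfl⟩
  have hB2 : 2 * Real.log ((J : ℝ) + N) ≤ B := by
    rw [hB, ← Nat.cast_two, ← Real.log_pow]
    exact Real.log_le_log (by positivity) (by nlinarith)
  have hl1 : 0 ≤ Real.log ((J : ℝ) + N) := Real.log_nonneg (by linarith)
  obtain ⟨C, hC, hcnt⟩ := cnt B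
  have hK := apxon_K_cont hh J N
  have hcomp : IsCompact (Set.Icc (0 : ℝ) b ×ˢ (Set.Icc (-B) B ×ˢ Set.Icc (0 : ℝ) 1)) :=
    isCompact_Icc.prod (isCompact_Icc.prod isCompact_Icc)
  have huc := hcomp.uniformContinuousOn_of_continuous hK.continuousOn
  rw [Metric.tendsto_atTop]
  intro ε hε
  have hε' : 0 < ε / (2 * (C * b)) := by positivity
  obtain ⟨η, hη, hK2⟩ := Metric.uniformContinuousOn_iff.1 huc (ε / (2 * (C * b))) hε'
  refine ⟨max 1 (max (n / b) (max n (2 * n / η))), fun X hX => ?_⟩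
  have x1 : 1 ≤ X := (le_max_left _ _).trans hX
  have x2 : n / b ≤ X := ((le_max_left _ _).trans (le_max_right _ _)).trans hX
  have x3 : (n : ℝ) ≤ X := ((le_max_left _ _).trans ((le_max_right _ _).trans (le_max_right _ _))).trans hX
  have x4 : 2 * n / η ≤ X :=
    ((le_max_right _ _).trans ((le_max_right _ _).trans (le_max_right _ _))).trans hX
  have hX0 : 0 < X := by linarith
  have y1 : (n : ℝ) ≤ b * X := by
    rw [div_le_iff₀ hb] at x2
    linarith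
  have y2 : (n : ℝ) / X ≤ 1 := by
    rw [div_le_one hX0]
    exact x3
  have y3 : (n : ℝ) / X < η := by
    rw [div_le_iff₀ hη] at x4
    rw [div_lt_iff₀ hX0]
    nlinarith
  have hterm : ∀ e ∈ EN n (b * X), ‖((h (nm e.1 / X) * rho J N (mE e / nm e.1) : ℝ) : ℂ) -
      WO h J N (mE e / X) (tE e)‖ ≤ if |tE e| ≤ B then ε / (2 * (C * b)) else 0 := by
    intro e he
    rw [mem_EN (by omega)] at he
    have hm := mE_pos he.1
    have hy : 0 < mE e / X := div_pos hm hX0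
    have hyb : mE e / X ≤ b := by
      rw [div_le_iff₀ hX0]
      exact he.2
    split_ifs with ht
    · rw [apxon_w hn hh hX0 he.1, ← apxon_K_zero hh hy, ← Complex.ofReal_sub,
        Complex.norm_real, ← dist_eq_norm]
      refine (hK2 _ ?_ _ ?_ ?_).le
      · rw [abs_le] at ht
        exact ⟨⟨hy.le, hyb⟩, ⟨ht, ⟨by positivity, y2⟩⟩⟩
      · rw [abs_le] at ht
        exact ⟨⟨hy.le, hyb⟩, ⟨ht, ⟨le_refl _, zero_le_one⟩⟩⟩
      · rw [Prod.dist_eq, Prod.dist_eq]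
        simp only [dist_self]
        rw [Real.dist_eq, sub_zero, abs_of_nonneg (by positivity : (0 : ℝ) ≤ n / X)]
        exact max_lt hη (max_lt hη y3)
    · have z1 : h (nm e.1 / X) * rho J N (mE e / nm e.1) = 0 := by
        by_contra h3
        have := apxon_t_bound hn hJ hN he.1 (right_ne_zero_of_mul h3)
        exact ht (by rw [hB]; linarith)
      have z2 : WO h J N (mE e / X) (tE e) = 0 := by
        by_contra h3
        have h4 := apxon_WO_ne hh hJ hN h3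
        apply ht
        rw [abs_le]
        constructor <;> linarith [h4.2.2.1, h4.2.2.2]
      rw [z1, z2]
      simp
  rw [dist_zero_right, norm_div, Real.norm_eq_abs X, abs_of_pos hX0, div_lt_iff₀ hX0]
  have hs : ‖∑ e ∈ EN n (b * X), ‖((h (nm e.1 / X) * rho J N (mE e / nm e.1) : ℝ) : ℂ) -
      WO h J N (mE e / X) (tE e)‖‖ ≤
      ∑ e ∈ EN n (b * X), if |tE e| ≤ B then ε / (2 * (C * b)) else 0 := by
    refine (norm_sum_le _ _).trans (sum_le_sum fun e he => ?_)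
    rw [norm_norm]
    exact hterm e he
  refine lt_of_le_of_lt hs ?_
  rw [← sum_filter, sum_const, nsmul_eq_mul]
  have h5 := hcnt n (by omega) (b * X) y1
  calc (((EN n (b * X)).filter (fun e => |tE e| ≤ B)).card : ℝ) * (ε / (2 * (C * b)))
      ≤ C * (b * X) * (ε / (2 * (C * b))) := mul_le_mul_of_nonneg_right h5 hε'.le
    _ = ε * X / 2 := by field_simp
    _ < ε * X := by
      have : 0 < ε * X := by positivity
      linarith

end Pool.Agent.FanL
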