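import Pool.Agent.Lib_MP_f1a94e_fl.Defs

/-!
# Piece CLS: pairs congruent modulo the determinant, different values or test functions of mean zero
-/

set_option autoImplicit false

namespace Pool.Agent.FanL

open Finset Pool.Agent.GaussMR Pool.Agent.OmAll Pool.Agent.OmEq Pool.Agent.LPr Pool.Agent.OrbL MeasureTheory Filter

/-- PROOF. As `gramt_lim` and `gramAT` (m: grep `theorem gramt_lim`), for `f1 * f2` without conjugation: the indicator of the class `1` is `∑_χ grambCo n G χ χ(cl n e)` (`gramb_fourier`, `cl_unit`, `cl_one : cl n e = 1 ↔ cg n e.2 e.1`), and every term is small by `pair_limT`: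
first alternative `ω1 * conj ω2 ≠ 1` if `ω1 ≠ ω2` (see `edge_limT`), third alternative if `∫ W = 0`. -/
theorem cls_lim (n : ℕ) (hn : 0 < n) (E : Finset ℕ) (f1 f2 : ℝ → ℕ → ℂ) (ω1 ω2 : ℂ)
    (h1 : FX f1 E ω1) (h2 : FX f2 E ω2) (hω1 : ‖ω1‖ = 1) (hω2 : ‖ω2‖ = 1) (b : ℝ) (W : ℝ → ℝ → ℂ) (hW : TF b W)
    (h0 : ω1 ≠ ω2 ∨ ∀ y, (∫ t, W y t) = 0) :
    Tendsto (fun X : ℝ => Sn n (f1 X) (f2 X) (b * X) W X / X) atTop (nhds 0) := by
  classical
  have : NeZero n := ⟨hn.ne'⟩
  have h0' : ω1 * (starRingEnd ℂ) ω2 ≠ 1 ∨ ∀ y, (∫ t, W y t) = 0 := by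
    rcases h0 with h0 | h0
    · left
      intro h
      apply h0
      have h3 : ω2 * (starRingEnd ℂ) ω2 = 1 := by
        rw [Complex.mul_conj, Complex.normSq_eq_norm_sq, hω2]
        simp
      have h4 : (starRingEnd ℂ) ω2 ≠ 0 := by
        intro h5
        rw [h5, mul_zero] at h3
        exact zero_ne_one h3
      exact mul_right_cancel₀ h4 (h.trans h3.symm)
    · exact Or.inr h0
  have h4 : ∀ χ : DirichletCharacter ℂ n, Tendsto (fun X : ℝ =>
      grambCo n (fun c => if c = 1 then 1 else 0) χ * ((∑ e ∈ EN n (b * X),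
      f1 X (nm e.1) * f2 X (nm e.2) * χ (cl n e) * W (mE e / X) (tE e)) / X)) atTop (nhds 0) := by
    intro χ
    have h5 := (pair_limT n χ E f1 f2 ω1 ω2 h1 h2 hω1 hω2 b W hW (h0'.imp id Or.inr)).const_mul
      (grambCo n (fun c => if c = 1 then 1 else 0) χ)
    rw [mul_zero] at h5
    exact h5
  have h5 := tendsto_finsetSum (univ : Finset (DirichletCharacter ℂ n)) (fun χ _ => h4 χ)
  rw [Finset.sum_const_zero] at h5
  refine h5.congr (fun X => ?_)
  unfold Sn
  rw [Finset.sum_filter]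
  have h3 : ∀ e ∈ EN n (b * X),
      (if cg n e.2 e.1 then f1 X (nm e.1) * f2 X (nm e.2) * W (mE e / X) (tE e) else 0) =
      ∑ χ : DirichletCharacter ℂ n, grambCo n (fun c => if c = 1 then 1 else 0) χ *
        (f1 X (nm e.1) * f2 X (nm e.2) * χ (cl n e) * W (mE e / X) (tE e)) := by
    intro e he
    have he' := ((mem_EN hn).mp he).1
    have k1 : cl n e = 1 ↔ cg n e.2 e.1 := cl_one he'
    have k2 := gramb_fourier n (fun c => if c = 1 then (1 : ℂ) else 0) (cl n e) (cl_unit he')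
    have k3 : (if cg n e.2 e.1 then f1 X (nm e.1) * f2 X (nm e.2) * W (mE e / X) (tE e) else 0) =
        (if cl n e = 1 then (1 : ℂ) else 0) * (f1 X (nm e.1) * f2 X (nm e.2) * W (mE e / X) (tE e)) := by
      by_cases c1 : cl n e = 1
      · rw [if_pos c1, if_pos (k1.1 c1), one_mul]
      · rw [if_neg c1, if_neg (fun h => c1 (k1.2 h)), zero_mul]
    rw [k3, k2, Finset.sum_mul]
    refine Finset.sum_congr rfl (fun χ _ => ?_)
    ring
  rw [Finset.sum_congr rfl h3, Finset.sum_comm, Finset.sum_div]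
  refine Finset.sum_congr rfl (fun χ _ => ?_)
  rw [← Finset.mul_sum, mul_div_assoc]

/-- PROOF. `cls_lim` for the families `f1 (a X)`, `f2 (a X)` (`FX.dil`). -/
theorem ptn (n : ℕ) (hn : 0 < n) (E : Finset ℕ) (f1 f2 : ℝ → ℕ → ℂ) (ω1 ω2 : ℂ)
    (h1 : FX f1 E ω1) (h2 : FX f2 E ω2) (hω1 : ‖ω1‖ = 1) (hω2 : ‖ω2‖ = 1) : PTn n f1 f2 := by
  intro b W hW h0 a ha
  exact cls_lim n hn E (fun X => f1 (a * X)) (fun X => f2 (a * X)) ω1 ω2 (h1.dil ha) (h2.dil ha) hω1 hω2 b W hW
    (Or.inr h0)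

/-- linearity in the second function -/
theorem sn_comb (n : ℕ) (f1 f f0 : ℕ → ℂ) (μ : ℂ) (x : ℝ) (W : ℝ → ℝ → ℂ) (X : ℝ) :
    Sn n f1 (fun m => (f m - μ * f0 m) / 2) x W X = (Sn n f1 f x W X - μ * Sn n f1 f0 x W X) / 2 := by
  unfold Sn
  rw [mul_sum, ← sum_sub_distrib, sum_div]
  refine sum_congr rfl fun e _ => ?_
  ring

/-- PROOF. `ptn` twice and `sn_comb`. -/
theorem comb_PTn (n : ℕ) (hn : 0 < n) (E : Finset ℕ) (ω : ℂ) (hω : ‖ω‖ = 1) (f1 f f0 : ℝ → ℕ → ℂ) (h1 : FX f1 E ω)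
    (h : FX f E ω) (h0 : FX f0 E ω) (μ : ℂ) : PTn n f1 (fun X m => (f X m - μ * f0 X m) / 2) := by
  intro b W hW hm a ha
  have e1 := ptn n hn E f1 f ω ω h1 h hω hω b W hW hm a ha
  have e2 := ptn n hn E f1 f0 ω ω h1 h0 hω hω b W hW hm a ha
  have e3 := (e1.sub (e2.const_mul μ)).div_const 2
  rw [mul_zero, sub_zero, zero_div] at e3
  refine e3.congr fun X => ?_
  rw [sn_comb]
  ring

/-- PROOF. As `sx2_swap` (m: grep `theorem sx2_swap`): `e ↦ (star e.2, star e.1)`. It preserves `det`, `dot`, `cg n e.2 e.1`; `En n` for pairs with `cg n e.2 e.1`: `e.1 - e.2 = n A`, `det A e.2 = 1` (as `n det A e.2 = n`), so `e.2` is primitive, `c = 1`. -/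
theorem sn_swap (n : ℕ) (hn : 0 < n) (f1 f2 : ℕ → ℂ) (x : ℝ) (W : ℝ → ℝ → ℂ) (X : ℝ) :
    Sn n f1 f2 x W X = Sn n f2 f1 x (fun y t => W y (-t)) X := by
  classical
  have hEn : ∀ e : G × G, En n e → cg n e.2 e.1 → En n (star e.2, star e.1) := by
    rintro ⟨U, W'⟩ ⟨h1, h2, _, _⟩ h5
    have hdet : det (star W') (star U) = det U W' := by
      simp [det]
      ring
    have hdot : dot (star W') (star U) = dot U W' := by
      simp [dot]
      ring
    obtain ⟨⟨a, ha⟩, ⟨b, hb⟩⟩ := h5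
    simp only at ha hb h1
    refine ⟨?_, ?_, ?_, 1, isCoprime_one_left, ?_⟩
    · show det (star W') (star U) = n
      rw [hdet]
      exact h1
    · show 0 < dot (star W') (star U)
      rw [hdot]
      exact h2
    · show IsCoprime (star W').re (star W').im
      have h6 : U.re * W'.im - U.im * W'.re = n := by simpa [det] using h1
      have hn' : (n : ℤ) ≠ 0 := by exact_mod_cast hn.ne'
      have h7 : b * W'.re - a * W'.im = 1 := by
        apply mul_left_cancel₀ hn'
        have ea : U.re = W'.re - n * a := by linarith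
        have eb : U.im = W'.im - n * b := by linarith
        rw [ea, eb] at h6
        linear_combination h6
      refine ⟨b, a, ?_⟩
      simp
      linarith
    · constructor
      · show (n : ℤ) ∣ (star U).re - (((1 : ℤ) : G) * star W').re
        rw [Int.cast_one, one_mul]
        exact ⟨-a, by simp; linarith⟩
      · show (n : ℤ) ∣ (star U).im - (((1 : ℤ) : G) * star W').im
        rw [Int.cast_one, one_mul]
        exact ⟨b, by simp; linarith⟩
  have hcg : ∀ e : G × G, cg n e.2 e.1 → cg n (star e.1) (star e.2) := by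
    rintro ⟨U, W'⟩ ⟨⟨a, ha⟩, ⟨b, hb⟩⟩
    simp only at ha hb
    constructor
    · exact ⟨-a, by simp; linarith⟩
    · exact ⟨b, by simp; linarith⟩
  have hmE : ∀ e : G × G, mE (star e.2, star e.1) = mE e := by
    intro e
    unfold mE
    have : dot (star e.2) (star e.1) = dot e.1 e.2 := by
      simp [dot]
      ring
    simp only [this]
  have htE : ∀ e : G × G, tE (star e.2, star e.1) = -tE e := by
    intro e
    unfold tE
    simp only [nm_star]
    ring
  unfold Sn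
  refine sum_bij (fun e _ => (star e.2, star e.1)) ?_ ?_ ?_ ?_
  · intro e he
    rw [mem_filter, mem_EN hn] at he ⊢
    exact ⟨⟨hEn e he.1.1 he.2, by rw [hmE]; exact he.1.2⟩, hcg e he.2⟩
  · rintro ⟨a, b⟩ _ ⟨c, d⟩ _ h
    simp only [Prod.mk.injEq] at h
    exact Prod.ext (star_injective h.2) (star_injective h.1)
  · intro e he
    refine ⟨(star e.2, star e.1), ?_, ?_⟩
    · rw [mem_filter, mem_EN hn] at he ⊢
      exact ⟨⟨hEn e he.1.1 he.2, by rw [hmE]; exact he.1.2⟩, hcg e he.2⟩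
    · simp
  · intro e _
    simp only [hmE, htE, neg_neg, nm_star]
    ring

end Pool.Agent.FanL
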