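import Pool.Agent.Lib_MP_f1a94e_m.G11

/-!
# Cauchy-Schwarz for the fans of determinant `s`
-/

set_option autoImplicit false

namespace Pool.Agent.FanL

open Finset Pool.Agent.GaussMR Pool.Agent.OmAll Pool.Agent.OmEq

open Classical in
/-- the members of the fan of `V` of determinant `s` with quotient in `[J, J + N]` -/
noncomputable def fB (s J N : ℕ) (V : G) : Finset G :=
  (ball (((J : ℝ) + N) ^ 2 * nm V + (s : ℝ) ^ 2)).filter (fun B => det V B = s ∧ cg s B V ∧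
    (J : ℝ) * nm V ≤ ((dot V B : ℤ) : ℝ) ∧ ((dot V B : ℤ) : ℝ) ≤ (J + N) * nm V)

theorem ne_zero_of_det {s : ℕ} (hs : 0 < s) {V B : G} (h : det V B = s) : V ≠ 0 := by
  rintro rfl
  unfold det at h
  simp at h
  omega

theorem nm_le_of {s J N : ℕ} (hs : 0 < s) {V B : G} (h : det V B = s) (h0 : (0 : ℝ) ≤ ((dot V B : ℤ) : ℝ))
    (h1 : ((dot V B : ℤ) : ℝ) ≤ (J + N) * nm V) : (nm B : ℝ) ≤ ((J : ℝ) + N) ^ 2 * nm V + (s : ℝ) ^ 2 := by
  have h2 : (1 : ℝ) ≤ nm V := by exact_mod_cast nm_pos (ne_zero_of_det hs h)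
  have h3 := dot_sq_add_det_sq V B
  rw [h] at h3
  have h4 : ((dot V B : ℤ) : ℝ) ^ 2 + (s : ℝ) ^ 2 = (nm V : ℝ) * nm B := by
    have : ((dot V B ^ 2 + (s : ℤ) ^ 2 : ℤ) : ℝ) = (((nm V : ℤ) * nm B : ℤ) : ℝ) := by rw [h3]
    push_cast at this
    linarith
  have h5 : ((dot V B : ℤ) : ℝ) ^ 2 ≤ ((J + N) * nm V) ^ 2 := by
    apply pow_le_pow_left₀ h0 h1
  have h6 : (nm V : ℝ) * nm B ≤ nm V * (((J : ℝ) + N) ^ 2 * nm V + (s : ℝ) ^ 2) := by
    rw [← h4]
    nlinarith [sq_nonneg (s : ℝ)]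
  exact le_of_mul_le_mul_left h6 (by linarith)

theorem mem_fB {s J N : ℕ} (hs : 0 < s) {V B : G} : B ∈ fB s J N V ↔ det V B = s ∧ cg s B V ∧
    (J : ℝ) * nm V ≤ ((dot V B : ℤ) : ℝ) ∧ ((dot V B : ℤ) : ℝ) ≤ (J + N) * nm V := by
  classical
  unfold fB
  rw [mem_filter, mem_ball]
  refine ⟨fun h => h.2, fun h => ⟨?_, h⟩⟩
  apply nm_le_of hs h.1 _ h.2.2.2
  exact le_trans (by positivity) h.2.2.1

/-- the generator of a member of the fan -/
theorem fan_gen {s : ℕ} (hs : 0 < s) {V B : G} (h : det V B = s) (hc : cg s B V) :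
    ∃ A : G, B = V + ((s : ℤ) : G) * A ∧ det V A = 1 := by
  obtain ⟨⟨a, ha⟩, ⟨b, hb⟩⟩ := hc
  have hB : B = V + ((s : ℤ) : G) * (⟨a, b⟩ : G) := by
    apply Zsqrtd.ext
    · rw [Zsqrtd.re_add, TailP.smul_re]
      simp only
      linarith
    · rw [Zsqrtd.im_add, TailP.smul_im]
      simp only
      linarith
  refine ⟨⟨a, b⟩, hB, ?_⟩
  have h1 : det V B = (s : ℤ) * det V ⟨a, b⟩ := by
    rw [hB]
    unfold det
    rw [Zsqrtd.re_add, Zsqrtd.im_add, TailP.smul_re, TailP.smul_im]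
    ring
  rw [h] at h1
  have h2 : (s : ℤ) * det V ⟨a, b⟩ = s * 1 := by rw [← h1, mul_one]
  exact mul_left_cancel₀ (by omega) h2

/-- two members of a fan -/
theorem fan_diff {s : ℕ} (hs : 0 < s) {V B B' : G} (h : det V B = s) (hc : cg s B V) (h' : det V B' = s)
    (hc' : cg s B' V) : ∃ k : ℤ, B = B' + ((s * k : ℤ) : G) * V := by
  obtain ⟨A, hA, hA1⟩ := fan_gen hs h hc
  obtain ⟨A', hA', hA1'⟩ := fan_gen hs h' hc'
  obtain ⟨k, hk⟩ := TailP.diff_mul hA1' hA1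
  refine ⟨k, ?_⟩
  rw [hA, hA', hk]
  push_cast
  ring

theorem card_fB {s J N : ℕ} (hs : 0 < s) {V : G} (hV : V ≠ 0) : ((fB s J N V).card : ℝ) ≤ N + 1 := by
  classical
  have hn : (0 : ℝ) < nm V := by exact_mod_cast nm_pos hV
  have hs1 : (1 : ℝ) ≤ s := by exact_mod_cast hs
  obtain ⟨t, h1, h2⟩ := TailP.edges_sub V ((J * nm V - nm V) / s) (((J + N) * nm V - nm V) / s) (by
    apply div_le_div_of_nonneg_right _ (by linarith)
    have : (0 : ℝ) ≤ N := Nat.cast_nonneg _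
    nlinarith)
  have h3 : fB s J N V ⊆ t.image (fun A => V + ((s : ℤ) : G) * A) := by
    intro B hB
    rw [mem_fB hs] at hB
    obtain ⟨hd, hc, hl, hr⟩ := hB
    obtain ⟨A, hA, hA1⟩ := fan_gen hs hd hc
    rw [mem_image]
    refine ⟨A, ?_, hA.symm⟩
    have h4 : dot V B = nm V + s * dot V A := by
      rw [hA, nm_eq]
      unfold dot
      rw [Zsqrtd.re_add, Zsqrtd.im_add, TailP.smul_re, TailP.smul_im]
      ring
    have h5 : ((dot V B : ℤ) : ℝ) = nm V + s * ((dot V A : ℤ) : ℝ) := by exact_mod_cast h4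
    have h6 : A ∈ (t : Set G) := by
      apply h1
      refine ⟨hA1, ?_, ?_⟩
      · rw [div_le_iff₀ (by linarith)]
        rw [h5] at hl
        linarith
      · rw [le_div_iff₀ (by linarith)]
        rw [h5] at hr
        linarith
    exact h6
  have h4 : ((fB s J N V).card : ℝ) ≤ t.card := by exact_mod_cast (card_le_card h3).trans card_image_le
  have h5 : (((J + N) * nm V - nm V) / s - (J * nm V - nm V) / s : ℝ) / nm V + 1 = N / s + 1 := by
    field_simp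
    ring
  rw [h5] at h2
  have h6 : (N : ℝ) / s ≤ N := div_le_self (Nat.cast_nonneg _) hs1
  linarith

/-- the inner sum -/
noncomputable def fT (s : ℕ) (f : ℕ → ℂ) (J N : ℕ) (V : G) : ℂ :=
  ∑ B ∈ fB s J N V, f (nm B) * ((rho J N (((dot V B : ℤ) : ℝ) / nm V) : ℝ) : ℂ)

/-- the class of a member modulo 4 -/
def fc (s : ℕ) (V B : G) : ℕ := ((dot V B / ((s : ℤ) * nm V)) % 4).toNat

theorem fc_lt (s : ℕ) (V B : G) : fc s V B < 4 := by
  unfold fc
  have h1 := Int.emod_nonneg (dot V B / ((s : ℤ) * nm V)) (by norm_num : (4 : ℤ) ≠ 0)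
  have h2 := Int.emod_lt_of_pos (dot V B / ((s : ℤ) * nm V)) (by norm_num : (0 : ℤ) < 4)
  omega

theorem fc_iff {s : ℕ} (hs : 0 < s) {V B : G} (hV : V ≠ 0) (k : ℤ) :
    fc s V (B + ((s * k : ℤ) : G) * V) = fc s V B ↔ (4 : ℤ) ∣ k := by
  have hn : (0 : ℤ) < nm V := by exact_mod_cast nm_pos hV
  have hsn : (s : ℤ) * nm V ≠ 0 := by
    have : (0 : ℤ) < s := by exact_mod_cast hs
    positivity
  have h1 : dot V (B + ((s * k : ℤ) : G) * V) = dot V B + k * ((s : ℤ) * nm V) := by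
    rw [TailP.dot_add_mul]
    ring
  unfold fc
  rw [h1, Int.add_mul_ediv_right _ _ hsn]
  set m := dot V B / ((s : ℤ) * nm V)
  have h2 := Int.emod_nonneg m (by norm_num : (4 : ℤ) ≠ 0)
  have h3 := Int.emod_nonneg (m + k) (by norm_num : (4 : ℤ) ≠ 0)
  constructor
  · intro h
    have h4 : (m + k) % 4 = m % 4 := by omega
    omega
  · rintro ⟨c, rfl⟩
    congr 1
    omega

open Classical in
/-- the pairs of the same class with `dot V B' < dot V B` -/
noncomputable def fU (s : ℕ) (f : ℕ → ℂ) (J N : ℕ) (V : G) : ℂ :=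
  ∑ p ∈ fB s J N V ×ˢ fB s J N V, if dot V p.2 < dot V p.1 ∧ fc s V p.1 = fc s V p.2 then csF f J N V p else 0

theorem fan_eq_of_dot {s : ℕ} (hs : 0 < s) {V B B' : G} (h : det V B = s) (hc : cg s B V) (h' : det V B' = s)
    (hc' : cg s B' V) (hd : dot V B = dot V B') : B = B' := by
  obtain ⟨k, hk⟩ := fan_diff hs h hc h' hc'
  rw [hk, TailP.dot_add_mul] at hd
  have hnm : (0 : ℤ) < nm V := by exact_mod_cast nm_pos (ne_zero_of_det hs h)
  have h1 : ((s : ℤ) * k) * (nm V : ℤ) = 0 := by linarith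
  have h2 : (s : ℤ) * k = 0 := by
    rcases mul_eq_zero.1 h1 with h3 | h3
    · exact h3
    · omega
  rw [hk, h2]
  simp

/-- the sum of the squares over the four classes -/
theorem fT_sq (s : ℕ) (hs : 0 < s) (f : ℕ → ℂ) (J N : ℕ) (V : G) :
    ‖fT s f J N V‖ ^ 2 ≤ 4 * (((∑ B ∈ fB s J N V, csF f J N V (B, B)).re) + 2 * (fU s f J N V).re) := by
  classical
  set F : G → ℂ := fun B => f (nm B) * ((rho J N (((dot V B : ℤ) : ℝ) / nm V) : ℝ) : ℂ) with hF
  set T : ℕ → ℂ := fun i => ∑ B ∈ (fB s J N V).filter (fun B => fc s V B = i), F B with hT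
  have h1 : fT s f J N V = ∑ i ∈ range 4, T i := by
    unfold fT
    rw [hT]
    exact (sum_fiberwise_of_maps_to (fun B _ => mem_range.2 (fc_lt s V B)) _).symm
  have h2 : ‖fT s f J N V‖ ^ 2 ≤ 4 * ∑ i ∈ range 4, ‖T i‖ ^ 2 := by
    rw [h1]
    calc ‖∑ i ∈ range 4, T i‖ ^ 2 ≤ (∑ i ∈ range 4, ‖T i‖) ^ 2 :=
          pow_le_pow_left₀ (norm_nonneg _) (norm_sum_le _ _) 2
      _ ≤ (range 4).card * ∑ i ∈ range 4, ‖T i‖ ^ 2 := sq_sum_le_card_mul_sum_sq
      _ = 4 * ∑ i ∈ range 4, ‖T i‖ ^ 2 := by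
          rw [card_range]
          norm_num
  refine h2.trans (le_of_eq ?_)
  congr 1
  -- the expansion
  have hFF : ∀ p : G × G, csF f J N V p = F p.1 * (starRingEnd ℂ) (F p.2) := by
    intro p
    unfold csF
    simp only [hF]
    rw [map_mul, Complex.conj_ofReal]
    push_cast
    ring
  have h3 : ∑ i ∈ range 4, ((‖T i‖ : ℝ) : ℂ) ^ 2 =
      ∑ p ∈ fB s J N V ×ˢ fB s J N V, if fc s V p.1 = fc s V p.2 then csF f J N V p else 0 := by
    have h4 : ∀ i ∈ range 4, ((‖T i‖ : ℝ) : ℂ) ^ 2 = ∑ p ∈ fB s J N V ×ˢ fB s J N V,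
        if fc s V p.1 = i then (if fc s V p.2 = i then csF f J N V p else 0) else 0 := by
      intro i _
      have h5 : ((‖T i‖ : ℝ) : ℂ) ^ 2 = T i * (starRingEnd ℂ) (T i) := by
        rw [Complex.mul_conj, Complex.normSq_eq_norm_sq]
        push_cast
        rfl
      rw [h5, hT]
      simp only
      rw [map_sum, sum_mul_sum, sum_filter, sum_product]
      apply sum_congr rfl
      intro B _
      split_ifs with hB
      · rw [sum_filter]
        apply sum_congr rfl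
        intro B' _
        split_ifs
        · rw [hFF]
        · rfl
      · rw [sum_const_zero]
    rw [sum_congr rfl h4, sum_comm]
    apply sum_congr rfl
    intro p _
    rw [sum_ite_eq, if_pos (mem_range.2 (fc_lt s V p.1))]
    by_cases h5 : fc s V p.1 = fc s V p.2
    · rw [if_pos h5, if_pos h5.symm]
    · rw [if_neg h5, if_neg (fun h => h5 h.symm)]
  have h4 : ∑ p ∈ fB s J N V ×ˢ fB s J N V, (if fc s V p.1 = fc s V p.2 then csF f J N V p else 0) =
      ∑ p ∈ fB s J N V ×ˢ fB s J N V, (if p.1 = p.2 then csF f J N V p else 0) +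
      ∑ p ∈ fB s J N V ×ˢ fB s J N V, (if dot V p.2 < dot V p.1 ∧ fc s V p.1 = fc s V p.2 then csF f J N V p else 0) +
      ∑ p ∈ fB s J N V ×ˢ fB s J N V, (if dot V p.1 < dot V p.2 ∧ fc s V p.1 = fc s V p.2 then csF f J N V p else 0) := by
    rw [← sum_add_distrib, ← sum_add_distrib]
    apply sum_congr rfl
    intro p hp
    rw [mem_product, mem_fB hs, mem_fB hs] at hp
    rcases lt_trichotomy (dot V p.1) (dot V p.2) with h | h | h
    · have e1 : ¬ p.1 = p.2 := fun h3 => by rw [h3] at h; exact lt_irrefl _ h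
      have e2 : ¬ (dot V p.2 < dot V p.1 ∧ fc s V p.1 = fc s V p.2) := fun h3 => absurd h3.1 (not_lt.2 h.le)
      rw [if_neg e1, if_neg e2, zero_add, zero_add]
      simp only [h, true_and]
    · have e1 : p.1 = p.2 := fan_eq_of_dot hs hp.1.1 hp.1.2.1 hp.2.1 hp.2.2.1 h
      have e2 : ¬ (dot V p.2 < dot V p.1 ∧ fc s V p.1 = fc s V p.2) := fun h3 => absurd h3.1 (by omega)
      have e3 : ¬ (dot V p.1 < dot V p.2 ∧ fc s V p.1 = fc s V p.2) := fun h3 => absurd h3.1 (by omega)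
      rw [if_pos e1, if_neg e2, if_neg e3, if_pos (by rw [e1]), add_zero, add_zero]
    · have e1 : ¬ p.1 = p.2 := fun h3 => by rw [h3] at h; exact lt_irrefl _ h
      have e2 : ¬ (dot V p.1 < dot V p.2 ∧ fc s V p.1 = fc s V p.2) := fun h3 => absurd h3.1 (not_lt.2 h.le)
      rw [if_neg e1, if_neg e2, zero_add, add_zero]
      simp only [h, true_and]
  have h5 : ∑ p ∈ fB s J N V ×ˢ fB s J N V, (if p.1 = p.2 then csF f J N V p else 0) =
      ∑ B ∈ fB s J N V, csF f J N V (B, B) := by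
    rw [sum_product]
    apply sum_congr rfl
    intro B hB
    rw [sum_ite_eq, if_pos hB]
  have h6 : ∑ p ∈ fB s J N V ×ˢ fB s J N V,
      (if dot V p.1 < dot V p.2 ∧ fc s V p.1 = fc s V p.2 then csF f J N V p else 0) =
      (starRingEnd ℂ) (fU s f J N V) := by
    unfold fU
    rw [map_sum, sum_product, sum_product, sum_comm]
    apply sum_congr rfl
    intro B _
    apply sum_congr rfl
    intro B' _
    show (if dot V B' < dot V B ∧ fc s V B' = fc s V B then csF f J N V (B', B) else 0) =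
      (starRingEnd ℂ) (if dot V B' < dot V B ∧ fc s V B = fc s V B' then csF f J N V (B, B') else 0)
    by_cases h7 : dot V B' < dot V B ∧ fc s V B' = fc s V B
    · rw [if_pos h7, if_pos ⟨h7.1, h7.2.symm⟩, csN_conj]
    · rw [if_neg h7, if_neg (fun h8 => h7 ⟨h8.1, h8.2.symm⟩), map_zero]
  rw [h4, h5, h6] at h3
  have h7 := congrArg Complex.re h3
  have h8 : (∑ i ∈ range 4, ((‖T i‖ : ℝ) : ℂ) ^ 2).re = ∑ i ∈ range 4, ‖T i‖ ^ 2 := by
    rw [Complex.re_sum]
    apply sum_congr rfl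
    intro i _
    rw [← Complex.ofReal_pow, Complex.ofReal_re]
  rw [h8, Complex.add_re, Complex.add_re, Complex.conj_re] at h7
  rw [h7]
  unfold fU
  ring

theorem fU_eq (s : ℕ) (hs : 0 < s) (f : ℕ → ℂ) (J N : ℕ) (V : G) :
    fU s f J N V = ∑ κ ∈ (Icc 1 N).filter (fun κ => 4 * s ∣ κ), ∑ p ∈ fB s J N V ×ˢ fB s J N V,
      if p.1 = p.2 + (((κ : ℤ) : G)) * V then csF f J N V p else 0 := by
  classical
  unfold fU
  rw [sum_comm]
  apply sum_congr rfl
  intro p hp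
  rw [mem_product, mem_fB hs, mem_fB hs] at hp
  obtain ⟨⟨h1, hc1, h2, h3⟩, h4, hc4, h5, h6⟩ := hp
  have hV := ne_zero_of_det hs h1
  have hnm : (0 : ℤ) < nm V := by exact_mod_cast nm_pos hV
  have hsz : (0 : ℤ) < s := by exact_mod_cast hs
  by_cases hlt : dot V p.2 < dot V p.1 ∧ fc s V p.1 = fc s V p.2
  · rw [if_pos hlt]
    obtain ⟨k, hk⟩ := fan_diff hs h1 hc1 h4 hc4
    have hk4 : (4 : ℤ) ∣ k := by
      have h7 := hlt.2
      rw [hk] at h7
      exact (fc_iff hs hV k).1 h7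
    have h7 : dot V p.1 = dot V p.2 + (s * k) * nm V := by
      rw [hk, TailP.dot_add_mul]
    have hk1 : 1 ≤ k := by
      by_contra hc
      push Not at hc
      have h8 : (s : ℤ) * k ≤ 0 := mul_nonpos_of_nonneg_of_nonpos hsz.le (by omega)
      have h9 : ((s : ℤ) * k) * nm V ≤ 0 := mul_nonpos_of_nonpos_of_nonneg h8 hnm.le
      have := hlt.1
      omega
    have hkN : (s : ℤ) * k ≤ N := by
      have h8 : (((s * k) * nm V : ℤ) : ℝ) ≤ N * nm V := by
        have h9 : (((s * k) * nm V : ℤ) : ℝ) = ((dot V p.1 : ℤ) : ℝ) - ((dot V p.2 : ℤ) : ℝ) := by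
          rw [h7]
          push_cast
          ring
        rw [h9]
        linarith
      have h10 : (s * k) * nm V ≤ (N : ℤ) * nm V := by exact_mod_cast h8
      exact le_of_mul_le_mul_right h10 hnm
    obtain ⟨m, rfl⟩ := Int.eq_ofNat_of_zero_le (by omega : (0 : ℤ) ≤ k)
    have hm4 : 4 ∣ m := by exact_mod_cast hk4
    have hcast : ((s : ℤ) * ((m : ℕ) : ℤ)) = (((s * m : ℕ)) : ℤ) := by push_cast; ring
    rw [hcast] at hk hkN
    rw [sum_eq_single (s * m)]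
    · rw [if_pos hk]
    · intro n hn hnm'
      rw [if_neg]
      intro h8
      apply hnm'
      rw [hk] at h8
      have h9 : ((((s * m : ℕ) : ℤ) : G)) * V = (((n : ℤ) : G)) * V := add_left_cancel h8
      have h10 := mul_right_cancel₀ hV h9
      have h11 : ((s * m : ℕ) : ℤ) = (n : ℤ) := by exact_mod_cast h10
      omega
    · intro hm
      exfalso
      apply hm
      rw [mem_filter, mem_Icc]
      refine ⟨⟨?_, by exact_mod_cast hkN⟩, ?_⟩
      · have : 0 < s * m := Nat.mul_pos hs (by omega)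
        omega
      · rw [mul_comm 4 s]
        exact Nat.mul_dvd_mul_left s hm4
  · rw [if_neg hlt]
    symm
    apply sum_eq_zero
    intro n hn
    rw [mem_filter, mem_Icc] at hn
    rw [if_neg]
    intro h8
    apply hlt
    obtain ⟨c, hc⟩ := hn.2
    constructor
    · rw [h8, TailP.dot_add_mul]
      have : (0 : ℤ) < (n : ℤ) * nm V := by
        have : (0 : ℤ) < n := by omega
        positivity
      omega
    · have h9 : ((n : ℤ)) = ((s : ℤ) * ((4 : ℤ) * (c : ℤ))) := by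
        rw [hc]
        push_cast
        ring
      rw [h8, h9]
      exact (fc_iff hs hV _).2 (dvd_mul_right _ _)

open Classical in
/-- the correlations of determinant `s κ` -/
noncomputable def Gms (f : ℕ → ℂ) (h : ℝ → ℝ) (J N s κ : ℕ) (x X : ℝ) : ℂ :=
  ∑ e ∈ (EN (s * κ) x).filter (fun e => cg (s * κ) e.2 (((1 - κ : ℤ) : G) * e.1)),
    f (nm e.1) * (starRingEnd ℂ) (f (nm e.2)) * (wN h J N κ X e : ℂ)

/-- facts about a triple -/
theorem tri_facts {n : ℕ} (hn : 1 ≤ n) {A V V' : G} (hV : V = V' + (((n : ℤ) : G)) * A) (hA : A ≠ 0) :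
    aN n (V, V') = nm A ∧ ((nm V : ℝ) - mE (V, V')) / (n * aN n (V, V')) =
      ((dot A V : ℤ) : ℝ) / nm A ∧ (mE (V, V') - (nm V' : ℝ)) / (n * aN n (V, V')) =
      ((dot A V' : ℤ) : ℝ) / nm A := by
  have hn0 : (1 : ℝ) ≤ n := by exact_mod_cast hn
  have hnm : (0 : ℝ) < nm A := by exact_mod_cast nm_pos hA
  have h3 : V - V' = (((n : ℤ) : G)) * A := by
    rw [hV]
    ring
  have h4 : (n : ℤ) ^ 2 * nm A = nm V + nm V' - 2 * dot V V' := by
    rw [← csN_nm_smul, ← h3, csN_nm_sub]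
  have h5 : (n : ℝ) ^ 2 * nm A = nm V + nm V' - 2 * ((dot V V' : ℤ) : ℝ) := by exact_mod_cast h4
  have h6 : aN n (V, V') = nm A := by
    unfold aN mE
    rw [div_eq_iff (by positivity)]
    show (nm V : ℝ) + nm V' - 2 * ((dot V V' : ℤ) : ℝ) = nm A * (n : ℝ) ^ 2
    rw [← h5]
    ring
  have h7 : (n : ℤ) * dot A V = nm V - dot V V' := by
    rw [nm_eq, hV]
    unfold dot
    rw [Zsqrtd.re_add, Zsqrtd.im_add, TailP.smul_re, TailP.smul_im]
    ring
  have h8 : (n : ℤ) * dot A V' = dot V V' - nm V' := by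
    rw [nm_eq, hV]
    unfold dot
    rw [Zsqrtd.re_add, Zsqrtd.im_add, TailP.smul_re, TailP.smul_im]
    ring
  have h9 : (n : ℝ) * ((dot A V : ℤ) : ℝ) = nm V - ((dot V V' : ℤ) : ℝ) := by exact_mod_cast h7
  have h10 : (n : ℝ) * ((dot A V' : ℤ) : ℝ) = ((dot V V' : ℤ) : ℝ) - nm V' := by exact_mod_cast h8
  refine ⟨h6, ?_, ?_⟩
  · rw [h6]
    unfold mE
    show ((nm V : ℝ) - ((dot V V' : ℤ) : ℝ)) / (n * nm A) = _
    rw [← h9]
    field_simp
  · rw [h6]
    unfold mE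
    show (((dot V V' : ℤ) : ℝ) - (nm V' : ℝ)) / (n * nm A) = _
    rw [← h10]
    field_simp

theorem f_Gm (f : ℕ → ℂ) (h : ℝ → ℝ) (h2 : ℝ) (hh2 : ∀ y, h2 ≤ y → h y = 0) (J N : ℕ) (hJ : 1 ≤ J)
    (hN : 1 ≤ N) (s : ℕ) (hs : 0 < s) (X : ℝ) (hX : 1 ≤ X) (x' : ℝ) (hx' : (J + N) ^ 2 * h2 * X + (s : ℝ) ^ 2 ≤ x')
    (κ : ℕ) (hn : 1 ≤ κ) (h4s : 4 * s ∣ κ) :
    ∑ A ∈ csA (h2 * X), ((h (nm A / X) ^ 2 : ℝ) : ℂ) * ∑ p ∈ fB s J N A ×ˢ fB s J N A,
      (if p.1 = p.2 + (((κ : ℤ) : G)) * A then csF f J N A p else 0) = Gms f h J N s κ x' X := by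
  classical
  have hX0 : (0 : ℝ) < X := by linarith
  have hJ0 : (1 : ℝ) ≤ J := by exact_mod_cast hJ
  have hn0 : (1 : ℝ) ≤ κ := by exact_mod_cast hn
  have hnz : (1 : ℤ) ≤ κ := by exact_mod_cast hn
  have hsκ : s ∣ κ := (dvd_mul_left s 4).trans h4s
  have hskz : ((s : ℕ) : ℤ) ∣ ((κ : ℕ) : ℤ) := by exact_mod_cast hsκ
  have hmul : 0 < s * κ := Nat.mul_pos hs hn
  set S : Finset ((_ : G) × (G × G)) := (csA (h2 * X)).sigma
    (fun A => (fB s J N A ×ˢ fB s J N A).filter (fun p => p.1 = p.2 + (((κ : ℤ) : G)) * A)) with hS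
  have h1 : ∑ A ∈ csA (h2 * X), ((h (nm A / X) ^ 2 : ℝ) : ℂ) * ∑ p ∈ fB s J N A ×ˢ fB s J N A,
      (if p.1 = p.2 + (((κ : ℤ) : G)) * A then csF f J N A p else 0) =
      ∑ a ∈ S, ((h (nm a.1 / X) ^ 2 : ℝ) : ℂ) * csF f J N a.1 a.2 := by
    rw [hS, sum_sigma]
    apply sum_congr rfl
    intro A _
    rw [mul_sum, sum_filter]
    apply sum_congr rfl
    intro p _
    split_ifs
    · rfl
    · rw [mul_zero]
  have hSmem : ∀ a : (_ : G) × (G × G), a ∈ S ↔ (a.1 ≠ 0 ∧ (nm a.1 : ℝ) ≤ h2 * X) ∧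
      (a.2.1 ∈ fB s J N a.1 ∧ a.2.2 ∈ fB s J N a.1) ∧ a.2.1 = a.2.2 + (((κ : ℤ) : G)) * a.1 := by
    intro a
    rw [hS, mem_sigma, csN_memA, mem_filter, mem_product]
  rw [h1]
  unfold Gms
  apply sum_bij_ne_zero (fun a _ _ => a.2)
  · rintro ⟨A, B, B'⟩ ha _
    rw [hSmem] at ha
    obtain ⟨⟨hA, hAX⟩, ⟨hB, hB'⟩, hBB⟩ := ha
    simp only at hA hAX hB hB' hBB
    have hb := (mem_fB hs).1 hB
    have hb' := (mem_fB hs).1 hB'
    have hnm : (1 : ℝ) ≤ nm A := by exact_mod_cast nm_pos hA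
    rw [mem_filter, mem_EN hmul]
    have hdetB : det B B' = ((s * κ : ℕ) : ℤ) := by
      have := hb'.1
      rw [hBB]
      unfold det at this ⊢
      rw [Zsqrtd.re_add, Zsqrtd.im_add, TailP.smul_re, TailP.smul_im]
      push_cast
      linear_combination (κ : ℤ) * this
    have hdotB : dot B B' = nm B' + κ * dot A B' := by
      rw [hBB, nm_eq]
      unfold dot
      rw [Zsqrtd.re_add, Zsqrtd.im_add, TailP.smul_re, TailP.smul_im]
      ring
    have hdot' : (0 : ℝ) < ((dot A B' : ℤ) : ℝ) := by nlinarith [hb'.2.2.1]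
    have hdot'' : (0 : ℤ) < dot A B' := by exact_mod_cast hdot'
    have hdot : (0 : ℝ) < ((dot A B : ℤ) : ℝ) := by nlinarith [hb.2.2.1]
    have hnB' : (0 : ℤ) ≤ nm B' := Int.natCast_nonneg _
    have hcg : cg (s * κ) B' (((1 - κ : ℤ) : G) * B) := by
      obtain ⟨⟨a, ha⟩, ⟨b, hb2⟩⟩ := hb.2.1
      unfold cg
      rw [TailP.smul_re, TailP.smul_im]
      have hre : B.re = B'.re + κ * A.re := by
        rw [hBB, Zsqrtd.re_add, TailP.smul_re]
      have him : B.im = B'.im + κ * A.im := by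
        rw [hBB, Zsqrtd.im_add, TailP.smul_im]
      constructor
      · refine ⟨a, ?_⟩
        push_cast
        linear_combination (κ : ℤ) * ha - hre
      · refine ⟨b, ?_⟩
        push_cast
        linear_combination (κ : ℤ) * hb2 - him
    have hco : IsCoprime (1 - (κ : ℤ)) ((s * κ : ℕ) : ℤ) := by
      have e1 : IsCoprime (1 - (κ : ℤ)) ((κ : ℕ) : ℤ) := ⟨1, 1, by ring⟩
      have e2 : IsCoprime (1 - (κ : ℤ)) ((s : ℕ) : ℤ) := e1.of_isCoprime_of_dvd_right hskz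
      push_cast
      exact e2.mul_right e1
    obtain ⟨A1, hA1, hA2⟩ := fan_gen hs hb.1 hb.2.1
    have hprimB : Prim B := by
      have e1 : det B A1 = 1 := by
        rw [← hA2, hA1]
        unfold det
        rw [Zsqrtd.re_add, Zsqrtd.im_add, TailP.smul_re, TailP.smul_im]
        ring
      exact (csN_prim e1).1
    refine ⟨⟨⟨hdetB, ?_, hprimB, ⟨1 - κ, hco, hcg⟩⟩, ?_⟩, hcg⟩
    · show 0 < dot B B'
      rw [hdotB]
      have : (0 : ℤ) < κ * dot A B' := by positivity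
      omega
    · unfold mE
      show ((dot B B' : ℤ) : ℝ) ≤ x'
      have h3 := nm_le_of hs hb.1 hdot.le hb.2.2.2
      have h4 := nm_le_of hs hb'.1 hdot'.le hb'.2.2.2
      have h5 := csN_nm_sub B B'
      have h6 : (0 : ℤ) ≤ nm (B - B') := Int.natCast_nonneg _
      have h7 : 2 * dot B B' ≤ (nm B : ℤ) + nm B' := by omega
      have h8 : 2 * ((dot B B' : ℤ) : ℝ) ≤ (nm B : ℝ) + nm B' := by exact_mod_cast h7
      have h9 : ((J : ℝ) + N) ^ 2 * nm A ≤ ((J : ℝ) + N) ^ 2 * (h2 * X) :=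
        mul_le_mul_of_nonneg_left hAX (by positivity)
      nlinarith
  · rintro ⟨A, B, B'⟩ ha _ ⟨A₂, B₂, B₂'⟩ ha₂ _ heq
    rw [hSmem] at ha ha₂
    have h3 : (B, B') = (B₂, B₂') := heq
    rw [Prod.mk.injEq] at h3
    obtain ⟨rfl, rfl⟩ := h3
    have h4 : (((κ : ℤ) : G)) * A = (((κ : ℤ) : G)) * A₂ := by
      have h5 := ha.2.2
      have h6 := ha₂.2.2
      simp only at h5 h6
      rw [h5] at h6
      exact add_left_cancel h6
    have h5 : ((κ : ℤ) : G) ≠ 0 := by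
      intro h0
      have : (κ : ℤ) = 0 := by exact_mod_cast h0
      omega
    have h6 : A = A₂ := mul_left_cancel₀ h5 h4
    rw [h6]
  · rintro ⟨V, V'⟩ he hne
    rw [mem_filter, mem_EN hmul] at he
    obtain ⟨⟨⟨hdet, hdot, hprim, _⟩, _⟩, hcg⟩ := he
    simp only at hdet hdot hprim hcg
    unfold cg at hcg
    rw [TailP.smul_re, TailP.smul_im] at hcg
    obtain ⟨⟨a, ha⟩, ⟨b, hb⟩⟩ := hcg
    push_cast at ha hb
    set A : G := ⟨V.re - s * a, V.im - s * b⟩ with hAdef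
    have hV : V = V' + (((κ : ℤ) : G)) * A := by
      apply Zsqrtd.ext
      · rw [Zsqrtd.re_add, TailP.smul_re, hAdef]
        simp only
        linear_combination -ha
      · rw [Zsqrtd.im_add, TailP.smul_im, hAdef]
        simp only
        linear_combination -hb
    have hcV : cg s V A := by
      unfold cg
      rw [hAdef]
      exact ⟨⟨a, by ring⟩, ⟨b, by ring⟩⟩
    have hcV' : cg s V' A := by
      obtain ⟨m, hm⟩ := hskz
      unfold cg at hcV ⊢
      have hre : V.re = V'.re + κ * A.re := by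
        have := congrArg Zsqrtd.re hV
        rwa [Zsqrtd.re_add, TailP.smul_re] at this
      have him : V.im = V'.im + κ * A.im := by
        have := congrArg Zsqrtd.im hV
        rwa [Zsqrtd.im_add, TailP.smul_im] at this
      obtain ⟨⟨a1, ha1⟩, ⟨b1, hb1⟩⟩ := hcV
      refine ⟨⟨a1 - m * A.re, ?_⟩, ⟨b1 - m * A.im, ?_⟩⟩
      · rw [hm] at hre
        linear_combination ha1 - hre
      · rw [hm] at him
        linear_combination hb1 - him
    have hdetn' : det V V' = (κ : ℤ) * det A V' := by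
      rw [hV]
      unfold det
      rw [Zsqrtd.re_add, Zsqrtd.im_add, TailP.smul_re, TailP.smul_im]
      ring
    have hdet1 : det A V' = s := by
      have h3 : (κ : ℤ) * det A V' = κ * s := by
        rw [← hdetn', hdet]
        push_cast
        ring
      exact mul_left_cancel₀ (by omega) h3
    have hdet2 : det A V = s := by
      rw [← hdet1, hV]
      unfold det
      rw [Zsqrtd.re_add, Zsqrtd.im_add, TailP.smul_re, TailP.smul_im]
      ring
    have hA := ne_zero_of_det hs hdet1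
    have hnm : (1 : ℝ) ≤ nm A := by exact_mod_cast nm_pos hA
    obtain ⟨h3, h4, h5⟩ := tri_facts hn hV hA
    have hw : wN h J N κ X (V, V') ≠ 0 := by
      intro h0
      apply hne
      rw [h0]
      simp
    unfold wN at hw
    simp only at hw
    rw [h4, h5, h3] at hw
    have hw1 : h (nm A / X) ≠ 0 := by
      intro h0
      apply hw
      rw [h0]
      ring
    have hw2 : rho J N (((dot A V : ℤ) : ℝ) / nm A) ≠ 0 := by
      intro h0
      apply hw
      rw [h0]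
      ring
    have hw3 : rho J N (((dot A V' : ℤ) : ℝ) / nm A) ≠ 0 := by
      intro h0
      apply hw
      rw [h0]
      ring
    have h6 : (nm A : ℝ) / X < h2 := by
      by_contra hc
      push Not at hc
      exact hw1 (hh2 _ hc)
    rw [div_lt_iff₀ hX0] at h6
    have h7 := csN_rho_ne hN hw2
    have h8 := csN_rho_ne hN hw3
    rw [le_div_iff₀ (by linarith), div_le_iff₀ (by linarith)] at h7 h8
    refine ⟨⟨A, V, V'⟩, ?_, ?_, rfl⟩
    · rw [hSmem]
      exact ⟨⟨hA, h6.le⟩, ⟨(mem_fB hs).2 ⟨hdet2, hcV, h7.1, h7.2⟩, (mem_fB hs).2 ⟨hdet1, hcV', h8.1, h8.2⟩⟩, hV⟩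
    · have h9 : f (nm V) ≠ 0 := by
        intro h0
        apply hne
        rw [h0]
        simp
      have h10 : (starRingEnd ℂ) (f (nm V')) ≠ 0 := by
        intro h0
        apply hne
        rw [h0]
        simp
      unfold csF
      refine mul_ne_zero ?_ (mul_ne_zero (mul_ne_zero h9 h10) ?_)
      · exact_mod_cast pow_ne_zero 2 hw1
      · exact_mod_cast mul_ne_zero hw2 hw3
  · rintro ⟨A, B, B'⟩ ha _
    rw [hSmem] at ha
    obtain ⟨⟨hA, hAX⟩, ⟨hB, hB'⟩, hBB⟩ := ha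
    simp only at hA hAX hB hB' hBB
    obtain ⟨h3, h4, h5⟩ := tri_facts hn hBB hA
    unfold csF wN
    simp only
    rw [h4, h5, h3]
    push_cast
    ring

/-- the mean square over the fans -/
theorem msq_fan (f : ℕ → ℂ) (hf : ∀ n, ‖f n‖ ≤ 1) (h : ℝ → ℝ) (hh0 : ∀ y, 0 ≤ h y)
    (hh1 : ∀ y, h y ≤ 1) (h2 : ℝ) (hh2 : ∀ y, h2 ≤ y → h y = 0) (J N : ℕ) (hJ : 1 ≤ J) (hN : 1 ≤ N)
    (s : ℕ) (hs : 0 < s) (X : ℝ) (hX : 1 ≤ X) (hh2' : 1 ≤ h2) (x' : ℝ)
    (hx' : (J + N) ^ 2 * h2 * X + (s : ℝ) ^ 2 ≤ x') :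
    ∑ A ∈ csA (h2 * X), h (nm A / X) ^ 2 * ‖fT s f J N A‖ ^ 2 ≤
      4 * (9 * h2 * X * (N + 1) +
        2 * ‖∑ κ ∈ (Icc 1 N).filter (fun κ => 4 * s ∣ κ), Gms f h J N s κ x' X‖) := by
  classical
  have hX0 : (0 : ℝ) < X := by linarith
  have hY0 : (0 : ℝ) ≤ h2 * X := by positivity
  set 𝒜 := csA (h2 * X) with h𝒜
  have hcardA : (𝒜.card : ℝ) ≤ 9 * (h2 * X) := csN_cardA hY0
  set D : ℂ := ∑ A ∈ 𝒜, ((h (nm A / X) ^ 2 : ℝ) : ℂ) * ∑ B ∈ fB s J N A, csF f J N A (B, B) with hD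
  set U : ℂ := ∑ A ∈ 𝒜, ((h (nm A / X) ^ 2 : ℝ) : ℂ) * fU s f J N A with hU
  have hUG : U = ∑ κ ∈ (Icc 1 N).filter (fun κ => 4 * s ∣ κ), Gms f h J N s κ x' X := by
    rw [hU]
    have h4 : ∀ A ∈ 𝒜, ((h (nm A / X) ^ 2 : ℝ) : ℂ) * fU s f J N A =
        ∑ κ ∈ (Icc 1 N).filter (fun κ => 4 * s ∣ κ), ((h (nm A / X) ^ 2 : ℝ) : ℂ) *
          ∑ p ∈ fB s J N A ×ˢ fB s J N A,
          (if p.1 = p.2 + (((κ : ℤ) : G)) * A then csF f J N A p else 0) := by
      intro A _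
      rw [fU_eq s hs, mul_sum]
    rw [sum_congr rfl h4, sum_comm]
    apply sum_congr rfl
    intro κ hκ
    rw [mem_filter, mem_Icc] at hκ
    exact f_Gm f h h2 hh2 J N hJ hN s hs X hX x' hx' κ hκ.1.1 hκ.2
  have hDle : ‖D‖ ≤ 9 * h2 * X * (N + 1) := by
    rw [hD]
    have h4 : ‖∑ A ∈ 𝒜, ((h (nm A / X) ^ 2 : ℝ) : ℂ) * ∑ B ∈ fB s J N A, csF f J N A (B, B)‖ ≤
        ∑ _A ∈ 𝒜, ((N : ℝ) + 1) := by
      apply norm_sum_le_of_le
      intro A hA
      rw [h𝒜, csN_memA] at hA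
      rw [norm_mul, Complex.norm_real, Real.norm_eq_abs, abs_of_nonneg (sq_nonneg _)]
      have h5 : ‖∑ B ∈ fB s J N A, csF f J N A (B, B)‖ ≤ ∑ _B ∈ fB s J N A, (1 : ℝ) := by
        apply norm_sum_le_of_le
        intro B _
        unfold csF
        rw [norm_mul, norm_mul, Complex.norm_real, RCLike.norm_conj, Real.norm_eq_abs]
        have h6 := hf (nm B)
        have h7 := csN_rho_nonneg J N (((dot A B : ℤ) : ℝ) / nm A)
        have h8 := csN_rho_le J N (((dot A B : ℤ) : ℝ) / nm A)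
        simp only
        rw [abs_of_nonneg (mul_nonneg h7 h7)]
        calc ‖f (nm B)‖ * ‖f (nm B)‖ * (rho J N (((dot A B : ℤ) : ℝ) / nm A) *
              rho J N (((dot A B : ℤ) : ℝ) / nm A)) ≤ 1 * 1 * (1 * 1) := by gcongr
          _ = 1 := by norm_num
      rw [sum_const, nsmul_eq_mul, mul_one] at h5
      have h6 : h (nm A / X) ^ 2 ≤ 1 := by
        have h7 := hh0 (nm A / X)
        have h8 := hh1 (nm A / X)
        nlinarith
      calc h (nm A / X) ^ 2 * ‖∑ B ∈ fB s J N A, csF f J N A (B, B)‖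
          ≤ 1 * ((N : ℝ) + 1) := by
            apply mul_le_mul h6 (h5.trans (card_fB hs hA.1)) (norm_nonneg _) zero_le_one
        _ = (N : ℝ) + 1 := one_mul _
    rw [sum_const, nsmul_eq_mul] at h4
    calc _ ≤ (𝒜.card : ℝ) * ((N : ℝ) + 1) := h4
      _ ≤ 9 * (h2 * X) * ((N : ℝ) + 1) := by
        apply mul_le_mul_of_nonneg_right hcardA
        positivity
      _ = _ := by ring
  have hDre : D.re = ∑ A ∈ 𝒜, h (nm A / X) ^ 2 * (∑ B ∈ fB s J N A, csF f J N A (B, B)).re := by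
    rw [hD, Complex.re_sum]
    apply sum_congr rfl
    intro A _
    rw [Complex.re_ofReal_mul]
  have hUre : U.re = ∑ A ∈ 𝒜, h (nm A / X) ^ 2 * (fU s f J N A).re := by
    rw [hU, Complex.re_sum]
    apply sum_congr rfl
    intro A _
    rw [Complex.re_ofReal_mul]
  have h3 : ∑ A ∈ 𝒜, h (nm A / X) ^ 2 * ‖fT s f J N A‖ ^ 2 ≤ 4 * (D.re + 2 * U.re) := by
    rw [hDre, hUre, mul_sum, ← sum_add_distrib, mul_sum]
    apply sum_le_sum
    intro A _
    have h4 := fT_sq s hs f J N A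
    have h5 := mul_le_mul_of_nonneg_left h4 (sq_nonneg (h (nm A / X)))
    refine h5.trans (le_of_eq ?_)
    ring
  refine h3.trans ?_
  rw [← hUG]
  have h5 := Complex.re_le_norm D
  have h6 := Complex.re_le_norm U
  linarith

end Pool.Agent.FanL
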