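import Pool.Agent.Lib_MP_f1a94e_fl.Defs
import Pool.Agent.Lib_MP_f1a94e_fl.P1

/-!
# Piece CSN: Cauchy-Schwarz over the first vector, pairs of determinant `n` congruent modulo `n`
-/

set_option autoImplicit false

namespace Pool.Agent.FanL

open Finset Pool.Agent.GaussMR Pool.Agent.OmAll Pool.Agent.OmEq Pool.Agent.LPr Pool.Agent.OrbL MeasureTheory Filter

theorem csn_SX (n : ℕ) (hn : 0 < n) (f1 f2 : ℕ → ℂ) (h : ℝ → ℝ) (h2 : ℝ) (hh2 : ∀ y, h2 ≤ y → h y = 0) (J N : ℕ)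
    (hJ : 1 ≤ J) (hN : 1 ≤ N) (X : ℝ) (hX : 1 ≤ X) (x : ℝ) (hx : (J + N) * h2 * X ≤ x) :
    SXn n f1 f2 h J N x X = ∑ A ∈ csA (h2 * X), f1 (nm A) * ((h (nm A / X) : ℝ) : ℂ) * fT n f2 J N A := by
  classical
  have hX0 : (0 : ℝ) < X := by linarith
  have hJ0 : (1 : ℝ) ≤ J := by exact_mod_cast hJ
  have hN0 : (0 : ℝ) ≤ N := Nat.cast_nonneg _
  set P : Finset (G × G) := ((EN n x).filter (fun e => cg n e.2 e.1)).filter
    (fun e => e.1 ∈ csA (h2 * X) ∧ e.2 ∈ fB n J N e.1) with hP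
  have hPmem : ∀ e : G × G, e ∈ P ↔ e.1 ∈ csA (h2 * X) ∧ e.2 ∈ fB n J N e.1 := by
    intro e
    rw [hP, mem_filter, mem_filter]
    refine ⟨fun h => h.2, fun he => ⟨?_, he⟩⟩
    obtain ⟨h3, h4⟩ := he
    rw [csN_memA] at h3
    rw [mem_fB hn] at h4
    rw [mem_EN hn]
    have h5 : (0 : ℝ) < ((dot e.1 e.2 : ℤ) : ℝ) := by
      have : (1 : ℝ) ≤ nm e.1 := by exact_mod_cast nm_pos h3.1
      nlinarith [h4.2.2.1]
    obtain ⟨A, hA, hA1⟩ := fan_gen hn h4.1 h4.2.1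
    refine ⟨⟨⟨h4.1, ?_, (csN_prim hA1).1, 1, isCoprime_one_left, ?_⟩, ?_⟩, h4.2.1⟩
    · exact_mod_cast h5
    · rw [Int.cast_one, one_mul]
      exact h4.2.1
    · unfold mE
      calc ((dot e.1 e.2 : ℤ) : ℝ) ≤ (J + N) * nm e.1 := h4.2.2.2
        _ ≤ (J + N) * (h2 * X) := by
          apply mul_le_mul_of_nonneg_left h3.2
          positivity
        _ ≤ x := by linarith
  have h3 : ∑ A ∈ csA (h2 * X), f1 (nm A) * ((h (nm A / X) : ℝ) : ℂ) * fT n f2 J N A =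
      ∑ A ∈ csA (h2 * X), ∑ B ∈ fB n J N A, f1 (nm A) * ((h (nm A / X) : ℝ) : ℂ) *
        (f2 (nm B) * ((rho J N (((dot A B : ℤ) : ℝ) / nm A) : ℝ) : ℂ)) := by
    apply sum_congr rfl
    intro A _
    unfold fT
    rw [mul_sum]
  rw [h3, ← sum_finset_product' P (csA (h2 * X)) (fB n J N) hPmem]
  unfold SXn
  symm
  rw [hP, sum_filter_of_ne]
  · apply sum_congr rfl
    intro e _
    unfold mE
    push_cast
    ring
  · intro e he hne
    rw [mem_filter, mem_EN hn] at he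
    obtain ⟨⟨⟨hdet, hdot, hprim, _⟩, _⟩, hcg⟩ := he
    have hne1 : h (nm e.1 / X) ≠ 0 := by
      intro h0
      apply hne
      rw [h0]
      simp
    have hne2 : rho J N (((dot e.1 e.2 : ℤ) : ℝ) / nm e.1) ≠ 0 := by
      intro h0
      apply hne
      rw [h0]
      simp
    have hV := ne_zero_of_det hn hdet
    have hnm : (1 : ℝ) ≤ nm e.1 := by exact_mod_cast nm_pos hV
    have h4 : (nm e.1 : ℝ) / X < h2 := by
      by_contra hc
      push Not at hc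
      exact hne1 (hh2 _ hc)
    rw [div_lt_iff₀ hX0] at h4
    have h5 := csN_rho_ne hN hne2
    rw [le_div_iff₀ (by linarith), div_le_iff₀ (by linarith)] at h5
    rw [csN_memA, mem_fB hn]
    exact ⟨⟨hV, h4.le⟩, hdet, hcg, h5.1, h5.2⟩

/-- the two forms of the congruence condition -/
theorem csn_cond (n k : ℕ) (V V' : G) :
    cg (n * (4 * n * k)) V' (((1 - ((4 * n * k : ℕ) : ℤ) : ℤ) : G) * V) ↔
      cg (4 * n ^ 2 * k) V ((((1 + 4 * n * k : ℕ) : ℤ) : G) * V') := by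
  have hm : n * (4 * n * k) = 4 * n ^ 2 * k := by ring
  rw [hm]
  unfold cg
  rw [TailP.smul_re, TailP.smul_im, TailP.smul_re, TailP.smul_im]
  push_cast
  constructor
  · rintro ⟨⟨a, ha⟩, ⟨b, hb⟩⟩
    refine ⟨⟨-a * (1 + 4 * n * k) + 4 * k * V.re, ?_⟩, ⟨-b * (1 + 4 * n * k) + 4 * k * V.im, ?_⟩⟩
    · linear_combination (-(1 + 4 * (n : ℤ) * k)) * ha
    · linear_combination (-(1 + 4 * (n : ℤ) * k)) * hb
  · rintro ⟨⟨a, ha⟩, ⟨b, hb⟩⟩
    refine ⟨⟨-a * (1 - 4 * n * k) + 4 * k * V'.re, ?_⟩, ⟨-b * (1 - 4 * n * k) + 4 * k * V'.im, ?_⟩⟩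
    · linear_combination (-(1 - 4 * (n : ℤ) * k)) * ha
    · linear_combination (-(1 - 4 * (n : ℤ) * k)) * hb

theorem csn_Gn (n : ℕ) (f : ℕ → ℂ) (h : ℝ → ℝ) (J N k : ℕ) (x X : ℝ) :
    Gms f h J N n (4 * n * k) x X = Gn n f h J N k x X := by
  classical
  unfold Gms Gn
  have hm : n * (4 * n * k) = 4 * n ^ 2 * k := by ring
  refine sum_congr ?_ (fun _ _ => rfl)
  ext e
  rw [mem_filter, mem_filter, csn_cond n k e.1 e.2, hm]

/-- PROOF. As `csN2` (m/G21.lean, line 361) and `csN_..` (m/G11.lean, from `csN_rho_nonneg` on), which is the case of determinant 1 and step 1.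
For `A ≠ 0` let `B_n(A)` be the finite set of the `B` with `det A B = n`, `cg n B A`, `J nm A ≤ dot A B ≤ (J + N) nm A` (`A`, `B` are primitive if it is not empty: `B = A + n C`, `det A C = 1`). Two elements differ by `c A` (`TailP.diff_mul` is
for determinant 1; here `det A (B - B') = 0`, `A` primitive) and `n ∣ c` as `c A ≡ 0 mod n`; so `B - B' = n t A`, `dot A B - dot A B' = n t nm A`, and the number of elements is `≤ N / n + 1 ≤ N + 1`.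
`SXn n f1 f2 h J N x X = ∑_(A ∈ csA (h2 X)) f1 (nm A) h (nm A / X) T(A)`, `T(A) = ∑_(B ∈ B_n(A)) f2 (nm B) rho J N (dot A B / nm A)` (as `csN2_SX`; a pair with `En n e`, `cg n e.2 e.1`, `h ≠ 0`, `rho ≠ 0` gives `A = e.1`, `B = e.2`; conversely such `(A, B)` lies in
`EN n x`: `c = 1`, `dot ≤ (J+N) h2 X ≤ x`).
Classes modulo 4: `κ(A, B) = (dot A B / (n * nm A)) % 4` (integer floor division); as the values of `dot` differ by multiples of `n nm A`, `κ(B) = κ(B')` iff `4 ∣ t`. `T = ∑_(s < 4) T_s`, `|T|^2 ≤ 4 ∑_s |T_s|^2`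
(`sq_sum_le_card_mul_sum_sq`), and `∑_s |T_s|^2 = ∑_((B, B') : κ(B) = κ(B')) F(B, B') = diagonal + U + conj U` with `F = csF f2 J N A`, `U(A) = ∑_(dot A B' < dot A B, κ equal) F = ∑_(k ∈ Icc 1 N) ∑_(B = B' + (4 n k) A) F(B, B')` (`csN_TT`, `csN_U`).
`∑_A h^2 ∑_(B = B' + 4 n k A) F(B, B') = Gn n f2 h J N k x' X` (as `csN_Gm`): the map `(A, B, B') ↦ (B, B')`; `B = B' + 4 n k A`, `B' = A + n C`: `det B B' = 4 n k det A B' = 4 n^2 k`, `B = (1 + 4 n k) B' - 4 n^2 k C`, so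
`cg (4 n^2 k) B ((1 + 4 n k) B')`, `En (4 n^2 k) (B, B')` (`B` primitive; `B' ≡ (1 - 4 n k) B` modulo `4 n^2 k` as `(1 + 4nk)(1 - 4nk) = 1 - 16 n^2 k^2`, `1 - 4 n k` is coprime to `4 n^2 k`), `dot B B' ≤ (nm B + nm B') / 2 ≤ (J+N)^2 h2 X + n^2 ≤ x'` (`nm B = (dot A B ^ 2 + n ^ 2) / nm A`).
Conversely for `(V, V')` in the set put `A = (V - V') / (4 n k)` (the congruence gives `V - V' = 4 n k V' + 4 n^2 k C'`, `A = V' + n C'`), `det A V' = n`, `cg n V' A`; `wN h J N (4 n k) X (V, V') ≠ 0` gives `A ∈ csA (h2 X)`, `V, V' ∈ B_n(A)`; the weight is the product of `h^2` and the two `rho`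
(`hfacts` in `csN_Gm` with `4 n k` for `n`). Diagonal: `≤ (N + 1) #csA ≤ 9 h2 X (N + 1)` (`csN_cardA`). Cauchy-Schwarz over `A` as in `csN2`. -/
theorem csNn (n : ℕ) (hn : 1 ≤ n) (f1 f2 : ℕ → ℂ) (hf1 : ∀ n, ‖f1 n‖ ≤ 1) (hf2 : ∀ n, ‖f2 n‖ ≤ 1) (h : ℝ → ℝ)
    (hh0 : ∀ y, 0 ≤ h y) (hh1 : ∀ y, h y ≤ 1) (h2 : ℝ) (hh2 : ∀ y, h2 ≤ y → h y = 0) (J N : ℕ) (hJ : 1 ≤ J)
    (hN : 1 ≤ N) (X : ℝ) (hX : 1 ≤ X) (hh2' : 1 ≤ h2) (x x' : ℝ) (hx : (J + N) * h2 * X ≤ x)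
    (hx' : (J + N) ^ 2 * h2 * X + (n : ℝ) ^ 2 ≤ x') :
    ‖SXn n f1 f2 h J N x X‖ ^ 2 ≤
      9 * h2 * X * (4 * (9 * h2 * X * (N + 1) + 2 * ‖∑ k ∈ Icc 1 N, Gn n f2 h J N k x' X‖)) := by
  classical
  have hn0 : 0 < n := hn
  have hX0 : (0 : ℝ) < X := by linarith
  have hY0 : (0 : ℝ) ≤ h2 * X := by positivity
  set 𝒜 := csA (h2 * X) with h𝒜
  have hcardA : (𝒜.card : ℝ) ≤ 9 * (h2 * X) := csN_cardA hY0
  rw [csn_SX n hn0 f1 f2 h h2 hh2 J N hJ hN X hX x hx]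
  set Q : ℝ := ∑ A ∈ 𝒜, h (nm A / X) ^ 2 * ‖fT n f2 J N A‖ ^ 2 with hQ
  have h1 : ‖∑ A ∈ 𝒜, f1 (nm A) * ((h (nm A / X) : ℝ) : ℂ) * fT n f2 J N A‖ ^ 2 ≤ 9 * h2 * X * Q := by
    have h3 : ‖∑ A ∈ 𝒜, f1 (nm A) * ((h (nm A / X) : ℝ) : ℂ) * fT n f2 J N A‖ ≤
        ∑ A ∈ 𝒜, h (nm A / X) * ‖fT n f2 J N A‖ := by
      apply norm_sum_le_of_le
      intro A _
      rw [norm_mul, norm_mul, Complex.norm_real, Real.norm_eq_abs, abs_of_nonneg (hh0 _)]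
      have h4 := hf1 (nm A)
      have h5 := hh0 (nm A / X)
      have h6 := norm_nonneg (fT n f2 J N A)
      calc ‖f1 (nm A)‖ * h (nm A / X) * ‖fT n f2 J N A‖ ≤ 1 * h (nm A / X) * ‖fT n f2 J N A‖ := by gcongr
        _ = _ := by ring
    have h4 : (∑ A ∈ 𝒜, h (nm A / X) * ‖fT n f2 J N A‖) ^ 2 ≤
        𝒜.card * ∑ A ∈ 𝒜, (h (nm A / X) * ‖fT n f2 J N A‖) ^ 2 := sq_sum_le_card_mul_sum_sq
    have h5 : ∑ A ∈ 𝒜, (h (nm A / X) * ‖fT n f2 J N A‖) ^ 2 = Q := by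
      rw [hQ]
      apply sum_congr rfl
      intro A _
      ring
    have hQ0 : 0 ≤ Q := by
      rw [hQ]
      apply sum_nonneg
      intro A _
      positivity
    calc ‖∑ A ∈ 𝒜, f1 (nm A) * ((h (nm A / X) : ℝ) : ℂ) * fT n f2 J N A‖ ^ 2
        ≤ (∑ A ∈ 𝒜, h (nm A / X) * ‖fT n f2 J N A‖) ^ 2 := pow_le_pow_left₀ (norm_nonneg _) h3 2
      _ ≤ 𝒜.card * Q := by rw [← h5]; exact h4
      _ ≤ 9 * (h2 * X) * Q := mul_le_mul_of_nonneg_right hcardA hQ0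
      _ = 9 * h2 * X * Q := by ring
  refine h1.trans ?_
  apply mul_le_mul_of_nonneg_left _ (by positivity)
  refine (msq_fan f2 hf2 h hh0 hh1 h2 hh2 J N hJ hN n hn0 X hX hh2' x' hx').trans (le_of_eq ?_)
  congr 4
  -- the two sums
  have h6 : ∑ κ ∈ (Icc 1 N).filter (fun κ => 4 * n ∣ κ), Gms f2 h J N n κ x' X =
      ∑ k ∈ (Icc 1 N).filter (fun k => 4 * n * k ≤ N), Gn n f2 h J N k x' X := by
    symm
    apply sum_bij (fun k _ => 4 * n * k)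
    · intro k hk
      rw [mem_filter, mem_Icc] at hk ⊢
      refine ⟨⟨?_, hk.2⟩, dvd_mul_right _ _⟩
      have : 0 < 4 * n * k := by
        have := hk.1.1
        positivity
      omega
    · intro k _ k' _ hkk
      exact Nat.eq_of_mul_eq_mul_left (by omega) hkk
    · intro κ hκ
      rw [mem_filter, mem_Icc] at hκ
      obtain ⟨⟨h7, h8⟩, k, rfl⟩ := hκ
      refine ⟨k, ?_, rfl⟩
      rw [mem_filter, mem_Icc]
      have hk0 : 0 < k := by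
        rcases Nat.eq_zero_or_pos k with h9 | h9
        · rw [h9, mul_zero] at h7
          omega
        · exact h9
      have h9 : 1 * k ≤ 4 * n * k := Nat.mul_le_mul_right k (by omega)
      exact ⟨⟨hk0, by omega⟩, h8⟩
    · intro k _
      exact (csn_Gn n f2 h J N k x' X).symm
  rw [h6]
  apply sum_subset (filter_subset _ _)
  intro k hk hk'
  rw [mem_filter, not_and] at hk'
  have h7 : N < 4 * n * k := by
    have := hk' hk
    omega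
  rw [mem_Icc] at hk
  have h8 := f_Gm f2 h h2 hh2 J N hJ hN n hn0 X hX x' hx' (4 * n * k) (by omega) (dvd_mul_right _ _)
  rw [← csn_Gn, ← h8]
  apply sum_eq_zero
  intro A hA
  rw [sum_eq_zero, mul_zero]
  intro p hp
  rw [if_neg]
  intro h9
  rw [mem_product, mem_fB hn0, mem_fB hn0] at hp
  have hV := ne_zero_of_det hn0 hp.1.1
  have hnm : (0 : ℝ) < nm A := by exact_mod_cast nm_pos hV
  have h10 : dot A p.1 = dot A p.2 + ((4 * n * k : ℕ) : ℤ) * nm A := by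
    rw [h9, TailP.dot_add_mul]
  have h11 : ((dot A p.1 : ℤ) : ℝ) = ((dot A p.2 : ℤ) : ℝ) + ((4 * n * k : ℕ) : ℝ) * nm A := by
    rw [h10]
    push_cast
    ring
  have h12 : ((4 * n * k : ℕ) : ℝ) * nm A ≤ N * nm A := by
    have e1 := hp.1.2.2.2
    have e2 := hp.2.2.2.1
    nlinarith
  have h13 : ((4 * n * k : ℕ) : ℝ) ≤ N := le_of_mul_le_mul_right h12 hnm
  have h14 : 4 * n * k ≤ N := by exact_mod_cast h13
  omega

end Pool.Agent.FanL
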