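import Pool.Agent.Lib_MP_f1a94e_m.G32
import Pool.Agent.Lib_MP_f1a94e_ob.A4

/-!
# MP_f1a94e_nt, values of `m ^ 2 + 1` along `m, m + d, m + 2 d, ...` for `d ∣ m ^ 2 + 1`: definitions

Pairs of Gaussian integers of a fixed determinant `n`, congruent modulo `n`; the pairs `(d, m)`.
-/

set_option autoImplicit false

namespace Pool.Agent.FanL

open Finset Pool.Agent.GaussMR Pool.Agent.OmAll Pool.Agent.OmEq Pool.Agent.LPr Pool.Agent.OrbL MeasureTheory Filter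

open Classical in
/-- sum over the pairs of determinant `n`, congruent modulo `n` -/
noncomputable def Sn (n : ℕ) (f1 f2 : ℕ → ℂ) (x : ℝ) (W : ℝ → ℝ → ℂ) (X : ℝ) : ℂ :=
  ∑ e ∈ (EN n x).filter (fun e => cg n e.2 e.1), f1 (nm e.1) * f2 (nm e.2) * W (mE e / X) (tE e)

open Classical in
/-- the sum over unbalanced pairs of determinant `n`, congruent modulo `n` -/
noncomputable def SXn (n : ℕ) (f1 f2 : ℕ → ℂ) (h : ℝ → ℝ) (J N : ℕ) (x X : ℝ) : ℂ :=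
  ∑ e ∈ (EN n x).filter (fun e => cg n e.2 e.1), f1 (nm e.1) * f2 (nm e.2) *
    ((h (nm e.1 / X) * rho J N (mE e / nm e.1) : ℝ) : ℂ)

open Classical in
/-- the correlations of determinant `4 n ^ 2 k` with step `4 n k` -/
noncomputable def Gn (n : ℕ) (f : ℕ → ℂ) (h : ℝ → ℝ) (J N k : ℕ) (x X : ℝ) : ℂ :=
  ∑ e ∈ (EN (4 * n ^ 2 * k) x).filter
      (fun e => cg (4 * n ^ 2 * k) e.1 ((((1 + 4 * n * k : ℕ) : ℤ) : G) * e.2)),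
    f (nm e.1) * (starRingEnd ℂ) (f (nm e.2)) * (wN h J N (4 * n * k) X e : ℂ)

open Classical in
/-- the sum over one class -/
noncomputable def Cc (m : ℕ) (c : ZMod m) (f1 f2 : ℕ → ℂ) (x : ℝ) (W : ℝ → ℝ → ℂ) (X : ℝ) : ℂ :=
  ∑ e ∈ (EN m x).filter (fun e => cl m e = c), f1 (nm e.1) * (starRingEnd ℂ) (f2 (nm e.2)) * W (mE e / X) (tE e)

/-- test functions of mean zero in `t` give nothing -/
def PTn (n : ℕ) (f1 f2 : ℝ → ℕ → ℂ) : Prop :=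
  ∀ (b : ℝ) (W : ℝ → ℝ → ℂ), TF b W → (∀ y, (∫ t, W y t) = 0) → ∀ a : ℝ, 0 < a →
    Tendsto (fun X : ℝ => Sn n (f1 (a * X)) (f2 (a * X)) (b * X) W X / X) atTop (nhds 0)

/-- the correlations are small on average -/
def GnSmall (n : ℕ) (f : ℝ → ℕ → ℂ) : Prop :=
  ∀ (h : ℝ → ℝ) (h1 h2 : ℝ), HF h h1 h2 → ∀ ε : ℝ, 0 < ε → ∃ N0 : ℕ, ∀ N : ℕ, N0 ≤ N → ∃ J0 : ℕ, ∀ J : ℕ, J0 ≤ J →
    ∀ a : ℝ, 0 < a → ∀ᶠ X : ℝ in atTop,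
      ‖∑ k ∈ Icc 1 N, Gn n (f (a * X)) h J N k (((J + N) ^ 2 * h2 + 1) * X) X‖ ≤ ε * N ^ 2 * X

/-- every class `1 mod 4` has its share of almost all classes -/
def GCX (f : ℝ → ℕ → ℂ) : Prop :=
  ∀ m : ℕ, 0 < m → ∀ c : ZMod m, IsUnit c → GrambH m c → ∀ (b : ℝ) (W : ℝ → ℝ → ℂ), TF b W → ∀ a : ℝ, 0 < a →
    Tendsto (fun X : ℝ => (Cc m c (f (a * X)) (f (a * X)) (b * X) W X -
      ((kap m / m.totient : ℝ) : ℂ) * Qs (f (a * X)) m (b * X) W X) / X) atTop (nhds 0)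

/-- every class is small -/
def GCA (f : ℝ → ℕ → ℂ) : Prop :=
  ∀ m : ℕ, 0 < m → ∀ c : ZMod m, ∀ (b : ℝ) (W : ℝ → ℝ → ℂ), TF b W → ∀ a : ℝ, 0 < a →
    Tendsto (fun X : ℝ => Cc m c (f (a * X)) (f (a * X)) (b * X) W X / X) atTop (nhds 0)

/-- weighted sums of the correlations over the multiples of `D` -/
def QSmallD (f : ℝ → ℕ → ℂ) : Prop :=
  ∀ D : ℕ, 1 ≤ D → ∀ (h : ℝ → ℝ) (h1 h2 : ℝ), HF h h1 h2 → ∀ ε : ℝ, 0 < ε → ∃ N0 : ℕ, ∀ N : ℕ, N0 ≤ N →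
    ∀ a : ℝ, 0 < a → ∀ᶠ Y : ℝ in atTop,
    ‖∑ n ∈ (Icc 1 N).filter (fun n => D ∣ n), ((kap n * (n / n.totient) * ww ((n : ℝ) / N) : ℝ) : ℂ) *
      Qs (f (a * Y)) n (h2 * Y) (fun y t => ((h y ^ 2 * ps0 t : ℝ) : ℂ)) Y‖ ≤ ε * N * Y

/-- sums of `Φ` over edges against test functions are small -/
def EdgeSmall (Φ : ℝ → G × G → ℂ) : Prop :=
  ∀ (b : ℝ) (W : ℝ → ℝ → ℂ), TF b W →
    Tendsto (fun X : ℝ => (∑ e ∈ EN 1 (b * X), Φ X e * W (mE e / X) (tE e)) / X) atTop (nhds 0)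

open Classical in
/-- the edges with `|V|^2 ≤ X` and `α |V|^2 ≤ V . V' < β |V|^2` -/
noncomputable def FE (X α β : ℝ) : Finset (G × G) :=
  (EN 1 (β * X)).filter (fun e => (nm e.1 : ℝ) ≤ X ∧ α * nm e.1 ≤ mE e ∧ mE e < β * nm e.1)

open Classical in
/-- the pairs `(d, m)`, `1 ≤ d ≤ X`, `α d ≤ m < β d`, `d ∣ m ^ 2 + 1` -/
noncomputable def DP (X α β : ℝ) : Finset (ℕ × ℕ) :=
  ((Icc 1 ⌊X⌋₊) ×ˢ (range ⌈β * X⌉₊)).filter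
    (fun p => α * (p.1 : ℝ) ≤ p.2 ∧ (p.2 : ℝ) < β * p.1 ∧ p.1 ∣ p.2 ^ 2 + 1)

theorem mem_DP {X α β : ℝ} (hX : 0 ≤ X) {p : ℕ × ℕ} :
    p ∈ DP X α β ↔ 0 < p.1 ∧ (p.1 : ℝ) ≤ X ∧ α * (p.1 : ℝ) ≤ p.2 ∧ (p.2 : ℝ) < β * p.1 ∧ p.1 ∣ p.2 ^ 2 + 1 := by
  unfold DP
  rw [mem_filter, mem_product, mem_Icc, mem_range, Nat.le_floor_iff hX, Nat.lt_ceil]
  constructor
  · rintro ⟨⟨⟨h1, h2⟩, _⟩, h4, h5, h6⟩
    exact ⟨h1, h2, h4, h5, h6⟩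
  · rintro ⟨h1, h2, h4, h5, h6⟩
    refine ⟨⟨⟨h1, h2⟩, ?_⟩, h4, h5, h6⟩
    have h7 : (0 : ℝ) < p.1 := by exact_mod_cast h1
    have h8 : (0 : ℝ) ≤ p.2 := Nat.cast_nonneg _
    have h9 : 0 < β := by
      by_contra hc
      have := mul_nonpos_of_nonpos_of_nonneg (not_lt.1 hc) h7.le
      linarith
    have h10 : β * p.1 ≤ β * X := mul_le_mul_of_nonneg_left h2 h9.le
    linarith

end Pool.Agent.FanL
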