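import Pool.Agent.Lib_MP_f1a94e_fl.Defs

/-!
# Piece SMALL: few pairs `(d, m)` with small `m / d`
-/

set_option autoImplicit false

namespace Pool.Agent.FanL

open Finset Pool.Agent.GaussMR Pool.Agent.OmAll Pool.Agent.OmEq Pool.Agent.LPr Pool.Agent.OrbL MeasureTheory Filter

/-- the pairs with cofactor `e`, `m = ν + j e` -/
theorem dp_small_aux {δ X : ℝ} (hδ : 0 < δ) (_hX : 1 ≤ X) {d m : ℕ} (hd : 0 < d) (hdX : (d : ℝ) ≤ X)
    (hm : (m : ℝ) < δ * d) (hdm : d ∣ m ^ 2 + 1) :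
    d * ((m ^ 2 + 1) / d) = m ^ 2 + 1 ∧ 0 < (m ^ 2 + 1) / d ∧
      (((m ^ 2 + 1) / d : ℕ) : ℝ) ≤ δ ^ 2 * X + 1 ∧
      (m ^ 2 + 1) / d ∣ (m % ((m ^ 2 + 1) / d)) ^ 2 + 1 ∧
      (((m / ((m ^ 2 + 1) / d)) ^ 2 * ((m ^ 2 + 1) / d) : ℕ) : ℝ) < X := by
  have h1 : d * ((m ^ 2 + 1) / d) = m ^ 2 + 1 := Nat.mul_div_cancel' hdm
  set e := (m ^ 2 + 1) / d with he
  have he0 : 0 < e := by
    rcases Nat.eq_zero_or_pos e with h | h
    · rw [h, mul_zero] at h1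
      omega
    · exact h
  have hd1 : (1 : ℝ) ≤ d := by exact_mod_cast hd
  have h1r : (d : ℝ) * e = (m : ℝ) ^ 2 + 1 := by exact_mod_cast h1
  refine ⟨h1, he0, ?_, ?_, ?_⟩
  · have hm0 : (0 : ℝ) ≤ m := Nat.cast_nonneg m
    have h2 : (m : ℝ) ^ 2 ≤ (δ * d) ^ 2 := by
      exact pow_le_pow_left₀ hm0 hm.le 2
    have h3 : (d : ℝ) * e ≤ d * (δ ^ 2 * X + 1) := by
      rw [h1r]
      have : (d : ℝ) * (δ ^ 2 * d) ≤ d * (δ ^ 2 * X) := by gcongr
      nlinarith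
    exact le_of_mul_le_mul_left h3 (by linarith)
  · have h2 : (m % e) ^ 2 + 1 ≡ m ^ 2 + 1 [MOD e] :=
      Nat.ModEq.add_right 1 ((Nat.mod_modEq m e).pow 2)
    have h3 : e ∣ m ^ 2 + 1 := ⟨d, by rw [mul_comm]; exact h1.symm⟩
    exact (Nat.modEq_zero_iff_dvd.1 (h2.trans (Nat.modEq_zero_iff_dvd.2 h3)))
  · have h2 : m / e * e ≤ m := Nat.div_mul_le_self m e
    have h3 : (m / e) ^ 2 * e * e < d * e := by
      calc (m / e) ^ 2 * e * e = (m / e * e) ^ 2 := by ring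
        _ ≤ m ^ 2 := Nat.pow_le_pow_left h2 2
        _ < m ^ 2 + 1 := Nat.lt_succ_self _
        _ = d * e := h1.symm
    have h4 : (m / e) ^ 2 * e < d := Nat.lt_of_mul_lt_mul_right h3
    exact lt_of_lt_of_le (by exact_mod_cast h4) hdX

/-- PROOF. For `(d, m)` with `m < δ d`, `d e = m^2 + 1`: `m = 0` only for `d = 1` (one pair); `e ≤ δ^2 d + 1 ≤ δ^2 X + 1 =: Y` and `m < √(e X)` (`m^2 < d e ≤ X e`). The pair is determined by `(e, m)`, `e ∣ m^2 + 1`.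
Let `ρ(e)` be the number of roots modulo `e` in `[0, e)`: `∑_(e ≤ y) ρ(e) = #(RP y) ≤ 9 y` (`card_RP_le`, ob/A3). For given `e` the number of `m < √(e X)` with `e ∣ m^2 + 1` is at most `ρ(e) (√(e X)/e + 1) = ρ(e) (√(X/e) + 1)`. With `4^(-i-1) Y < e ≤ 4^(-i) Y`: `∑_(e ≤ Y) ρ(e)/√e ≤ ∑_i 9 * 4^(-i) Y 2^(i+1)/√Y ≤ 36 √Y`
(or by induction `S(Y) ≤ S(Y/4) + 18 √Y`). Total `≤ 36 √X √Y + 9 Y + 1 ≤ C (δ X + √X)` as `√Y ≤ δ √X + 1`, `Y ≤ δ X + 1` (`δ ≤ 1`). -/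
theorem dp_small : ∃ C : ℝ, 0 < C ∧ ∀ δ : ℝ, 0 < δ → δ ≤ 1 → ∀ X : ℝ, 1 ≤ X →
    ((DP X 0 δ).card : ℝ) ≤ C * (δ * X + √X) := by
  classical
  refine ⟨55, by norm_num, fun δ hδ hδ1 X hX => ?_⟩
  have hX0 : (0 : ℝ) ≤ X := by linarith
  set Y := δ ^ 2 * X + 1 with hY
  have hY0 : 0 ≤ Y := by positivity
  set s := √X with hs
  have hs1 : 1 ≤ s := by
    rw [hs]
    exact Real.one_le_sqrt.2 hX
  have hss : s * s = X := Real.mul_self_sqrt hX0
  set Z := δ * s + 1 with hZ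
  have hZ1 : 1 ≤ Z := by
    have : 0 ≤ δ * s := by positivity
    linarith
  have hYZ : Y ≤ Z * Z := by
    have : 0 ≤ δ * s := by positivity
    have h2 : Y = (δ * s) * (δ * s) + 1 := by rw [hY, ← hss]; ring
    rw [h2, hZ]
    nlinarith
  -- the number `J`
  set J := ⌊s / Z⌋₊ with hJ
  have hJ1 : (J : ℝ) ≤ s / Z := Nat.floor_le (by positivity)
  have hJ2 : s / Z < J + 1 := Nat.lt_floor_add_one _
  set N := ⌈X⌉₊ + 1 with hN
  set c : ℕ → Finset (ℕ × ℕ) := fun j => (RP Y).filter fun q => ((j ^ 2 * q.1 : ℕ) : ℝ) < X with hc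
  -- the injection
  have hcard : ((DP X 0 δ).filter fun p => p.2 ≠ 0).card ≤ ∑ j ∈ range N, (c j).card := by
    rw [← card_sigma]
    refine card_le_card_of_injOn (fun p => ⟨p.2 / ((p.2 ^ 2 + 1) / p.1),
      ((p.2 ^ 2 + 1) / p.1, p.2 % ((p.2 ^ 2 + 1) / p.1))⟩) ?_ ?_
    · rintro ⟨d, m⟩ hp
      obtain ⟨hp1, hp2⟩ := mem_filter.1 (mem_coe.1 hp)
      obtain ⟨a1, a2, -, a3, a4⟩ := (mem_DP hX0).1 hp1
      simp only at a1 a2 a3 a4 hp2 ⊢
      obtain ⟨b1, b2, b3, b4, b5⟩ := dp_small_aux hδ hX a1 a2 a3 a4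
      refine mem_coe.2 (mem_sigma.2 ⟨?_, ?_⟩)
      · rw [mem_range]
        have h1 : m / ((m ^ 2 + 1) / d) ≤ (m / ((m ^ 2 + 1) / d)) ^ 2 * ((m ^ 2 + 1) / d) := by
          calc m / ((m ^ 2 + 1) / d) ≤ (m / ((m ^ 2 + 1) / d)) ^ 2 := Nat.le_self_pow (by norm_num) _
            _ ≤ _ := Nat.le_mul_of_pos_right _ b2
        have h2 : ((m / ((m ^ 2 + 1) / d) : ℕ) : ℝ) < X :=
          lt_of_le_of_lt (by exact_mod_cast h1) b5
        have h3 : m / ((m ^ 2 + 1) / d) < ⌈X⌉₊ := Nat.lt_ceil.2 h2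
        simp only
        omega
      · refine mem_filter.2 ⟨(mem_RP hY0).2 ⟨b2, b3, Nat.mod_lt _ b2, b4⟩, b5⟩
    · rintro ⟨d, m⟩ hp ⟨d', m'⟩ hp' h
      obtain ⟨hp1, -⟩ := mem_filter.1 (mem_coe.1 hp)
      obtain ⟨a1, a2, -, a3, a4⟩ := (mem_DP hX0).1 hp1
      obtain ⟨hp1', -⟩ := mem_filter.1 (mem_coe.1 hp')
      obtain ⟨a1', a2', -, a3', a4'⟩ := (mem_DP hX0).1 hp1'
      simp only at a1 a2 a3 a4 a1' a2' a3' a4'
      obtain ⟨b1, b2, -⟩ := dp_small_aux hδ hX a1 a2 a3 a4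
      obtain ⟨b1', -⟩ := dp_small_aux hδ hX a1' a2' a3' a4'
      simp only [Sigma.mk.injEq, heq_eq_eq, Prod.mk.injEq] at h
      obtain ⟨h1, h2, h3⟩ := h
      have hm : m = m' := by
        rw [← Nat.div_add_mod m ((m ^ 2 + 1) / d), h1, h3, h2, Nat.div_add_mod]
      subst hm
      rw [← h2] at b1'
      have hd : d = d' := Nat.eq_of_mul_eq_mul_right b2 (b1.trans b1'.symm)
      rw [hd]
  have hzero : ((DP X 0 δ).filter fun p => ¬ p.2 ≠ 0).card ≤ 1 := by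
    rw [card_le_one]
    rintro ⟨d, m⟩ hp ⟨d', m'⟩ hp'
    obtain ⟨hp1, hp2⟩ := mem_filter.1 hp
    obtain ⟨hp1', hp2'⟩ := mem_filter.1 hp'
    obtain ⟨-, -, -, -, a4⟩ := (mem_DP hX0).1 hp1
    obtain ⟨-, -, -, -, a4'⟩ := (mem_DP hX0).1 hp1'
    simp only [ne_eq, not_not] at hp2 hp2' a4 a4'
    subst hp2 hp2'
    simp at a4 a4'
    rw [a4, a4']
  have hcj : ∀ j, ((c j).card : ℝ) ≤ 9 * Y := fun j =>
    le_trans (by exact_mod_cast card_le_card (filter_subset _ _)) (card_RP_le hY0)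
  have hcj2 : ∀ j : ℕ, 1 ≤ j → ((c j).card : ℝ) ≤ 9 * (X * ((j : ℝ) ^ 2)⁻¹) := by
    intro j hj
    have hj0 : (0 : ℝ) < (j : ℝ) ^ 2 := by positivity
    have hXj : 0 ≤ X * ((j : ℝ) ^ 2)⁻¹ := by positivity
    refine le_trans ?_ (card_RP_le hXj)
    have : c j ⊆ RP (X * ((j : ℝ) ^ 2)⁻¹) := by
      intro q hq
      obtain ⟨h1, h2⟩ := mem_filter.1 hq
      obtain ⟨b1, b2, b3, b4⟩ := (mem_RP hY0).1 h1
      refine (mem_RP hXj).2 ⟨b1, ?_, b3, b4⟩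
      rw [← div_eq_mul_inv, le_div_iff₀ hj0]
      push_cast at h2
      linarith
    exact_mod_cast card_le_card this
  have hsum : ((∑ j ∈ range N, (c j).card : ℕ) : ℝ) ≤
      (J + 1) * (9 * Y) + 9 * (X * (2 / (J + 1))) := by
    push_cast
    have h1 : ∑ j ∈ range N, ((c j).card : ℝ) ≤
        ∑ j ∈ range (J + 1), ((c j).card : ℝ) + ∑ j ∈ Ioo J N, ((c j).card : ℝ) := by
      have h2 : range N ⊆ range (J + 1) ∪ Ioo J N := by
        intro j hj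
        rw [mem_range] at hj
        rw [mem_union, mem_range, mem_Ioo]
        omega
      have h3 : Disjoint (range (J + 1)) (Ioo J N) := by
        rw [disjoint_left]
        intro j hj hj'
        rw [mem_range] at hj
        rw [mem_Ioo] at hj'
        omega
      rw [← sum_union h3]
      exact sum_le_sum_of_subset_of_nonneg h2 fun _ _ _ => Nat.cast_nonneg _
    refine h1.trans (add_le_add ?_ ?_)
    · calc ∑ j ∈ range (J + 1), ((c j).card : ℝ) ≤ ∑ j ∈ range (J + 1), 9 * Y :=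
            sum_le_sum fun j _ => hcj j
        _ = (J + 1) * (9 * Y) := by
            rw [sum_const, card_range, nsmul_eq_mul]
            push_cast
            ring
    · calc ∑ j ∈ Ioo J N, ((c j).card : ℝ) ≤ ∑ j ∈ Ioo J N, 9 * (X * ((j : ℝ) ^ 2)⁻¹) := by
            refine sum_le_sum fun j hj => hcj2 j ?_
            rw [mem_Ioo] at hj
            omega
        _ = 9 * (X * ∑ j ∈ Ioo J N, ((j : ℝ) ^ 2)⁻¹) := by rw [mul_sum, mul_sum]
        _ ≤ 9 * (X * (2 / (J + 1))) := by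
            have := sum_Ioo_inv_sq_le (α := ℝ) J N
            gcongr
  -- conclusion
  have hT1 : (J + 1) * Y ≤ 4 * (δ * X + s) := by
    have hZ0 : 0 < Z := by linarith
    have h1 : (J + 1 : ℝ) * Y ≤ (s / Z + 1) * (Z * Z) := by
      have : (0 : ℝ) ≤ J + 1 := by positivity
      calc (J + 1 : ℝ) * Y ≤ (J + 1) * (Z * Z) := by gcongr
        _ ≤ _ := by gcongr
    have h2 : (s / Z + 1) * (Z * Z) = s * Z + Z * Z := by
      field_simp
    have h3 : s * Z = δ * X + s := by rw [hZ, ← hss]; ring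
    have h4 : Z * Z ≤ 3 * (δ * X + s) := by
      have h5 : Z * Z = δ * (δ * X) + 2 * (δ * s) + 1 := by rw [hZ, ← hss]; ring
      have h6 : δ * (δ * X) ≤ 1 * (δ * X) := by
        have : 0 ≤ δ * X := by positivity
        gcongr
      have h7 : δ * s ≤ 1 * s := by gcongr
      have h8 : 0 ≤ δ * X := by positivity
      linarith
    linarith
  have hT2 : X * (2 / (J + 1)) ≤ 2 * (δ * X + s) := by
    have hZ0 : 0 < Z := by linarith
    have h1 : X * (2 / ((J : ℝ) + 1)) ≤ X * (2 / (s / Z)) := by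
      have : 0 < s / Z := by positivity
      gcongr
    have h2 : X * (2 / (s / Z)) = 2 * (s * Z) := by
      rw [← hss]
      field_simp
    have h3 : s * Z = δ * X + s := by rw [hZ, ← hss]; ring
    linarith
  have htot : ((DP X 0 δ).card : ℝ) ≤ (∑ j ∈ range N, (c j).card : ℕ) + 1 := by
    have h1 := card_filter_add_card_filter_not (s := DP X 0 δ) (fun p => p.2 ≠ 0)
    have h2 : (DP X 0 δ).card ≤ ∑ j ∈ range N, (c j).card + 1 := by omega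
    exact_mod_cast h2
  have h8 : 0 ≤ δ * X := by positivity
  have h9 : ((J : ℝ) + 1) * (9 * Y) = 9 * ((J + 1) * Y) := by ring
  rw [h9] at hsum
  linarith

end Pool.Agent.FanL
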