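import Pool.Agent.Lib_MP_f1a94e_fl.Sharp
import Pool.Agent.Lib_MP_f1a94e_fl.Small

/-!
# Piece DP: from edges to the pairs `(d, m)`
-/

set_option autoImplicit false

namespace Pool.Agent.FanL

open Finset Pool.Agent.GaussMR Pool.Agent.OmAll Pool.Agent.OmEq Pool.Agent.LPr Pool.Agent.OrbL MeasureTheory Filter

private theorem dp_En (e : G × G) : En 1 e ↔ det e.1 e.2 = 1 ∧ 0 < dot e.1 e.2 := by
  constructor
  · rintro ⟨h1, h2, -, -⟩
    exact ⟨by simpa using h1, h2⟩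
  · rintro ⟨h1, h2⟩
    refine ⟨by simpa using h1, h2, ?_, 1, isCoprime_one_left, ?_, ?_⟩
    · have h3 : e.1.re * e.2.im - e.1.im * e.2.re = 1 := h1
      exact ⟨e.2.im, -e.2.re, by linarith⟩
    · simp
    · simp

private theorem dp_mul {e : G × G} {m : ℕ} (h1 : det e.1 e.2 = 1) (h2 : dot e.1 e.2 = m) :
    nm e.1 * nm e.2 = m ^ 2 + 1 := by
  have h4 := dot_sq_add_det_sq e.1 e.2
  rw [h1, h2] at h4
  have h5 : ((nm e.1 * nm e.2 : ℕ) : ℤ) = ((m ^ 2 + 1 : ℕ) : ℤ) := by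
    push_cast
    linarith
  exact_mod_cast h5

private theorem dp_mem_FE {X α β : ℝ} {e : G × G} : e ∈ FE X α β ↔
    (det e.1 e.2 = 1 ∧ 0 < dot e.1 e.2 ∧ ((dot e.1 e.2 : ℤ) : ℝ) ≤ β * X) ∧ (nm e.1 : ℝ) ≤ X ∧
      α * nm e.1 ≤ ((dot e.1 e.2 : ℤ) : ℝ) ∧ ((dot e.1 e.2 : ℤ) : ℝ) < β * nm e.1 := by
  unfold FE
  rw [mem_filter, mem_EN one_pos, dp_En]
  unfold mE
  tauto

/-- PROOF. As `four_count` (m/G23.lean, line 1401): the map `e ↦ (nm e.1, (dot e.1 e.2).toNat)` from `FE X α β` onto the pairs of `DP X α β` with `1 ≤ m`; every fibre has four elements (`four m d`, `d ∣ m^2 + 1`); `Finset.sum_fiberwise_of_maps_to` or `sum_comp`. (`mE e ≤ β nm e.1 ≤ β X`.) -/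
theorem dp_four (X α β : ℝ) (hX : 0 ≤ X) (hβ : 0 ≤ β) (F : ℕ × ℕ → ℂ) :
    ∑ e ∈ FE X α β, F (nm e.1, (dot e.1 e.2).toNat) = 4 * ∑ p ∈ (DP X α β).filter (fun p => 1 ≤ p.2), F p := by
  classical
  have hmaps : ∀ e ∈ FE X α β, (nm e.1, (dot e.1 e.2).toNat) ∈ (DP X α β).filter (fun p => 1 ≤ p.2) := by
    intro e he
    rw [dp_mem_FE] at he
    obtain ⟨⟨a1, a2, a3⟩, a4, a5, a6⟩ := he
    obtain ⟨k, hk⟩ := Int.eq_ofNat_of_zero_le a2.le
    have h5 := dp_mul a1 hk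
    rw [mem_filter, mem_DP hX]
    rw [hk] at a2 a5 a6
    rw [hk]
    simp only [Int.toNat_natCast]
    refine ⟨⟨EqnB.nm_pos1 a1, a4, by simpa using a5, by simpa using a6, ⟨nm e.2, h5.symm⟩⟩, ?_⟩
    omega
  rw [← Finset.sum_fiberwise_of_maps_to hmaps, Finset.mul_sum]
  refine Finset.sum_congr rfl fun p hp => ?_
  rw [mem_filter, mem_DP hX] at hp
  obtain ⟨⟨b1, b2, b3, b4, b5⟩, b6⟩ := hp
  have hc : ((FE X α β).filter (fun e => (nm e.1, (dot e.1 e.2).toNat) = p)).card = 4 := by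
    have h4 := four p.2 p.1 b5
    rw [← h4, ← Set.ncard_coe_finset]
    congr 1
    ext e
    rw [Finset.mem_coe, mem_filter, dp_mem_FE, Set.mem_ofPred_eq]
    constructor
    · rintro ⟨⟨⟨a1, a2, a3⟩, a4, a5, a6⟩, a7⟩
      have h6 : (dot e.1 e.2).toNat = p.2 := by rw [← a7]
      refine ⟨a1, ?_, by rw [← a7]⟩
      rw [← h6, Int.toNat_of_nonneg a2.le]
    · rintro ⟨a1, a2, a3⟩
      have h9 : (nm e.1, (dot e.1 e.2).toNat) = p := by rw [a2, a3, Int.toNat_natCast]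
      refine ⟨⟨⟨a1, ?_, ?_⟩, ?_, ?_, ?_⟩, h9⟩
      · rw [a2]; omega
      · rw [a2]
        have : β * (p.1 : ℝ) ≤ β * X := mul_le_mul_of_nonneg_left b2 hβ
        push_cast
        linarith
      · rw [a3]; exact b2
      · rw [a2, a3]; push_cast; exact b3
      · rw [a2, a3]; push_cast; exact b4
  calc ∑ e ∈ (FE X α β).filter (fun e => (nm e.1, (dot e.1 e.2).toNat) = p), F (nm e.1, (dot e.1 e.2).toNat)
      = ∑ e ∈ (FE X α β).filter (fun e => (nm e.1, (dot e.1 e.2).toNat) = p), F p := by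
        refine Finset.sum_congr rfl fun e he => ?_
        rw [(mem_filter.1 he).2]
    _ = 4 * F p := by
        rw [Finset.sum_const, hc, nsmul_eq_mul]
        norm_num

private theorem dp_filter {X α β : ℝ} (hX : 0 ≤ X) (hα : 0 < α) :
    (DP X α β).filter (fun p => 1 ≤ p.2) = DP X α β := by
  refine filter_true_of_mem fun p hp => ?_
  rw [mem_DP hX] at hp
  obtain ⟨b1, -, b3, -, -⟩ := hp
  have h1 : (0 : ℝ) < p.1 := by exact_mod_cast b1
  have h2 : (0 : ℝ) < p.2 := lt_of_lt_of_le (mul_pos hα h1) b3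
  have h3 : 0 < p.2 := by exact_mod_cast h2
  exact h3

private theorem dp_four' (X α β : ℝ) (hX : 0 ≤ X) (hα : 0 < α) (hβ : 0 ≤ β) (F : ℕ × ℕ → ℂ) :
    ∑ p ∈ DP X α β, F p = (1 / 4 : ℂ) * ∑ e ∈ FE X α β, F (nm e.1, (dot e.1 e.2).toNat) := by
  rw [dp_four X α β hX hβ F, dp_filter hX hα]
  ring

private theorem dp_card (X α β : ℝ) (hX : 0 ≤ X) (hα : 0 < α) (hβ : 0 ≤ β) :
    ((DP X α β).card : ℝ) = (1 / 4 : ℝ) * (FE X α β).card := by
  have h := dp_four' X α β hX hα hβ (fun _ => 1)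
  simp only [Finset.sum_const, nsmul_eq_mul, mul_one] at h
  apply Complex.ofReal_injective
  push_cast
  exact h

private theorem dp_union {X δ β : ℝ} (hX : 0 ≤ X) (hδ : 0 ≤ δ) (hδβ : δ ≤ β) :
    DP X 0 β = DP X 0 δ ∪ DP X δ β := by
  ext p
  rw [mem_union, mem_DP hX, mem_DP hX, mem_DP hX]
  have h0 : (0 : ℝ) ≤ p.1 := Nat.cast_nonneg _
  have h1 : δ * (p.1 : ℝ) ≤ β * p.1 := mul_le_mul_of_nonneg_right hδβ h0
  have h2 : 0 ≤ δ * (p.1 : ℝ) := mul_nonneg hδ h0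
  constructor
  · rintro ⟨a1, a2, a3, a4, a5⟩
    rcases lt_or_ge (p.2 : ℝ) (δ * p.1) with h | h
    · exact Or.inl ⟨a1, a2, a3, h, a5⟩
    · exact Or.inr ⟨a1, a2, h, a4, a5⟩
  · rintro (⟨a1, a2, a3, a4, a5⟩ | ⟨a1, a2, a3, a4, a5⟩)
    · exact ⟨a1, a2, a3, by linarith, a5⟩
    · exact ⟨a1, a2, by linarith, a4, a5⟩

private theorem dp_disj {X δ β : ℝ} (hX : 0 ≤ X) : Disjoint (DP X 0 δ) (DP X δ β) := by
  rw [Finset.disjoint_left]
  intro p hp hq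
  rw [mem_DP hX] at hp hq
  linarith [hp.2.2.2.1, hq.2.2.1]

private theorem dp_empty {X : ℝ} (hX : 0 ≤ X) : DP X 0 0 = ∅ := by
  refine Finset.eq_empty_of_forall_notMem fun p hp => ?_
  rw [mem_DP hX] at hp
  have := hp.2.2.2.1
  rw [zero_mul] at this
  linarith [(Nat.cast_nonneg p.2 : (0 : ℝ) ≤ p.2)]

private theorem dp_lim_pos (F : ℝ → ℕ × ℕ → ℂ) (hF : ∀ X p, ‖F X p‖ ≤ 1)
    (H : EdgeSmall (fun X e => F X (nm e.1, (dot e.1 e.2).toNat))) (α β : ℝ) (hα : 0 < α) (hαβ : α ≤ β) :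
    Tendsto (fun X : ℝ => (∑ p ∈ DP X α β, F X p) / X) atTop (nhds 0) := by
  have h1 := fe_sharp (fun X e => F X (nm e.1, (dot e.1 e.2).toNat)) (fun X e => hF X _) H α β hα hαβ
  have h2 := h1.const_mul (1 / 4 : ℂ)
  rw [mul_zero] at h2
  refine h2.congr' ?_
  filter_upwards [eventually_ge_atTop (0 : ℝ)] with X hX
  rw [dp_four' X α β hX hα (hα.le.trans hαβ) (F X)]
  ring

/-- `C (δ X + √X) / X ≤ 2 C δ` for large `X` -/
private theorem dp_ev (C δ : ℝ) (hC : 0 < C) (hδ : 0 < δ) :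
    ∀ᶠ X : ℝ in atTop, C * (δ * X + √X) ≤ 2 * C * δ * X := by
  filter_upwards [eventually_ge_atTop (1 / δ ^ 2), eventually_gt_atTop (0 : ℝ)] with X hX hX0
  have h1 : √X ≤ δ * X := by
    have h2 : X = √X * √X := (Real.mul_self_sqrt hX0.le).symm
    have h3 : 1 ≤ δ * √X := by
      have h4 : 1 / δ ≤ √X := by
        rw [show 1 / δ = √(1 / δ ^ 2) by
          rw [Real.sqrt_div zero_le_one, Real.sqrt_one, Real.sqrt_sq hδ.le]]
        exact Real.sqrt_le_sqrt hX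
      rw [div_le_iff₀ hδ] at h4
      linarith
    calc √X = 1 * √X := (one_mul _).symm
      _ ≤ (δ * √X) * √X := mul_le_mul_of_nonneg_right h3 (Real.sqrt_nonneg _)
      _ = δ * X := by rw [mul_assoc, ← h2]
  have : C * (δ * X + √X) ≤ C * (δ * X + δ * X) := mul_le_mul_of_nonneg_left (by linarith) hC.le
  linarith

/-- PROOF. `α > 0`: `1 ≤ m` is automatic; `dp_four`, `fe_sharp`. `α = 0`: `DP X 0 β` is the disjoint union of `DP X 0 δ` and `DP X δ β`; `dp_small`. -/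
theorem dp_lim (F : ℝ → ℕ × ℕ → ℂ) (hF : ∀ X p, ‖F X p‖ ≤ 1)
    (H : EdgeSmall (fun X e => F X (nm e.1, (dot e.1 e.2).toNat))) (α β : ℝ) (hα : 0 ≤ α) (hαβ : α ≤ β) :
    Tendsto (fun X : ℝ => (∑ p ∈ DP X α β, F X p) / X) atTop (nhds 0) := by
  rcases hα.eq_or_lt with h0 | h0
  swap
  · exact dp_lim_pos F hF H α β h0 hαβ
  subst h0
  rcases hαβ.eq_or_lt with hb | hb
  · subst hb
    refine tendsto_const_nhds.congr' ?_
    filter_upwards [eventually_ge_atTop (0 : ℝ)] with X hX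
    rw [dp_empty hX, Finset.sum_empty, zero_div]
  obtain ⟨C, hC, hsm⟩ := dp_small
  rw [Metric.tendsto_atTop']
  intro ε hε
  -- the choice of `δ`
  obtain ⟨δ, hδ, hδ1, hδβ, hδε⟩ : ∃ δ : ℝ, 0 < δ ∧ δ ≤ 1 ∧ δ ≤ β ∧ 2 * C * δ ≤ ε / 2 := by
    refine ⟨min (min 1 β) (ε / (4 * C)), by positivity, (min_le_left _ _).trans (min_le_left _ _),
      (min_le_left _ _).trans (min_le_right _ _), ?_⟩
    have h1 : min (min 1 β) (ε / (4 * C)) ≤ ε / (4 * C) := min_le_right _ _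
    calc 2 * C * min (min 1 β) (ε / (4 * C)) ≤ 2 * C * (ε / (4 * C)) :=
          mul_le_mul_of_nonneg_left h1 (by positivity)
      _ = ε / 2 := by field_simp; norm_num
  have h2 := dp_lim_pos F hF H δ β hδ hδβ
  rw [Metric.tendsto_atTop'] at h2
  obtain ⟨N1, h2⟩ := h2 (ε / 2) (by positivity)
  obtain ⟨N2, h3⟩ := (eventually_atTop.1 (dp_ev C δ hC hδ))
  refine ⟨max (max N1 N2) 1, fun X hX => ?_⟩
  have hX1 : 1 < X := lt_of_le_of_lt (le_max_right _ _) hX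
  have hXN1 : N1 < X := lt_of_le_of_lt ((le_max_left _ _).trans (le_max_left _ _)) hX
  have hXN2 : N2 < X := lt_of_le_of_lt ((le_max_right _ _).trans (le_max_left _ _)) hX
  have hX0 : 0 < X := by linarith
  have h4 := h2 X hXN1
  have h5 := h3 X hXN2.le
  have h6 := hsm δ hδ hδ1 X hX1.le
  rw [dist_zero_right] at h4 ⊢
  rw [dp_union hX0.le hδ.le hδβ, Finset.sum_union (dp_disj hX0.le), add_div]
  have h7 : ‖(∑ p ∈ DP X 0 δ, F X p) / (X : ℂ)‖ ≤ ε / 2 := by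
    rw [norm_div, Complex.norm_real, Real.norm_eq_abs, abs_of_pos hX0, div_le_iff₀ hX0]
    calc ‖∑ p ∈ DP X 0 δ, F X p‖ ≤ ∑ p ∈ DP X 0 δ, ‖F X p‖ := norm_sum_le _ _
      _ ≤ ∑ p ∈ DP X 0 δ, (1 : ℝ) := Finset.sum_le_sum fun p _ => hF X p
      _ = ((DP X 0 δ).card : ℝ) := by simp
      _ ≤ C * (δ * X + √X) := h6
      _ ≤ 2 * C * δ * X := h5
      _ ≤ ε / 2 * X := mul_le_mul_of_nonneg_right hδε hX0.le
  calc _ ≤ ‖(∑ p ∈ DP X 0 δ, F X p) / (X : ℂ)‖ + ‖(∑ p ∈ DP X δ β, F X p) / (X : ℂ)‖ := norm_add_le _ _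
    _ < ε := by linarith

/-- PROOF. As `dp_lim` with `fe_count` (`κ/4`). -/
theorem dp_count : ∃ κ : ℝ, 0 < κ ∧ ∀ α β : ℝ, 0 ≤ α → α ≤ β →
    Tendsto (fun X : ℝ => ((DP X α β).card : ℝ) / X) atTop (nhds (κ * (β - α))) := by
  obtain ⟨κ, hκ, hfe⟩ := fe_count
  have hpos : ∀ α β : ℝ, 0 < α → α ≤ β →
      Tendsto (fun X : ℝ => ((DP X α β).card : ℝ) / X) atTop (nhds (κ / 4 * (β - α))) := by
    intro α β hα hαβ
    have h2 := (hfe α β hα hαβ).const_mul (1 / 4 : ℝ)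
    rw [show (1 / 4 : ℝ) * (κ * (β - α)) = κ / 4 * (β - α) by ring] at h2
    refine h2.congr' ?_
    filter_upwards [eventually_ge_atTop (0 : ℝ)] with X hX
    rw [dp_card X α β hX hα (hα.le.trans hαβ)]
    ring
  refine ⟨κ / 4, by positivity, fun α β hα hαβ => ?_⟩
  rcases hα.eq_or_lt with h0 | h0
  swap
  · exact hpos α β h0 hαβ
  subst h0
  rcases hαβ.eq_or_lt with hb | hb
  · subst hb
    rw [sub_zero, mul_zero]
    refine tendsto_const_nhds.congr' ?_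
    filter_upwards [eventually_ge_atTop (0 : ℝ)] with X hX
    rw [dp_empty hX, Finset.card_empty, Nat.cast_zero, zero_div]
  obtain ⟨C, hC, hsm⟩ := dp_small
  rw [Metric.tendsto_atTop']
  intro ε hε
  obtain ⟨δ, hδ, hδ1, hδβ, hδε, hδκ⟩ : ∃ δ : ℝ, 0 < δ ∧ δ ≤ 1 ∧ δ ≤ β ∧ 2 * C * δ ≤ ε / 4 ∧ κ / 4 * δ ≤ ε / 4 := by
    refine ⟨min (min 1 β) (min (ε / (8 * C)) (ε / κ)), by positivity, (min_le_left _ _).trans (min_le_left _ _),
      (min_le_left _ _).trans (min_le_right _ _), ?_, ?_⟩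
    · have h1 : min (min 1 β) (min (ε / (8 * C)) (ε / κ)) ≤ ε / (8 * C) :=
        (min_le_right _ _).trans (min_le_left _ _)
      calc 2 * C * min (min 1 β) (min (ε / (8 * C)) (ε / κ)) ≤ 2 * C * (ε / (8 * C)) :=
            mul_le_mul_of_nonneg_left h1 (by positivity)
        _ = ε / 4 := by field_simp; norm_num
    · have h1 : min (min 1 β) (min (ε / (8 * C)) (ε / κ)) ≤ ε / κ :=
        (min_le_right _ _).trans (min_le_right _ _)
      calc κ / 4 * min (min 1 β) (min (ε / (8 * C)) (ε / κ)) ≤ κ / 4 * (ε / κ) :=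
            mul_le_mul_of_nonneg_left h1 (by positivity)
        _ = ε / 4 := by field_simp
  have h2 := hpos δ β hδ hδβ
  rw [Metric.tendsto_atTop'] at h2
  obtain ⟨N1, h2⟩ := h2 (ε / 2) (by positivity)
  obtain ⟨N2, h3⟩ := (eventually_atTop.1 (dp_ev C δ hC hδ))
  refine ⟨max (max N1 N2) 1, fun X hX => ?_⟩
  have hX1 : 1 < X := lt_of_le_of_lt (le_max_right _ _) hX
  have hXN1 : N1 < X := lt_of_le_of_lt ((le_max_left _ _).trans (le_max_left _ _)) hX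
  have hXN2 : N2 < X := lt_of_le_of_lt ((le_max_right _ _).trans (le_max_left _ _)) hX
  have hX0 : 0 < X := by linarith
  have h4 := h2 X hXN1
  have h5 := h3 X hXN2.le
  have h6 := hsm δ hδ hδ1 X hX1.le
  have h7 : ((DP X 0 δ).card : ℝ) / X ≤ ε / 4 := by
    rw [div_le_iff₀ hX0]
    calc ((DP X 0 δ).card : ℝ) ≤ C * (δ * X + √X) := h6
      _ ≤ 2 * C * δ * X := h5
      _ ≤ ε / 4 * X := mul_le_mul_of_nonneg_right hδε hX0.le
  have h8 : 0 ≤ ((DP X 0 δ).card : ℝ) / X := by positivity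
  have h9 : 0 < κ / 4 * δ := by positivity
  rw [Real.dist_eq] at h4 ⊢
  rw [dp_union hX0.le hδ.le hδβ, Finset.card_union_of_disjoint (dp_disj hX0.le), Nat.cast_add, add_div]
  rw [abs_lt] at h4 ⊢
  constructor
  · nlinarith [h4.1, h4.2]
  · nlinarith [h4.1, h4.2]

end Pool.Agent.FanL
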