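import Pool.Agent.Lib_MP_f1a94e_fl.Defs

/-!
# Piece DSUM: the factor `n / φ(n)`, over the multiples of `D`
-/

set_option autoImplicit false

namespace Pool.Agent.FanL

open Finset Pool.Agent.GaussMR Pool.Agent.OmAll Pool.Agent.OmEq Pool.Agent.LPr Pool.Agent.OrbL MeasureTheory Filter

/-- PROOF. The proof of `dsumX` (m: grep `theorem dsumX`) over the multiples of `D`: `n / φ(n) = ∑_(d ∣ n) dsumC d` (`dsum_eq`), so the sum is `∑_(d ≤ N) dsumC d Z_d`, `Z_d = ∑_(n ≤ N, d ∣ n, D ∣ n) ..` `= ∑_(n ≤ N, lcm d D ∣ n)`. For `d ≤ K`: `QdSmallX` for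
`lcm d D ≥ 1`; for `d > K`: `‖Z_d‖ ≤ (N/d) 2 C h2 Y` as there (fewer terms). Rest unchanged. -/
theorem dsumD (f : ℝ → ℕ → ℂ) (hf : ∀ X n, ‖f X n‖ ≤ 1) (hQ : QdSmallX f) : QSmallD f := by
  classical
  intro D hD h h1 h2 hh ε hε
  obtain ⟨C, hC, hCQ⟩ := dsumX_Qs h h1 h2 hh
  have h2one : (1 : ℝ) ≤ h2 := hh.one
  have h2pos : 0 < h2 := by linarith
  obtain ⟨-, hw0, hw1, -⟩ := ww_props
  -- the tail
  have hε' : 0 < ε / (4 * C * h2) := by positivity
  obtain ⟨s, hs⟩ := summable_iff_vanishing_norm.mp dsumC_summable _ hε'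
  set K : ℕ := s.sup id with hK
  have htail : ∀ N : ℕ, ∑ d ∈ (Icc 1 N).filter (fun d => K < d), dsumC d / d ≤ ε / (4 * C * h2) := by
    intro N
    have hd : Disjoint ((Icc 1 N).filter (fun d => K < d)) s := by
      rw [Finset.disjoint_left]
      intro d hd hds
      have h3 := (mem_filter.mp hd).2
      have h4 : d ≤ K := Finset.le_sup (f := id) hds
      omega
    exact (le_abs_self _).trans (hs _ hd).le
  set SK : ℝ := ∑ d ∈ Icc 1 K, dsumC d with hSK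
  have hSK0 : 0 ≤ SK := Finset.sum_nonneg (fun d _ => dsumC_nonneg d)
  set ε2 : ℝ := ε / (2 * (SK + 1)) with hε2
  have hε2pos : 0 < ε2 := by positivity
  have hex : ∀ d : ℕ, ∃ N0 : ℕ, 1 ≤ d → ∀ N : ℕ, N0 ≤ N → ∀ a : ℝ, 0 < a →
    ∀ᶠ Y : ℝ in atTop, ‖∑ n ∈ (Icc 1 N).filter (fun n => Nat.lcm d D ∣ n),
      ((kap n * ww ((n : ℝ) / N) : ℝ) : ℂ) *
      Qs (f (a * Y)) n (h2 * Y) (fun y t => ((h y ^ 2 * ps0 t : ℝ) : ℂ)) Y‖ ≤ ε2 * N * Y := by
    intro d
    by_cases hd : 1 ≤ d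
    · obtain ⟨N0, hN0⟩ := hQ (Nat.lcm d D) (Nat.lcm_pos hd hD) h h1 h2 hh ε2 hε2pos
      exact ⟨N0, fun _ => hN0⟩
    · exact ⟨0, fun h => absurd h hd⟩
  choose N0 hN0 using hex
  refine ⟨(Icc 1 K).sup N0, fun N hN a ha => ?_⟩
  have hsmall : ∀ᶠ Y : ℝ in atTop, ∀ d ∈ Icc 1 K, ‖∑ n ∈ (Icc 1 N).filter (fun n => Nat.lcm d D ∣ n),
      ((kap n * ww ((n : ℝ) / N) : ℝ) : ℂ) *
      Qs (f (a * Y)) n (h2 * Y) (fun y t => ((h y ^ 2 * ps0 t : ℝ) : ℂ)) Y‖ ≤ ε2 * N * Y := by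
    rw [Filter.eventually_all_finset]
    intro d hd
    exact hN0 d (mem_Icc.mp hd).1 N (le_trans (Finset.le_sup hd) hN) a ha
  filter_upwards [hsmall, eventually_ge_atTop (N : ℝ), eventually_gt_atTop (0 : ℝ)] with Y hY hYN hY0
  set Q : ℕ → ℂ := fun n => Qs (f (a * Y)) n (h2 * Y) (fun y t => ((h y ^ 2 * ps0 t : ℝ) : ℂ)) Y with hQdef
  set Z : ℕ → ℂ := fun d => ∑ n ∈ (Icc 1 N).filter (fun n => Nat.lcm d D ∣ n),
    ((kap n * ww ((n : ℝ) / N) : ℝ) : ℂ) * Q n with hZ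
  have hQb : ∀ n ∈ Icc 1 N, ‖Q n‖ ≤ C * (h2 * Y) := by
    intro n hn
    obtain ⟨hn1, hn2⟩ := mem_Icc.mp hn
    refine hCQ (f (a * Y)) (hf (a * Y)) n hn1 Y ?_
    have e1 : (n : ℝ) ≤ N := by exact_mod_cast hn2
    nlinarith
  have hZb : ∀ d ∈ Icc 1 N, ‖Z d‖ ≤ (N / d : ℝ) * (2 * (C * (h2 * Y))) := by
    intro d hd
    have hd1 := (mem_Icc.mp hd).1
    have hcard : (((Icc 1 N).filter (fun n => Nat.lcm d D ∣ n)).card : ℝ) ≤ (N / d : ℝ) := by
      have e0 : ((Icc 1 N).filter (fun n => Nat.lcm d D ∣ n)).card ≤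
          ((Icc 1 N).filter (fun n => d ∣ n)).card :=
        Finset.card_le_card (Finset.monotone_filter_right _
          (fun n _ hn => (Nat.dvd_lcm_left d D).trans hn))
      refine le_trans (Nat.cast_le.mpr e0) ?_
      have e1 : Icc 1 N = Ioc 0 N := by
        ext x
        rw [mem_Icc, mem_Ioc]
        omega
      rw [e1, Nat.Ioc_filter_dvd_card_eq_div]
      exact Nat.cast_div_le
    calc ‖Z d‖ ≤ ∑ n ∈ (Icc 1 N).filter (fun n => Nat.lcm d D ∣ n), (2 * (C * (h2 * Y))) := by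
          refine norm_sum_le_of_le _ (fun n hn => ?_)
          rw [norm_mul, Complex.norm_real, Real.norm_eq_abs]
          have k1 := dsum_kap n
          have k2 := hw0 ((n : ℝ) / N)
          have k3 := hw1 ((n : ℝ) / N)
          rw [abs_of_nonneg (mul_nonneg k1.1 k2)]
          have k4 : kap n * ww ((n : ℝ) / N) ≤ 2 := by nlinarith
          exact mul_le_mul k4 (hQb n (mem_filter.mp hn).1) (norm_nonneg _) (by norm_num)
      _ = (((Icc 1 N).filter (fun n => Nat.lcm d D ∣ n)).card : ℝ) * (2 * (C * (h2 * Y))) := by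
          rw [Finset.sum_const, nsmul_eq_mul]
      _ ≤ _ := mul_le_mul_of_nonneg_right hcard (by positivity)
  have hexch : ∑ n ∈ (Icc 1 N).filter (fun n => D ∣ n),
      ((kap n * (n / n.totient) * ww ((n : ℝ) / N) : ℝ) : ℂ) * Q n =
      ∑ d ∈ Icc 1 N, (dsumC d : ℂ) * Z d := by
    have e1 : ∀ n ∈ (Icc 1 N).filter (fun n => D ∣ n),
        ((kap n * (n / n.totient) * ww ((n : ℝ) / N) : ℝ) : ℂ) * Q n =
        ∑ d ∈ Icc 1 N, (if d ∣ n then (dsumC d : ℂ) * (((kap n * ww ((n : ℝ) / N) : ℝ) : ℂ) * Q n) else 0) := by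
      intro n hn
      obtain ⟨hn1, hn2⟩ := mem_Icc.mp (mem_filter.mp hn).1
      have e2 : n.divisors = (Icc 1 N).filter (fun d => d ∣ n) := by
        ext d
        rw [Nat.mem_divisors, mem_filter, mem_Icc]
        constructor
        · rintro ⟨h3, h4⟩
          have h5 := Nat.le_of_dvd hn1 h3
          have h6 := Nat.pos_of_dvd_of_pos h3 hn1
          exact ⟨⟨h6, by omega⟩, h3⟩
        · rintro ⟨_, h3⟩
          exact ⟨h3, by omega⟩
      rw [dsum_eq n hn1, ← Finset.sum_filter, ← e2, ← Finset.sum_mul]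
      push_cast
      ring
    rw [Finset.sum_congr rfl e1, Finset.sum_comm]
    refine Finset.sum_congr rfl (fun d _ => ?_)
    rw [← Finset.sum_filter, ← Finset.mul_sum, Finset.filter_filter]
    congr 1
    refine Finset.sum_congr (Finset.filter_congr (fun n _ => ?_)) (fun _ _ => rfl)
    rw [Nat.lcm_dvd_iff, and_comm]
  rw [hexch]
  have hsplit : ∑ d ∈ Icc 1 N, dsumC d * ‖Z d‖ =
      ∑ d ∈ (Icc 1 N).filter (fun d => d ≤ K), dsumC d * ‖Z d‖ +
      ∑ d ∈ (Icc 1 N).filter (fun d => K < d), dsumC d * ‖Z d‖ := by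
    rw [← Finset.sum_filter_add_sum_filter_not (Icc 1 N) (fun d => d ≤ K)]
    congr 1
    refine Finset.sum_congr ?_ (fun _ _ => rfl)
    refine Finset.filter_congr (fun d _ => ?_)
    omega
  have hpart1 : ∑ d ∈ (Icc 1 N).filter (fun d => d ≤ K), dsumC d * ‖Z d‖ ≤ ε / 2 * N * Y := by
    calc ∑ d ∈ (Icc 1 N).filter (fun d => d ≤ K), dsumC d * ‖Z d‖
        ≤ ∑ d ∈ (Icc 1 N).filter (fun d => d ≤ K), dsumC d * (ε2 * N * Y) := by
          refine Finset.sum_le_sum (fun d hd => ?_)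
          obtain ⟨hd1, hd2⟩ := mem_filter.mp hd
          exact mul_le_mul_of_nonneg_left (hY d (mem_Icc.mpr ⟨(mem_Icc.mp hd1).1, hd2⟩)) (dsumC_nonneg d)
      _ ≤ ∑ d ∈ Icc 1 K, dsumC d * (ε2 * N * Y) := by
          refine Finset.sum_le_sum_of_subset_of_nonneg ?_ (fun d _ _ => ?_)
          · intro d hd
            obtain ⟨hd1, hd2⟩ := mem_filter.mp hd
            exact mem_Icc.mpr ⟨(mem_Icc.mp hd1).1, hd2⟩
          · have := dsumC_nonneg d
            positivity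
      _ = SK * (ε2 * N * Y) := by rw [← Finset.sum_mul]
      _ ≤ (SK + 1) * (ε2 * N * Y) := mul_le_mul_of_nonneg_right (by linarith) (by positivity)
      _ = ε / 2 * N * Y := by
          rw [hε2]
          field_simp
  have hpart2 : ∑ d ∈ (Icc 1 N).filter (fun d => K < d), dsumC d * ‖Z d‖ ≤ ε / 2 * N * Y := by
    calc ∑ d ∈ (Icc 1 N).filter (fun d => K < d), dsumC d * ‖Z d‖
        ≤ ∑ d ∈ (Icc 1 N).filter (fun d => K < d), (dsumC d / d) * (2 * C * h2 * N * Y) := by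
          refine Finset.sum_le_sum (fun d hd => ?_)
          have h3 := hZb d (mem_filter.mp hd).1
          calc dsumC d * ‖Z d‖ ≤ dsumC d * ((N / d : ℝ) * (2 * (C * (h2 * Y)))) :=
                mul_le_mul_of_nonneg_left h3 (dsumC_nonneg d)
            _ = (dsumC d / d) * (2 * C * h2 * N * Y) := by ring
      _ = (∑ d ∈ (Icc 1 N).filter (fun d => K < d), dsumC d / d) * (2 * C * h2 * N * Y) := by
          rw [← Finset.sum_mul]
      _ ≤ (ε / (4 * C * h2)) * (2 * C * h2 * N * Y) :=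
          mul_le_mul_of_nonneg_right (htail N) (by positivity)
      _ = ε / 2 * N * Y := by
          field_simp
          ring
  calc ‖∑ d ∈ Icc 1 N, (dsumC d : ℂ) * Z d‖ ≤ ∑ d ∈ Icc 1 N, dsumC d * ‖Z d‖ := by
        refine norm_sum_le_of_le _ (fun d _ => ?_)
        rw [norm_mul, Complex.norm_real, Real.norm_eq_abs, abs_of_nonneg (dsumC_nonneg d)]
    _ ≤ ε * N * Y := by
        rw [hsplit]
        linarith

end Pool.Agent.FanL
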