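import Pool.Agent.Lib_MP_f1a94e_fl.PairLim

/-!
# Piece EIGHT: sign patterns of the Liouville function
-/

set_option autoImplicit false

namespace Pool.Agent.FanL

open Finset Pool.Agent.GaussMR Pool.Agent.OmAll Pool.Agent.OmEq Pool.Agent.LPr Pool.Agent.OrbL MeasureTheory Filter

/-- the Liouville function -/
def lam (n : ℕ) : ℤ := (-1) ^ ArithmeticFunction.cardFactors n

/-- the Liouville function at the `j`-th member: `λ((m + j d) ^ 2 + 1)` -/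
def lx (p : ℕ × ℕ) (j : ℕ) : ℤ := lam ((p.2 + j * p.1) ^ 2 + 1)

private theorem lam_sign (n : ℕ) : lam n = 1 ∨ lam n = -1 := by
  unfold lam
  exact neg_one_pow_eq_or ℤ _

private theorem lx_sign (p : ℕ × ℕ) (j : ℕ) : lx p j = 1 ∨ lx p j = -1 := lam_sign _

private theorem lam_sq (n : ℕ) : lam n * lam n = 1 := by
  rcases lam_sign n with h | h <;> rw [h] <;> norm_num

private theorem er_ne {p : ℕ × ℕ} (h : p.1 ∣ p.2 ^ 2 + 1) (j : ℕ) : er p j ≠ 0 := by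
  intro h0
  have h1 := er_mul h j
  rw [h0, mul_zero] at h1
  exact absurd h1.symm (Nat.succ_ne_zero _)

private theorem fx_lam (X : ℝ) {n : ℕ} (hn : n ≠ 0) :
    fx 1 (-1) (fun _ => 1) X n = ((lam n : ℝ) : ℂ) := by
  rw [fx_const]
  unfold fz lam
  rw [if_neg (by
    rintro (h | h)
    · exact hn h
    · exact h (Nat.coprime_one_right n))]
  push_cast
  rfl

private theorem fx_one (X : ℝ) {n : ℕ} (hn : n ≠ 0) : fx 1 1 (fun _ => 1) X n = 1 := by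
  rw [fx_const]
  unfold fz
  rw [if_neg (by
    rintro (h | h)
    · exact hn h
    · exact h (Nat.coprime_one_right n)), one_pow]

private theorem mm_neg (φ : ℝ → ℂ) : mm (-1) φ = 0 := by
  unfold mm
  rw [if_neg]
  norm_num

private theorem real_of (α β : ℝ) (g : ℕ × ℕ → ℝ) (F : ℝ → ℕ × ℕ → ℂ)
    (hF : ∀ X, 0 ≤ X → ∀ p ∈ DP X α β, F X p = ((g p : ℝ) : ℂ))
    (h : Tendsto (fun X : ℝ => (∑ p ∈ DP X α β, F X p) / X) atTop (nhds 0)) :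
    Tendsto (fun X : ℝ => (∑ p ∈ DP X α β, g p) / X) atTop (nhds 0) := by
  have h2 := (Complex.continuous_re.tendsto 0).comp h
  rw [Complex.zero_re] at h2
  refine h2.congr' ?_
  filter_upwards [eventually_ge_atTop (0 : ℝ)] with X hX
  have e : ∑ p ∈ DP X α β, F X p = ((∑ p ∈ DP X α β, g p : ℝ) : ℂ) := by
    rw [Complex.ofReal_sum]
    exact Finset.sum_congr rfl fun p hp => hF X hX p hp
  change ((∑ p ∈ DP X α β, F X p) / X).re = _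
  rw [e, ← Complex.ofReal_div, Complex.ofReal_re]

private theorem dp_split (X : ℝ) (hX : 0 ≤ X) {α β γ : ℝ} (hα : α ≤ β) (hβ : β ≤ γ)
    (g : ℕ × ℕ → ℝ) :
    ∑ p ∈ DP X α γ, g p = ∑ p ∈ DP X α β, g p + ∑ p ∈ DP X β γ, g p := by
  classical
  rw [← Finset.sum_filter_add_sum_filter_not (DP X α γ) (fun p => (p.2 : ℝ) < β * p.1) g]
  congr 1
  · refine Finset.sum_congr ?_ fun _ _ => rfl
    ext p
    rw [mem_filter, mem_DP hX, mem_DP hX]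
    constructor
    · rintro ⟨⟨h1, h2, h3, _, h5⟩, h6⟩
      exact ⟨h1, h2, h3, h6, h5⟩
    · rintro ⟨h1, h2, h3, h4, h5⟩
      have h7 : (0 : ℝ) ≤ p.1 := Nat.cast_nonneg _
      exact ⟨⟨h1, h2, h3, h4.trans_le (mul_le_mul_of_nonneg_right hβ h7), h5⟩, h4⟩
  · refine Finset.sum_congr ?_ fun _ _ => rfl
    ext p
    rw [mem_filter, mem_DP hX, mem_DP hX]
    constructor
    · rintro ⟨⟨h1, h2, _, h4, h5⟩, h6⟩
      exact ⟨h1, h2, not_lt.1 h6, h4, h5⟩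
    · rintro ⟨h1, h2, h3, h4, h5⟩
      have h7 : (0 : ℝ) ≤ p.1 := Nat.cast_nonneg _
      exact ⟨⟨h1, h2, (mul_le_mul_of_nonneg_right hα h7).trans h3, h4, h5⟩, not_lt.2 h3⟩

private theorem ind_sign {x s : ℤ} (hx : x = 1 ∨ x = -1) (hs : s = 1 ∨ s = -1) :
    (if x = s then (1 : ℝ) else 0) = (1 + s * x) / 2 := by
  rcases hx with rfl | rfl <;> rcases hs with rfl | rfl <;> norm_num

/-- PROOF. `(m + j d)^2 + 1 = d * er p j` (`er_mul`, `d ∣ m^2 + 1`), `Ω` additive (`er p j ≠ 0`). -/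
theorem lx_eq {p : ℕ × ℕ} (hp : 0 < p.1) (h : p.1 ∣ p.2 ^ 2 + 1) (j : ℕ) : lx p j = lam p.1 * lam (er p j) := by
  unfold lx lam
  rw [← er_mul h j, ArithmeticFunction.cardFactors_mul hp.ne' (er_ne h j), pow_add]

/-- PROOF. `dp_edge` with `w1 = w2 = -1`, `φ1 = φ2 = 1` (`stepf_one`; `fx 1 (-1) 1 X n = lam n` for `n ≠ 0`: `fx_const`, `fz`; `mm (-1) _ = 0`), `lx_eq`. -/
theorem lx_mean (j : ℕ) (α β : ℝ) (hα : 0 ≤ α) (hαβ : α ≤ β) :
    Tendsto (fun X : ℝ => (∑ p ∈ DP X α β, (lx p j : ℝ)) / X) atTop (nhds 0) := by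
  refine real_of α β (fun p => (lx p j : ℝ)) _ ?_
    (dp_edge j (-1) (-1) (by norm_num) (by norm_num) _ _ stepf_one stepf_one α β hα hαβ)
  intro X hX p hp
  obtain ⟨h1, _, _, _, h5⟩ := (mem_DP hX).1 hp
  rw [fx_lam X h1.ne', fx_lam X (er_ne h5 j), mm_neg, mul_zero, sub_zero, ← Complex.ofReal_mul,
    lx_eq h1 h5 j, Int.cast_mul]

/-- PROOF. `lx p i * lx p j = lam (er p i) * lam (er p j)` (`lam p.1 ^ 2 = 1`), `dp_pair` with `w1 = w2 = -1`. -/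
theorem lx_pair (i j : ℕ) (hij : i ≠ j) (α β : ℝ) (hα : 0 ≤ α) (hαβ : α ≤ β) :
    Tendsto (fun X : ℝ => (∑ p ∈ DP X α β, (lx p i : ℝ) * lx p j) / X) atTop (nhds 0) := by
  refine real_of α β (fun p => (lx p i : ℝ) * lx p j) _ ?_
    (dp_pair i j hij (-1) (-1) (by norm_num) (by norm_num) _ _ stepf_one stepf_one α β hα hαβ)
  intro X hX p hp
  obtain ⟨h1, _, _, _, h5⟩ := (mem_DP hX).1 hp
  rw [fx_lam X (er_ne h5 i), fx_lam X (er_ne h5 j), mm_neg, mul_zero, sub_zero,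
    ← Complex.ofReal_mul, lx_eq h1 h5 i, lx_eq h1 h5 j]
  congr 1
  have h6 : ((lam p.1 : ℤ) : ℝ) * lam p.1 = 1 := by exact_mod_cast lam_sq p.1
  rw [Int.cast_mul, Int.cast_mul]
  linear_combination (-((lam (er p i) : ℤ) : ℝ) * lam (er p j)) * h6

/-- PROOF. `dp_edge` with `w1 = -1`, `w2 = 1` (`mm (-1) _ = 0`, `fx 1 1 1 X n = 1`). -/
theorem lam_mean (α β : ℝ) (hα : 0 ≤ α) (hαβ : α ≤ β) :
    Tendsto (fun X : ℝ => (∑ p ∈ DP X α β, (lam p.1 : ℝ)) / X) atTop (nhds 0) := by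
  refine real_of α β (fun p => (lam p.1 : ℝ)) _ ?_
    (dp_edge 0 (-1) 1 (by norm_num) (by norm_num) _ _ stepf_one stepf_one α β hα hαβ)
  intro X hX p hp
  obtain ⟨h1, _, _, _, h5⟩ := (mem_DP hX).1 hp
  rw [fx_lam X h1.ne', fx_one X (er_ne h5 0), mm_neg, zero_mul, sub_zero, mul_one]

/-- PROOF. `lam p.1 * lx p j = lam (er p j)`; `dp_edge` with `w1 = 1`, `w2 = -1`. -/
theorem lam_pair (j : ℕ) (α β : ℝ) (hα : 0 ≤ α) (hαβ : α ≤ β) :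
    Tendsto (fun X : ℝ => (∑ p ∈ DP X α β, (lam p.1 : ℝ) * lx p j) / X) atTop (nhds 0) := by
  refine real_of α β (fun p => (lam p.1 : ℝ) * lx p j) _ ?_
    (dp_edge j 1 (-1) (by norm_num) (by norm_num) _ _ stepf_one stepf_one α β hα hαβ)
  intro X hX p hp
  obtain ⟨h1, _, _, _, h5⟩ := (mem_DP hX).1 hp
  rw [fx_one X h1.ne', fx_lam X (er_ne h5 j), mm_neg, mul_zero, sub_zero, one_mul,
    lx_eq h1 h5 j]
  congr 1
  have h6 : ((lam p.1 : ℤ) : ℝ) * lam p.1 = 1 := by exact_mod_cast lam_sq p.1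
  rw [Int.cast_mul]
  linear_combination (-((lam (er p j) : ℤ) : ℝ)) * h6

open Classical in
/-- PROOF. `[x = s][y = t] = (1 + s x)(1 + t y)/4` for signs; `lx_mean`, `lx_pair`, `hκ`. -/
theorem four_pat (κ : ℝ) (hκ : ∀ α β : ℝ, 0 ≤ α → α ≤ β →
      Tendsto (fun X : ℝ => ((DP X α β).card : ℝ) / X) atTop (nhds (κ * (β - α))))
    (i j : ℕ) (hij : i ≠ j) (s t : ℤ) (hs : s = 1 ∨ s = -1) (ht : t = 1 ∨ t = -1) (α β : ℝ) (hα : 0 ≤ α) (hαβ : α ≤ β) :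
    Tendsto (fun X : ℝ => (((DP X α β).filter (fun p => lx p i = s ∧ lx p j = t)).card : ℝ) / X) atTop
      (nhds (κ * (β - α) / 4)) := by
  have e : ∀ X : ℝ, (((DP X α β).filter (fun p => lx p i = s ∧ lx p j = t)).card : ℝ) / X =
      (((DP X α β).card : ℝ) / X + s * ((∑ p ∈ DP X α β, (lx p i : ℝ)) / X) +
        t * ((∑ p ∈ DP X α β, (lx p j : ℝ)) / X) +
        s * t * ((∑ p ∈ DP X α β, (lx p i : ℝ) * lx p j) / X)) / 4 := by
    intro X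
    have h1 : (((DP X α β).filter (fun p => lx p i = s ∧ lx p j = t)).card : ℝ) =
        ∑ p ∈ DP X α β, (1 + s * (lx p i : ℝ) + t * (lx p j : ℝ) +
          s * t * ((lx p i : ℝ) * lx p j)) / 4 := by
      rw [Finset.card_filter, Nat.cast_sum]
      refine Finset.sum_congr rfl fun p _ => ?_
      have h2 : ((if lx p i = s ∧ lx p j = t then 1 else 0 : ℕ) : ℝ) =
          (if lx p i = s then (1 : ℝ) else 0) * (if lx p j = t then (1 : ℝ) else 0) := by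
        by_cases ha : lx p i = s <;> by_cases hb : lx p j = t <;> simp [ha, hb]
      rw [h2, ind_sign (lx_sign p i) hs, ind_sign (lx_sign p j) ht]
      ring
    rw [h1, ← Finset.sum_div, Finset.sum_add_distrib, Finset.sum_add_distrib,
      Finset.sum_add_distrib, ← Finset.mul_sum, ← Finset.mul_sum, ← Finset.mul_sum,
      Finset.sum_const, nsmul_eq_mul, mul_one]
    ring
  have h := (((hκ α β hα hαβ).add ((lx_mean i α β hα hαβ).const_mul (s : ℝ))).add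
    ((lx_mean j α β hα hαβ).const_mul (t : ℝ))).add
    ((lx_pair i j hij α β hα hαβ).const_mul ((s : ℝ) * t))
  have h2 := h.div_const 4
  rw [mul_zero, mul_zero, mul_zero, add_zero, add_zero, add_zero] at h2
  refine h2.congr fun X => ?_
  exact (e X).symm

private theorem eight_gen (κ : ℝ) (hκ : ∀ α β : ℝ, 0 ≤ α → α ≤ β →
      Tendsto (fun X : ℝ => ((DP X α β).card : ℝ) / X) atTop (nhds (κ * (β - α))))
    (s0 s1 s2 : ℤ) (h0 : s0 = 1 ∨ s0 = -1) (h1 : s1 = 1 ∨ s1 = -1) (h2 : s2 = 1 ∨ s2 = -1)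
    (L : ℕ) (ε : ℝ) (hε : 0 < ε) (y0 y1 y2 w : ℕ × ℕ → ℤ) (hy0 : ∀ p, y0 p = 1 ∨ y0 p = -1)
    (hy1 : ∀ p, y1 p = 1 ∨ y1 p = -1) (hy2 : ∀ p, y2 p = 1 ∨ y2 p = -1)
    (hw : ∀ p, w p = 1 ∨ w p = -1)
    (m0 : Tendsto (fun X : ℝ => (∑ p ∈ DP X 0 L, (y0 p : ℝ)) / X) atTop (nhds 0))
    (m1 : Tendsto (fun X : ℝ => (∑ p ∈ DP X 0 L, (y1 p : ℝ)) / X) atTop (nhds 0))
    (m2 : Tendsto (fun X : ℝ => (∑ p ∈ DP X 0 L, (y2 p : ℝ)) / X) atTop (nhds 0))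
    (m01 : Tendsto (fun X : ℝ => (∑ p ∈ DP X 0 L, (y0 p : ℝ) * y1 p) / X) atTop (nhds 0))
    (m02 : Tendsto (fun X : ℝ => (∑ p ∈ DP X 0 L, (y0 p : ℝ) * y2 p) / X) atTop (nhds 0))
    (m12 : Tendsto (fun X : ℝ => (∑ p ∈ DP X 0 L, (y1 p : ℝ) * y2 p) / X) atTop (nhds 0))
    (mw : Tendsto (fun X : ℝ => (∑ p ∈ DP X 0 L, (y0 p : ℝ) * y1 p * y2 p * w p) / X) atTop
      (nhds 0))
    (hsh : ∀ X : ℝ, 0 ≤ X → ∑ p ∈ DP X 0 L, (w p : ℝ) =
      ∑ p ∈ DP X 1 (L + 1), (y0 p : ℝ) * y1 p * y2 p) :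
    ∀ᶠ X : ℝ in atTop, (κ * (L / 16 - 1 / 8) - ε) * X ≤
      (((DP X 0 L).filter (fun p => y0 p = s0 ∧ y1 p = s1 ∧ y2 p = s2)).card : ℝ) := by
  have hL0 : (0 : ℝ) ≤ L := Nat.cast_nonneg L
  have ta := hκ 0 L le_rfl hL0
  have tb := hκ 0 1 le_rfl zero_le_one
  have tc := hκ L (L + 1) hL0 (by linarith)
  have hlim : Tendsto (fun X : ℝ => (((DP X 0 L).card : ℝ) / X / 2 -
      |(∑ p ∈ DP X 0 L, (y0 p : ℝ)) / X| - |(∑ p ∈ DP X 0 L, (y1 p : ℝ)) / X| -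
      |(∑ p ∈ DP X 0 L, (y2 p : ℝ)) / X| - |(∑ p ∈ DP X 0 L, (y0 p : ℝ) * y1 p) / X| -
      |(∑ p ∈ DP X 0 L, (y0 p : ℝ) * y2 p) / X| - |(∑ p ∈ DP X 0 L, (y1 p : ℝ) * y2 p) / X| -
      (∑ p ∈ DP X 0 L, (y0 p : ℝ) * y1 p * y2 p * w p) / X / 2 -
      (((DP X 0 1).card : ℝ) / X + ((DP X L (L + 1)).card : ℝ) / X) / 2) / 8) atTop
      (nhds (κ * (L / 16 - 1 / 8))) := by
    have h := ((((((((ta.div_const 2).sub m0.abs).sub m1.abs).sub m2.abs).sub m01.abs).sub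
      m02.abs).sub m12.abs).sub (mw.div_const 2)).sub ((tb.add tc).div_const 2)
    have h' := h.div_const 8
    have e : (κ * ((L : ℝ) - 0) / 2 - |(0 : ℝ)| - |(0 : ℝ)| - |(0 : ℝ)| - |(0 : ℝ)| - |(0 : ℝ)| -
        |(0 : ℝ)| - 0 / 2 - (κ * ((1 : ℝ) - 0) + κ * ((L : ℝ) + 1 - L)) / 2) / 8 =
        κ * (L / 16 - 1 / 8) := by
      rw [abs_zero]
      ring
    rw [e] at h'
    exact h'
  have hev := hlim.eventually (lt_mem_nhds (sub_lt_self _ hε))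
  filter_upwards [hev, eventually_gt_atTop (0 : ℝ)] with X hX hX0
  rw [← le_div_iff₀ hX0]
  refine hX.le.trans ?_
  have u_le : ∀ p : ℕ × ℕ, |(y0 p : ℝ) * y1 p * y2 p| ≤ 1 := by
    intro p
    rcases hy0 p with a | a <;> rcases hy1 p with b | b <;> rcases hy2 p with c | c <;>
      rw [a, b, c] <;> norm_num
  -- the count
  have hN : (((DP X 0 L).filter (fun p => y0 p = s0 ∧ y1 p = s1 ∧ y2 p = s2)).card : ℝ) =
      (((DP X 0 L).card : ℝ) + s0 * (∑ p ∈ DP X 0 L, (y0 p : ℝ)) +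
        s1 * (∑ p ∈ DP X 0 L, (y1 p : ℝ)) + s2 * (∑ p ∈ DP X 0 L, (y2 p : ℝ)) +
        s0 * s1 * (∑ p ∈ DP X 0 L, (y0 p : ℝ) * y1 p) +
        s0 * s2 * (∑ p ∈ DP X 0 L, (y0 p : ℝ) * y2 p) +
        s1 * s2 * (∑ p ∈ DP X 0 L, (y1 p : ℝ) * y2 p) +
        s0 * s1 * s2 * (∑ p ∈ DP X 0 L, (y0 p : ℝ) * y1 p * y2 p)) / 8 := by
    rw [Finset.card_filter, Nat.cast_sum]
    have h3 : ∀ p : ℕ × ℕ, ((if y0 p = s0 ∧ y1 p = s1 ∧ y2 p = s2 then 1 else 0 : ℕ) : ℝ) =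
        (1 + s0 * (y0 p : ℝ) + s1 * (y1 p : ℝ) + s2 * (y2 p : ℝ) +
          s0 * s1 * ((y0 p : ℝ) * y1 p) + s0 * s2 * ((y0 p : ℝ) * y2 p) +
          s1 * s2 * ((y1 p : ℝ) * y2 p) + s0 * s1 * s2 * ((y0 p : ℝ) * y1 p * y2 p)) / 8 := by
      intro p
      have h4 : ((if y0 p = s0 ∧ y1 p = s1 ∧ y2 p = s2 then 1 else 0 : ℕ) : ℝ) =
          (if y0 p = s0 then (1 : ℝ) else 0) * ((if y1 p = s1 then (1 : ℝ) else 0) *
            (if y2 p = s2 then (1 : ℝ) else 0)) := by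
        by_cases ha : y0 p = s0 <;> by_cases hb : y1 p = s1 <;> by_cases hc : y2 p = s2 <;>
          simp [ha, hb, hc]
      rw [h4, ind_sign (hy0 p) h0, ind_sign (hy1 p) h1, ind_sign (hy2 p) h2]
      ring
    rw [Finset.sum_congr rfl fun p _ => h3 p, ← Finset.sum_div]
    simp only [Finset.sum_add_distrib, ← Finset.mul_sum]
    rw [Finset.sum_const, nsmul_eq_mul, mul_one]
  -- the sum of `u`
  set U : ℝ := ∑ p ∈ DP X 0 L, (y0 p : ℝ) * y1 p * y2 p with hU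
  set W : ℝ := ∑ p ∈ DP X 0 L, (w p : ℝ) with hW
  have hUW : |U + W| ≤ ((DP X 0 L).card : ℝ) +
      ∑ p ∈ DP X 0 L, (y0 p : ℝ) * y1 p * y2 p * w p := by
    have e1 : ((DP X 0 L).card : ℝ) + ∑ p ∈ DP X 0 L, (y0 p : ℝ) * y1 p * y2 p * w p =
        ∑ p ∈ DP X 0 L, (1 + (y0 p : ℝ) * y1 p * y2 p * w p) := by
      rw [Finset.sum_add_distrib, Finset.sum_const, nsmul_eq_mul, mul_one]
    rw [e1, hU, hW, ← Finset.sum_add_distrib]
    refine (Finset.abs_sum_le_sum_abs _ _).trans (Finset.sum_le_sum fun p _ => ?_)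
    rcases hy0 p with a | a <;> rcases hy1 p with b | b <;> rcases hy2 p with c | c <;>
      rcases hw p with d | d <;> rw [a, b, c, d] <;> norm_num
  have hWU : |W - U| ≤ ((DP X 0 1).card : ℝ) + ((DP X L (L + 1)).card : ℝ) := by
    have e1 := dp_split X hX0.le (zero_le_one : (0 : ℝ) ≤ 1) (by linarith : (1 : ℝ) ≤ L + 1)
      (fun p => (y0 p : ℝ) * y1 p * y2 p)
    have e2 := dp_split X hX0.le hL0 (by linarith : (L : ℝ) ≤ L + 1)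
      (fun p => (y0 p : ℝ) * y1 p * y2 p)
    have e3 := hsh X hX0.le
    have b1 : |∑ p ∈ DP X 0 1, (y0 p : ℝ) * y1 p * y2 p| ≤ ((DP X 0 1).card : ℝ) := by
      refine (Finset.abs_sum_le_sum_abs _ _).trans ?_
      refine (Finset.sum_le_sum fun p _ => u_le p).trans ?_
      rw [Finset.sum_const, nsmul_eq_mul, mul_one]
    have b2 : |∑ p ∈ DP X L (L + 1), (y0 p : ℝ) * y1 p * y2 p| ≤
        ((DP X L (L + 1)).card : ℝ) := by
      refine (Finset.abs_sum_le_sum_abs _ _).trans ?_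
      refine (Finset.sum_le_sum fun p _ => u_le p).trans ?_
      rw [Finset.sum_const, nsmul_eq_mul, mul_one]
    have e4 : W - U = ∑ p ∈ DP X L (L + 1), (y0 p : ℝ) * y1 p * y2 p -
        ∑ p ∈ DP X 0 1, (y0 p : ℝ) * y1 p * y2 p := by
      rw [hW, e3, hU]
      linarith
    rw [e4]
    have := abs_sub (∑ p ∈ DP X L (L + 1), (y0 p : ℝ) * y1 p * y2 p)
      (∑ p ∈ DP X 0 1, (y0 p : ℝ) * y1 p * y2 p)
    linarith
  have hU2 : 2 * |U| ≤ ((DP X 0 L).card : ℝ) +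
      (∑ p ∈ DP X 0 L, (y0 p : ℝ) * y1 p * y2 p * w p) +
      (((DP X 0 1).card : ℝ) + ((DP X L (L + 1)).card : ℝ)) := by
    have e1 : 2 * |U| = |(U + W) - (W - U)| := by
      have : (U + W) - (W - U) = 2 * U := by ring
      rw [this, abs_mul, abs_two]
    rw [e1]
    have := abs_sub (U + W) (W - U)
    linarith
  -- signs
  have sg : ∀ (s : ℝ) (z : ℝ), |s| = 1 → -|z| ≤ s * z := by
    intro s z hs
    have := neg_abs_le (s * z)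
    rwa [abs_mul, hs, one_mul] at this
  have a0 : |(s0 : ℝ)| = 1 := by rcases h0 with h | h <;> rw [h] <;> norm_num
  have a1 : |(s1 : ℝ)| = 1 := by rcases h1 with h | h <;> rw [h] <;> norm_num
  have a2 : |(s2 : ℝ)| = 1 := by rcases h2 with h | h <;> rw [h] <;> norm_num
  have a01 : |(s0 : ℝ) * s1| = 1 := by rw [abs_mul, a0, a1, one_mul]
  have a02 : |(s0 : ℝ) * s2| = 1 := by rw [abs_mul, a0, a2, one_mul]
  have a12 : |(s1 : ℝ) * s2| = 1 := by rw [abs_mul, a1, a2, one_mul]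
  have a012 : |(s0 : ℝ) * s1 * s2| = 1 := by rw [abs_mul, a01, a2, one_mul]
  have g0 := sg s0 (∑ p ∈ DP X 0 L, (y0 p : ℝ)) a0
  have g1 := sg s1 (∑ p ∈ DP X 0 L, (y1 p : ℝ)) a1
  have g2 := sg s2 (∑ p ∈ DP X 0 L, (y2 p : ℝ)) a2
  have g01 := sg (s0 * s1) (∑ p ∈ DP X 0 L, (y0 p : ℝ) * y1 p) a01
  have g02 := sg (s0 * s2) (∑ p ∈ DP X 0 L, (y0 p : ℝ) * y2 p) a02
  have g12 := sg (s1 * s2) (∑ p ∈ DP X 0 L, (y1 p : ℝ) * y2 p) a12
  have g012 := sg (s0 * s1 * s2) U a012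
  rw [hN]
  simp only [abs_div, abs_of_pos hX0]
  have e5 : (((DP X 0 L).card : ℝ) / X / 2 -
      |∑ p ∈ DP X 0 L, (y0 p : ℝ)| / X - |∑ p ∈ DP X 0 L, (y1 p : ℝ)| / X -
      |∑ p ∈ DP X 0 L, (y2 p : ℝ)| / X - |∑ p ∈ DP X 0 L, (y0 p : ℝ) * y1 p| / X -
      |∑ p ∈ DP X 0 L, (y0 p : ℝ) * y2 p| / X - |∑ p ∈ DP X 0 L, (y1 p : ℝ) * y2 p| / X -
      (∑ p ∈ DP X 0 L, (y0 p : ℝ) * y1 p * y2 p * w p) / X / 2 -
      (((DP X 0 1).card : ℝ) / X + ((DP X L (L + 1)).card : ℝ) / X) / 2) / 8 =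
      ((((DP X 0 L).card : ℝ) / 2 -
      |∑ p ∈ DP X 0 L, (y0 p : ℝ)| - |∑ p ∈ DP X 0 L, (y1 p : ℝ)| -
      |∑ p ∈ DP X 0 L, (y2 p : ℝ)| - |∑ p ∈ DP X 0 L, (y0 p : ℝ) * y1 p| -
      |∑ p ∈ DP X 0 L, (y0 p : ℝ) * y2 p| - |∑ p ∈ DP X 0 L, (y1 p : ℝ) * y2 p| -
      (∑ p ∈ DP X 0 L, (y0 p : ℝ) * y1 p * y2 p * w p) / 2 -
      (((DP X 0 1).card : ℝ) + ((DP X L (L + 1)).card : ℝ)) / 2) / 8) / X := by
    ring
  rw [e5]
  refine div_le_div_of_nonneg_right ?_ hX0.le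
  linarith

open Classical in
/-- PROOF. Let `x_j = lx p j`, `u_j = x_j x_(j+1) x_(j+2)`, sums over `p ∈ DP X 0 L`. `[pattern] = (1 + s0 x_0)(1 + s1 x_1)(1 + s2 x_2)/8`, so by `lx_mean`, `lx_pair`, `hκ` the number is `(κ L X + s0 s1 s2 ∑ u_0)/8 + o(X)`.
`u_0 u_1 = x_0 x_3` and `|u_0 + u_1| = 1 + u_0 u_1` (signs), so `|∑ (u_0 + u_1)| ≤ ∑ (1 + x_0 x_3) = κ L X + o(X)`. `∑_(DP X 0 L) u_1 = ∑_(DP X 1 (L+1)) u_0` (`dp_shift` with `j = 1`: `u_1` is a function of `(p.1, p.2 + p.1)`), which differs from `∑_(DP X 0 L) u_0` by at most `#DP X 0 1 + #DP X L (L+1) = 2 κ X + o(X)`.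
So `|2 ∑ u_0| ≤ κ (L + 2) X + o(X)` and the number is at least `(κ L - κ (L/2 + 1)) X/8 - o(X)`. -/
theorem eight_a (κ : ℝ) (hκ : ∀ α β : ℝ, 0 ≤ α → α ≤ β →
      Tendsto (fun X : ℝ => ((DP X α β).card : ℝ) / X) atTop (nhds (κ * (β - α))))
    (s0 s1 s2 : ℤ) (h0 : s0 = 1 ∨ s0 = -1) (h1 : s1 = 1 ∨ s1 = -1) (h2 : s2 = 1 ∨ s2 = -1) (L : ℕ) (ε : ℝ) (hε : 0 < ε) :
    ∀ᶠ X : ℝ in atTop, (κ * (L / 16 - 1 / 8) - ε) * X ≤
      (((DP X 0 L).filter (fun p => lx p 0 = s0 ∧ lx p 1 = s1 ∧ lx p 2 = s2)).card : ℝ) := by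
  have hL0 : (0 : ℝ) ≤ L := Nat.cast_nonneg L
  refine eight_gen κ hκ s0 s1 s2 h0 h1 h2 L ε hε (fun p => lx p 0) (fun p => lx p 1)
    (fun p => lx p 2) (fun p => lx p 1 * lx p 2 * lx p 3) (fun p => lx_sign p 0)
    (fun p => lx_sign p 1) (fun p => lx_sign p 2) ?_ (lx_mean 0 0 L le_rfl hL0)
    (lx_mean 1 0 L le_rfl hL0) (lx_mean 2 0 L le_rfl hL0)
    (lx_pair 0 1 (by norm_num) 0 L le_rfl hL0) (lx_pair 0 2 (by norm_num) 0 L le_rfl hL0)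
    (lx_pair 1 2 (by norm_num) 0 L le_rfl hL0) ?_ ?_
  · intro p
    rcases lx_sign p 1 with a | a <;> rcases lx_sign p 2 with b | b <;>
      rcases lx_sign p 3 with c | c <;> simp [a, b, c]
  · refine (lx_pair 0 3 (by norm_num) 0 L le_rfl hL0).congr fun X => ?_
    congr 1
    refine Finset.sum_congr rfl fun p _ => ?_
    rcases lx_sign p 1 with a | a <;> rcases lx_sign p 2 with b | b <;> simp [a, b]
  · intro X hX
    have h := dp_shift X 0 L hX le_rfl 1 (fun d m _ =>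
      (((lam (m ^ 2 + 1) * lam ((m + d) ^ 2 + 1) * lam ((m + 2 * d) ^ 2 + 1) : ℤ) : ℝ) : ℂ))
    rw [← Complex.ofReal_sum, ← Complex.ofReal_sum, Complex.ofReal_inj, zero_add, Nat.cast_one] at h
    have e1 : ∑ p ∈ DP X 0 L, ((lx p 1 * lx p 2 * lx p 3 : ℤ) : ℝ) =
        ∑ p ∈ DP X 0 L, ((lam ((p.2 + 1 * p.1) ^ 2 + 1) * lam ((p.2 + 1 * p.1 + p.1) ^ 2 + 1) *
          lam ((p.2 + 1 * p.1 + 2 * p.1) ^ 2 + 1) : ℤ) : ℝ) := by
      refine Finset.sum_congr rfl fun p _ => ?_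
      unfold lx
      have a1 : p.2 + 2 * p.1 = p.2 + 1 * p.1 + p.1 := by ring
      have a2 : p.2 + 3 * p.1 = p.2 + 1 * p.1 + 2 * p.1 := by ring
      rw [a1, a2]
    refine (e1.trans h).trans ?_
    refine Finset.sum_congr rfl fun p _ => ?_
    unfold lx
    push_cast
    simp only [zero_mul, add_zero, one_mul]

open Classical in
/-- PROOF. As `eight_a` with `(lam p.1, x_0, x_1)`: the pair sums by `lam_pair`, `lx_pair`; `v_j = lam p.1 * x_j * x_(j+1)`, `v_0 v_1 = x_0 x_2`, shift as before. -/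
theorem eight_b (κ : ℝ) (hκ : ∀ α β : ℝ, 0 ≤ α → α ≤ β →
      Tendsto (fun X : ℝ => ((DP X α β).card : ℝ) / X) atTop (nhds (κ * (β - α))))
    (s0 s1 s2 : ℤ) (h0 : s0 = 1 ∨ s0 = -1) (h1 : s1 = 1 ∨ s1 = -1) (h2 : s2 = 1 ∨ s2 = -1) (L : ℕ) (ε : ℝ) (hε : 0 < ε) :
    ∀ᶠ X : ℝ in atTop, (κ * (L / 16 - 1 / 8) - ε) * X ≤
      (((DP X 0 L).filter (fun p => lam p.1 = s0 ∧ lx p 0 = s1 ∧ lx p 1 = s2)).card : ℝ) := by
  have hL0 : (0 : ℝ) ≤ L := Nat.cast_nonneg L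
  refine eight_gen κ hκ s0 s1 s2 h0 h1 h2 L ε hε (fun p => lam p.1) (fun p => lx p 0)
    (fun p => lx p 1) (fun p => lam p.1 * lx p 1 * lx p 2) (fun p => lam_sign p.1)
    (fun p => lx_sign p 0) (fun p => lx_sign p 1) ?_ (lam_mean 0 L le_rfl hL0)
    (lx_mean 0 0 L le_rfl hL0) (lx_mean 1 0 L le_rfl hL0)
    (lam_pair 0 0 L le_rfl hL0) (lam_pair 1 0 L le_rfl hL0)
    (lx_pair 0 1 (by norm_num) 0 L le_rfl hL0) ?_ ?_
  · intro p
    rcases lam_sign p.1 with a | a <;> rcases lx_sign p 1 with b | b <;>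
      rcases lx_sign p 2 with c | c <;> simp [a, b, c]
  · refine (lx_pair 0 2 (by norm_num) 0 L le_rfl hL0).congr fun X => ?_
    congr 1
    refine Finset.sum_congr rfl fun p _ => ?_
    rcases lam_sign p.1 with a | a <;> rcases lx_sign p 1 with b | b <;> simp [a, b]
  · intro X hX
    have h := dp_shift X 0 L hX le_rfl 1 (fun d m _ =>
      (((lam d * lam (m ^ 2 + 1) * lam ((m + d) ^ 2 + 1) : ℤ) : ℝ) : ℂ))
    rw [← Complex.ofReal_sum, ← Complex.ofReal_sum, Complex.ofReal_inj, zero_add, Nat.cast_one] at h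
    have e1 : ∑ p ∈ DP X 0 L, ((lam p.1 * lx p 1 * lx p 2 : ℤ) : ℝ) =
        ∑ p ∈ DP X 0 L, ((lam p.1 * lam ((p.2 + 1 * p.1) ^ 2 + 1) *
          lam ((p.2 + 1 * p.1 + p.1) ^ 2 + 1) : ℤ) : ℝ) := by
      refine Finset.sum_congr rfl fun p _ => ?_
      unfold lx
      have a1 : p.2 + 2 * p.1 = p.2 + 1 * p.1 + p.1 := by ring
      rw [a1]
    refine (e1.trans h).trans ?_
    refine Finset.sum_congr rfl fun p _ => ?_
    unfold lx
    push_cast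
    simp only [zero_mul, add_zero, one_mul]

end Pool.Agent.FanL
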