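import Pool.Agent.Lib_MP_f1a94e_fl.Eight

/-!
# Piece EIGHT-N: the eight sign patterns at three members in arithmetic progression and at `d` and two members
-/

set_option autoImplicit false

namespace Pool.Agent.FanL

open Finset Pool.Agent.GaussMR Pool.Agent.OmAll Pool.Agent.OmEq Pool.Agent.LPr Pool.Agent.OrbL MeasureTheory Filter

private theorem lam_sign (n : ℕ) : lam n = 1 ∨ lam n = -1 := by
  unfold lam
  exact neg_one_pow_eq_or ℤ _

private theorem lx_sign (p : ℕ × ℕ) (j : ℕ) : lx p j = 1 ∨ lx p j = -1 := lam_sign _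

private theorem dp_split (X : ℝ) (hX : 0 ≤ X) {α β γ : ℝ} (hα : α ≤ β) (hβ : β ≤ γ)
    (g : ℕ × ℕ → ℝ) :
    ∑ p ∈ DP X α γ, g p = ∑ p ∈ DP X α β, g p + ∑ p ∈ DP X β γ, g p := by
  classical
  rw [← Finset.sum_filter_add_sum_filter_not (DP X α γ) (fun p => (p.2 : ℝ) < β * p.1) g]
  congr 1
  · refine Finset.sum_congr ?_ fun _ _ => rfl
    ext p
    rw [mem_filter, mem_DP hX, mem_DP hX]
    constructor
    · rintro ⟨⟨h1, h2, h3, _, h5⟩, h6⟩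
      exact ⟨h1, h2, h3, h6, h5⟩
    · rintro ⟨h1, h2, h3, h4, h5⟩
      have h7 : (0 : ℝ) ≤ p.1 := Nat.cast_nonneg _
      exact ⟨⟨h1, h2, h3, h4.trans_le (mul_le_mul_of_nonneg_right hβ h7), h5⟩, h4⟩
  · refine Finset.sum_congr ?_ fun _ _ => rfl
    ext p
    rw [mem_filter, mem_DP hX, mem_DP hX]
    constructor
    · rintro ⟨⟨h1, h2, _, h4, h5⟩, h6⟩
      exact ⟨h1, h2, not_lt.1 h6, h4, h5⟩
    · rintro ⟨h1, h2, h3, h4, h5⟩
      have h7 : (0 : ℝ) ≤ p.1 := Nat.cast_nonneg _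
      exact ⟨⟨h1, h2, (mul_le_mul_of_nonneg_right hα h7).trans h3, h4, h5⟩, not_lt.2 h3⟩

private theorem ind_sign {x s : ℤ} (hx : x = 1 ∨ x = -1) (hs : s = 1 ∨ s = -1) :
    (if x = s then (1 : ℝ) else 0) = (1 + s * x) / 2 := by
  rcases hx with rfl | rfl <;> rcases hs with rfl | rfl <;> norm_num

private theorem eightN_gen (κ : ℝ) (hκ : ∀ α β : ℝ, 0 ≤ α → α ≤ β →
      Tendsto (fun X : ℝ => ((DP X α β).card : ℝ) / X) atTop (nhds (κ * (β - α))))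
    (s0 s1 s2 : ℤ) (h0 : s0 = 1 ∨ s0 = -1) (h1 : s1 = 1 ∨ s1 = -1) (h2 : s2 = 1 ∨ s2 = -1)
    (α β : ℝ) (hα : 0 ≤ α) (hαβ : α ≤ β) (n : ℕ) (ε : ℝ) (hε : 0 < ε) (y0 y1 y2 w : ℕ × ℕ → ℤ) (hy0 : ∀ p, y0 p = 1 ∨ y0 p = -1)
    (hy1 : ∀ p, y1 p = 1 ∨ y1 p = -1) (hy2 : ∀ p, y2 p = 1 ∨ y2 p = -1)
    (hw : ∀ p, w p = 1 ∨ w p = -1)
    (m0 : Tendsto (fun X : ℝ => (∑ p ∈ DP X α β, (y0 p : ℝ)) / X) atTop (nhds 0))
    (m1 : Tendsto (fun X : ℝ => (∑ p ∈ DP X α β, (y1 p : ℝ)) / X) atTop (nhds 0))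
    (m2 : Tendsto (fun X : ℝ => (∑ p ∈ DP X α β, (y2 p : ℝ)) / X) atTop (nhds 0))
    (m01 : Tendsto (fun X : ℝ => (∑ p ∈ DP X α β, (y0 p : ℝ) * y1 p) / X) atTop (nhds 0))
    (m02 : Tendsto (fun X : ℝ => (∑ p ∈ DP X α β, (y0 p : ℝ) * y2 p) / X) atTop (nhds 0))
    (m12 : Tendsto (fun X : ℝ => (∑ p ∈ DP X α β, (y1 p : ℝ) * y2 p) / X) atTop (nhds 0))
    (mw : Tendsto (fun X : ℝ => (∑ p ∈ DP X α β, (y0 p : ℝ) * y1 p * y2 p * w p) / X) atTop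
      (nhds 0))
    (hsh : ∀ X : ℝ, 0 ≤ X → ∑ p ∈ DP X α β, (w p : ℝ) =
      ∑ p ∈ DP X (α + n) (β + n), (y0 p : ℝ) * y1 p * y2 p) :
    ∀ᶠ X : ℝ in atTop, (κ * ((β - α) / 16 - n / 8) - ε) * X ≤
      (((DP X α β).filter (fun p => y0 p = s0 ∧ y1 p = s1 ∧ y2 p = s2)).card : ℝ) := by
  have hL0 : (0 : ℝ) ≤ n := Nat.cast_nonneg n
  have ta := hκ α β hα hαβ
  have tb := hκ α (α + n) hα (by linarith)
  have tc := hκ β (β + n) (by linarith) (by linarith)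
  have hlim : Tendsto (fun X : ℝ => (((DP X α β).card : ℝ) / X / 2 -
      |(∑ p ∈ DP X α β, (y0 p : ℝ)) / X| - |(∑ p ∈ DP X α β, (y1 p : ℝ)) / X| -
      |(∑ p ∈ DP X α β, (y2 p : ℝ)) / X| - |(∑ p ∈ DP X α β, (y0 p : ℝ) * y1 p) / X| -
      |(∑ p ∈ DP X α β, (y0 p : ℝ) * y2 p) / X| - |(∑ p ∈ DP X α β, (y1 p : ℝ) * y2 p) / X| -
      (∑ p ∈ DP X α β, (y0 p : ℝ) * y1 p * y2 p * w p) / X / 2 -
      (((DP X α (α + n)).card : ℝ) / X + ((DP X β (β + n)).card : ℝ) / X) / 2) / 8) atTop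
      (nhds (κ * ((β - α) / 16 - n / 8))) := by
    have h := ((((((((ta.div_const 2).sub m0.abs).sub m1.abs).sub m2.abs).sub m01.abs).sub
      m02.abs).sub m12.abs).sub (mw.div_const 2)).sub ((tb.add tc).div_const 2)
    have h' := h.div_const 8
    have e : (κ * (β - α) / 2 - |(0 : ℝ)| - |(0 : ℝ)| - |(0 : ℝ)| - |(0 : ℝ)| - |(0 : ℝ)| -
        |(0 : ℝ)| - 0 / 2 - (κ * (α + n - α) + κ * (β + n - β)) / 2) / 8 =
        κ * ((β - α) / 16 - n / 8) := by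
      rw [abs_zero]
      ring
    rw [e] at h'
    exact h'
  have hev := hlim.eventually (lt_mem_nhds (sub_lt_self _ hε))
  filter_upwards [hev, eventually_gt_atTop (0 : ℝ)] with X hX hX0
  rw [← le_div_iff₀ hX0]
  refine hX.le.trans ?_
  have u_le : ∀ p : ℕ × ℕ, |(y0 p : ℝ) * y1 p * y2 p| ≤ 1 := by
    intro p
    rcases hy0 p with a | a <;> rcases hy1 p with b | b <;> rcases hy2 p with c | c <;>
      rw [a, b, c] <;> norm_num
  -- the count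
  have hN : (((DP X α β).filter (fun p => y0 p = s0 ∧ y1 p = s1 ∧ y2 p = s2)).card : ℝ) =
      (((DP X α β).card : ℝ) + s0 * (∑ p ∈ DP X α β, (y0 p : ℝ)) +
        s1 * (∑ p ∈ DP X α β, (y1 p : ℝ)) + s2 * (∑ p ∈ DP X α β, (y2 p : ℝ)) +
        s0 * s1 * (∑ p ∈ DP X α β, (y0 p : ℝ) * y1 p) +
        s0 * s2 * (∑ p ∈ DP X α β, (y0 p : ℝ) * y2 p) +
        s1 * s2 * (∑ p ∈ DP X α β, (y1 p : ℝ) * y2 p) +
        s0 * s1 * s2 * (∑ p ∈ DP X α β, (y0 p : ℝ) * y1 p * y2 p)) / 8 := by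
    rw [Finset.card_filter, Nat.cast_sum]
    have h3 : ∀ p : ℕ × ℕ, ((if y0 p = s0 ∧ y1 p = s1 ∧ y2 p = s2 then 1 else 0 : ℕ) : ℝ) =
        (1 + s0 * (y0 p : ℝ) + s1 * (y1 p : ℝ) + s2 * (y2 p : ℝ) +
          s0 * s1 * ((y0 p : ℝ) * y1 p) + s0 * s2 * ((y0 p : ℝ) * y2 p) +
          s1 * s2 * ((y1 p : ℝ) * y2 p) + s0 * s1 * s2 * ((y0 p : ℝ) * y1 p * y2 p)) / 8 := by
      intro p
      have h4 : ((if y0 p = s0 ∧ y1 p = s1 ∧ y2 p = s2 then 1 else 0 : ℕ) : ℝ) =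
          (if y0 p = s0 then (1 : ℝ) else 0) * ((if y1 p = s1 then (1 : ℝ) else 0) *
            (if y2 p = s2 then (1 : ℝ) else 0)) := by
        by_cases ha : y0 p = s0 <;> by_cases hb : y1 p = s1 <;> by_cases hc : y2 p = s2 <;>
          simp [ha, hb, hc]
      rw [h4, ind_sign (hy0 p) h0, ind_sign (hy1 p) h1, ind_sign (hy2 p) h2]
      ring
    rw [Finset.sum_congr rfl fun p _ => h3 p, ← Finset.sum_div]
    simp only [Finset.sum_add_distrib, ← Finset.mul_sum]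
    rw [Finset.sum_const, nsmul_eq_mul, mul_one]
  -- the sum of `u`
  set U : ℝ := ∑ p ∈ DP X α β, (y0 p : ℝ) * y1 p * y2 p with hU
  set W : ℝ := ∑ p ∈ DP X α β, (w p : ℝ) with hW
  have hUW : |U + W| ≤ ((DP X α β).card : ℝ) +
      ∑ p ∈ DP X α β, (y0 p : ℝ) * y1 p * y2 p * w p := by
    have e1 : ((DP X α β).card : ℝ) + ∑ p ∈ DP X α β, (y0 p : ℝ) * y1 p * y2 p * w p =
        ∑ p ∈ DP X α β, (1 + (y0 p : ℝ) * y1 p * y2 p * w p) := by
      rw [Finset.sum_add_distrib, Finset.sum_const, nsmul_eq_mul, mul_one]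
    rw [e1, hU, hW, ← Finset.sum_add_distrib]
    refine (Finset.abs_sum_le_sum_abs _ _).trans (Finset.sum_le_sum fun p _ => ?_)
    rcases hy0 p with a | a <;> rcases hy1 p with b | b <;> rcases hy2 p with c | c <;>
      rcases hw p with d | d <;> rw [a, b, c, d] <;> norm_num
  have hWU : |W - U| ≤ ((DP X α (α + n)).card : ℝ) + ((DP X β (β + n)).card : ℝ) := by
    have e1 := dp_split X hX0.le (by linarith : α ≤ α + n) (by linarith : α + n ≤ β + n)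
      (fun p => (y0 p : ℝ) * y1 p * y2 p)
    have e2 := dp_split X hX0.le hαβ (by linarith : β ≤ β + n)
      (fun p => (y0 p : ℝ) * y1 p * y2 p)
    have e3 := hsh X hX0.le
    have b1 : |∑ p ∈ DP X α (α + n), (y0 p : ℝ) * y1 p * y2 p| ≤ ((DP X α (α + n)).card : ℝ) := by
      refine (Finset.abs_sum_le_sum_abs _ _).trans ?_
      refine (Finset.sum_le_sum fun p _ => u_le p).trans ?_
      rw [Finset.sum_const, nsmul_eq_mul, mul_one]
    have b2 : |∑ p ∈ DP X β (β + n), (y0 p : ℝ) * y1 p * y2 p| ≤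
        ((DP X β (β + n)).card : ℝ) := by
      refine (Finset.abs_sum_le_sum_abs _ _).trans ?_
      refine (Finset.sum_le_sum fun p _ => u_le p).trans ?_
      rw [Finset.sum_const, nsmul_eq_mul, mul_one]
    have e4 : W - U = ∑ p ∈ DP X β (β + n), (y0 p : ℝ) * y1 p * y2 p -
        ∑ p ∈ DP X α (α + n), (y0 p : ℝ) * y1 p * y2 p := by
      rw [hW, e3, hU]
      linarith
    rw [e4]
    have := abs_sub (∑ p ∈ DP X β (β + n), (y0 p : ℝ) * y1 p * y2 p)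
      (∑ p ∈ DP X α (α + n), (y0 p : ℝ) * y1 p * y2 p)
    linarith
  have hU2 : 2 * |U| ≤ ((DP X α β).card : ℝ) +
      (∑ p ∈ DP X α β, (y0 p : ℝ) * y1 p * y2 p * w p) +
      (((DP X α (α + n)).card : ℝ) + ((DP X β (β + n)).card : ℝ)) := by
    have e1 : 2 * |U| = |(U + W) - (W - U)| := by
      have : (U + W) - (W - U) = 2 * U := by ring
      rw [this, abs_mul, abs_two]
    rw [e1]
    have := abs_sub (U + W) (W - U)
    linarith
  -- signs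
  have sg : ∀ (s : ℝ) (z : ℝ), |s| = 1 → -|z| ≤ s * z := by
    intro s z hs
    have := neg_abs_le (s * z)
    rwa [abs_mul, hs, one_mul] at this
  have a0 : |(s0 : ℝ)| = 1 := by rcases h0 with h | h <;> rw [h] <;> norm_num
  have a1 : |(s1 : ℝ)| = 1 := by rcases h1 with h | h <;> rw [h] <;> norm_num
  have a2 : |(s2 : ℝ)| = 1 := by rcases h2 with h | h <;> rw [h] <;> norm_num
  have a01 : |(s0 : ℝ) * s1| = 1 := by rw [abs_mul, a0, a1, one_mul]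
  have a02 : |(s0 : ℝ) * s2| = 1 := by rw [abs_mul, a0, a2, one_mul]
  have a12 : |(s1 : ℝ) * s2| = 1 := by rw [abs_mul, a1, a2, one_mul]
  have a012 : |(s0 : ℝ) * s1 * s2| = 1 := by rw [abs_mul, a01, a2, one_mul]
  have g0 := sg s0 (∑ p ∈ DP X α β, (y0 p : ℝ)) a0
  have g1 := sg s1 (∑ p ∈ DP X α β, (y1 p : ℝ)) a1
  have g2 := sg s2 (∑ p ∈ DP X α β, (y2 p : ℝ)) a2
  have g01 := sg (s0 * s1) (∑ p ∈ DP X α β, (y0 p : ℝ) * y1 p) a01
  have g02 := sg (s0 * s2) (∑ p ∈ DP X α β, (y0 p : ℝ) * y2 p) a02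
  have g12 := sg (s1 * s2) (∑ p ∈ DP X α β, (y1 p : ℝ) * y2 p) a12
  have g012 := sg (s0 * s1 * s2) U a012
  rw [hN]
  simp only [abs_div, abs_of_pos hX0]
  have e5 : (((DP X α β).card : ℝ) / X / 2 -
      |∑ p ∈ DP X α β, (y0 p : ℝ)| / X - |∑ p ∈ DP X α β, (y1 p : ℝ)| / X -
      |∑ p ∈ DP X α β, (y2 p : ℝ)| / X - |∑ p ∈ DP X α β, (y0 p : ℝ) * y1 p| / X -
      |∑ p ∈ DP X α β, (y0 p : ℝ) * y2 p| / X - |∑ p ∈ DP X α β, (y1 p : ℝ) * y2 p| / X -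
      (∑ p ∈ DP X α β, (y0 p : ℝ) * y1 p * y2 p * w p) / X / 2 -
      (((DP X α (α + n)).card : ℝ) / X + ((DP X β (β + n)).card : ℝ) / X) / 2) / 8 =
      ((((DP X α β).card : ℝ) / 2 -
      |∑ p ∈ DP X α β, (y0 p : ℝ)| - |∑ p ∈ DP X α β, (y1 p : ℝ)| -
      |∑ p ∈ DP X α β, (y2 p : ℝ)| - |∑ p ∈ DP X α β, (y0 p : ℝ) * y1 p| -
      |∑ p ∈ DP X α β, (y0 p : ℝ) * y2 p| - |∑ p ∈ DP X α β, (y1 p : ℝ) * y2 p| -
      (∑ p ∈ DP X α β, (y0 p : ℝ) * y1 p * y2 p * w p) / 2 -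
      (((DP X α (α + n)).card : ℝ) + ((DP X β (β + n)).card : ℝ)) / 2) / 8) / X := by
    ring
  rw [e5]
  refine div_le_div_of_nonneg_right ?_ hX0.le
  linarith

open Classical in
/-- the eight patterns at the members `i`, `i + n`, `i + 2 n` -/
theorem eightN_a (κ : ℝ) (hκ : ∀ α β : ℝ, 0 ≤ α → α ≤ β →
      Tendsto (fun X : ℝ => ((DP X α β).card : ℝ) / X) atTop (nhds (κ * (β - α))))
    (s0 s1 s2 : ℤ) (h0 : s0 = 1 ∨ s0 = -1) (h1 : s1 = 1 ∨ s1 = -1) (h2 : s2 = 1 ∨ s2 = -1) (i n : ℕ) (hn : 0 < n)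
    (α β : ℝ) (hα : 0 ≤ α) (hαβ : α ≤ β) (ε : ℝ) (hε : 0 < ε) :
    ∀ᶠ X : ℝ in atTop, (κ * ((β - α) / 16 - n / 8) - ε) * X ≤
      (((DP X α β).filter (fun p => lx p i = s0 ∧ lx p (i + n) = s1 ∧ lx p (i + 2 * n) = s2)).card : ℝ) := by
  refine eightN_gen κ hκ s0 s1 s2 h0 h1 h2 α β hα hαβ n ε hε (fun p => lx p i) (fun p => lx p (i + n))
    (fun p => lx p (i + 2 * n)) (fun p => lx p (i + n) * lx p (i + 2 * n) * lx p (i + 3 * n)) (fun p => lx_sign p i)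
    (fun p => lx_sign p _) (fun p => lx_sign p _) ?_ (lx_mean i α β hα hαβ)
    (lx_mean _ α β hα hαβ) (lx_mean _ α β hα hαβ)
    (lx_pair i (i + n) (by omega) α β hα hαβ) (lx_pair i (i + 2 * n) (by omega) α β hα hαβ)
    (lx_pair (i + n) (i + 2 * n) (by omega) α β hα hαβ) ?_ ?_
  · intro p
    rcases lx_sign p (i + n) with a | a <;> rcases lx_sign p (i + 2 * n) with b | b <;>
      rcases lx_sign p (i + 3 * n) with c | c <;> simp [a, b, c]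
  · refine (lx_pair i (i + 3 * n) (by omega) α β hα hαβ).congr fun X => ?_
    congr 1
    refine Finset.sum_congr rfl fun p _ => ?_
    rcases lx_sign p (i + n) with a | a <;> rcases lx_sign p (i + 2 * n) with b | b <;> simp [a, b]
  · intro X hX
    have h := dp_shift X α β hX hα n (fun d m _ =>
      (((lam ((m + i * d) ^ 2 + 1) * lam ((m + (i + n) * d) ^ 2 + 1) * lam ((m + (i + 2 * n) * d) ^ 2 + 1) : ℤ) : ℝ) : ℂ))
    rw [← Complex.ofReal_sum, ← Complex.ofReal_sum, Complex.ofReal_inj] at h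
    have e1 : ∑ p ∈ DP X α β, ((lx p (i + n) * lx p (i + 2 * n) * lx p (i + 3 * n) : ℤ) : ℝ) =
        ∑ p ∈ DP X α β, ((lam ((p.2 + n * p.1 + i * p.1) ^ 2 + 1) * lam ((p.2 + n * p.1 + (i + n) * p.1) ^ 2 + 1) *
          lam ((p.2 + n * p.1 + (i + 2 * n) * p.1) ^ 2 + 1) : ℤ) : ℝ) := by
      refine Finset.sum_congr rfl fun p _ => ?_
      unfold lx
      have a0 : p.2 + (i + n) * p.1 = p.2 + n * p.1 + i * p.1 := by ring
      have a1 : p.2 + (i + 2 * n) * p.1 = p.2 + n * p.1 + (i + n) * p.1 := by ring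
      have a2 : p.2 + (i + 3 * n) * p.1 = p.2 + n * p.1 + (i + 2 * n) * p.1 := by ring
      rw [a2, a1, a0]
    refine (e1.trans h).trans ?_
    refine Finset.sum_congr rfl fun p _ => ?_
    unfold lx
    push_cast
    rfl

open Classical in
/-- the eight patterns at `d` and the members `i`, `i + n` -/
theorem eightN_b (κ : ℝ) (hκ : ∀ α β : ℝ, 0 ≤ α → α ≤ β →
      Tendsto (fun X : ℝ => ((DP X α β).card : ℝ) / X) atTop (nhds (κ * (β - α))))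
    (s0 s1 s2 : ℤ) (h0 : s0 = 1 ∨ s0 = -1) (h1 : s1 = 1 ∨ s1 = -1) (h2 : s2 = 1 ∨ s2 = -1) (i n : ℕ) (hn : 0 < n)
    (α β : ℝ) (hα : 0 ≤ α) (hαβ : α ≤ β) (ε : ℝ) (hε : 0 < ε) :
    ∀ᶠ X : ℝ in atTop, (κ * ((β - α) / 16 - n / 8) - ε) * X ≤
      (((DP X α β).filter (fun p => lam p.1 = s0 ∧ lx p i = s1 ∧ lx p (i + n) = s2)).card : ℝ) := by
  refine eightN_gen κ hκ s0 s1 s2 h0 h1 h2 α β hα hαβ n ε hε (fun p => lam p.1) (fun p => lx p i)
    (fun p => lx p (i + n)) (fun p => lam p.1 * lx p (i + n) * lx p (i + 2 * n)) (fun p => lam_sign p.1)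
    (fun p => lx_sign p _) (fun p => lx_sign p _) ?_ (lam_mean α β hα hαβ)
    (lx_mean _ α β hα hαβ) (lx_mean _ α β hα hαβ)
    (lam_pair i α β hα hαβ) (lam_pair (i + n) α β hα hαβ)
    (lx_pair i (i + n) (by omega) α β hα hαβ) ?_ ?_
  · intro p
    rcases lam_sign p.1 with a | a <;> rcases lx_sign p (i + n) with b | b <;>
      rcases lx_sign p (i + 2 * n) with c | c <;> simp [a, b, c]
  · refine (lx_pair i (i + 2 * n) (by omega) α β hα hαβ).congr fun X => ?_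
    congr 1
    refine Finset.sum_congr rfl fun p _ => ?_
    rcases lam_sign p.1 with a | a <;> rcases lx_sign p (i + n) with b | b <;> simp [a, b]
  · intro X hX
    have h := dp_shift X α β hX hα n (fun d m _ =>
      (((lam d * lam ((m + i * d) ^ 2 + 1) * lam ((m + (i + n) * d) ^ 2 + 1) : ℤ) : ℝ) : ℂ))
    rw [← Complex.ofReal_sum, ← Complex.ofReal_sum, Complex.ofReal_inj] at h
    have e1 : ∑ p ∈ DP X α β, ((lam p.1 * lx p (i + n) * lx p (i + 2 * n) : ℤ) : ℝ) =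
        ∑ p ∈ DP X α β, ((lam p.1 * lam ((p.2 + n * p.1 + i * p.1) ^ 2 + 1) *
          lam ((p.2 + n * p.1 + (i + n) * p.1) ^ 2 + 1) : ℤ) : ℝ) := by
      refine Finset.sum_congr rfl fun p _ => ?_
      unfold lx
      have a0 : p.2 + (i + n) * p.1 = p.2 + n * p.1 + i * p.1 := by ring
      have a1 : p.2 + (i + 2 * n) * p.1 = p.2 + n * p.1 + (i + n) * p.1 := by ring
      rw [a1, a0]
    refine (e1.trans h).trans ?_
    refine Finset.sum_congr rfl fun p _ => ?_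
    unfold lx
    push_cast
    rfl

end Pool.Agent.FanL
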