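import Pool.Agent.Lib_MP_f1a94e_fl.Var
import Pool.Agent.Lib_MP_f1a94e_fl.Eight

/-!
# Piece FIN: the theorem in elementary terms
-/

set_option autoImplicit false

namespace Pool.Agent.FanL

open Finset Pool.Agent.GaussMR Pool.Agent.OmAll Pool.Agent.OmEq Pool.Agent.LPr Pool.Agent.OrbL MeasureTheory Filter

/-- the class of `Ω` modulo `q` and the numbers of prime factors in the windows -/
def Prf (q : ℕ) (a : ℤ) (u v : ℕ → ℝ) (r : ℕ) (k : ℕ → ℕ) (x : ℝ) (n : ℕ) : Prop :=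
  (ArithmeticFunction.cardFactors n : ℤ) ≡ a [ZMOD q] ∧ ∀ i < r, wc x (u i) (v i) n = k i

/-- the pairs `(d, m)`, `1 ≤ d ≤ x`, `α d ≤ m < β d`, `d ∣ m ^ 2 + 1`, as a set -/
def PS (x α β : ℝ) : Set (ℕ × ℕ) :=
  {p | 1 ≤ p.1 ∧ (p.1 : ℝ) ≤ x ∧ α * p.1 ≤ p.2 ∧ (p.2 : ℝ) < β * p.1 ∧ p.1 ∣ p.2 ^ 2 + 1}

open Classical in
/-- PROOF. `mem_DP` (`0 ≤ X`). -/
theorem ps_card (X α β : ℝ) (hX : 0 ≤ X) (P : ℕ × ℕ → Prop) :
    {p | p ∈ PS X α β ∧ P p}.ncard = ((DP X α β).filter P).card := by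
  rw [← Set.ncard_coe_finset]
  congr 1
  ext p
  rw [Set.mem_ofPred_eq, coe_filter, Set.mem_ofPred_eq, mem_DP hX]
  exact Iff.rfl

/-- `ps_card` for equivalent predicates and any decidability -/
theorem ps_card_iff (X α β : ℝ) (hX : 0 ≤ X) (P Q : ℕ × ℕ → Prop) {dQ : DecidablePred Q} (h : ∀ p, Q p ↔ P p) :
    (@Finset.filter _ Q dQ (DP X α β)).card = {p | p ∈ PS X α β ∧ P p}.ncard := by
  rw [← Set.ncard_coe_finset]
  congr 1
  ext p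
  rw [coe_filter, Set.mem_ofPred_eq, Set.mem_ofPred_eq, mem_DP hX, h]
  exact Iff.rfl

/-- the bound `K` for finitely many window data -/
theorem fin_exists_K (u0 : ℝ) (hu0 : 0 < u0) (r s : ℕ) (k l : ℕ → ℕ) :
    ∃ K : ℕ, 3 < K * u0 ∧ (∀ i < r, k i < K) ∧ (∀ i < s, l i < K) := by
  have key : ∀ (w : ℝ), 0 < w → ∀ K : ℕ, ⌊3 / w⌋₊ < K → 3 < K * w := by
    intro w hw K hK
    have h1 : 3 / w < ⌊3 / w⌋₊ + 1 := Nat.lt_floor_add_one _
    have h2 : ((⌊3 / w⌋₊ + 1 : ℕ) : ℝ) ≤ K := by exact_mod_cast hK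
    push_cast at h2
    have h3 : 3 / w < K := lt_of_lt_of_le h1 h2
    rwa [div_lt_iff₀ hw] at h3
  refine ⟨⌊3 / u0⌋₊ + ∑ i ∈ range r, k i + ∑ i ∈ range s, l i + 1, ?_, ?_, ?_⟩
  · exact key u0 hu0 _ (by omega)
  · intro i hi
    have := single_le_sum (f := fun i => k i) (fun _ _ => Nat.zero_le _) (mem_range.2 hi)
    omega
  · intro i hi
    have := single_le_sum (f := fun i => l i) (fun _ _ => Nat.zero_le _) (mem_range.2 hi)
    omega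

/-- the sum over `DP X 0 1` as a double sum -/
theorem dp_double (X : ℝ) (hX : 0 ≤ X) (F : ℕ × ℕ → ℝ) :
    ∑ P ∈ DP X 0 1, F P = ∑ d ∈ Icc 1 ⌊X⌋₊, ∑ ρ ∈ (range d).filter (fun ρ => d ∣ ρ ^ 2 + 1), F (d, ρ) := by
  rw [Finset.sum_sigma']
  symm
  refine Finset.sum_bij' (fun (x : Σ _ : ℕ, ℕ) _ => (x.1, x.2)) (fun (p : ℕ × ℕ) _ => ⟨p.1, p.2⟩) ?_ ?_ ?_ ?_ ?_
  · rintro ⟨d, ρ⟩ h
    simp only [mem_sigma, mem_Icc, mem_filter, mem_range] at h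
    rw [mem_DP hX]
    obtain ⟨⟨h1, h2⟩, h3, h4⟩ := h
    refine ⟨h1, (Nat.le_floor_iff hX).1 h2, ?_, ?_, h4⟩
    · rw [zero_mul]
      exact Nat.cast_nonneg _
    · rw [one_mul]
      exact_mod_cast h3
  · rintro ⟨d, ρ⟩ h
    rw [mem_DP hX] at h
    obtain ⟨h1, h2, -, h4, h5⟩ := h
    simp only [mem_sigma, mem_Icc, mem_filter, mem_range]
    rw [one_mul] at h4
    exact ⟨⟨h1, Nat.le_floor h2⟩, by exact_mod_cast h4, h5⟩
  · rintro ⟨d, ρ⟩ _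
    rfl
  · rintro ⟨d, ρ⟩ _
    rfl
  · rintro ⟨d, ρ⟩ _
    rfl

/-- PROOF. As in the proof of `fac_lawG` (m/G32.lean; `exists_u0`, choice of `K`, `int_lawG` for the densities `c`, `c'`, `exists_nat_cl` to pass from `a : ℤ` to a natural number): `κ` from `dp_count`; (0) is `dp_count` (`ps_card` with `P = True`), the laws are `law_pair`, `law_edge`
(`ps_card`), the variance is `var_law` (`∑ p ∈ DP X 0 1` is the double sum over `d ≤ x` and `ρ < d`, `d ∣ ρ^2 + 1`). -/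
theorem fin_law (κ : ℝ) (hκ : ∀ α β : ℝ, 0 ≤ α → α ≤ β →
      Tendsto (fun X : ℝ => ((DP X α β).card : ℝ) / X) atTop (nhds (κ * (β - α)))) :
    ∀ (q : ℕ) (u v u' v' : ℕ → ℝ) (r s : ℕ) (k l : ℕ → ℕ), 0 < q →
      (∀ i < r, 0 < u i ∧ u i ≤ v i) → (∀ i < s, 0 < u' i ∧ u' i ≤ v' i) → ∃ c c' : ℝ,
      Tendsto (fun x : ℝ => (Set.ncard {n : ℕ | 1 ≤ n ∧ (n : ℝ) ≤ x ∧ ∀ i < r, wc x (u i) (v i) n = k i} : ℝ) / x)
        atTop (nhds c) ∧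
      Tendsto (fun x : ℝ => (Set.ncard {n : ℕ | 1 ≤ n ∧ (n : ℝ) ≤ x ∧ ∀ i < s, wc x (u' i) (v' i) n = l i} : ℝ) / x)
        atTop (nhds c') ∧
      (∀ (a b : ℤ) (i j : ℕ) (α β : ℝ), i ≠ j → 0 ≤ α → α ≤ β → Tendsto (fun x : ℝ =>
        (Set.ncard {p | p ∈ PS x α β ∧ Prf q a u v r k x (er p i) ∧ Prf q b u' v' s l x (er p j)} : ℝ) / x)
          atTop (nhds (κ * (β - α) * c * c' / q ^ 2))) ∧
      (∀ (a b : ℤ) (j : ℕ) (α β : ℝ), 0 ≤ α → α ≤ β → Tendsto (fun x : ℝ =>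
        (Set.ncard {p | p ∈ PS x α β ∧ Prf q a u v r k x p.1 ∧ Prf q b u' v' s l x (er p j)} : ℝ) / x)
          atTop (nhds (κ * (β - α) * c * c' / q ^ 2))) ∧
      (∀ (a : ℤ) (L : ℕ), Tendsto (fun x : ℝ =>
        (∑ d ∈ Icc 1 ⌊x⌋₊, ∑ ρ ∈ (range d).filter (fun ρ => d ∣ ρ ^ 2 + 1),
          ((Set.ncard {j : ℕ | j < L ∧ Prf q a u v r k x (er (d, ρ) j)} : ℝ) - L * (c / q)) ^ 2) / x)
          atTop (nhds (κ * (L * (c / q) * (1 - c / q))))) := by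
  classical
  intro q u v u' v' r s k l hq hu hu'
  obtain ⟨u1, hu1, hu1'⟩ := exists_u0 u r (fun i hi => (hu i hi).1)
  obtain ⟨u2, hu2, hu2'⟩ := exists_u0 u' s (fun i hi => (hu' i hi).1)
  obtain ⟨u0, hu0, hle1, hle2⟩ : ∃ u0 : ℝ, 0 < u0 ∧ u0 ≤ u1 ∧ u0 ≤ u2 :=
    ⟨min u1 u2, lt_min hu1 hu2, min_le_left _ _, min_le_right _ _⟩
  have hur : ∀ i < r, u0 ≤ u i ∧ u i ≤ v i := fun i hi => ⟨hle1.trans (hu1' i hi), (hu i hi).2⟩
  have hus : ∀ i < s, u0 ≤ u' i ∧ u' i ≤ v' i := fun i hi => ⟨hle2.trans (hu2' i hi), (hu' i hi).2⟩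
  obtain ⟨K, hK, hk, hl⟩ := fin_exists_K u0 hu0 r s k l
  obtain ⟨c, hc, hc1⟩ := int_lawG K u0 hu0 u v r hur hK k hk
  obtain ⟨c', hc', hc1'⟩ := int_lawG K u0 hu0 u' v' s hus hK l hl
  have W1 : WD K u0 u v r k c := ⟨hu0, hK, hur, hk, hc⟩
  have W2 : WD K u0 u' v' s l c' := ⟨hu0, hK, hus, hl, hc'⟩
  refine ⟨c, c', hc1, hc1', ?_, ?_, ?_⟩
  · intro a b i j α β hij hα hαβ
    obtain ⟨a', -, ha⟩ := exists_nat_cl q hq a
    obtain ⟨b', -, hb⟩ := exists_nat_cl q hq b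
    refine (law_pair κ hκ q hq K u0 u v u' v' r s k l c c' W1 W2 a' b' i j hij α β hα hαβ).congr' ?_
    filter_upwards [eventually_ge_atTop 0] with X hX
    exact congrArg (fun n : ℕ => (n : ℝ) / X) (ps_card_iff X α β hX _ _
      (fun p => and_congr (and_congr (ha _) Iff.rfl) (and_congr (hb _) Iff.rfl)))
  · intro a b j α β hα hαβ
    obtain ⟨a', -, ha⟩ := exists_nat_cl q hq a
    obtain ⟨b', -, hb⟩ := exists_nat_cl q hq b
    refine (law_edge κ hκ q hq K u0 u v u' v' r s k l c c' W1 W2 a' b' j α β hα hαβ).congr' ?_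
    filter_upwards [eventually_ge_atTop 0] with X hX
    exact congrArg (fun n : ℕ => (n : ℝ) / X) (ps_card_iff X α β hX _ _
      (fun p => and_congr (and_congr (ha _) Iff.rfl) (and_congr (hb _) Iff.rfl)))
  · intro a L
    obtain ⟨a', -, ha⟩ := exists_nat_cl q hq a
    refine (var_law κ hκ q hq K u0 u v r k c W1 a' L).congr' ?_
    filter_upwards [eventually_ge_atTop 0] with X hX
    rw [dp_double X hX]
    congr 1
    refine sum_congr rfl fun d _ => sum_congr rfl fun ρ _ => ?_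
    have h1 : {j : ℕ | j < L ∧ Prf q a u v r k X (er (d, ρ) j)}.ncard =
        ((range L).filter (fun j => Cnd q a' u v r k X (er (d, ρ) j))).card := by
      rw [← Set.ncard_coe_finset]
      congr 1
      ext j
      rw [Set.mem_ofPred_eq, coe_filter, Set.mem_ofPred_eq, mem_range]
      simp only [Cnd, Prf, ha]
    rw [h1]

end Pool.Agent.FanL
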