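import Pool.Agent.Lib_MP_f1a94e_fl.VarR
import Pool.Agent.Lib_MP_f1a94e_fl.Fin

/-!
# Piece FIN-R: the theorem in elementary terms
-/

set_option autoImplicit false

namespace Pool.Agent.FanL

open Finset Pool.Agent.GaussMR Pool.Agent.OmAll Pool.Agent.OmEq Pool.Agent.LPr Pool.Agent.OrbL MeasureTheory Filter

/-- coprime to `R`, the class of `Ω` modulo `q` and the numbers of prime factors in the windows -/
def PrfR (R q : ℕ) (a : ℤ) (u v : ℕ → ℝ) (r : ℕ) (k : ℕ → ℕ) (x : ℝ) (n : ℕ) : Prop :=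
  n.Coprime R ∧ (ArithmeticFunction.cardFactors n : ℤ) ≡ a [ZMOD q] ∧ ∀ i < r, wc x (u i) (v i) n = k i

/-- PROOF. As in the proof of `fac_lawG` (m/G32.lean; `exists_u0`, choice of `K`, `int_lawG` for the densities `c`, `c'`, `exists_nat_cl` to pass from `a : ℤ` to a natural number): the laws are `law_pairR`, `law_edgeR` (`ps_card`), the variance is `var_lawR` for `α = 0`, `β = 1`
(`∑ p ∈ DP X 0 1` is the double sum over `d ≤ x` and `ρ < d`, `d ∣ ρ^2 + 1`; `Set.ncard {j ∈ S | ..}` is the cardinality of the filter). -/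
theorem fin_lawR : ∀ (R q q' : ℕ) (u v u' v' : ℕ → ℝ) (r s : ℕ) (k l : ℕ → ℕ), 0 < R → 0 < q → 0 < q' →
      (∀ i < r, 0 < u i ∧ u i ≤ v i) → (∀ i < s, 0 < u' i ∧ u' i ≤ v' i) → ∃ c c' : ℝ,
      Tendsto (fun x : ℝ => (Set.ncard {n : ℕ | 1 ≤ n ∧ (n : ℝ) ≤ x ∧ ∀ i < r, wc x (u i) (v i) n = k i} : ℝ) / x)
        atTop (nhds c) ∧
      Tendsto (fun x : ℝ => (Set.ncard {n : ℕ | 1 ≤ n ∧ (n : ℝ) ≤ x ∧ ∀ i < s, wc x (u' i) (v' i) n = l i} : ℝ) / x)
        atTop (nhds c') ∧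
      (∀ (a b : ℤ) (i j : ℕ) (α β : ℝ), i ≠ j → 0 ≤ α → α ≤ β → Tendsto (fun x : ℝ =>
        ((Set.ncard {p | p ∈ PS x α β ∧ PrfR R q a u v r k x (er p i) ∧ PrfR R q' b u' v' s l x (er p j)} : ℝ) -
          c * c' / (q * q') * Set.ncard {p | p ∈ PS x α β ∧ (er p i).Coprime R ∧ (er p j).Coprime R}) / x)
          atTop (nhds 0)) ∧
      (∀ (a b : ℤ) (j : ℕ) (α β : ℝ), 0 ≤ α → α ≤ β → Tendsto (fun x : ℝ =>
        ((Set.ncard {p | p ∈ PS x α β ∧ PrfR R q a u v r k x p.1 ∧ PrfR R q' b u' v' s l x (er p j)} : ℝ) -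
          c * c' / (q * q') * Set.ncard {p | p ∈ PS x α β ∧ p.1.Coprime R ∧ (er p j).Coprime R}) / x)
          atTop (nhds 0)) ∧
      (∀ (a : ℤ) (S : Finset ℕ), Tendsto (fun x : ℝ =>
        (∑ d ∈ Icc 1 ⌊x⌋₊, ∑ ρ ∈ (range d).filter (fun ρ => d ∣ ρ ^ 2 + 1),
          (((Set.ncard {j : ℕ | j ∈ S ∧ PrfR R q a u v r k x (er (d, ρ) j)} : ℝ) -
            c / q * Set.ncard {j : ℕ | j ∈ S ∧ (er (d, ρ) j).Coprime R}) ^ 2 -
          c / q * (1 - c / q) * Set.ncard {j : ℕ | j ∈ S ∧ (er (d, ρ) j).Coprime R})) / x)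
          atTop (nhds 0)) := by
  classical
  intro R q q' u v u' v' r s k l hR hq hq' hu hu'
  obtain ⟨u1, hu1, hu1'⟩ := exists_u0 u r (fun i hi => (hu i hi).1)
  obtain ⟨u2, hu2, hu2'⟩ := exists_u0 u' s (fun i hi => (hu' i hi).1)
  obtain ⟨u0, hu0, hle1, hle2⟩ : ∃ u0 : ℝ, 0 < u0 ∧ u0 ≤ u1 ∧ u0 ≤ u2 :=
    ⟨min u1 u2, lt_min hu1 hu2, min_le_left _ _, min_le_right _ _⟩
  have hur : ∀ i < r, u0 ≤ u i ∧ u i ≤ v i := fun i hi => ⟨hle1.trans (hu1' i hi), (hu i hi).2⟩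
  have hus : ∀ i < s, u0 ≤ u' i ∧ u' i ≤ v' i := fun i hi => ⟨hle2.trans (hu2' i hi), (hu' i hi).2⟩
  obtain ⟨K, hK, hk, hl⟩ := fin_exists_K u0 hu0 r s k l
  obtain ⟨c, hc, hc1⟩ := int_lawG K u0 hu0 u v r hur hK k hk
  obtain ⟨c', hc', hc1'⟩ := int_lawG K u0 hu0 u' v' s hus hK l hl
  have W1 : WD K u0 u v r k c := ⟨hu0, hK, hur, hk, hc⟩
  have W2 : WD K u0 u' v' s l c' := ⟨hu0, hK, hus, hl, hc'⟩
  refine ⟨c, c', hc1, hc1', ?_, ?_, ?_⟩
  · intro a b i j α β hij hα hαβ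
    obtain ⟨a', -, ha⟩ := exists_nat_cl q hq a
    obtain ⟨b', -, hb⟩ := exists_nat_cl q' hq' b
    refine (law_pairR R R hR hR q q' hq hq' K u0 u v u' v' r s k l c c' W1 W2 a' b' i j hij α β hα hαβ).congr' ?_
    filter_upwards [eventually_ge_atTop 0] with X hX
    rw [ps_card_iff X α β hX (fun p => PrfR R q a u v r k X (er p i) ∧ PrfR R q' b u' v' s l X (er p j))
        (fun p => CndR R q a' u v r k X (er p i) ∧ CndR R q' b' u' v' s l X (er p j))
        (fun p => and_congr (and_congr Iff.rfl (and_congr (ha _) Iff.rfl)) (and_congr Iff.rfl (and_congr (hb _) Iff.rfl))),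
      ps_card_iff X α β hX (fun p => (er p i).Coprime R ∧ (er p j).Coprime R)
        (fun p => (er p i).Coprime R ∧ (er p j).Coprime R) (fun p => Iff.rfl)]
  · intro a b j α β hα hαβ
    obtain ⟨a', -, ha⟩ := exists_nat_cl q hq a
    obtain ⟨b', -, hb⟩ := exists_nat_cl q' hq' b
    refine (law_edgeR R hR q q' hq hq' K u0 u v u' v' r s k l c c' W1 W2 a' b' j α β hα hαβ).congr' ?_
    filter_upwards [eventually_ge_atTop 0] with X hX
    rw [ps_card_iff X α β hX (fun p => PrfR R q a u v r k X p.1 ∧ PrfR R q' b u' v' s l X (er p j))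
        (fun p => CndR R q a' u v r k X p.1 ∧ CndR R q' b' u' v' s l X (er p j))
        (fun p => and_congr (and_congr Iff.rfl (and_congr (ha _) Iff.rfl)) (and_congr Iff.rfl (and_congr (hb _) Iff.rfl))),
      ps_card_iff X α β hX (fun p => p.1.Coprime R ∧ (er p j).Coprime R)
        (fun p => p.1.Coprime R ∧ (er p j).Coprime R) (fun p => Iff.rfl)]
  · intro a S
    obtain ⟨a', -, ha⟩ := exists_nat_cl q hq a
    refine (var_lawR R hR q hq K u0 u v r k c W1 a' S 0 1 le_rfl zero_le_one).congr' ?_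
    filter_upwards [eventually_ge_atTop 0] with X hX
    have h1 : ∀ P : ℕ × ℕ, {j : ℕ | j ∈ S ∧ PrfR R q a u v r k X (er P j)}.ncard =
        (S.filter (fun j => CndR R q a' u v r k X (er P j))).card := by
      intro P
      rw [← Set.ncard_coe_finset]
      congr 1
      ext j
      rw [Set.mem_ofPred_eq, coe_filter, Set.mem_ofPred_eq]
      simp only [CndR, PrfR, ha]
    have h2 : ∀ P : ℕ × ℕ, {j : ℕ | j ∈ S ∧ (er P j).Coprime R}.ncard =
        (S.filter (fun j => (er P j).Coprime R)).card := by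
      intro P
      rw [← Set.ncard_coe_finset]
      congr 1
      ext j
      rw [Set.mem_ofPred_eq, coe_filter, Set.mem_ofPred_eq]
    rw [mul_sum, ← sum_sub_distrib, dp_double X hX]
    congr 1
    refine sum_congr rfl fun d _ => sum_congr rfl fun ρ _ => ?_
    rw [h1, h2]

end Pool.Agent.FanL
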