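import Pool.Agent.Lib_MP_f1a94e_fl.Defs

/-!
# Piece GRC: one class against almost all classes
-/

set_option autoImplicit false

namespace Pool.Agent.FanL

open Finset Pool.Agent.GaussMR Pool.Agent.OmAll Pool.Agent.OmEq Pool.Agent.LPr Pool.Agent.OrbL MeasureTheory Filter

/-- the class of a pair -/
private theorem cl_iff {n : ℕ} {e : G × G} (he : En n e) (c : ℤ) : cl n e = (c : ZMod n) ↔ cg n e.2 ((c : G) * e.1) := by
  constructor
  · intro h
    obtain ⟨c', hc', hcg⟩ := he.2.2.2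
    rw [cl_eq he hcg, ZMod.intCast_eq_intCast_iff_dvd_sub] at h
    exact cg_trans hcg (cg_symm (cls_cg e.1 h))
  · intro h
    exact cl_eq he h

private theorem cg_mulL {M : ℕ} {u v : G} (a : ℤ) (h : cg M u v) : cg M ((a : G) * u) ((a : G) * v) := by
  obtain ⟨h1, h2⟩ := h
  constructor
  · rw [(cls_mul a u).1, (cls_mul a v).1, ← mul_sub]
    exact h1.mul_left _
  · rw [(cls_mul a u).2, (cls_mul a v).2, ← mul_sub]
    exact h2.mul_left _

/-- PROOF. `e.2 ≡ c e.1` modulo `m` for `c` with `cl m e = c` (the lemmas on `cl` in m/G09.lean from line 619 on: `cl_spec` or similar; two multiples of the primitive vector `e.1` agree iff the factors agree). `e.1 ≡ u e.2 ≡ u c e.1` iff `u c = 1` in `ZMod m` iff `c = u⁻¹`. -/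
theorem cg_cl (m : ℕ) [NeZero m] (u : ℕ) (hu : u.Coprime m) {e : G × G} (he : En m e) :
    cg m e.1 (((u : ℤ) : G) * e.2) ↔ cl m e = ((u : ZMod m))⁻¹ := by
  obtain ⟨c, hc, hcg⟩ := he.2.2.2
  have hcl := cl_eq he hcg
  have h1 : ((1 : ℤ) : G) * e.1 = e.1 := by rw [Int.cast_one, one_mul]
  have hmul : ((u : ℤ) : G) * ((c : G) * e.1) = ((((u : ℤ) * c : ℤ)) : G) * e.1 := by
    rw [Int.cast_mul, mul_assoc]
  have hcg2 : cg m (((u : ℤ) : G) * e.2) (((((u : ℤ) * c : ℤ)) : G) * e.1) := by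
    rw [← hmul]
    exact cg_mulL _ hcg
  have hinv : (u : ZMod m) * ((u : ZMod m))⁻¹ = 1 := ZMod.coe_mul_inv_eq_one u hu
  have key : cg m e.1 (((u : ℤ) : G) * e.2) ↔ ((((u : ℤ) * c : ℤ)) : ZMod m) = 1 := by
    constructor
    · intro h
      have h2 := cg_trans h hcg2
      have h3 : cg m (((1 : ℤ) : G) * e.1) (((((u : ℤ) * c : ℤ)) : G) * e.1) := by rw [h1]; exact h2
      have h4 := cls_dvd he.2.2.1 h3
      have h5 := (ZMod.intCast_eq_intCast_iff_dvd_sub _ _ _).2 h4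
      rw [h5, Int.cast_one]
    · intro h
      have h4 : (((((u : ℤ) * c : ℤ)) : ℤ) : ZMod m) = ((1 : ℤ) : ZMod m) := by rw [h, Int.cast_one]
      have h5 := (ZMod.intCast_eq_intCast_iff_dvd_sub _ _ _).1 h4
      have h6 := cls_cg e.1 h5
      rw [h1] at h6
      exact cg_trans h6 (cg_symm hcg2)
  rw [key, hcl, Int.cast_mul, Int.cast_natCast]
  constructor
  · intro h
    have : (c : ZMod m) = ((u : ZMod m))⁻¹ * ((u : ZMod m) * (c : ZMod m)) := by
      rw [← mul_assoc, mul_comm (((u : ZMod m))⁻¹) (u : ZMod m), hinv, one_mul]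
    rw [this, h, mul_one]
  · intro h
    rw [h, hinv]

/-- PROOF. `1 + 4 n k` is coprime to `4 n ^ 2 k` and `1` modulo `4`. -/
theorem unit_c (n k : ℕ) (hn : 1 ≤ n) (hk : 1 ≤ k) : (1 + 4 * n * k).Coprime (4 * n ^ 2 * k) ∧
    IsUnit ((((1 + 4 * n * k : ℕ) : ZMod (4 * n ^ 2 * k)))⁻¹) ∧
    GrambH (4 * n ^ 2 * k) ((((1 + 4 * n * k : ℕ) : ZMod (4 * n ^ 2 * k)))⁻¹) := by
  have hc : (1 + 4 * n * k).Coprime (4 * n ^ 2 * k) := by
    have h1 : (1 + 4 * n * k).Coprime (4 * n * k) := by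
      rw [Nat.coprime_add_self_left]
      exact Nat.coprime_one_left _
    have h2 : (1 + 4 * n * k).Coprime n :=
      Nat.Coprime.coprime_dvd_right ⟨4 * k, by ring⟩ h1
    have e : 4 * n ^ 2 * k = (4 * n * k) * n := by ring
    rw [e]
    exact Nat.Coprime.mul_right h1 h2
  have hinv := ZMod.coe_mul_inv_eq_one (1 + 4 * n * k) hc
  refine ⟨hc, ?_, ?_⟩
  · exact IsUnit.of_mul_eq_one _ ((mul_comm _ _).trans hinv)
  · intro h4
    have h1 := congrArg (ZMod.castHom h4 (ZMod 4)) hinv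
    rw [map_mul, map_one, map_natCast] at h1
    have h2 : ((1 + 4 * n * k : ℕ) : ZMod 4) = 1 := by
      have : ((4 : ℕ) : ZMod 4) = 0 := ZMod.natCast_self 4
      push_cast
      have h3 : (4 : ZMod 4) = 0 := by
        have := this
        push_cast at this
        exact this
      rw [h3, zero_mul, zero_mul, add_zero]
    rw [h2, one_mul] at h1
    exact h1

/-- as `gramt_co`, for the class `c` -/
private theorem gramc_co (n : ℕ) [NeZero n] (W : ℝ → ℝ → ℂ) (c0 : ZMod n) (hu0 : IsUnit c0) (hH0 : GrambH n c0)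
    (χ : DirichletCharacter ℂ n) :
    by classical exact grambCo n (fun c => (if c = c0 then 1 else 0) -
      ((kap n / n.totient : ℝ) : ℂ) * (if GrambH n c then 1 else 0)) χ = 0 ∨
      (∃ a : ℕ, a % 4 = 1 ∧ a.Coprime n ∧ χ ((a : ZMod n)) ≠ 1) ∨ ∀ y, (∫ t, W y t) = 0 := by
  classical
  have hn : 0 < n := NeZero.pos n
  have hφ : (n.totient : ℝ) ≠ 0 := by
    have := (Nat.totient_pos.mpr hn).ne'
    exact_mod_cast this
  by_cases hex : ∃ a : ℕ, a % 4 = 1 ∧ a.Coprime n ∧ χ ((a : ZMod n)) ≠ 1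
  · exact Or.inr (Or.inl hex)
  · left
    push Not at hex
    have hval : ∀ u : ZMod n, IsUnit u → GrambH n u → χ u⁻¹ = 1 := by
      intro u hu' h1
      obtain ⟨a, ha4, hac, hau⟩ := gramb_rep n u hu' h1
      have h2 := hex a ha4 hac
      rw [hau] at h2
      have h3 : u⁻¹ * u = 1 := ZMod.inv_mul_of_unit u hu'
      have h4 : χ u⁻¹ * χ u = 1 := by rw [← map_mul, h3, map_one]
      rw [h2, mul_one] at h4
      exact h4
    unfold grambCo
    have h1 : ∑ u ∈ univ.filter (fun u : ZMod n => IsUnit u), ((if u = c0 then 1 else 0) -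
        ((kap n / n.totient : ℝ) : ℂ) * (if GrambH n u then 1 else 0)) * χ u⁻¹ = 0 := by
      have e1 : ∀ u ∈ univ.filter (fun u : ZMod n => IsUnit u), ((if u = c0 then 1 else 0) -
          ((kap n / n.totient : ℝ) : ℂ) * (if GrambH n u then 1 else 0)) * χ u⁻¹ =
          (if u = c0 then 1 else 0) - (if GrambH n u then ((kap n / n.totient : ℝ) : ℂ) else 0) := by
        intro u hu
        have hu' := (mem_filter.mp hu).2
        rw [sub_mul]
        congr 1
        · by_cases h1 : u = c0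
          · rw [if_pos h1, h1, hval c0 hu0 hH0, mul_one]
          · rw [if_neg h1, zero_mul]
        · by_cases h1 : GrambH n u
          · rw [if_pos h1, if_pos h1, mul_one, hval u hu' h1, mul_one]
          · rw [if_neg h1, if_neg h1, mul_zero, zero_mul]
      rw [Finset.sum_congr rfl e1, Finset.sum_sub_distrib, Finset.sum_ite_eq',
        if_pos (mem_filter.mpr ⟨mem_univ _, hu0⟩), ← Finset.sum_filter, Finset.filter_filter,
        Finset.sum_const, nsmul_eq_mul]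
      have h5 := gramb_card n
      have h6 : ((univ.filter (fun u : ZMod n => IsUnit u ∧ GrambH n u)).card : ℝ) *
          (kap n / n.totient) = 1 := by
        rw [← mul_div_assoc, mul_comm, h5, div_self hφ]
      have h7 : (((univ.filter (fun u : ZMod n => IsUnit u ∧ GrambH n u)).card : ℝ) : ℂ) *
          ((kap n / n.totient : ℝ) : ℂ) = 1 := by
        rw [← Complex.ofReal_mul, h6, Complex.ofReal_one]
      rw [Complex.ofReal_natCast] at h7
      rw [h7, sub_self]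
    rw [h1, mul_zero]

/-- PROOF. As `gramt_co` (m/G27.lean, line 329) with the class `c0` instead of `1`: if `χ (a) = 1` for all `a ≡ 1 mod 4` coprime to `m` then `χ c0 = 1` (`gramb_rep`), and the sum is `1 - 1 = 0`. -/
theorem grc_co (m : ℕ) [NeZero m] (c0 : ZMod m) (hc0 : IsUnit c0) (hH : GrambH m c0) (W : ℝ → ℝ → ℂ)
    (χ : DirichletCharacter ℂ m) :
    by classical exact grambCo m (fun c => (if c = c0 then 1 else 0) -
      ((kap m / m.totient : ℝ) : ℂ) * (if GrambH m c then 1 else 0)) χ = 0 ∨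
      (∃ a : ℕ, a % 4 = 1 ∧ a.Coprime m ∧ χ ((a : ZMod m)) ≠ 1) ∨ ∀ y, (∫ t, W y t) = 0 :=
  gramc_co m W c0 hc0 hH χ

/-- as `gramAT`, for the class `c` -/
private theorem gramCA (n : ℕ) (hn : 0 < n) (c0 : ZMod n) (f1 f2 : ℝ → ℕ → ℂ) (E : Finset ℕ) (ω : ℂ) (h1 : FX f1 E ω)
    (h2 : FX f2 E ω) (hω : ‖ω‖ = 1) (hω2 : ω ^ 2 ≠ 1) (b : ℝ) (W : ℝ → ℝ → ℂ) (hW : TF b W) :
    Tendsto (fun X : ℝ => Cc n c0 (f1 X) (f2 X) (b * X) W X / X) atTop (nhds 0) := by
  classical
  have : NeZero n := ⟨hn.ne'⟩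
  refine (gramt_lim n f1 f2 E ω h1 h2 hω b W hW (fun c => if c = c0 then 1 else 0) (Or.inl hω2)).congr (fun X => ?_)
  congr 1
  unfold Cc
  rw [Finset.sum_filter]
  refine Finset.sum_congr rfl (fun e he => ?_)
  by_cases c1 : cl n e = c0
  · rw [if_pos c1, if_pos c1, mul_one]
  · rw [if_neg c1, if_neg c1, mul_zero, zero_mul]

/-- as `gramBT`, for the class `c` -/
private theorem gramCB (n : ℕ) (hn : 0 < n) (c0 : ZMod n) (hu0 : IsUnit c0) (hH0 : GrambH n c0) (f1 f2 : ℝ → ℕ → ℂ)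
    (E : Finset ℕ) (ω : ℂ) (h1 : FX f1 E ω) (h2 : FX f2 E ω)
    (hω : ‖ω‖ = 1) (b : ℝ) (W : ℝ → ℝ → ℂ) (hW : TF b W) :
    Tendsto (fun X : ℝ => (Cc n c0 (f1 X) (f2 X) (b * X) W X -
      ((kap n / n.totient : ℝ) : ℂ) * Qs2 (f1 X) (f2 X) n (b * X) W X) / X) atTop (nhds 0) := by
  classical
  have : NeZero n := ⟨hn.ne'⟩
  refine (gramt_lim n f1 f2 E ω h1 h2 hω b W hW _ (Or.inr fun χ => gramc_co n W c0 hu0 hH0 χ)).congr (fun X => ?_)
  congr 1
  unfold Qs2 Cc
  rw [Finset.mul_sum, Finset.sum_filter, Finset.sum_filter, ← Finset.sum_sub_distrib]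
  refine Finset.sum_congr rfl (fun e he => ?_)
  have he' := ((mem_EN hn).mp he).1
  have k2 := gramb_hc he'
  simp only [k2]
  by_cases c1 : cl n e = c0
  · by_cases c2 : GrambH n (cl n e)
    · rw [if_pos c1, if_pos c1, if_pos c2, if_pos c2]
      ring
    · rw [if_pos c1, if_pos c1, if_neg c2, if_neg c2]
      ring
  · by_cases c2 : GrambH n (cl n e)
    · rw [if_neg c1, if_neg c1, if_pos c2, if_pos c2]
      ring
    · rw [if_neg c1, if_neg c1, if_neg c2, if_neg c2]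
      ring

private theorem cc2_bil (a b : ℕ → ℂ) (μ : ℂ) (n : ℕ) (c0 : ZMod n) (x : ℝ) (W : ℝ → ℝ → ℂ) (X : ℝ) :
    Cc n c0 (fun m => (a m - μ * b m) / 2) (fun m => (a m - μ * b m) / 2) x W X =
      (Cc n c0 a a x W X - (starRingEnd ℂ) μ * Cc n c0 a b x W X - μ * Cc n c0 b a x W X +
        μ * (starRingEnd ℂ) μ * Cc n c0 b b x W X) / 4 := by
  classical
  unfold Cc
  rw [mul_sum, mul_sum, mul_sum, ← sum_sub_distrib, ← sum_sub_distrib, ← sum_add_distrib, sum_div]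
  refine sum_congr rfl fun e _ => ?_
  rw [bil_conj]
  ring

/-- PROOF. As `gramBT` and `comb_GBX` (m/G27.lean, lines 380-490): `gramt_lim` with the function of `grc_co`, for the four pairs from `f, f0`; expansion of `(f - μ f0)/2` (`bil_conj`, as `cg2_bil`, `qs2_bil`). -/
theorem comb_GCX (E : Finset ℕ) (ω : ℂ) (hω : ‖ω‖ = 1) (f f0 : ℝ → ℕ → ℂ) (h : FX f E ω) (h0 : FX f0 E ω) (μ : ℂ) :
    GCX (fun X n => (f X n - μ * f0 X n) / 2) := by
  intro n hn c hu hH b W hW a ha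
  have t1 := gramCB n hn c hu hH _ _ E ω (h.dil ha) (h.dil ha) hω b W hW
  have t2 := gramCB n hn c hu hH _ _ E ω (h.dil ha) (h0.dil ha) hω b W hW
  have t3 := gramCB n hn c hu hH _ _ E ω (h0.dil ha) (h.dil ha) hω b W hW
  have t4 := gramCB n hn c hu hH _ _ E ω (h0.dil ha) (h0.dil ha) hω b W hW
  have t := (((t1.sub (t2.const_mul ((starRingEnd ℂ) μ))).sub (t3.const_mul μ)).add
    (t4.const_mul (μ * (starRingEnd ℂ) μ))).div_const 4
  simp only [mul_zero, sub_zero, add_zero, zero_div] at t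
  refine t.congr fun X => ?_
  rw [cc2_bil, qs2_bil]
  ring

/-- PROOF. As `gramAT` / `gax` (m/G27.lean): `gramt_lim` with the indicator of `c`, first alternative. -/
theorem gca_of (E : Finset ℕ) (ω : ℂ) (hω : ‖ω‖ = 1) (hω2 : ω ^ 2 ≠ 1) (f : ℝ → ℕ → ℂ) (h : FX f E ω) : GCA f := by
  intro n hn c b W hW a ha
  exact gramCA n hn c _ _ E ω (h.dil ha) (h.dil ha) hω hω2 b W hW

end Pool.Agent.FanL
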