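import Pool.Agent.Lib_MP_f1a94e_fl.Eight

/-!
# Products of the Liouville function over `k` members in arithmetic progression

For every sign `g(d, m mod d)`, the product of `g` and of the Liouville function at the members `i, i + n, …,
i + (k - 1) n` takes both signs for at least about a quarter of the pairs. PROOF: the product at `(d, m)` times the
product at `(d, m + n d)` is the product of two members, which is balanced.
-/

set_option autoImplicit false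

namespace Pool.Agent.FanL

open Finset Filter

private theorem lam_sg (n : ℕ) : lam n = 1 ∨ lam n = -1 := by
  unfold lam
  exact neg_one_pow_eq_or ℤ _

private theorem lx_sg (p : ℕ × ℕ) (j : ℕ) : lx p j = 1 ∨ lx p j = -1 := lam_sg _

/-- the product over the members `i, i + n, …, i + (k - 1) n`, times a sign depending on `d` and `m mod d` -/
def kp (g : ℕ → ℕ → ℤ) (k i n : ℕ) (p : ℕ × ℕ) : ℤ := g p.1 (p.2 % p.1) * ∏ l ∈ range k, lx p (i + l * n)

private theorem prod_sg (k : ℕ) (f : ℕ → ℤ) (hf : ∀ l, f l = 1 ∨ f l = -1) :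
    ∏ l ∈ range k, f l = 1 ∨ ∏ l ∈ range k, f l = -1 := by
  induction k with
  | zero => left; rfl
  | succ k ih =>
    rw [prod_range_succ]
    rcases ih with h | h <;> rcases hf k with h' | h' <;> rw [h, h'] <;> norm_num

theorem kp_sg {g : ℕ → ℕ → ℤ} (hg : ∀ d r, g d r = 1 ∨ g d r = -1) (k i n : ℕ) (p : ℕ × ℕ) :
    kp g k i n p = 1 ∨ kp g k i n p = -1 := by
  unfold kp
  rcases prod_sg k (fun l => lx p (i + l * n)) (fun l => lx_sg _ _) with h | h <;>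
    rcases hg p.1 (p.2 % p.1) with h' | h' <;> rw [h, h'] <;> norm_num

/-- the shift `(d, m) ↦ (d, m + n d)` -/
def shp (n : ℕ) (p : ℕ × ℕ) : ℕ × ℕ := (p.1, p.2 + n * p.1)

theorem shp_inj (n : ℕ) : Function.Injective (shp n) := by
  rintro ⟨a, b⟩ ⟨c, d⟩ h
  unfold shp at h
  simp only [Prod.mk.injEq] at h
  obtain ⟨rfl, h2⟩ := h
  simp only [Prod.mk.injEq, true_and]
  omega

theorem lx_shp (n j : ℕ) (p : ℕ × ℕ) : lx (shp n p) j = lx p (j + n) := by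
  unfold lx shp
  have : p.2 + n * p.1 + j * p.1 = p.2 + (j + n) * p.1 := by ring
  simp only [this]

theorem kp_shp {g : ℕ → ℕ → ℤ} (hg : ∀ d r, g d r = 1 ∨ g d r = -1) (k i n : ℕ) (p : ℕ × ℕ) :
    kp g k i n p * kp g k i n (shp n p) = lx p i * lx p (i + k * n) := by
  unfold kp
  have e1 : (shp n p).2 % (shp n p).1 = p.2 % p.1 := by
    unfold shp
    simp
  have e2 : ∀ l, lx (shp n p) (i + l * n) = lx p (i + (l + 1) * n) := by
    intro l
    rw [lx_shp]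
    congr 1
    ring
  rw [e1]
  simp only [e2]
  have e0 : (shp n p).1 = p.1 := rfl
  rw [e0]
  have h1 := prod_range_succ (fun l => lx p (i + l * n)) k
  have h2 := prod_range_succ' (fun l => lx p (i + l * n)) k
  rw [h2] at h1
  simp only [zero_mul, add_zero] at h1
  have sA := prod_sg k (fun l => lx p (i + l * n)) (fun l => lx_sg _ _)
  have sB := prod_sg k (fun l => lx p (i + (l + 1) * n)) (fun l => lx_sg _ _)
  rcases sA with a | a <;> rcases sB with b | b <;> rcases lx_sg p i with c | c <;>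
    rcases lx_sg p (i + k * n) with d | d <;> rcases hg p.1 (p.2 % p.1) with e | e <;>
    simp only [a, b, c, d, e] at h1 ⊢ <;> omega

theorem shp_mem {X α β : ℝ} (hX : 0 ≤ X) (n : ℕ) {p : ℕ × ℕ} (hp : p ∈ DP X α (β - n)) : shp n p ∈ DP X α β := by
  rw [mem_DP hX] at hp ⊢
  obtain ⟨h1, h2, h3, h4, h5⟩ := hp
  have h6 : (0 : ℝ) ≤ p.1 := Nat.cast_nonneg _
  have h7 : (0 : ℝ) ≤ n := Nat.cast_nonneg _
  refine ⟨h1, h2, ?_, ?_, ?_⟩
  · show α * (p.1 : ℝ) ≤ ((p.2 + n * p.1 : ℕ) : ℝ)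
    push_cast
    have := mul_nonneg h7 h6
    linarith
  · show ((p.2 + n * p.1 : ℕ) : ℝ) < β * (p.1 : ℝ)
    push_cast
    linarith
  · show p.1 ∣ (p.2 + n * p.1) ^ 2 + 1
    have : (p.2 + n * p.1) ^ 2 + 1 = (p.2 ^ 2 + 1) + p.1 * (n * (2 * p.2 + n * p.1)) := by ring
    rw [this]
    exact dvd_add h5 (dvd_mul_right _ _)

theorem dp_mono {X α β γ : ℝ} (hX : 0 ≤ X) (h : β ≤ γ) {p : ℕ × ℕ} (hp : p ∈ DP X α β) : p ∈ DP X α γ := by
  rw [mem_DP hX] at hp ⊢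
  obtain ⟨h1, h2, h3, h4, h5⟩ := hp
  exact ⟨h1, h2, h3, h4.trans_le (mul_le_mul_of_nonneg_right h (Nat.cast_nonneg _)), h5⟩

open Classical in
theorem kp_count {X α β : ℝ} (hX : 0 ≤ X) {g : ℕ → ℕ → ℤ} (hg : ∀ d r, g d r = 1 ∨ g d r = -1) (k i n : ℕ)
    {s : ℤ} (hs : s = 1 ∨ s = -1) :
    (((DP X α (β - n)).card : ℝ) - ∑ p ∈ DP X α (β - n), (lx p i : ℝ) * lx p (i + k * n)) / 4 ≤
      (((DP X α β).filter (fun p => kp g k i n p = s)).card : ℝ) := by
  have hn : (0 : ℝ) ≤ n := Nat.cast_nonneg _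
  have a1 : (((DP X α (β - n)).filter (fun p => kp g k i n p = s)).card : ℝ) ≤
      (((DP X α β).filter (fun p => kp g k i n p = s)).card : ℝ) := by
    exact_mod_cast card_le_card (fun p hp => by
      rw [mem_filter] at hp ⊢
      exact ⟨dp_mono hX (by linarith) hp.1, hp.2⟩)
  have a2 : (((DP X α (β - n)).filter (fun p => kp g k i n (shp n p) = s)).card : ℝ) ≤
      (((DP X α β).filter (fun p => kp g k i n p = s)).card : ℝ) := by
    exact_mod_cast card_le_card_of_injOn (shp n) (fun p hp => by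
      rw [mem_coe, mem_filter] at hp ⊢
      exact ⟨shp_mem hX n hp.1, hp.2⟩) (shp_inj n).injOn
  have a3 : (((DP X α (β - n)).card : ℝ) - ∑ p ∈ DP X α (β - n), (lx p i : ℝ) * lx p (i + k * n)) / 2 ≤
      (((DP X α (β - n)).filter (fun p => kp g k i n p = s)).card : ℝ) +
        (((DP X α (β - n)).filter (fun p => kp g k i n (shp n p) = s)).card : ℝ) := by
    rw [card_filter, card_filter, Nat.cast_sum, Nat.cast_sum, ← sum_add_distrib]
    have : ((DP X α (β - n)).card : ℝ) - ∑ p ∈ DP X α (β - n), (lx p i : ℝ) * lx p (i + k * n) =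
        ∑ p ∈ DP X α (β - n), (1 - (lx p i : ℝ) * lx p (i + k * n)) := by
      rw [sum_sub_distrib, sum_const, nsmul_eq_mul, mul_one]
    rw [this, sum_div]
    refine sum_le_sum fun p _ => ?_
    have e : (lx p i : ℝ) * lx p (i + k * n) = (kp g k i n p : ℝ) * kp g k i n (shp n p) := by
      have := kp_shp hg k i n p
      exact_mod_cast this.symm
    rw [e]
    rcases kp_sg hg k i n p with a | a <;> rcases kp_sg hg k i n (shp n p) with b | b <;> rcases hs with c | c <;>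
      rw [a, b, c] <;> norm_num
  linarith

open Classical in
/-- the product of `k` members in arithmetic progression, times any sign depending on `d` and `m mod d` -/
theorem kpat (κ : ℝ) (hκ0 : 0 < κ) (hκ : ∀ α β : ℝ, 0 ≤ α → α ≤ β →
      Tendsto (fun X : ℝ => ((DP X α β).card : ℝ) / X) atTop (nhds (κ * (β - α))))
    (i n k : ℕ) (hn : 0 < n) (hk : 0 < k) (α β : ℝ) (hα : 0 ≤ α) (_hαβ : α ≤ β) (ε : ℝ) (hε : 0 < ε) :
    ∀ᶠ X : ℝ in atTop, ∀ g : ℕ → ℕ → ℤ, (∀ a b, g a b = 1 ∨ g a b = -1) → ∀ s : ℤ, (s = 1 ∨ s = -1) →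
      (κ * (β - α - n) / 4 - ε) * X ≤
        (((DP X α β).filter (fun p => g p.1 (p.2 % p.1) * (∏ l ∈ range k, lx p (i + l * n)) = s)).card : ℝ) := by
  by_cases hc : α ≤ β - n
  · have t1 := hκ α (β - n) hα hc
    have t2 := lx_pair i (i + k * n) (by
      have := Nat.mul_pos hk hn
      omega) α (β - n) hα hc
    have t3 := (t1.sub t2).div_const 4
    have e : (κ * (β - n - α) - 0) / 4 = κ * (β - α - n) / 4 := by ring
    rw [e] at t3
    have hev := t3.eventually (lt_mem_nhds (sub_lt_self _ hε))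
    filter_upwards [hev, eventually_gt_atTop (0 : ℝ)] with X hX hX0 g hg s hs
    rw [← le_div_iff₀ hX0]
    refine hX.le.trans ?_
    have h := kp_count (X := X) (α := α) (β := β) hX0.le hg k i n hs
    rw [← sub_div, div_right_comm]
    exact div_le_div_of_nonneg_right h hX0.le
  · filter_upwards [eventually_gt_atTop (0 : ℝ)] with X hX0 g hg s hs
    have h1 : κ * (β - α - n) / 4 ≤ 0 :=
      div_nonpos_of_nonpos_of_nonneg (mul_nonpos_of_nonneg_of_nonpos hκ0.le (by linarith)) (by norm_num)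
    have h2 : (κ * (β - α - n) / 4 - ε) * X ≤ 0 := mul_nonpos_of_nonpos_of_nonneg (by linarith) hX0.le
    exact h2.trans (Nat.cast_nonneg _)

/-- the pairs `(d, m)`, `m < J d`, are the `(d, r + j d)`, `r` a root modulo `d`, `j < J` -/
theorem dp_roots (X : ℝ) (hX : 0 ≤ X) (J : ℕ) (F : ℕ × ℕ → ℝ) :
    ∑ p ∈ DP X 0 J, F p = ∑ d ∈ Icc 1 ⌊X⌋₊, ∑ r ∈ (range d).filter (fun r => d ∣ r ^ 2 + 1),
      ∑ j ∈ range J, F (d, r + j * d) := by
  have e : ∀ d ∈ Icc 1 ⌊X⌋₊, ∑ r ∈ (range d).filter (fun r => d ∣ r ^ 2 + 1), ∑ j ∈ range J, F (d, r + j * d) =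
      ∑ q ∈ ((range d).filter (fun r => d ∣ r ^ 2 + 1)) ×ˢ range J, F (d, q.1 + q.2 * d) := by
    intro d _
    rw [sum_product]
  rw [sum_congr rfl e, sum_sigma']
  refine sum_bij' (fun p _ => (⟨p.1, (p.2 % p.1, p.2 / p.1)⟩ : Σ _ : ℕ, ℕ × ℕ))
    (fun q _ => (q.1, q.2.1 + q.2.2 * q.1)) ?_ ?_ ?_ ?_ ?_
  · intro p hp
    obtain ⟨h1, h2, _, h4, h5⟩ := (mem_DP hX).1 hp
    rw [mem_sigma, mem_Icc, mem_product, mem_filter, mem_range, mem_range, Nat.le_floor_iff hX]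
    refine ⟨⟨h1, h2⟩, ⟨Nat.mod_lt _ h1, ?_⟩, ?_⟩
    · have h6 : (p.2 % p.1) ^ 2 + 1 ≡ p.2 ^ 2 + 1 [MOD p.1] := ((Nat.mod_modEq p.2 p.1).pow 2).add_right 1
      exact (Nat.modEq_zero_iff_dvd.1 (h6.trans (Nat.modEq_zero_iff_dvd.2 h5)))
    · have h7 : p.2 < J * p.1 := by exact_mod_cast h4
      exact (Nat.div_lt_iff_lt_mul h1).2 h7
  · intro q hq
    rw [mem_sigma, mem_Icc, mem_product, mem_filter, mem_range, mem_range, Nat.le_floor_iff hX] at hq
    obtain ⟨⟨h1, h2⟩, ⟨h3, h4⟩, h5⟩ := hq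
    rw [mem_DP hX]
    refine ⟨h1, h2, ?_, ?_, ?_⟩
    · rw [zero_mul]
      exact Nat.cast_nonneg _
    · show ((q.2.1 + q.2.2 * q.1 : ℕ) : ℝ) < (J : ℝ) * (q.1 : ℝ)
      have : q.2.1 + q.2.2 * q.1 < J * q.1 := by
        calc q.2.1 + q.2.2 * q.1 < q.1 + q.2.2 * q.1 := by omega
          _ = (q.2.2 + 1) * q.1 := by ring
          _ ≤ J * q.1 := Nat.mul_le_mul_right _ h5
      exact_mod_cast this
    · show q.1 ∣ (q.2.1 + q.2.2 * q.1) ^ 2 + 1
      have : (q.2.1 + q.2.2 * q.1) ^ 2 + 1 = (q.2.1 ^ 2 + 1) + q.1 * (q.2.2 * (2 * q.2.1 + q.2.2 * q.1)) := by ring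
      rw [this]
      exact dvd_add h4 (dvd_mul_right _ _)
  · intro p hp
    show (p.1, p.2 % p.1 + p.2 / p.1 * p.1) = p
    rw [Nat.mod_add_div']
  · rintro ⟨d, r, j⟩ hq
    rw [mem_sigma, mem_Icc, mem_product, mem_filter, mem_range, mem_range] at hq
    obtain ⟨⟨h1, _⟩, ⟨h3, _⟩, _⟩ := hq
    simp only at h1 h3 ⊢
    have e1 : (r + j * d) % d = r := by
      rw [Nat.add_mul_mod_self_right, Nat.mod_eq_of_lt h3]
    have e2 : (r + j * d) / d = j := by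
      rw [Nat.add_mul_div_right _ _ h1, Nat.div_eq_of_lt h3, zero_add]
    rw [e1, e2]
  · intro p hp
    show F p = F (p.1, p.2 % p.1 + p.2 / p.1 * p.1)
    rw [Nat.mod_add_div']

open Classical in
/-- the correlations of `k` members in arithmetic progression, absolute values inside the sum over the roots -/
theorem kabs (κ : ℝ) (hκ0 : 0 < κ) (hκ : ∀ α β : ℝ, 0 ≤ α → α ≤ β →
      Tendsto (fun X : ℝ => ((DP X α β).card : ℝ) / X) atTop (nhds (κ * (β - α))))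
    (n k : ℕ) (hn : 0 < n) (hk : 0 < k) (J : ℕ) (ε : ℝ) (hε : 0 < ε) :
    ∀ᶠ X : ℝ in atTop, ∑ d ∈ Icc 1 ⌊X⌋₊, ∑ r ∈ (range d).filter (fun r => d ∣ r ^ 2 + 1),
      |((∑ j ∈ range J, ∏ l ∈ range k, lx (d, r) (j + l * n) : ℤ) : ℝ)| ≤ (κ * (J + n) / 2 + ε) * X := by
  have t1 := hκ 0 J le_rfl (Nat.cast_nonneg _)
  have hev := t1.eventually (gt_mem_nhds (lt_add_of_pos_right _ (half_pos hε)))
  filter_upwards [hev, eventually_gt_atTop (0 : ℝ),
    kpat κ hκ0 hκ 0 n k hn hk 0 J le_rfl (Nat.cast_nonneg _) (ε / 4) (by linarith)] with X hX hX0 hp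
  set S : ℕ → ℕ → ℤ := fun d r => ∑ j ∈ range J, ∏ l ∈ range k, lx (d, r) (j + l * n) with hS
  set g : ℕ → ℕ → ℤ := fun d r => if 0 ≤ S d r then 1 else -1 with hg
  have hgs : ∀ d r, g d r = 1 ∨ g d r = -1 := by
    intro d r
    simp only [hg]
    split_ifs
    · left; rfl
    · right; rfl
  have hgS : ∀ d r, g d r * S d r = |S d r| := by
    intro d r
    simp only [hg]
    split_ifs with h
    · rw [abs_of_nonneg h, one_mul]
    · rw [abs_of_neg (not_le.1 h), neg_one_mul]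
  have h1 := dp_roots X hX0.le J (fun p => (kp g k 0 n p : ℝ))
  have h2 : ∀ d ∈ Icc 1 ⌊X⌋₊, ∀ r ∈ (range d).filter (fun r => d ∣ r ^ 2 + 1),
      ∑ j ∈ range J, (kp g k 0 n (d, r + j * d) : ℝ) = |((S d r : ℤ) : ℝ)| := by
    intro d _ r hr
    rw [mem_filter, mem_range] at hr
    rw [← Int.cast_abs, ← hgS, ← Int.cast_sum]
    congr 1
    rw [hS]
    simp only
    rw [mul_sum]
    refine sum_congr rfl fun j _ => ?_
    unfold kp
    have e1 : (r + j * d) % d = r := by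
      rw [Nat.add_mul_mod_self_right, Nat.mod_eq_of_lt hr.1]
    simp only [e1]
    congr 1
    refine prod_congr rfl fun l _ => ?_
    have e2 : ((d, r + j * d) : ℕ × ℕ) = shp j (d, r) := rfl
    rw [e2, lx_shp]
    congr 1
    ring
  rw [sum_congr rfl (fun d hd => sum_congr rfl (h2 d hd))] at h1
  have h3 : ∑ p ∈ DP X 0 J, (kp g k 0 n p : ℝ) = ((DP X 0 J).card : ℝ) -
      2 * (((DP X 0 J).filter (fun p => kp g k 0 n p = -1)).card : ℝ) := by
    rw [card_filter, Nat.cast_sum, mul_sum, card_eq_sum_ones, Nat.cast_sum, ← sum_sub_distrib]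
    refine sum_congr rfl fun p _ => ?_
    rcases kp_sg hgs k 0 n p with h | h <;> rw [h] <;> norm_num
  rw [← h1, h3]
  have h4 := hp g hgs (-1) (Or.inr rfl)
  have h5 : (κ * ((J : ℝ) - 0 - n) / 4 - ε / 4) * X ≤
      (((DP X 0 J).filter (fun p => kp g k 0 n p = -1)).card : ℝ) := h4
  rw [div_lt_iff₀ hX0] at hX
  nlinarith

private theorem ind_sg {x s : ℤ} (hx : x = 1 ∨ x = -1) (hs : s = 1 ∨ s = -1) :
    (if x = s then (1 : ℝ) else 0) = (1 + s * x) / 2 := by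
  rcases hx with rfl | rfl <;> rcases hs with rfl | rfl <;> norm_num

/-- eight patterns from the product of the three -/
private theorem eightK_gen (c : ℝ) (s0 s1 s2 : ℤ) (h0 : s0 = 1 ∨ s0 = -1) (h1 : s1 = 1 ∨ s1 = -1)
    (h2 : s2 = 1 ∨ s2 = -1) (α β : ℝ) (ε : ℝ) (hε : 0 < ε) (y0 y1 y2 : ℕ × ℕ → ℤ)
    (hy0 : ∀ p, y0 p = 1 ∨ y0 p = -1) (hy1 : ∀ p, y1 p = 1 ∨ y1 p = -1) (hy2 : ∀ p, y2 p = 1 ∨ y2 p = -1)
    (m0 : Tendsto (fun X : ℝ => (∑ p ∈ DP X α β, (y0 p : ℝ)) / X) atTop (nhds 0))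
    (m1 : Tendsto (fun X : ℝ => (∑ p ∈ DP X α β, (y1 p : ℝ)) / X) atTop (nhds 0))
    (m2 : Tendsto (fun X : ℝ => (∑ p ∈ DP X α β, (y2 p : ℝ)) / X) atTop (nhds 0))
    (m01 : Tendsto (fun X : ℝ => (∑ p ∈ DP X α β, (y0 p : ℝ) * y1 p) / X) atTop (nhds 0))
    (m02 : Tendsto (fun X : ℝ => (∑ p ∈ DP X α β, (y0 p : ℝ) * y2 p) / X) atTop (nhds 0))
    (m12 : Tendsto (fun X : ℝ => (∑ p ∈ DP X α β, (y1 p : ℝ) * y2 p) / X) atTop (nhds 0))
    (hv : ∀ ε' : ℝ, 0 < ε' → ∀ᶠ X : ℝ in atTop, (c - ε') * X ≤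
      (((DP X α β).filter (fun p => y0 p * y1 p * y2 p = s0 * s1 * s2)).card : ℝ)) :
    ∀ᶠ X : ℝ in atTop, (c / 4 - ε) * X ≤
      (((DP X α β).filter (fun p => y0 p = s0 ∧ y1 p = s1 ∧ y2 p = s2)).card : ℝ) := by
  have hlim : Tendsto (fun X : ℝ => (
      |(∑ p ∈ DP X α β, (y0 p : ℝ)) / X| + |(∑ p ∈ DP X α β, (y1 p : ℝ)) / X| +
      |(∑ p ∈ DP X α β, (y2 p : ℝ)) / X| + |(∑ p ∈ DP X α β, (y0 p : ℝ) * y1 p) / X| +
      |(∑ p ∈ DP X α β, (y0 p : ℝ) * y2 p) / X| + |(∑ p ∈ DP X α β, (y1 p : ℝ) * y2 p) / X|)) atTop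
      (nhds 0) := by
    have h := (((((m0.abs).add m1.abs).add m2.abs).add m01.abs).add m02.abs).add m12.abs
    have e : |(0 : ℝ)| + |(0 : ℝ)| + |(0 : ℝ)| + |(0 : ℝ)| + |(0 : ℝ)| + |(0 : ℝ)| = 0 := by
      rw [abs_zero]
      ring
    rw [e] at h
    exact h
  have hev := hlim.eventually (gt_mem_nhds hε)
  filter_upwards [hev, eventually_gt_atTop (0 : ℝ), hv ε hε] with X hX hX0 hv1
  have hN : (((DP X α β).filter (fun p => y0 p = s0 ∧ y1 p = s1 ∧ y2 p = s2)).card : ℝ) =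
      (((DP X α β).card : ℝ) + s0 * (∑ p ∈ DP X α β, (y0 p : ℝ)) +
        s1 * (∑ p ∈ DP X α β, (y1 p : ℝ)) + s2 * (∑ p ∈ DP X α β, (y2 p : ℝ)) +
        s0 * s1 * (∑ p ∈ DP X α β, (y0 p : ℝ) * y1 p) +
        s0 * s2 * (∑ p ∈ DP X α β, (y0 p : ℝ) * y2 p) +
        s1 * s2 * (∑ p ∈ DP X α β, (y1 p : ℝ) * y2 p) +
        s0 * s1 * s2 * (∑ p ∈ DP X α β, (y0 p : ℝ) * y1 p * y2 p)) / 8 := by
    rw [Finset.card_filter, Nat.cast_sum]
    have h3 : ∀ p : ℕ × ℕ, ((if y0 p = s0 ∧ y1 p = s1 ∧ y2 p = s2 then 1 else 0 : ℕ) : ℝ) =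
        (1 + s0 * (y0 p : ℝ) + s1 * (y1 p : ℝ) + s2 * (y2 p : ℝ) +
          s0 * s1 * ((y0 p : ℝ) * y1 p) + s0 * s2 * ((y0 p : ℝ) * y2 p) +
          s1 * s2 * ((y1 p : ℝ) * y2 p) + s0 * s1 * s2 * ((y0 p : ℝ) * y1 p * y2 p)) / 8 := by
      intro p
      have h4 : ((if y0 p = s0 ∧ y1 p = s1 ∧ y2 p = s2 then 1 else 0 : ℕ) : ℝ) =
          (if y0 p = s0 then (1 : ℝ) else 0) * ((if y1 p = s1 then (1 : ℝ) else 0) *
            (if y2 p = s2 then (1 : ℝ) else 0)) := by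
        by_cases ha : y0 p = s0 <;> by_cases hb : y1 p = s1 <;> by_cases hc : y2 p = s2 <;>
          simp [ha, hb, hc]
      rw [h4, ind_sg (hy0 p) h0, ind_sg (hy1 p) h1, ind_sg (hy2 p) h2]
      ring
    rw [Finset.sum_congr rfl fun p _ => h3 p, ← Finset.sum_div]
    simp only [Finset.sum_add_distrib, ← Finset.mul_sum]
    rw [Finset.sum_const, nsmul_eq_mul, mul_one]
  have hV : (((DP X α β).filter (fun p => y0 p * y1 p * y2 p = s0 * s1 * s2)).card : ℝ) =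
      (((DP X α β).card : ℝ) + s0 * s1 * s2 * (∑ p ∈ DP X α β, (y0 p : ℝ) * y1 p * y2 p)) / 2 := by
    rw [Finset.card_filter, Nat.cast_sum]
    have h3 : ∀ p : ℕ × ℕ, ((if y0 p * y1 p * y2 p = s0 * s1 * s2 then 1 else 0 : ℕ) : ℝ) =
        (1 + s0 * s1 * s2 * ((y0 p : ℝ) * y1 p * y2 p)) / 2 := by
      intro p
      rcases hy0 p with a | a <;> rcases hy1 p with b | b <;> rcases hy2 p with d | d <;>
        rcases h0 with e | e <;> rcases h1 with f | f <;> rcases h2 with k | k <;>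
        rw [a, b, d, e, f, k] <;> norm_num
    rw [Finset.sum_congr rfl fun p _ => h3 p, ← Finset.sum_div]
    simp only [Finset.sum_add_distrib, ← Finset.mul_sum]
    rw [Finset.sum_const, nsmul_eq_mul, mul_one]
  have sg : ∀ (s : ℝ) (z : ℝ), |s| = 1 → -|z| ≤ s * z := by
    intro s z hs
    have := neg_abs_le (s * z)
    rwa [abs_mul, hs, one_mul] at this
  have a0 : |(s0 : ℝ)| = 1 := by rcases h0 with h | h <;> rw [h] <;> norm_num
  have a1 : |(s1 : ℝ)| = 1 := by rcases h1 with h | h <;> rw [h] <;> norm_num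
  have a2 : |(s2 : ℝ)| = 1 := by rcases h2 with h | h <;> rw [h] <;> norm_num
  have a01 : |(s0 : ℝ) * s1| = 1 := by rw [abs_mul, a0, a1, one_mul]
  have a02 : |(s0 : ℝ) * s2| = 1 := by rw [abs_mul, a0, a2, one_mul]
  have a12 : |(s1 : ℝ) * s2| = 1 := by rw [abs_mul, a1, a2, one_mul]
  have g0 := sg s0 (∑ p ∈ DP X α β, (y0 p : ℝ)) a0
  have g1 := sg s1 (∑ p ∈ DP X α β, (y1 p : ℝ)) a1
  have g2 := sg s2 (∑ p ∈ DP X α β, (y2 p : ℝ)) a2
  have g01 := sg (s0 * s1) (∑ p ∈ DP X α β, (y0 p : ℝ) * y1 p) a01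
  have g02 := sg (s0 * s2) (∑ p ∈ DP X α β, (y0 p : ℝ) * y2 p) a02
  have g12 := sg (s1 * s2) (∑ p ∈ DP X α β, (y1 p : ℝ) * y2 p) a12
  simp only [abs_div, abs_of_pos hX0, ← add_div] at hX
  rw [div_lt_iff₀ hX0] at hX
  rw [hV] at hv1
  rw [hN]
  have hεX : 0 ≤ ε * X := (mul_pos hε hX0).le
  nlinarith

open Classical in
/-- the eight patterns at the members `i`, `i + n`, `i + 2 n` -/
theorem eightK_a (κ : ℝ) (hκ0 : 0 < κ) (hκ : ∀ α β : ℝ, 0 ≤ α → α ≤ β →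
      Tendsto (fun X : ℝ => ((DP X α β).card : ℝ) / X) atTop (nhds (κ * (β - α))))
    (s0 s1 s2 : ℤ) (h0 : s0 = 1 ∨ s0 = -1) (h1 : s1 = 1 ∨ s1 = -1) (h2 : s2 = 1 ∨ s2 = -1) (i n : ℕ) (hn : 0 < n)
    (α β : ℝ) (hα : 0 ≤ α) (hαβ : α ≤ β) (ε : ℝ) (hε : 0 < ε) :
    ∀ᶠ X : ℝ in atTop, (κ * (β - α - n) / 16 - ε) * X ≤
      (((DP X α β).filter (fun p => lx p i = s0 ∧ lx p (i + n) = s1 ∧ lx p (i + 2 * n) = s2)).card : ℝ) := by
  have h := eightK_gen (κ * (β - α - n) / 4) s0 s1 s2 h0 h1 h2 α β ε hε (fun p => lx p i) (fun p => lx p (i + n))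
    (fun p => lx p (i + 2 * n)) (fun p => lx_sg p i) (fun p => lx_sg p _) (fun p => lx_sg p _) (lx_mean i α β hα hαβ)
    (lx_mean _ α β hα hαβ) (lx_mean _ α β hα hαβ)
    (lx_pair i (i + n) (by omega) α β hα hαβ) (lx_pair i (i + 2 * n) (by omega) α β hα hαβ)
    (lx_pair (i + n) (i + 2 * n) (by omega) α β hα hαβ) ?_
  · have e : κ * (β - α - n) / 4 / 4 = κ * (β - α - n) / 16 := by ring
    rw [e] at h
    exact h
  · intro ε' hε'
    filter_upwards [kpat κ hκ0 hκ i n 3 hn (by norm_num) α β hα hαβ ε' hε'] with X hX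
    have h3 := hX (fun _ _ => 1) (fun _ _ => Or.inl rfl) (s0 * s1 * s2) (by
      rcases h0 with a | a <;> rcases h1 with b | b <;> rcases h2 with c | c <;> rw [a, b, c] <;> norm_num)
    refine h3.trans (le_of_eq ?_)
    congr 2
    ext p
    simp only [mem_filter]
    have e : (1 : ℤ) * (∏ l ∈ range 3, lx p (i + l * n)) = lx p i * lx p (i + n) * lx p (i + 2 * n) := by
      rw [prod_range_succ, prod_range_succ, prod_range_succ, prod_range_zero, one_mul, one_mul, zero_mul, add_zero,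
        one_mul]
    rw [e]

open Classical in
/-- the eight patterns at `d` and the members `i`, `i + n` -/
theorem eightK_b (κ : ℝ) (hκ0 : 0 < κ) (hκ : ∀ α β : ℝ, 0 ≤ α → α ≤ β →
      Tendsto (fun X : ℝ => ((DP X α β).card : ℝ) / X) atTop (nhds (κ * (β - α))))
    (s0 s1 s2 : ℤ) (h0 : s0 = 1 ∨ s0 = -1) (h1 : s1 = 1 ∨ s1 = -1) (h2 : s2 = 1 ∨ s2 = -1) (i n : ℕ) (hn : 0 < n)
    (α β : ℝ) (hα : 0 ≤ α) (hαβ : α ≤ β) (ε : ℝ) (hε : 0 < ε) :
    ∀ᶠ X : ℝ in atTop, (κ * (β - α - n) / 16 - ε) * X ≤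
      (((DP X α β).filter (fun p => lam p.1 = s0 ∧ lx p i = s1 ∧ lx p (i + n) = s2)).card : ℝ) := by
  have h := eightK_gen (κ * (β - α - n) / 4) s0 s1 s2 h0 h1 h2 α β ε hε (fun p => lam p.1) (fun p => lx p i)
    (fun p => lx p (i + n)) (fun p => lam_sg p.1) (fun p => lx_sg p _) (fun p => lx_sg p _) (lam_mean α β hα hαβ)
    (lx_mean _ α β hα hαβ) (lx_mean _ α β hα hαβ)
    (lam_pair i α β hα hαβ) (lam_pair (i + n) α β hα hαβ)
    (lx_pair i (i + n) (by omega) α β hα hαβ) ?_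
  · have e : κ * (β - α - n) / 4 / 4 = κ * (β - α - n) / 16 := by ring
    rw [e] at h
    exact h
  · intro ε' hε'
    filter_upwards [kpat κ hκ0 hκ i n 2 hn (by norm_num) α β hα hαβ ε' hε'] with X hX
    have h3 := hX (fun d _ => lam d) (fun d _ => lam_sg d) (s0 * s1 * s2) (by
      rcases h0 with a | a <;> rcases h1 with b | b <;> rcases h2 with c | c <;> rw [a, b, c] <;> norm_num)
    refine h3.trans (le_of_eq ?_)
    congr 2
    ext p
    simp only [mem_filter]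
    have e : lam p.1 * (∏ l ∈ range 2, lx p (i + l * n)) = lam p.1 * lx p i * lx p (i + n) := by
      rw [prod_range_succ, prod_range_succ, prod_range_zero, one_mul, zero_mul, add_zero, one_mul, mul_assoc]
    rw [e]

end Pool.Agent.FanL
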