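import Pool.Agent.Lib_MP_f1a94e_fl.PairLim

/-!
# Piece LAW: the laws for two members
-/

set_option autoImplicit false

namespace Pool.Agent.FanL

open Finset Pool.Agent.GaussMR Pool.Agent.OmAll Pool.Agent.OmEq Pool.Agent.LPr Pool.Agent.OrbL MeasureTheory Filter

/-- the condition on one number: class of `Ω` modulo `q`, numbers of prime factors in the windows -/
def Cnd (q a : ℕ) (u v : ℕ → ℝ) (r : ℕ) (k : ℕ → ℕ) (X : ℝ) (n : ℕ) : Prop :=
  ArithmeticFunction.cardFactors n ≡ a [MOD q] ∧ ∀ i < r, wc X (u i) (v i) n = k i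

/-- the data of the windows -/
structure WD (K : ℕ) (u0 : ℝ) (u v : ℕ → ℝ) (r : ℕ) (k : ℕ → ℕ) (c : ℝ) : Prop where
  pos : 0 < u0
  big : 3 < K * u0
  win : ∀ i < r, u0 ≤ u i ∧ u i ≤ v i
  cnt : ∀ i < r, k i < K
  val : (c : ℂ) = cG K u v r k

/-- the cofactors are bounded by the cube of the parameter -/
private theorem law_er_le (i : ℕ) (α β : ℝ) (hα : 0 ≤ α) (hαβ : α ≤ β) :
    ∀ᶠ X : ℝ in atTop, ∀ p ∈ DP X α β, er p i ≠ 0 ∧ (er p i : ℝ) ≤ X ^ 3 := by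
  filter_upwards [eventually_ge_atTop (max 2 ((β + i) ^ 2 + 1))] with X hX p hp
  have hX2 : 2 ≤ X := (le_max_left _ _).trans hX
  have hXb : (β + i) ^ 2 + 1 ≤ X := (le_max_right _ _).trans hX
  rw [mem_DP (by linarith)] at hp
  obtain ⟨h1, h2, h3, h4, h5⟩ := hp
  have h6 := er_mul h5 i
  constructor
  · intro h
    rw [h, mul_zero] at h6
    omega
  · have h7 : (p.1 : ℝ) * er p i = (p.2 + i * p.1) ^ 2 + 1 := by exact_mod_cast h6
    have hp1 : (1 : ℝ) ≤ p.1 := by exact_mod_cast h1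
    have hβ : 0 ≤ β := hα.trans hαβ
    have hi : (0 : ℝ) ≤ i := Nat.cast_nonneg _
    have hp2 : (0 : ℝ) ≤ p.2 := Nat.cast_nonneg _
    have h8 : (p.2 : ℝ) + i * p.1 ≤ (β + i) * p.1 := by nlinarith
    have h9 : ((p.2 : ℝ) + i * p.1) ^ 2 ≤ ((β + i) * p.1) ^ 2 :=
      pow_le_pow_left₀ (by positivity) h8 2
    have h10 : (p.1 : ℝ) * er p i ≤ p.1 * ((β + i) ^ 2 * p.1 + 1) := by nlinarith
    have h11 : (er p i : ℝ) ≤ (β + i) ^ 2 * p.1 + 1 := le_of_mul_le_mul_left h10 (by linarith)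
    have h12 : (β + i) ^ 2 * p.1 ≤ (X - 1) * X :=
      mul_le_mul (by linarith) h2 (by linarith) (by linarith)
    have h13 : X ^ 2 ≤ X ^ 3 := pow_le_pow_right₀ (by linarith) (by norm_num)
    nlinarith

open Classical in
/-- the law for two numbers attached to a pair -/
private theorem law_gen (κ : ℝ) (α β : ℝ)
    (hκ : Tendsto (fun X : ℝ => ((DP X α β).card : ℝ) / X) atTop (nhds (κ * (β - α))))
    (q : ℕ) (hq : 0 < q) (K : ℕ) (u0 : ℝ) (u v u' v' : ℕ → ℝ) (r s : ℕ) (k l : ℕ → ℕ) (c c' : ℝ)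
    (h1 : WD K u0 u v r k c) (h2 : WD K u0 u' v' s l c') (a b : ℕ) (A B : ℕ × ℕ → ℕ)
    (hA : ∀ᶠ X : ℝ in atTop, ∀ p ∈ DP X α β, A p ≠ 0 ∧ (A p : ℝ) ≤ X ^ 3)
    (hB : ∀ᶠ X : ℝ in atTop, ∀ p ∈ DP X α β, B p ≠ 0 ∧ (B p : ℝ) ≤ X ^ 3)
    (hS : ∀ w1 w2 : ℂ, ‖w1‖ = 1 → ‖w2‖ = 1 → ∀ φ1 φ2 : ℝ → ℂ, StepF φ1 → StepF φ2 →
      Tendsto (fun X : ℝ => (∑ p ∈ DP X α β, (fx 1 w1 φ1 X (A p) * fx 1 w2 φ2 X (B p) -
        mm w1 φ1 * mm w2 φ2)) / X) atTop (nhds 0)) :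
    Tendsto (fun X : ℝ => (((DP X α β).filter (fun p => Cnd q a u v r k X (A p) ∧
      Cnd q b u' v' s l X (B p))).card : ℝ) / X) atTop (nhds (κ * (β - α) * c * c' / q ^ 2)) := by
  have hK : 0 < K := by
    rcases Nat.eq_zero_or_pos K with h | h
    · exfalso
      have h3 := h1.big
      rw [h, Nat.cast_zero, zero_mul] at h3
      linarith
    · exact h
  have hκc : Tendsto (fun X : ℝ => (((DP X α β).card : ℂ)) / (X : ℂ)) atTop
      (nhds ((κ * (β - α) : ℝ) : ℂ)) := by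
    have h3 := (Complex.continuous_ofReal.tendsto (κ * (β - α))).comp hκ
    refine h3.congr fun X => ?_
    rw [Function.comp_apply, Complex.ofReal_div, Complex.ofReal_natCast]
  have hprod : ∀ w1 w2 : ℂ, ‖w1‖ = 1 → ‖w2‖ = 1 → ∀ φ1 φ2 : ℝ → ℂ, StepF φ1 → StepF φ2 →
      Tendsto (fun X : ℝ => (∑ p ∈ DP X α β, fx 1 w1 φ1 X (A p) * fx 1 w2 φ2 X (B p)) / (X : ℂ))
        atTop (nhds (mm w1 φ1 * mm w2 φ2 * ((κ * (β - α) : ℝ) : ℂ))) := by
    intro w1 w2 hw1 hw2 φ1 φ2 hφ1 hφ2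
    have h3 := (hS w1 w2 hw1 hw2 φ1 φ2 hφ1 hφ2).add (hκc.const_mul (mm w1 φ1 * mm w2 φ2))
    rw [zero_add] at h3
    refine h3.congr fun X => ?_
    rw [sum_sub_distrib, sum_const, nsmul_eq_mul]
    ring
  set I : Finset (ℕ × (Fin r → ℕ)) := (range q) ×ˢ Fintype.piFinset (fun _ : Fin r => range K)
    with hI
  set I' : Finset (ℕ × (Fin s → ℕ)) := (range q) ×ˢ Fintype.piFinset (fun _ : Fin s => range K)
    with hI'
  have hterm : ∀ x ∈ I, ∀ y ∈ I', Tendsto (fun X : ℝ =>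
      (cf q K r a k x.1 x.2 * cf q K s b l y.1 y.2) *
        ((∑ p ∈ DP X α β, fx 1 (zq q ^ x.1) (phg K u v r x.2) X (A p) *
          fx 1 (zq q ^ y.1) (phg K u' v' s y.2) X (B p)) / (X : ℂ))) atTop
      (nhds ((cf q K r a k x.1 x.2 * cf q K s b l y.1 y.2) *
        (mm (zq q ^ x.1) (phg K u v r x.2) * mm (zq q ^ y.1) (phg K u' v' s y.2) *
          ((κ * (β - α) : ℝ) : ℂ)))) := by
    intro x _ y _
    exact (hprod _ _ (fine_norm q hq x.1) (fine_norm q hq y.1) _ _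
      (phg_step K hK u v r (fun i hi => ⟨h1.pos.trans_le (h1.win i hi).1, (h1.win i hi).2⟩) x.2)
      (phg_step K hK u' v' s (fun i hi => ⟨h2.pos.trans_le (h2.win i hi).1, (h2.win i hi).2⟩)
        y.2)).const_mul _
  have hsum : Tendsto (fun X : ℝ => ∑ x ∈ I, ∑ y ∈ I',
      (cf q K r a k x.1 x.2 * cf q K s b l y.1 y.2) *
        ((∑ p ∈ DP X α β, fx 1 (zq q ^ x.1) (phg K u v r x.2) X (A p) *
          fx 1 (zq q ^ y.1) (phg K u' v' s y.2) X (B p)) / (X : ℂ))) atTop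
      (nhds (∑ x ∈ I, ∑ y ∈ I', (cf q K r a k x.1 x.2 * cf q K s b l y.1 y.2) *
        (mm (zq q ^ x.1) (phg K u v r x.2) * mm (zq q ^ y.1) (phg K u' v' s y.2) *
          ((κ * (β - α) : ℝ) : ℂ)))) := by
    apply tendsto_finsetSum
    intro x hx
    apply tendsto_finsetSum
    intro y hy
    exact hterm x hx y hy
  have hval : ∑ x ∈ I, ∑ y ∈ I', (cf q K r a k x.1 x.2 * cf q K s b l y.1 y.2) *
        (mm (zq q ^ x.1) (phg K u v r x.2) * mm (zq q ^ y.1) (phg K u' v' s y.2) *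
          ((κ * (β - α) : ℝ) : ℂ)) = ((κ * (β - α) * c * c' / q ^ 2 : ℝ) : ℂ) := by
    have e1 : ∑ x ∈ I, cf q K r a k x.1 x.2 * mm (zq q ^ x.1) (phg K u v r x.2) =
        (c : ℂ) / (q : ℂ) := by
      rw [hI, sum_product, cf_sum q hq K u v r a k, h1.val]
    have e2 : ∑ y ∈ I', cf q K s b l y.1 y.2 * mm (zq q ^ y.1) (phg K u' v' s y.2) =
        (c' : ℂ) / (q : ℂ) := by
      rw [hI', sum_product, cf_sum q hq K u' v' s b l, h2.val]
    have e3 : ∑ x ∈ I, ∑ y ∈ I', (cf q K r a k x.1 x.2 * cf q K s b l y.1 y.2) *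
        (mm (zq q ^ x.1) (phg K u v r x.2) * mm (zq q ^ y.1) (phg K u' v' s y.2) *
          ((κ * (β - α) : ℝ) : ℂ)) =
        (∑ x ∈ I, cf q K r a k x.1 x.2 * mm (zq q ^ x.1) (phg K u v r x.2)) *
        (∑ y ∈ I', cf q K s b l y.1 y.2 * mm (zq q ^ y.1) (phg K u' v' s y.2)) *
          ((κ * (β - α) : ℝ) : ℂ) := by
      rw [sum_mul_sum, sum_mul]
      refine sum_congr rfl fun x _ => ?_
      rw [sum_mul]
      refine sum_congr rfl fun y _ => ?_
      ring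
    rw [e3, e1, e2]
    push_cast
    ring
  rw [hval] at hsum
  have hre := (Complex.continuous_re.tendsto _).comp hsum
  rw [Complex.ofReal_re] at hre
  refine hre.congr' ?_
  filter_upwards [hA, hB, eventually_ge_atTop 2] with X hAX hBX hX
  rw [Function.comp_apply]
  have hind : ∀ p ∈ DP X α β, (if Cnd q a u v r k X (A p) ∧ Cnd q b u' v' s l X (B p)
      then (1 : ℂ) else 0) = ∑ x ∈ I, ∑ y ∈ I',
      (cf q K r a k x.1 x.2 * cf q K s b l y.1 y.2) *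
        (fx 1 (zq q ^ x.1) (phg K u v r x.2) X (A p) *
          fx 1 (zq q ^ y.1) (phg K u' v' s y.2) X (B p)) := by
    intro p hp
    obtain ⟨a1, a2⟩ := hAX p hp
    obtain ⟨b1, b2⟩ := hBX p hp
    have e1 : ind q 1 a u v r k X (A p) = ∑ x ∈ I, cf q K r a k x.1 x.2 *
        fx 1 (zq q ^ x.1) (phg K u v r x.2) X (A p) := by
      rw [hI, sum_product]
      exact ind_one q hq 1 K u0 h1.pos h1.big u v r (fun i hi => (h1.win i hi).1) k h1.cnt a X
        hX (A p) a1 a2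
    have e2 : ind q 1 b u' v' s l X (B p) = ∑ y ∈ I', cf q K s b l y.1 y.2 *
        fx 1 (zq q ^ y.1) (phg K u' v' s y.2) X (B p) := by
      rw [hI', sum_product]
      exact ind_one q hq 1 K u0 h2.pos h2.big u' v' s (fun i hi => (h2.win i hi).1) l h2.cnt b
        X hX (B p) b1 b2
    have e3 : (if Cnd q a u v r k X (A p) ∧ Cnd q b u' v' s l X (B p) then (1 : ℂ) else 0) =
        ind q 1 a u v r k X (A p) * ind q 1 b u' v' s l X (B p) := by
      have g1 : ((A p).Coprime 1 ∧ ArithmeticFunction.cardFactors (A p) ≡ a [MOD q] ∧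
          (∀ i < r, wc X (u i) (v i) (A p) = k i)) ↔ Cnd q a u v r k X (A p) :=
        ⟨fun h => h.2, fun h => ⟨Nat.coprime_one_right _, h⟩⟩
      have g2 : ((B p).Coprime 1 ∧ ArithmeticFunction.cardFactors (B p) ≡ b [MOD q] ∧
          (∀ i < s, wc X (u' i) (v' i) (B p) = l i)) ↔ Cnd q b u' v' s l X (B p) :=
        ⟨fun h => h.2, fun h => ⟨Nat.coprime_one_right _, h⟩⟩
      unfold ind
      by_cases c1 : Cnd q a u v r k X (A p)
      · by_cases c2 : Cnd q b u' v' s l X (B p)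
        · rw [if_pos (And.intro c1 c2), if_pos (g1.2 c1), if_pos (g2.2 c2), one_mul]
        · have c3 : ¬ (Cnd q a u v r k X (A p) ∧ Cnd q b u' v' s l X (B p)) := fun h => c2 h.2
          rw [if_neg c3, if_pos (g1.2 c1), if_neg (mt g2.1 c2), mul_zero]
      · have c3 : ¬ (Cnd q a u v r k X (A p) ∧ Cnd q b u' v' s l X (B p)) := fun h => c1 h.1
        rw [if_neg c3, if_neg (mt g1.1 c1), zero_mul]
    rw [e3, e1, e2, sum_mul_sum]
    refine sum_congr rfl fun x _ => sum_congr rfl fun y _ => ?_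
    ring
  have hcard : (((DP X α β).filter (fun p => Cnd q a u v r k X (A p) ∧
      Cnd q b u' v' s l X (B p))).card : ℂ) = ∑ p ∈ DP X α β,
      (if Cnd q a u v r k X (A p) ∧ Cnd q b u' v' s l X (B p) then (1 : ℂ) else 0) := by
    rw [card_filter]
    push_cast
    rfl
  have hfin : ∑ x ∈ I, ∑ y ∈ I', (cf q K r a k x.1 x.2 * cf q K s b l y.1 y.2) *
        ((∑ p ∈ DP X α β, fx 1 (zq q ^ x.1) (phg K u v r x.2) X (A p) *
          fx 1 (zq q ^ y.1) (phg K u' v' s y.2) X (B p)) / (X : ℂ)) =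
      (((DP X α β).filter (fun p => Cnd q a u v r k X (A p) ∧
        Cnd q b u' v' s l X (B p))).card : ℂ) / (X : ℂ) := by
    symm
    rw [hcard, sum_congr rfl hind, sum_comm, sum_div]
    refine sum_congr rfl fun x _ => ?_
    rw [sum_comm, sum_div]
    refine sum_congr rfl fun y _ => ?_
    rw [← mul_sum, mul_div_assoc]
  rw [hfin, ← Complex.ofReal_natCast, ← Complex.ofReal_div, Complex.ofReal_re]

open Classical in
/-- PROOF. `ind q 1 a u v r k X n = 1` iff `Cnd q a u v r k X n` (`Coprime 1`), otherwise `0`. The cardinality is `∑_(p ∈ DP X α β) ind .. (er p i) * ind .. (er p j)`; `ind_one` (ob/A4; `er p i ≠ 0`, `er p i ≤ ((β + i)^2 + 1) X ≤ X^3` eventually) expands it into a finite sum of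
`cf * cf' * ∑_p fx 1 (zq q ^ i1) (phg K u v r j1) X (er p i) * fx 1 (zq q ^ i2) (phg K u' v' s j2) X (er p j)`, and by `dp_pair`, `hκ` each inner sum divided by `X` tends to `mm mm' κ (β - α)`; `cf_sum` twice gives `(cG/q) (cG'/q) κ (β - α)` (as in `edge_lawG`, m/G32.lean line 93). Real part. -/
theorem law_pair (κ : ℝ) (hκ : ∀ α β : ℝ, 0 ≤ α → α ≤ β →
      Tendsto (fun X : ℝ => ((DP X α β).card : ℝ) / X) atTop (nhds (κ * (β - α))))
    (q : ℕ) (hq : 0 < q) (K : ℕ) (u0 : ℝ) (u v u' v' : ℕ → ℝ) (r s : ℕ) (k l : ℕ → ℕ) (c c' : ℝ)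
    (h1 : WD K u0 u v r k c) (h2 : WD K u0 u' v' s l c') (a b i j : ℕ) (hij : i ≠ j) (α β : ℝ) (hα : 0 ≤ α)
    (hαβ : α ≤ β) :
    Tendsto (fun X : ℝ => (((DP X α β).filter (fun p => Cnd q a u v r k X (er p i) ∧
      Cnd q b u' v' s l X (er p j))).card : ℝ) / X) atTop (nhds (κ * (β - α) * c * c' / q ^ 2)) := by
  exact law_gen κ α β (hκ α β hα hαβ) q hq K u0 u v u' v' r s k l c c' h1 h2 a b
    (fun p => er p i) (fun p => er p j) (law_er_le i α β hα hαβ) (law_er_le j α β hα hαβ)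
    (fun w1 w2 hw1 hw2 φ1 φ2 hφ1 hφ2 =>
      dp_pair i j hij w1 w2 hw1 hw2 φ1 φ2 hφ1 hφ2 α β hα hαβ)

open Classical in
/-- PROOF. As `law_pair`, with `dp_edge`. (`p.1 ≤ X`.) -/
theorem law_edge (κ : ℝ) (hκ : ∀ α β : ℝ, 0 ≤ α → α ≤ β →
      Tendsto (fun X : ℝ => ((DP X α β).card : ℝ) / X) atTop (nhds (κ * (β - α))))
    (q : ℕ) (hq : 0 < q) (K : ℕ) (u0 : ℝ) (u v u' v' : ℕ → ℝ) (r s : ℕ) (k l : ℕ → ℕ) (c c' : ℝ)
    (h1 : WD K u0 u v r k c) (h2 : WD K u0 u' v' s l c') (a b j : ℕ) (α β : ℝ) (hα : 0 ≤ α)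
    (hαβ : α ≤ β) :
    Tendsto (fun X : ℝ => (((DP X α β).filter (fun p => Cnd q a u v r k X p.1 ∧
      Cnd q b u' v' s l X (er p j))).card : ℝ) / X) atTop (nhds (κ * (β - α) * c * c' / q ^ 2)) := by
  refine law_gen κ α β (hκ α β hα hαβ) q hq K u0 u v u' v' r s k l c c' h1 h2 a b
    (fun p => p.1) (fun p => er p j) ?_ (law_er_le j α β hα hαβ)
    (fun w1 w2 hw1 hw2 φ1 φ2 hφ1 hφ2 => dp_edge j w1 w2 hw1 hw2 φ1 φ2 hφ1 hφ2 α β hα hαβ)
  filter_upwards [eventually_ge_atTop 1] with X hX p hp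
  rw [mem_DP (by linarith)] at hp
  obtain ⟨h3, h4, -⟩ := hp
  refine ⟨h3.ne', h4.trans ?_⟩
  calc X = X ^ 1 := (pow_one X).symm
    _ ≤ X ^ 3 := pow_le_pow_right₀ hX (by norm_num)

open Classical in
/-- PROOF. As `law_pair` with the second function `fx 1 1 (fun _ => 1) X (er p (i + 1)) = 1` (`mm_one`, `stepf_one`, `fx_const`), or sum `law_pair` over all classes (no windows). -/
theorem law_one (κ : ℝ) (hκ : ∀ α β : ℝ, 0 ≤ α → α ≤ β →
      Tendsto (fun X : ℝ => ((DP X α β).card : ℝ) / X) atTop (nhds (κ * (β - α))))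
    (q : ℕ) (hq : 0 < q) (K : ℕ) (u0 : ℝ) (u v : ℕ → ℝ) (r : ℕ) (k : ℕ → ℕ) (c : ℝ)
    (h1 : WD K u0 u v r k c) (a i : ℕ) (α β : ℝ) (hα : 0 ≤ α) (hαβ : α ≤ β) :
    Tendsto (fun X : ℝ => (((DP X α β).filter (fun p => Cnd q a u v r k X (er p i))).card : ℝ) / X) atTop
      (nhds (κ * (β - α) * c / q)) := by
  have hv : WD K u0 u v 0 k 1 := by
    refine ⟨h1.pos, h1.big, fun i hi => absurd hi (Nat.not_lt_zero _),
      fun i hi => absurd hi (Nat.not_lt_zero _), ?_⟩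
    unfold cG
    have e1 : ∀ j : Fin 0 → ℕ, phg K u v 0 j = fun _ => 1 := by
      intro j
      funext t
      unfold phg
      exact Fin.prod_univ_zero _
    have e2 : mu (fun _ => 1) = 1 := by
      have h := mm_one
      unfold mm at h
      rwa [if_pos rfl] at h
    simp [e1, e2]
  have hb : ∀ b ∈ range q, Tendsto (fun X : ℝ => (((DP X α β).filter (fun p =>
      Cnd q a u v r k X (er p i) ∧ Cnd q b u v 0 k X (er p (i + 1)))).card : ℝ) / X) atTop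
      (nhds (κ * (β - α) * c * 1 / q ^ 2)) := fun b _ =>
    law_pair κ hκ q hq K u0 u v u v r 0 k k c 1 h1 hv a b i (i + 1) (by omega) α β hα hαβ
  have hsum := tendsto_finsetSum (range q) hb
  rw [sum_const, card_range, nsmul_eq_mul] at hsum
  have hq0 : (q : ℝ) ≠ 0 := by exact_mod_cast hq.ne'
  have hval : (q : ℝ) * (κ * (β - α) * c * 1 / q ^ 2) = κ * (β - α) * c / q := by
    field_simp
  rw [hval] at hsum
  refine hsum.congr fun X => ?_
  rw [← sum_div]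
  congr 1
  have hfib := card_eq_sum_card_fiberwise
    (s := (DP X α β).filter (fun p => Cnd q a u v r k X (er p i))) (t := range q)
    (f := fun p => ArithmeticFunction.cardFactors (er p (i + 1)) % q)
    (fun p _ => mem_coe.2 (mem_range.2 (Nat.mod_lt _ hq)))
  rw [hfib, Nat.cast_sum]
  refine sum_congr rfl fun b hb' => ?_
  rw [filter_filter]
  congr 2
  ext p
  rw [mem_filter, mem_filter]
  have e : Cnd q b u v 0 k X (er p (i + 1)) ↔
      ArithmeticFunction.cardFactors (er p (i + 1)) % q = b := by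
    unfold Cnd Nat.ModEq
    rw [Nat.mod_eq_of_lt (mem_range.1 hb')]
    exact ⟨fun h => h.1, fun h => ⟨h, fun i hi => absurd hi (Nat.not_lt_zero _)⟩⟩
  rw [e]

end Pool.Agent.FanL
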