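import Pool.Agent.Lib_MP_f1a94e_fl.PairLimR
import Pool.Agent.Lib_MP_f1a94e_fl.Law

/-!
# Piece LAW-R: the laws for two members, with `R`
-/

set_option autoImplicit false

namespace Pool.Agent.FanL

open Finset Pool.Agent.GaussMR Pool.Agent.OmAll Pool.Agent.OmEq Pool.Agent.LPr Pool.Agent.OrbL MeasureTheory Filter

/-- the condition on one number: coprime to `R`, class of `Ω` modulo `q`, numbers of prime factors in the windows -/
def CndR (R q a : ℕ) (u v : ℕ → ℝ) (r : ℕ) (k : ℕ → ℕ) (X : ℝ) (n : ℕ) : Prop :=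
  n.Coprime R ∧ ArithmeticFunction.cardFactors n ≡ a [MOD q] ∧ ∀ i < r, wc X (u i) (v i) n = k i

/-- PROOF. No windows: `mu (phg K u v 0 j) = mu 1 = 1` (`mm_one`), one term. -/
theorem WD.none (K : ℕ) (u0 : ℝ) (hu0 : 0 < u0) (hK : 3 < K * u0) (u v : ℕ → ℝ) (k : ℕ → ℕ) : WD K u0 u v 0 k 1 := by
  refine ⟨hu0, hK, fun i hi => absurd hi (Nat.not_lt_zero _),
    fun i hi => absurd hi (Nat.not_lt_zero _), ?_⟩
  unfold cG
  have e1 : ∀ j : Fin 0 → ℕ, phg K u v 0 j = fun _ => 1 := by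
    intro j
    funext t
    unfold phg
    exact Fin.prod_univ_zero _
  have e2 : mu (fun _ => 1) = 1 := by
    have h := mm_one
    unfold mm at h
    rwa [if_pos rfl] at h
  simp [e1, e2]

/-- the cofactors are bounded by the cube of the parameter -/
private theorem lawR_er_le (i : ℕ) (α β : ℝ) (hα : 0 ≤ α) (hαβ : α ≤ β) :
    ∀ᶠ X : ℝ in atTop, ∀ p ∈ DP X α β, er p i ≠ 0 ∧ (er p i : ℝ) ≤ X ^ 3 := by
  filter_upwards [eventually_ge_atTop (max 2 ((β + i) ^ 2 + 1))] with X hX p hp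
  have hX2 : 2 ≤ X := (le_max_left _ _).trans hX
  have hXb : (β + i) ^ 2 + 1 ≤ X := (le_max_right _ _).trans hX
  rw [mem_DP (by linarith)] at hp
  obtain ⟨h1, h2, h3, h4, h5⟩ := hp
  have h6 := er_mul h5 i
  constructor
  · intro h
    rw [h, mul_zero] at h6
    omega
  · have h7 : (p.1 : ℝ) * er p i = (p.2 + i * p.1) ^ 2 + 1 := by exact_mod_cast h6
    have hp1 : (1 : ℝ) ≤ p.1 := by exact_mod_cast h1
    have hβ : 0 ≤ β := hα.trans hαβ
    have hi : (0 : ℝ) ≤ i := Nat.cast_nonneg _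
    have hp2 : (0 : ℝ) ≤ p.2 := Nat.cast_nonneg _
    have h8 : (p.2 : ℝ) + i * p.1 ≤ (β + i) * p.1 := by nlinarith
    have h9 : ((p.2 : ℝ) + i * p.1) ^ 2 ≤ ((β + i) * p.1) ^ 2 :=
      pow_le_pow_left₀ (by positivity) h8 2
    have h10 : (p.1 : ℝ) * er p i ≤ p.1 * ((β + i) ^ 2 * p.1 + 1) := by nlinarith
    have h11 : (er p i : ℝ) ≤ (β + i) ^ 2 * p.1 + 1 := le_of_mul_le_mul_left h10 (by linarith)
    have h12 : (β + i) ^ 2 * p.1 ≤ (X - 1) * X :=
      mul_le_mul (by linarith) h2 (by linarith) (by linarith)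
    have h13 : X ^ 2 ≤ X ^ 3 := pow_le_pow_right₀ (by linarith) (by norm_num)
    nlinarith

/-- interchange of the sums -/
private theorem lawR_alg {ι κ P : Type*} (I : Finset ι) (I' : Finset κ) (S : Finset P)
    (c1 m1 : ι → ℂ) (c2 m2 : κ → ℂ) (F : ι → P → ℂ) (H : κ → P → ℂ) (Z : P → ℂ) (X : ℂ) :
    ∑ x ∈ I, ∑ y ∈ I', (c1 x * c2 y) *
      ((∑ p ∈ S, (F x p * H y p - m1 x * m2 y * Z p)) / X) =
    ((∑ p ∈ S, ∑ x ∈ I, ∑ y ∈ I', (c1 x * c2 y) * (F x p * H y p)) -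
      (∑ x ∈ I, c1 x * m1 x) * (∑ y ∈ I', c2 y * m2 y) * ∑ p ∈ S, Z p) / X := by
  have e1 : ∑ p ∈ S, ∑ x ∈ I, ∑ y ∈ I', (c1 x * c2 y) * (F x p * H y p) =
      ∑ x ∈ I, ∑ y ∈ I', (c1 x * c2 y) * ∑ p ∈ S, F x p * H y p := by
    rw [sum_comm]
    refine sum_congr rfl fun x _ => ?_
    rw [sum_comm]
    refine sum_congr rfl fun y _ => ?_
    rw [mul_sum]
  rw [e1, sum_mul_sum, sum_mul, ← sum_sub_distrib, sum_div]
  refine sum_congr rfl fun x _ => ?_
  rw [sum_mul, ← sum_sub_distrib, sum_div]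
  refine sum_congr rfl fun y _ => ?_
  rw [sum_sub_distrib, ← mul_sum]
  ring

open Classical in
/-- the law for two numbers attached to a pair -/
private theorem lawR_gen (R1 R2 : ℕ) (α β : ℝ) (q q' : ℕ) (hq : 0 < q) (hq' : 0 < q') (K : ℕ)
    (u0 : ℝ) (u v u' v' : ℕ → ℝ) (r s : ℕ) (k l : ℕ → ℕ) (c c' : ℝ)
    (h1 : WD K u0 u v r k c) (h2 : WD K u0 u' v' s l c') (a b : ℕ) (A B : ℕ × ℕ → ℕ)
    (hA : ∀ᶠ X : ℝ in atTop, ∀ p ∈ DP X α β, A p ≠ 0 ∧ (A p : ℝ) ≤ X ^ 3)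
    (hB : ∀ᶠ X : ℝ in atTop, ∀ p ∈ DP X α β, B p ≠ 0 ∧ (B p : ℝ) ≤ X ^ 3)
    (hS : ∀ w1 w2 : ℂ, ‖w1‖ = 1 → ‖w2‖ = 1 → ∀ φ1 φ2 : ℝ → ℂ, StepF φ1 → StepF φ2 →
      Tendsto (fun X : ℝ => (∑ p ∈ DP X α β, (fx R1 w1 φ1 X (A p) * fx R2 w2 φ2 X (B p) -
        mm w1 φ1 * mm w2 φ2 * (fz R1 1 (A p) * fz R2 1 (B p)))) / X) atTop (nhds 0)) :
    Tendsto (fun X : ℝ => ((((DP X α β).filter (fun p => CndR R1 q a u v r k X (A p) ∧
      CndR R2 q' b u' v' s l X (B p))).card : ℝ) - c * c' / (q * q') *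
      (((DP X α β).filter (fun p => (A p).Coprime R1 ∧ (B p).Coprime R2)).card : ℝ)) / X)
      atTop (nhds 0) := by
  have hK : 0 < K := by
    rcases Nat.eq_zero_or_pos K with h | h
    · exfalso
      have h3 := h1.big
      rw [h, Nat.cast_zero, zero_mul] at h3
      linarith
    · exact h
  set I : Finset (ℕ × (Fin r → ℕ)) := (range q) ×ˢ Fintype.piFinset (fun _ : Fin r => range K)
    with hI
  set I' : Finset (ℕ × (Fin s → ℕ)) := (range q') ×ˢ Fintype.piFinset (fun _ : Fin s => range K)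
    with hI'
  have hsum : Tendsto (fun X : ℝ => ∑ x ∈ I, ∑ y ∈ I',
      (cf q K r a k x.1 x.2 * cf q' K s b l y.1 y.2) *
        ((∑ p ∈ DP X α β, (fx R1 (zq q ^ x.1) (phg K u v r x.2) X (A p) *
          fx R2 (zq q' ^ y.1) (phg K u' v' s y.2) X (B p) -
          mm (zq q ^ x.1) (phg K u v r x.2) * mm (zq q' ^ y.1) (phg K u' v' s y.2) *
            (fz R1 1 (A p) * fz R2 1 (B p)))) / (X : ℂ))) atTop (nhds 0) := by
    have h0 : (0 : ℂ) = ∑ x ∈ I, ∑ y ∈ I',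
        (cf q K r a k x.1 x.2 * cf q' K s b l y.1 y.2) * 0 := by
      simp only [mul_zero, sum_const_zero]
    rw [h0]
    apply tendsto_finsetSum
    intro x _
    apply tendsto_finsetSum
    intro y _
    exact (hS _ _ (fine_norm q hq x.1) (fine_norm q' hq' y.1) _ _
      (phg_step K hK u v r (fun i hi => ⟨h1.pos.trans_le (h1.win i hi).1, (h1.win i hi).2⟩) x.2)
      (phg_step K hK u' v' s (fun i hi => ⟨h2.pos.trans_le (h2.win i hi).1, (h2.win i hi).2⟩)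
        y.2)).const_mul _
  have e1 : ∑ x ∈ I, cf q K r a k x.1 x.2 * mm (zq q ^ x.1) (phg K u v r x.2) =
      (c : ℂ) / (q : ℂ) := by
    rw [hI, sum_product, cf_sum q hq K u v r a k, h1.val]
  have e2 : ∑ y ∈ I', cf q' K s b l y.1 y.2 * mm (zq q' ^ y.1) (phg K u' v' s y.2) =
      (c' : ℂ) / (q' : ℂ) := by
    rw [hI', sum_product, cf_sum q' hq' K u' v' s b l, h2.val]
  have hre := (Complex.continuous_re.tendsto _).comp hsum
  rw [Complex.zero_re] at hre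
  refine hre.congr' ?_
  filter_upwards [hA, hB, eventually_ge_atTop 2] with X hAX hBX hX
  rw [Function.comp_apply]
  have hind : ∀ p ∈ DP X α β, (if CndR R1 q a u v r k X (A p) ∧ CndR R2 q' b u' v' s l X (B p)
      then (1 : ℂ) else 0) = ∑ x ∈ I, ∑ y ∈ I',
      (cf q K r a k x.1 x.2 * cf q' K s b l y.1 y.2) *
        (fx R1 (zq q ^ x.1) (phg K u v r x.2) X (A p) *
          fx R2 (zq q' ^ y.1) (phg K u' v' s y.2) X (B p)) := by
    intro p hp
    obtain ⟨a1, a2⟩ := hAX p hp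
    obtain ⟨b1, b2⟩ := hBX p hp
    have e3 : ind q R1 a u v r k X (A p) = ∑ x ∈ I, cf q K r a k x.1 x.2 *
        fx R1 (zq q ^ x.1) (phg K u v r x.2) X (A p) := by
      rw [hI, sum_product]
      exact ind_one q hq R1 K u0 h1.pos h1.big u v r (fun i hi => (h1.win i hi).1) k h1.cnt a X
        hX (A p) a1 a2
    have e4 : ind q' R2 b u' v' s l X (B p) = ∑ y ∈ I', cf q' K s b l y.1 y.2 *
        fx R2 (zq q' ^ y.1) (phg K u' v' s y.2) X (B p) := by
      rw [hI', sum_product]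
      exact ind_one q' hq' R2 K u0 h2.pos h2.big u' v' s (fun i hi => (h2.win i hi).1) l h2.cnt b
        X hX (B p) b1 b2
    have e5 : (if CndR R1 q a u v r k X (A p) ∧ CndR R2 q' b u' v' s l X (B p)
        then (1 : ℂ) else 0) = ind q R1 a u v r k X (A p) * ind q' R2 b u' v' s l X (B p) := by
      have g1 : ((A p).Coprime R1 ∧ ArithmeticFunction.cardFactors (A p) ≡ a [MOD q] ∧
          (∀ i < r, wc X (u i) (v i) (A p) = k i)) ↔ CndR R1 q a u v r k X (A p) := Iff.rfl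
      have g2 : ((B p).Coprime R2 ∧ ArithmeticFunction.cardFactors (B p) ≡ b [MOD q'] ∧
          (∀ i < s, wc X (u' i) (v' i) (B p) = l i)) ↔ CndR R2 q' b u' v' s l X (B p) := Iff.rfl
      unfold ind
      by_cases c1 : CndR R1 q a u v r k X (A p)
      · by_cases c2 : CndR R2 q' b u' v' s l X (B p)
        · rw [if_pos (And.intro c1 c2), if_pos (g1.2 c1), if_pos (g2.2 c2), one_mul]
        · have c3 : ¬ (CndR R1 q a u v r k X (A p) ∧ CndR R2 q' b u' v' s l X (B p)) :=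
            fun h => c2 h.2
          rw [if_neg c3, if_pos (g1.2 c1), if_neg (mt g2.1 c2), mul_zero]
      · have c3 : ¬ (CndR R1 q a u v r k X (A p) ∧ CndR R2 q' b u' v' s l X (B p)) :=
          fun h => c1 h.1
        rw [if_neg c3, if_neg (mt g1.1 c1), zero_mul]
    rw [e5, e3, e4, sum_mul_sum]
    refine sum_congr rfl fun x _ => sum_congr rfl fun y _ => ?_
    ring
  have hcop : ∀ p ∈ DP X α β, (if (A p).Coprime R1 ∧ (B p).Coprime R2
      then (1 : ℂ) else 0) = fz R1 1 (A p) * fz R2 1 (B p) := by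
    intro p hp
    rw [Pool.Agent.OrbL.fz_one R1 (A p) (hAX p hp).1, Pool.Agent.OrbL.fz_one R2 (B p) (hBX p hp).1]
    by_cases c1 : (A p).Coprime R1
    · by_cases c2 : (B p).Coprime R2
      · rw [if_pos (And.intro c1 c2), if_pos c1, if_pos c2, one_mul]
      · have c3 : ¬ ((A p).Coprime R1 ∧ (B p).Coprime R2) := fun h => c2 h.2
        rw [if_neg c3, if_neg c2, mul_zero]
    · have c3 : ¬ ((A p).Coprime R1 ∧ (B p).Coprime R2) := fun h => c1 h.1
      rw [if_neg c3, if_neg c1, zero_mul]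
  have hcard : (((DP X α β).filter (fun p => CndR R1 q a u v r k X (A p) ∧
      CndR R2 q' b u' v' s l X (B p))).card : ℂ) = ∑ p ∈ DP X α β,
      (if CndR R1 q a u v r k X (A p) ∧ CndR R2 q' b u' v' s l X (B p) then (1 : ℂ) else 0) := by
    rw [card_filter]
    push_cast
    rfl
  have hcard' : (((DP X α β).filter (fun p => (A p).Coprime R1 ∧ (B p).Coprime R2)).card : ℂ) =
      ∑ p ∈ DP X α β, fz R1 1 (A p) * fz R2 1 (B p) := by
    rw [← sum_congr rfl hcop, card_filter]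
    push_cast
    rfl
  have hfin : ∑ x ∈ I, ∑ y ∈ I',
      (cf q K r a k x.1 x.2 * cf q' K s b l y.1 y.2) *
        ((∑ p ∈ DP X α β, (fx R1 (zq q ^ x.1) (phg K u v r x.2) X (A p) *
          fx R2 (zq q' ^ y.1) (phg K u' v' s y.2) X (B p) -
          mm (zq q ^ x.1) (phg K u v r x.2) * mm (zq q' ^ y.1) (phg K u' v' s y.2) *
            (fz R1 1 (A p) * fz R2 1 (B p)))) / (X : ℂ)) =
      ((((DP X α β).filter (fun p => CndR R1 q a u v r k X (A p) ∧
        CndR R2 q' b u' v' s l X (B p))).card : ℂ) - (c : ℂ) / q * ((c' : ℂ) / q') *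
        (((DP X α β).filter (fun p => (A p).Coprime R1 ∧ (B p).Coprime R2)).card : ℂ)) /
        (X : ℂ) := by
    rw [hcard, hcard', sum_congr rfl hind, ← e1, ← e2]
    exact lawR_alg I I' (DP X α β) _ _ _ _ _ _ _ _
  rw [hfin]
  have hlast : ((((DP X α β).filter (fun p => CndR R1 q a u v r k X (A p) ∧
        CndR R2 q' b u' v' s l X (B p))).card : ℂ) - (c : ℂ) / q * ((c' : ℂ) / q') *
        (((DP X α β).filter (fun p => (A p).Coprime R1 ∧ (B p).Coprime R2)).card : ℂ)) /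
        (X : ℂ) = ((((((DP X α β).filter (fun p => CndR R1 q a u v r k X (A p) ∧
        CndR R2 q' b u' v' s l X (B p))).card : ℝ) - c * c' / (q * q') *
        (((DP X α β).filter (fun p => (A p).Coprime R1 ∧ (B p).Coprime R2)).card : ℝ)) / X : ℝ) :
        ℂ) := by
    push_cast
    congr 2
    ring
  rw [hlast, Complex.ofReal_re]

open Classical in
/-- PROOF. `ind q R a u v r k X n = 1` if `CndR R q a u v r k X n`, otherwise `0` (definition); `fz R 1 n = 1` if `n.Coprime R`, otherwise `0` (`fz_one`, `n ≠ 0`). The first cardinality is `∑_(p ∈ DP X α β) ind .. (er p i) * ind .. (er p j)`; `ind_one` (ob/A4; `er p i ≠ 0`, `er p i ≤ ((β + i)^2 + 1) X ≤ X^3` eventually) expands it into a finite sum of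
`cf * cf' * ∑_p fx R1 (zq q ^ i1) (phg K u v r j1) X (er p i) * fx R2 (zq q' ^ i2) (phg K u' v' s j2) X (er p j)`, and by `dp_pairR` each inner sum is `mm mm' ∑_p fz R1 1 (er p i) fz R2 1 (er p j) + o(X)`; `cf_sum` twice gives `(cG/q) (cG'/q')` times the second cardinality (compare `edge_lawG`, m/G32.lean line 93). Real part. -/
theorem law_pairR (R1 R2 : ℕ) (hR1 : 0 < R1) (hR2 : 0 < R2) (q q' : ℕ) (hq : 0 < q) (hq' : 0 < q') (K : ℕ) (u0 : ℝ)
    (u v u' v' : ℕ → ℝ) (r s : ℕ) (k l : ℕ → ℕ) (c c' : ℝ) (h1 : WD K u0 u v r k c) (h2 : WD K u0 u' v' s l c')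
    (a b i j : ℕ) (hij : i ≠ j) (α β : ℝ) (hα : 0 ≤ α) (hαβ : α ≤ β) :
    Tendsto (fun X : ℝ => ((((DP X α β).filter (fun p => CndR R1 q a u v r k X (er p i) ∧
      CndR R2 q' b u' v' s l X (er p j))).card : ℝ) - c * c' / (q * q') *
      (((DP X α β).filter (fun p => (er p i).Coprime R1 ∧ (er p j).Coprime R2)).card : ℝ)) / X) atTop (nhds 0) := by
  exact lawR_gen R1 R2 α β q q' hq hq' K u0 u v u' v' r s k l c c' h1 h2 a b
    (fun p => er p i) (fun p => er p j) (lawR_er_le i α β hα hαβ) (lawR_er_le j α β hα hαβ)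
    (fun w1 w2 hw1 hw2 φ1 φ2 hφ1 hφ2 =>
      dp_pairR R1 R2 hR1 hR2 i j hij w1 w2 hw1 hw2 φ1 φ2 hφ1 hφ2 α β hα hαβ)

open Classical in
/-- PROOF. As `law_pairR`, with `dp_edgeR`. (`1 ≤ p.1 ≤ X`.) -/
theorem law_edgeR (R : ℕ) (hR : 0 < R) (q q' : ℕ) (hq : 0 < q) (hq' : 0 < q') (K : ℕ) (u0 : ℝ)
    (u v u' v' : ℕ → ℝ) (r s : ℕ) (k l : ℕ → ℕ) (c c' : ℝ) (h1 : WD K u0 u v r k c) (h2 : WD K u0 u' v' s l c')
    (a b j : ℕ) (α β : ℝ) (hα : 0 ≤ α) (hαβ : α ≤ β) :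
    Tendsto (fun X : ℝ => ((((DP X α β).filter (fun p => CndR R q a u v r k X p.1 ∧
      CndR R q' b u' v' s l X (er p j))).card : ℝ) - c * c' / (q * q') *
      (((DP X α β).filter (fun p => p.1.Coprime R ∧ (er p j).Coprime R)).card : ℝ)) / X) atTop (nhds 0) := by
  refine lawR_gen R R α β q q' hq hq' K u0 u v u' v' r s k l c c' h1 h2 a b
    (fun p => p.1) (fun p => er p j) ?_ (lawR_er_le j α β hα hαβ)
    (fun w1 w2 hw1 hw2 φ1 φ2 hφ1 hφ2 => dp_edgeR R hR j w1 w2 hw1 hw2 φ1 φ2 hφ1 hφ2 α β hα hαβ)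
  filter_upwards [eventually_ge_atTop 1] with X hX p hp
  rw [mem_DP (by linarith)] at hp
  obtain ⟨h3, h4, -⟩ := hp
  refine ⟨h3.ne', h4.trans ?_⟩
  calc X = X ^ 1 := (pow_one X).symm
    _ ≤ X ^ 3 := pow_le_pow_right₀ hX (by norm_num)

open Classical in
/-- PROOF. `law_pairR` for `(i, i + 1)` with `R2 = 1`, `q' = 1`, no windows for the second member (`WD.none`, `c' = 1`): the second condition is always true. -/
theorem law_oneR (R : ℕ) (hR : 0 < R) (q : ℕ) (hq : 0 < q) (K : ℕ) (u0 : ℝ) (u v : ℕ → ℝ) (r : ℕ) (k : ℕ → ℕ) (c : ℝ)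
    (h1 : WD K u0 u v r k c) (a i : ℕ) (α β : ℝ) (hα : 0 ≤ α) (hαβ : α ≤ β) :
    Tendsto (fun X : ℝ => ((((DP X α β).filter (fun p => CndR R q a u v r k X (er p i))).card : ℝ) - c / q *
      (((DP X α β).filter (fun p => (er p i).Coprime R)).card : ℝ)) / X) atTop (nhds 0) := by
  have h := law_pairR R 1 hR Nat.one_pos q 1 hq Nat.one_pos K u0 u v u v r 0 k k c 1 h1
    (WD.none K u0 h1.pos h1.big u v k) a 0 i (i + 1) (by omega) α β hα hαβ
  refine h.congr fun X => ?_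
  have e1 : (DP X α β).filter (fun p => CndR R q a u v r k X (er p i) ∧
      CndR 1 1 0 u v 0 k X (er p (i + 1))) =
      (DP X α β).filter (fun p => CndR R q a u v r k X (er p i)) := by
    refine filter_congr fun p _ => ?_
    have e : CndR 1 1 0 u v 0 k X (er p (i + 1)) :=
      ⟨Nat.coprime_one_right _, Nat.modEq_one, fun i hi => absurd hi (Nat.not_lt_zero _)⟩
    exact ⟨fun h => h.1, fun h => ⟨h, e⟩⟩
  have e2 : (DP X α β).filter (fun p => (er p i).Coprime R ∧ (er p (i + 1)).Coprime 1) =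
      (DP X α β).filter (fun p => (er p i).Coprime R) := by
    refine filter_congr fun p _ => ?_
    exact ⟨fun h => h.1, fun h => ⟨h, Nat.coprime_one_right _⟩⟩
  rw [e1, e2, mul_one, Nat.cast_one, mul_one]

end Pool.Agent.FanL
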