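import Pool.Agent.Lib_MP_f1a94e_fl.Defs

/-!
# Piece TRANSFER: from pairs of determinant `n` to edges
-/

set_option autoImplicit false

namespace Pool.Agent.FanL

open Finset Pool.Agent.GaussMR Pool.Agent.OmAll Pool.Agent.OmEq Pool.Agent.LPr Pool.Agent.OrbL MeasureTheory Filter

/-- the test function on pairs of determinant `n` that corresponds to `W` on edges: `s = exp (t / 2)`, `r = n s / (1 - s)` -/
noncomputable def WT (n : ℕ) (W : ℝ → ℝ → ℂ) (y t : ℝ) : ℂ :=
  if t < 0 then W (y * (1 - Real.exp (t / 2)) / n)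
    (2 * Real.log (n * Real.exp (t / 2) / (1 - Real.exp (t / 2)))) else 0

/-- the support of `WT` -/
theorem WT_ne {n : ℕ} (hn : 1 ≤ n) {b R0 : ℝ} {W : ℝ → ℝ → ℂ} (hW : TF b W)
    (hR : ∀ y t, W y t ≠ 0 → |y| ≤ R0 ∧ |t| ≤ R0) {y t : ℝ} (h : WT n W y t ≠ 0) :
    0 < y ∧ y < b * (Real.exp (R0 / 2) + n) ∧ t ≤ -(2 * Real.log (1 + n * Real.exp (-(R0 / 2)))) ∧
      -(2 * Real.log (1 + n * Real.exp (R0 / 2))) ≤ t := by
  have hn' : (1 : ℝ) ≤ n := by exact_mod_cast hn
  unfold WT at h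
  split_ifs at h with ht
  swap
  · exact absurd rfl h
  obtain ⟨s, hs⟩ : ∃ s : ℝ, s = Real.exp (t / 2) := ⟨_, rfl⟩
  have hs0 : 0 < s := by rw [hs]; exact Real.exp_pos _
  have hs1 : s < 1 := by rw [hs, Real.exp_lt_one_iff]; linarith
  have hs2 : 0 < 1 - s := by linarith
  rw [← hs] at h
  have h1 := (hR _ _ h).2
  rw [abs_le] at h1
  have hr0 : 0 < n * s / (1 - s) := by positivity
  have h2 : n * s / (1 - s) ≤ Real.exp (R0 / 2) := by
    rw [← Real.log_le_iff_le_exp hr0]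
    linarith
  have h3 : Real.exp (-(R0 / 2)) ≤ n * s / (1 - s) := by
    rw [← Real.le_log_iff_exp_le hr0]
    linarith
  obtain ⟨E, hE⟩ : ∃ E : ℝ, E = Real.exp (R0 / 2) := ⟨_, rfl⟩
  have hE0 : 0 < E := by rw [hE]; exact Real.exp_pos _
  have hEi : Real.exp (-(R0 / 2)) = E⁻¹ := by rw [hE, Real.exp_neg]
  rw [hEi] at h3
  rw [hEi, ← hE]
  rw [← hE] at h2
  rw [div_le_iff₀ hs2] at h2
  rw [le_div_iff₀ hs2] at h3
  have h3' : 1 - s ≤ E * (n * s) := by
    have := mul_le_mul_of_nonneg_left h3 hE0.le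
    rwa [← mul_assoc, mul_inv_cancel₀ hE0.ne', one_mul] at this
  have hy1 : 0 < y * (1 - s) / n := by
    by_contra hc
    exact h (hW.lo _ _ (not_lt.1 hc))
  have hy2 : y * (1 - s) / n < b := by
    by_contra hc
    exact h (hW.hi _ _ (not_lt.1 hc))
  have hy : 0 < y := by
    by_contra hc
    have : y * (1 - s) / n ≤ 0 :=
      div_nonpos_of_nonpos_of_nonneg (mul_nonpos_of_nonpos_of_nonneg (not_lt.1 hc) hs2.le)
        (by linarith)
    linarith
  have hb : 0 < b := hy1.trans hy2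
  refine ⟨hy, ?_, ?_, ?_⟩
  · rw [div_lt_iff₀ (by linarith : (0 : ℝ) < n)] at hy2
    have h4 : (n : ℝ) ≤ (E + n) * (1 - s) := by nlinarith
    have h5 : b * n ≤ b * (E + n) * (1 - s) := by
      rw [mul_assoc]
      exact mul_le_mul_of_nonneg_left h4 hb.le
    have h6 : y * (1 - s) < b * (E + n) * (1 - s) := hy2.trans_le h5
    exact lt_of_mul_lt_mul_right h6 hs2.le
  · -- `s (1 + n / E) ≤ 1`
    have h4 : s * (1 + n * E⁻¹) ≤ 1 := by
      have : n * s * E⁻¹ ≤ 1 - s := by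
        rw [← div_eq_mul_inv, div_le_iff₀ hE0]
        linarith
      nlinarith
    have h5 : Real.log s + Real.log (1 + n * E⁻¹) ≤ 0 := by
      rw [← Real.log_mul hs0.ne' (by positivity)]
      exact Real.log_nonpos (by positivity) h4
    rw [hs, Real.log_exp] at h5
    linarith
  · have h4 : 1 ≤ s * (1 + n * E) := by nlinarith
    have h5 : 0 ≤ Real.log s + Real.log (1 + n * E) := by
      rw [← Real.log_mul hs0.ne' (by positivity)]
      exact Real.log_nonneg h4
    rw [hs, Real.log_exp] at h5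
    linarith

/-- PROOF. `W` vanishes unless `0 < y < b`, `|t| ≤ R0` (`ctw_supp`). If `WT n W y t ≠ 0` then `r = n s/(1 - s) ∈ [exp (-R0/2), exp (R0/2)]`, so `s = r/(r + n)` lies in a compact part of `(0, 1)` and `t` in a compact part of `(-∞, 0)`;
`y (1 - s)/n < b`, `n/(1 - s) = r + n`, so `y < b (exp (R0/2) + n)`. Continuity as in `WN_tf` (m/G17.lean, line 108): on `t < 0` the formula is continuous, near `t ≥ 0` the function is zero. -/
theorem WT_tf (n : ℕ) (hn : 1 ≤ n) (b : ℝ) (W : ℝ → ℝ → ℂ) (hW : TF b W) : ∃ b' : ℝ, 1 ≤ b' ∧ TF b' (WT n W) := by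
  obtain ⟨R0, hR0, hR⟩ := ctw_supp hW
  have hn' : (1 : ℝ) ≤ n := by exact_mod_cast hn
  refine ⟨max 1 (b * (Real.exp (R0 / 2) + n)), le_max_left _ _, ?_⟩
  have hT := fun y t => WT_ne hn hW hR (y := y) (t := t)
  have hc : 0 < 2 * Real.log (1 + n * Real.exp (-(R0 / 2))) := by
    have : 0 < n * Real.exp (-(R0 / 2)) := by positivity
    have := Real.log_pos (by linarith : (1 : ℝ) < 1 + n * Real.exp (-(R0 / 2)))
    linarith
  refine ⟨?_, ?_, ?_, ?_⟩
  · rw [continuous_iff_continuousAt]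
    rintro ⟨y, t⟩
    by_cases ht : t < 0
    · have hev : Function.uncurry (WT n W) =ᶠ[nhds (y, t)] fun p : ℝ × ℝ =>
          Function.uncurry W (p.1 * (1 - Real.exp (p.2 / 2)) / n,
            2 * Real.log (n * Real.exp (p.2 / 2) / (1 - Real.exp (p.2 / 2)))) := by
        have h3 : ∀ᶠ p : ℝ × ℝ in nhds (y, t), p.2 < 0 :=
          (continuous_snd.tendsto (y, t)).eventually (gt_mem_nhds ht)
        filter_upwards [h3] with p hp
        show WT n W p.1 p.2 = _
        unfold WT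
        rw [if_pos hp]
        rfl
      rw [continuousAt_congr hev]
      have hpos : 0 < 1 - Real.exp (t / 2) := by
        have : Real.exp (t / 2) < 1 := by rw [Real.exp_lt_one_iff]; linarith
        linarith
      have c1 : ContinuousAt (fun p : ℝ × ℝ => Real.exp (p.2 / 2)) (y, t) := by fun_prop
      have c2 : ContinuousAt (fun p : ℝ × ℝ => 1 - Real.exp (p.2 / 2)) (y, t) :=
        continuousAt_const.sub c1
      have d1 : ContinuousAt (fun p : ℝ × ℝ => p.1 * (1 - Real.exp (p.2 / 2)) / n) (y, t) :=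
        (continuousAt_fst.mul c2).div_const _
      have d2 : ContinuousAt (fun p : ℝ × ℝ => (n : ℝ) * Real.exp (p.2 / 2) /
          (1 - Real.exp (p.2 / 2))) (y, t) :=
        (continuousAt_const.mul c1).div c2 hpos.ne'
      have hval : (n : ℝ) * Real.exp (t / 2) / (1 - Real.exp (t / 2)) ≠ 0 := by positivity
      have d3 : ContinuousAt (fun p : ℝ × ℝ => 2 * Real.log ((n : ℝ) * Real.exp (p.2 / 2) /
          (1 - Real.exp (p.2 / 2)))) (y, t) :=
        continuousAt_const.mul (d2.log hval)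
      exact ContinuousAt.comp (g := Function.uncurry W) hW.cont.continuousAt (d1.prodMk d3)
    · have hev : Function.uncurry (WT n W) =ᶠ[nhds (y, t)] fun _ => (0 : ℂ) := by
        have h3 : ∀ᶠ p : ℝ × ℝ in nhds (y, t),
            -(2 * Real.log (1 + n * Real.exp (-(R0 / 2)))) < p.2 :=
          (continuous_snd.tendsto (y, t)).eventually (lt_mem_nhds (by
            show -(2 * Real.log (1 + n * Real.exp (-(R0 / 2)))) < t
            linarith))
        filter_upwards [h3] with p hp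
        show WT n W p.1 p.2 = 0
        by_contra h4
        linarith [(hT _ _ h4).2.2.1]
      rw [continuousAt_congr hev]
      exact continuousAt_const
  · refine HasCompactSupport.of_support_subset_isCompact
      ((isCompact_Icc (a := (0 : ℝ)) (b := b * (Real.exp (R0 / 2) + n))).prod
        (isCompact_Icc (a := -(2 * Real.log (1 + n * Real.exp (R0 / 2)))) (b := 0))) ?_
    rintro ⟨y, t⟩ h3
    have h4 := hT y t h3
    refine Set.mem_prod.2 ⟨⟨h4.1.le, h4.2.1.le⟩, ⟨h4.2.2.2, ?_⟩⟩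
    show t ≤ 0
    linarith [h4.2.2.1]
  · intro y t hy
    by_contra h4
    linarith [(hT _ _ h4).1]
  · intro y t hy
    by_contra h4
    have := (le_max_right _ _).trans hy
    linarith [(hT _ _ h4).2.1]

/-- comparison of the two test functions -/
theorem compare {n P Q m X : ℝ} (hn : 1 ≤ n) (hP : 0 < P) (hQ : 0 < Q) (hm : 1 ≤ m)
    (hPQ : P * Q = m ^ 2 + 1) (hX : 0 < X) :
    Real.log Q - Real.log (Q + 2 * n * m + n ^ 2 * P) < 0 ∧
    |(Q + n * m) / X *
        (1 - Real.exp ((Real.log Q - Real.log (Q + 2 * n * m + n ^ 2 * P)) / 2)) / n - m / X| ≤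
      1 / X ∧
    |2 * Real.log (n * Real.exp ((Real.log Q - Real.log (Q + 2 * n * m + n ^ 2 * P)) / 2) /
        (1 - Real.exp ((Real.log Q - Real.log (Q + 2 * n * m + n ^ 2 * P)) / 2))) -
      (Real.log Q - Real.log P)| ≤ 1 / m ^ 2 := by
  have hm0 : 0 < m := by linarith
  have hn0 : 0 < n := by linarith
  obtain ⟨P', hP'⟩ : ∃ P', P' = Q + 2 * n * m + n ^ 2 * P := ⟨_, rfl⟩
  obtain ⟨M, hM⟩ : ∃ M, M = Q + n * m := ⟨_, rfl⟩
  obtain ⟨D, hD⟩ : ∃ D, D = √(M ^ 2 + n ^ 2) := ⟨_, rfl⟩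
  have hM0 : 0 < M := by rw [hM]; positivity
  have hP'0 : 0 < P' := by rw [hP']; positivity
  have hD0 : 0 < D := by rw [hD]; exact Real.sqrt_pos.2 (by positivity)
  have hD2 : D ^ 2 = M ^ 2 + n ^ 2 := by rw [hD]; exact Real.sq_sqrt (by positivity)
  have hPQ' : P' * Q = D ^ 2 := by
    rw [hD2, hP', hM]
    linear_combination n ^ 2 * hPQ
  have hDM : M ≤ D := by
    by_contra hc
    have := not_le.1 hc
    nlinarith
  have hDM2 : D ≤ M + n ^ 2 / (2 * M) := by
    have h1 : D ^ 2 ≤ (M + n ^ 2 / (2 * M)) ^ 2 := by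
      have h2 : (M + n ^ 2 / (2 * M)) ^ 2 = M ^ 2 + n ^ 2 + (n ^ 2 / (2 * M)) ^ 2 := by
        field_simp
        ring
      rw [h2, hD2]
      have := sq_nonneg (n ^ 2 / (2 * M))
      linarith
    exact le_of_sq_le_sq h1 (by positivity)
  rw [← hP', ← hM]
  obtain ⟨s, hs⟩ : ∃ s, s = Real.exp ((Real.log Q - Real.log P') / 2) := ⟨_, rfl⟩
  have hs' : s = Q / D := by
    rw [hs, sub_div, Real.exp_sub, ← Real.log_sqrt hQ.le, ← Real.log_sqrt hP'0.le,
      Real.exp_log (Real.sqrt_pos.2 hQ), Real.exp_log (Real.sqrt_pos.2 hP'0)]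
    have h1 : √P' * √Q = D := by
      rw [← Real.sqrt_mul hP'0.le, hPQ', Real.sqrt_sq hD0.le]
    have h2 := Real.sqrt_pos.2 hQ
    have h3 := Real.sqrt_pos.2 hP'0
    have h4 := Real.mul_self_sqrt hQ.le
    rw [← h1, div_eq_div_iff h3.ne' (by positivity)]
    calc √Q * (√P' * √Q) = √P' * (√Q * √Q) := by ring
      _ = √P' * Q := by rw [h4]
      _ = Q * √P' := by ring
  have hQM : n * m ≤ M - Q := by rw [hM]; linarith
  have hnm : 1 ≤ n * m := by nlinarith
  have hDQ : 0 < D - Q := by linarith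
  have h1s : 1 - s = (D - Q) / D := by rw [hs']; field_simp
  have hMnm : n * m ≤ M := by linarith
  -- the excess
  have hex : D - M ≤ n / (2 * m) := by
    have h1 : n ^ 2 / (2 * M) ≤ n ^ 2 / (2 * (n * m)) :=
      div_le_div_of_nonneg_left (by positivity) (by positivity) (by linarith)
    have h2 : n ^ 2 / (2 * (n * m)) = n / (2 * m) := by field_simp
    linarith
  have hm2 : 1 / (2 * m) ≤ 1 / 2 := by
    rw [div_le_div_iff₀ (by positivity) (by norm_num)]
    linarith
  have hDQ2 : D - Q ≤ n * (m + 1 / (2 * m)) := by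
    have h1 : n * (m + 1 / (2 * m)) = n * m + n / (2 * m) := by field_simp
    rw [h1]
    have h2 : D - Q = (D - M) + n * m := by rw [hM]; ring
    linarith
  refine ⟨?_, ?_, ?_⟩
  · have : Real.log Q < Real.log P' := Real.log_lt_log hQ (by rw [hP']; nlinarith [mul_pos (pow_pos hn0 2) hP])
    linarith
  · rw [← hs, h1s]
    have e1 : M / X * ((D - Q) / D) / n - m / X = (M * (D - Q) / (n * D) - m) / X := by
      field_simp
    rw [e1, abs_div, abs_of_pos hX]
    apply div_le_div_of_nonneg_right _ hX.le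
    rw [abs_le]
    constructor
    · -- lower bound
      have h1 : m - 1 ≤ M * (D - Q) / (n * D) := by
        rw [le_div_iff₀ (by positivity)]
        have h2 : n * m ≤ D - Q := by linarith
        have h3 : M * (n * m) ≤ M * (D - Q) := mul_le_mul_of_nonneg_left h2 hM0.le
        have h4 : m * (D - M) ≤ D := by
          have h5 : m * (D - M) ≤ m * (n / (2 * m)) := mul_le_mul_of_nonneg_left hex hm0.le
          have h6 : m * (n / (2 * m)) = n / 2 := by field_simp
          have h7 : n ≤ M := by nlinarith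
          linarith
        nlinarith
      linarith
    · have h1 : M * (D - Q) / (n * D) ≤ m + 1 := by
        rw [div_le_iff₀ (by positivity)]
        have h3 : M * (D - Q) ≤ D * (D - Q) := mul_le_mul_of_nonneg_right hDM hDQ.le
        have h4 : D * (D - Q) ≤ D * (n * (m + 1)) :=
          mul_le_mul_of_nonneg_left (hDQ2.trans (mul_le_mul_of_nonneg_left (by linarith) hn0.le)) hD0.le
        nlinarith
      linarith
  · rw [← hs, h1s, hs']
    have e1 : n * (Q / D) / ((D - Q) / D) = n * Q / (D - Q) := by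
      field_simp
    rw [e1]
    have hm1 : 0 < √(m ^ 2 + 1) := Real.sqrt_pos.2 (by positivity)
    have e2 : Real.log P = 2 * Real.log √(m ^ 2 + 1) - Real.log Q := by
      rw [Real.log_sqrt (by positivity), ← hPQ, Real.log_mul hP.ne' hQ.ne']
      ring
    have e3 : 2 * Real.log (n * Q / (D - Q)) - (Real.log Q - Real.log P) =
        2 * Real.log (n * √(m ^ 2 + 1) / (D - Q)) := by
      rw [e2, Real.log_div (by positivity) hDQ.ne', Real.log_div (by positivity) hDQ.ne',
        Real.log_mul hn0.ne' hQ.ne', Real.log_mul hn0.ne' hm1.ne']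
      ring
    rw [e3, abs_le]
    have hq : √(m ^ 2 + 1) ≤ m + 1 / (2 * m) := by
      rw [Real.sqrt_le_left (by positivity)]
      have : (m + 1 / (2 * m)) ^ 2 = m ^ 2 + 1 + (1 / (2 * m)) ^ 2 := by
        field_simp
        ring
      rw [this]
      have := sq_nonneg (1 / (2 * m))
      linarith
    have hq2 : m ≤ √(m ^ 2 + 1) := by
      apply Real.le_sqrt_of_sq_le
      linarith
    have hmm : (1 + 1 / (2 * m ^ 2)) * m = m + 1 / (2 * m) := by field_simp
    constructor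
    · -- lower bound
      have h1 : Real.log ((D - Q) / (n * √(m ^ 2 + 1))) ≤ 1 / (2 * m ^ 2) := by
        have h2 : (D - Q) / (n * √(m ^ 2 + 1)) ≤ 1 + 1 / (2 * m ^ 2) := by
          rw [div_le_iff₀ (by positivity)]
          calc D - Q ≤ n * (m + 1 / (2 * m)) := hDQ2
            _ = n * ((1 + 1 / (2 * m ^ 2)) * m) := by rw [hmm]
            _ ≤ n * ((1 + 1 / (2 * m ^ 2)) * √(m ^ 2 + 1)) :=
                mul_le_mul_of_nonneg_left (mul_le_mul_of_nonneg_left hq2 (by positivity)) hn0.le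
            _ = _ := by ring
        have h3 := Real.log_le_sub_one_of_pos (show 0 < (D - Q) / (n * √(m ^ 2 + 1)) by positivity)
        linarith
      have h4 : Real.log (n * √(m ^ 2 + 1) / (D - Q)) =
          -Real.log ((D - Q) / (n * √(m ^ 2 + 1))) := by
        rw [← Real.log_inv, inv_div]
      rw [h4]
      have h5 : 1 / m ^ 2 = 2 * (1 / (2 * m ^ 2)) := by field_simp
      linarith
    · have h2 : n * √(m ^ 2 + 1) / (D - Q) ≤ 1 + 1 / (2 * m ^ 2) := by
        rw [div_le_iff₀ hDQ]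
        calc n * √(m ^ 2 + 1) ≤ n * (m + 1 / (2 * m)) := mul_le_mul_of_nonneg_left hq hn0.le
          _ = (1 + 1 / (2 * m ^ 2)) * (n * m) := by rw [← hmm]; ring
          _ ≤ (1 + 1 / (2 * m ^ 2)) * (D - Q) :=
              mul_le_mul_of_nonneg_left (by linarith) (by positivity)
      have h3 := Real.log_le_sub_one_of_pos (show 0 < n * √(m ^ 2 + 1) / (D - Q) by positivity)
      have h5 : 1 / m ^ 2 = 2 * (1 / (2 * m ^ 2)) := by field_simp
      linarith

/-- the map from edges to pairs of determinant `n` -/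
def TT (n : ℕ) (e : G × G) : G × G := (e.2 + ((n : ℤ) : G) * e.1, e.2)

theorem TT_inj {n : ℕ} (hn : 1 ≤ n) : Function.Injective (TT n) := by
  intro e e' h
  have hn' : ((n : ℤ)) ≠ 0 := by
    have : n ≠ 0 := by omega
    exact_mod_cast this
  have h3 : (TT n e).2 = (TT n e').2 := by rw [h]
  have h4 : (TT n e).1 = (TT n e').1 := by rw [h]
  have h2 : e.2 = e'.2 := h3
  have h1 : e.2 + ((n : ℤ) : G) * e.1 = e'.2 + ((n : ℤ) : G) * e'.1 := h4
  rw [h2, add_right_inj] at h1
  refine Prod.ext (Zsqrtd.ext ?_ ?_) h2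
  · have := congrArg Zsqrtd.re h1
    rw [TailP.smul_re, TailP.smul_re] at this
    exact mul_left_cancel₀ hn' this
  · have := congrArg Zsqrtd.im h1
    rw [TailP.smul_im, TailP.smul_im] at this
    exact mul_left_cancel₀ hn' this

theorem TT_re (n : ℕ) (e : G × G) : (TT n e).1.re = e.2.re + n * e.1.re := by
  show (e.2 + ((n : ℤ) : G) * e.1).re = _
  rw [Zsqrtd.re_add, TailP.smul_re]

theorem TT_im (n : ℕ) (e : G × G) : (TT n e).1.im = e.2.im + n * e.1.im := by
  show (e.2 + ((n : ℤ) : G) * e.1).im = _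
  rw [Zsqrtd.im_add, TailP.smul_im]

theorem TT_En {n : ℕ} (hn : 1 ≤ n) {e : G × G} (h : En 1 e) : En n (TT n e) := by
  obtain ⟨h1, h2, h3, -⟩ := h
  have e2 : (TT n e).2 = e.2 := rfl
  unfold det at h1
  unfold dot at h2
  push_cast at h1
  refine ⟨?_, ?_, ?_, 1, isCoprime_one_left, ?_, ?_⟩
  · unfold det
    rw [TT_re, TT_im, e2]
    linear_combination (n : ℤ) * h1
  · unfold dot
    rw [TT_re, TT_im, e2]
    have hn' : (1 : ℤ) ≤ n := by exact_mod_cast hn
    have := mul_pos (by linarith : (0 : ℤ) < n) h2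
    nlinarith [sq_nonneg e.2.re, sq_nonneg e.2.im]
  · unfold Prim
    rw [TT_re, TT_im]
    refine ⟨-e.1.im, e.1.re, ?_⟩
    linear_combination h1
  · rw [e2, Int.cast_one, one_mul, TT_re]
    exact ⟨-e.1.re, by ring⟩
  · rw [e2, Int.cast_one, one_mul, TT_im]
    exact ⟨-e.1.im, by ring⟩

theorem TT_cg (n : ℕ) (e : G × G) : cg n (TT n e).2 (TT n e).1 := by
  have e2 : (TT n e).2 = e.2 := rfl
  constructor
  · rw [e2, TT_re]
    exact ⟨-e.1.re, by ring⟩
  · rw [e2, TT_im]
    exact ⟨-e.1.im, by ring⟩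

theorem TT_nm (n : ℕ) (e : G × G) :
    (nm (TT n e).1 : ℝ) = nm e.2 + 2 * n * mE e + n ^ 2 * nm e.1 := by
  have h : (nm (TT n e).1 : ℤ) = nm e.2 + 2 * n * dot e.1 e.2 + n ^ 2 * nm e.1 := by
    rw [nm_eq, nm_eq, nm_eq, TT_re, TT_im]
    unfold dot
    ring
  unfold mE
  exact_mod_cast h

theorem TT_mE (n : ℕ) (e : G × G) : mE (TT n e) = nm e.2 + n * mE e := by
  have e2 : (TT n e).2 = e.2 := rfl
  have h : dot (TT n e).1 (TT n e).2 = nm e.2 + n * dot e.1 e.2 := by
    rw [nm_eq]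
    unfold dot
    rw [TT_re, TT_im, e2]
    ring
  unfold mE
  rw [h]
  push_cast
  ring

theorem TT_surj {n : ℕ} (hn : 1 ≤ n) {e' : G × G} (h : En n e') (hc : cg n e'.2 e'.1) :
    (∃ e, En 1 e ∧ TT n e = e') ∨ mE e' ≤ nm e'.2 := by
  obtain ⟨h1, h2, h3, -⟩ := h
  obtain ⟨⟨a, ha⟩, ⟨b, hb⟩⟩ := hc
  have hn' : (1 : ℤ) ≤ n := by exact_mod_cast hn
  have hn0 : (n : ℤ) ≠ 0 := by omega
  by_cases hm : mE e' ≤ nm e'.2
  · exact Or.inr hm
  left
  have hm' : (nm e'.2 : ℤ) < dot e'.1 e'.2 := by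
    have := not_le.1 hm
    unfold mE at this
    exact_mod_cast this
  rw [nm_eq] at hm'
  have ha' : e'.1.re = e'.2.re - n * a := by linarith
  have hb' : e'.1.im = e'.2.im - n * b := by linarith
  have hd : det (⟨-a, -b⟩ : G) e'.2 = 1 := by
    unfold det at h1 ⊢
    rw [ha', hb'] at h1
    have h4 : (n : ℤ) * ((-a) * e'.2.im - (-b) * e'.2.re) = n * 1 := by linear_combination h1
    exact mul_left_cancel₀ hn0 h4
  refine ⟨(⟨-a, -b⟩, e'.2), ⟨?_, ?_, ?_, 1, isCoprime_one_left, ?_, ?_⟩, ?_⟩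
  · rw [hd]
    rfl
  · unfold dot at hm' ⊢
    rw [ha', hb'] at hm'
    show 0 < (-a) * e'.2.re + (-b) * e'.2.im
    by_contra hcon
    have := mul_nonneg (by linarith : (0 : ℤ) ≤ n) (by linarith [not_lt.1 hcon] :
      0 ≤ -((-a) * e'.2.re + (-b) * e'.2.im))
    nlinarith
  · unfold det at hd
    refine ⟨e'.2.im, -e'.2.re, ?_⟩
    show e'.2.im * (-a) + (-e'.2.re) * (-b) = 1
    linear_combination hd
  · exact one_dvd _
  · exact one_dvd _
  · refine Prod.ext (Zsqrtd.ext ?_ ?_) rfl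
    · rw [TT_re, ha']
      show e'.2.re + n * (-a) = _
      ring
    · rw [TT_im, hb']
      show e'.2.im + n * (-b) = _
      ring

/-- an edge: `P Q = m ^ 2 + 1` -/
theorem edge_PQ {e : G × G} (he : En 1 e) : (0 : ℝ) < nm e.1 ∧ (0 : ℝ) < nm e.2 ∧ 1 ≤ mE e ∧
    (nm e.1 : ℝ) * nm e.2 = mE e ^ 2 + 1 := by
  have h0 := clu_nm_ne (by norm_num : 0 < 1) he
  have h1 : 0 < nm e.1 := Nat.pos_of_ne_zero h0.1
  have h2 : 0 < nm e.2 := Nat.pos_of_ne_zero h0.2
  have h4 := dot_sq_add_det_sq e.1 e.2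
  rw [he.1] at h4
  refine ⟨by exact_mod_cast h1, by exact_mod_cast h2, ?_, ?_⟩
  · unfold mE
    have := he.2.1
    exact_mod_cast this
  · unfold mE
    have h5 : (nm e.1 : ℤ) * nm e.2 = dot e.1 e.2 ^ 2 + 1 := by
      rw [← h4]
      push_cast
      ring
    exact_mod_cast h5

/-- the terms of the two sums are close -/
theorem term_bound {n : ℕ} (hn : 1 ≤ n) {R0 CW ε δ M0 : ℝ} {W : ℝ → ℝ → ℂ}
    (hR : ∀ y t, W y t ≠ 0 → |y| ≤ R0 ∧ |t| ≤ R0) (hC : ∀ y t, ‖W y t‖ ≤ CW) (hε : 0 ≤ ε) (hδ : 0 < δ)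
    (hu : ∀ y t y' t', |y - y'| < δ → |t - t'| < δ → ‖W y t - W y' t'‖ ≤ ε) {X : ℝ} (hX : 0 < X)
    (hX1 : 1 / X < δ) (hM0 : 1 / δ ≤ M0) {e : G × G} (he : En 1 e) :
    ‖W (mE e / X) (tE e) - WT n W (mE (TT n e) / X) (tE (TT n e))‖ ≤
      if |tE e| ≤ R0 + 1 then (ε + if mE e ≤ M0 then 2 * CW else 0) else 0 := by
  obtain ⟨hP, hQ, hm, hPQ⟩ := edge_PQ he
  have hn' : (1 : ℝ) ≤ n := by exact_mod_cast hn
  obtain ⟨c1, c2, c3⟩ := compare hn' hP hQ hm hPQ hX
  have ht : tE (TT n e) = Real.log (nm e.2) -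
      Real.log (nm e.2 + 2 * n * mE e + n ^ 2 * nm e.1) := by
    unfold tE
    rw [TT_nm]
    rfl
  have ht0 : Real.log (nm e.2) - Real.log (nm e.1) = tE e := rfl
  rw [TT_mE, ht]
  unfold WT
  rw [if_pos c1]
  rw [ht0] at c3
  obtain ⟨y2, hy2⟩ : ∃ y2, y2 = (↑(nm e.2) + ↑n * mE e) / X * (1 - Real.exp ((Real.log ↑(nm e.2) -
    Real.log (↑(nm e.2) + 2 * ↑n * mE e + ↑n ^ 2 * ↑(nm e.1))) / 2)) / n := ⟨_, rfl⟩
  obtain ⟨t2, ht2⟩ : ∃ t2, t2 = 2 * Real.log (n * Real.exp ((Real.log ↑(nm e.2) -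
    Real.log (↑(nm e.2) + 2 * ↑n * mE e + ↑n ^ 2 * ↑(nm e.1))) / 2) /
      (1 - Real.exp ((Real.log ↑(nm e.2) -
    Real.log (↑(nm e.2) + 2 * ↑n * mE e + ↑n ^ 2 * ↑(nm e.1))) / 2))) := ⟨_, rfl⟩
  rw [← hy2] at c2
  rw [← ht2] at c3
  rw [← hy2, ← ht2]
  have hm2 : 1 / mE e ^ 2 ≤ 1 / mE e := by
    apply one_div_le_one_div_of_le (by linarith)
    nlinarith
  have hm3 : 1 / mE e ≤ 1 := by
    rw [div_le_one (by linarith)]
    exact hm
  split_ifs with h1 h2
  · have h3 := norm_sub_le (W (mE e / X) (tE e)) (W y2 t2)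
    have h4 := hC (mE e / X) (tE e)
    have h5 := hC y2 t2
    linarith
  · rw [add_zero]
    apply hu
    · rw [abs_sub_comm]
      exact c2.trans_lt hX1
    · rw [abs_sub_comm]
      refine c3.trans_lt (hm2.trans_lt ?_)
      have h3 : 1 / δ < mE e := lt_of_le_of_lt hM0 (not_le.1 h2)
      rw [div_lt_iff₀ hδ] at h3
      rw [div_lt_iff₀ (by linarith)]
      linarith
  · have h3 : W (mE e / X) (tE e) = 0 := by
      by_contra hc
      have := (hR _ _ hc).2
      linarith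
    have h4 : W y2 t2 = 0 := by
      by_contra hc
      have h5 := (hR _ _ hc).2
      have h6 : |tE e| ≤ |t2| + |t2 - tE e| := by
        have := abs_sub_abs_le_abs_sub (tE e) t2
        rw [abs_sub_comm] at this
        linarith
      linarith
    rw [h3, h4, sub_zero, norm_zero]

/-- the pairs that are not images -/
theorem left_bound {n : ℕ} (hn : 1 ≤ n) {b R0 : ℝ} {W : ℝ → ℝ → ℂ} (hW : TF b W)
    (hR : ∀ y t, W y t ≠ 0 → |y| ≤ R0 ∧ |t| ≤ R0) : ∃ K B : ℝ, (n : ℝ) ≤ K ∧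
    ∀ e : G × G, En n e → mE e ≤ nm e.2 → ∀ y, WT n W y (tE e) ≠ 0 → mE e ≤ K ∧ |tE e| ≤ B := by
  have hn' : (1 : ℝ) ≤ n := by exact_mod_cast hn
  obtain ⟨c, hc⟩ : ∃ c, c = 2 * Real.log (1 + n * Real.exp (-(R0 / 2))) := ⟨_, rfl⟩
  have hc0 : 0 < c := by
    have : 0 < n * Real.exp (-(R0 / 2)) := by positivity
    have := Real.log_pos (by linarith : (1 : ℝ) < 1 + n * Real.exp (-(R0 / 2)))
    linarith
  have hec : 1 < Real.exp c := Real.one_lt_exp_iff.2 hc0
  refine ⟨max n √((n : ℝ) ^ 2 / (Real.exp c - 1)), 2 * Real.log (1 + n * Real.exp (R0 / 2)),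
    le_max_left _ _, fun e he hm y hy => ?_⟩
  obtain ⟨-, -, h3, h4⟩ := WT_ne hn hW hR hy
  rw [← hc] at h3
  constructor
  · apply le_trans _ (le_max_right _ _)
    apply Real.le_sqrt_of_sq_le
    rw [le_div_iff₀ (by linarith)]
    have h0 := clu_nm_ne (by omega : 0 < n) he
    have h1 : (0 : ℝ) < nm e.1 := by exact_mod_cast Nat.pos_of_ne_zero h0.1
    have h2 : (0 : ℝ) < nm e.2 := by exact_mod_cast Nat.pos_of_ne_zero h0.2
    have h5 : (nm e.2 : ℝ) * Real.exp c ≤ nm e.1 := by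
      have h6 : Real.log (nm e.2) + c ≤ Real.log (nm e.1) := by
        unfold tE at h3
        linarith
      have h7 := Real.exp_le_exp.2 h6
      rwa [Real.exp_add, Real.exp_log h2, Real.exp_log h1] at h7
    have h6 := dot_sq_add_det_sq e.1 e.2
    rw [he.1] at h6
    have h7 : (mE e) ^ 2 + (n : ℝ) ^ 2 = nm e.1 * nm e.2 := by
      unfold mE
      exact_mod_cast h6
    have h8 : 0 < mE e := mE_pos he
    have h9 : mE e ^ 2 ≤ (nm e.2 : ℝ) ^ 2 := by nlinarith
    have h10 : (nm e.2 : ℝ) ^ 2 * Real.exp c ≤ mE e ^ 2 + (n : ℝ) ^ 2 := by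
      rw [h7]
      nlinarith
    nlinarith
  · rw [abs_le]
    exact ⟨h4, by linarith [h3, Real.log_nonneg (by
      have : 0 < n * Real.exp (R0 / 2) := by positivity
      linarith : (1 : ℝ) ≤ 1 + n * Real.exp (R0 / 2))]⟩

open Classical in
/-- the first sum over a longer range -/
theorem sum_one {n : ℕ} {b bs : ℝ} (hb : b ≤ bs) {W : ℝ → ℝ → ℂ} (hW : TF b W) (F : G × G → ℂ) {X : ℝ}
    (hX : 0 < X) : ∑ e ∈ EN 1 (b * X), F (TT n e) * W (mE e / X) (tE e) =
      ∑ e ∈ EN 1 (bs * X), F (TT n e) * W (mE e / X) (tE e) := by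
  apply sum_subset
  · intro e he
    rw [mem_EN (by norm_num)] at he ⊢
    exact ⟨he.1, he.2.trans (mul_le_mul_of_nonneg_right hb hX.le)⟩
  · intro e he he'
    rw [mem_EN (by norm_num)] at he he'
    have h1 : b * X < mE e := by
      by_contra hc
      exact he' ⟨he.1, not_lt.1 hc⟩
    rw [hW.hi _ _ (by rw [le_div_iff₀ hX]; exact h1.le), mul_zero]

open Classical in
/-- the second sum as a sum over edges and a rest -/
theorem sum_two {n : ℕ} (hn : 1 ≤ n) {b' bs : ℝ} (hb : b' ≤ bs) {W' : ℝ → ℝ → ℂ} (hW : TF b' W')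
    (F : G × G → ℂ) {X : ℝ} (hX : 0 < X) :
    ∑ e ∈ (EN n (b' * X)).filter (fun e => cg n e.2 e.1), F e * W' (mE e / X) (tE e) =
      ∑ e ∈ EN 1 (bs * X), F (TT n e) * W' (mE (TT n e) / X) (tE (TT n e)) +
      ∑ e ∈ ((EN n (b' * X)).filter (fun e => cg n e.2 e.1)).filter
        (fun e' => ¬ ∃ e, En 1 e ∧ TT n e = e'), F e * W' (mE e / X) (tE e) := by
  rw [← sum_filter_add_sum_filter_not ((EN n (b' * X)).filter (fun e => cg n e.2 e.1))
    (fun e' => ∃ e, En 1 e ∧ TT n e = e')]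
  congr 1
  rw [← sum_image (f := fun e => F e * W' (mE e / X) (tE e)) (g := TT n)
    (fun a _ a' _ h => TT_inj hn h)]
  apply sum_subset
  · intro e' he'
    rw [mem_filter, mem_filter, mem_EN (by omega)] at he'
    obtain ⟨⟨⟨h1, h2⟩, h3⟩, e, he, rfl⟩ := he'
    rw [mem_image]
    refine ⟨e, ?_, rfl⟩
    rw [mem_EN (by norm_num)]
    refine ⟨he, ?_⟩
    obtain ⟨hP, hQ, hm, hPQ⟩ := edge_PQ he
    rw [TT_mE] at h2
    have hn' : (1 : ℝ) ≤ n := by exact_mod_cast hn
    have h4 : b' * X ≤ bs * X := mul_le_mul_of_nonneg_right hb hX.le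
    nlinarith
  · intro e' he' hne
    rw [mem_image] at he'
    obtain ⟨e, he, rfl⟩ := he'
    rw [mem_EN (by norm_num)] at he
    rw [mem_filter, mem_filter, mem_EN (by omega)] at hne
    have h1 : b' * X < mE (TT n e) := by
      by_contra hc
      exact hne ⟨⟨⟨TT_En hn he.1, not_lt.1 hc⟩, TT_cg n e⟩, e, he.1, rfl⟩
    show F (TT n e) * W' (mE (TT n e) / X) (tE (TT n e)) = 0
    rw [hW.hi _ _ (by rw [le_div_iff₀ hX]; exact h1.le), mul_zero]

open Classical in
/-- PROOF. The map `T e = (e.2 + n e.1, e.2)` from edges to pairs `e'` of determinant `n` with `cg n e'.2 e'.1` is injective; with `P = nm e.1`, `Q = nm e.2`, `m = dot e.1 e.2 > 0` (`P Q = m^2 + 1`): `det = n`, `dot = Q + n m > 0`, `nm (e.2 + n e.1) = Q + 2 n m + n^2 P`, primitive as `det e.1 (e.2 + n e.1) = 1`, `c = 1`: `T e ∈ EN n`.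
Conversely, for `e' ∈ EN n x` with `cg n e'.2 e'.1` put `A = (e'.1 - e'.2)/n`: `det A e'.2 = 1`, so `e' = T (A, e'.2)`, and `(A, e'.2)` is an edge if `dot A e'.2 > 0`.
Let `y = m/X`, `t = tE e`, `δ = 1/X`: `P/X = √(y^2+δ^2) exp (-t/2)`, `Q/X = √(y^2+δ^2) exp (t/2)`, so `WT n W (mE (T e)/X) (tE (T e)) = K (y, t, δ)` for a function `K` which is continuous on `[η, b] x [-B, B] x [0, 1]` for every `η > 0`, and `K (y, t, 0) = W y t` for `y > 0`
(`s = exp (tE (T e)/2) = √(Q/(Q + 2 n m + n^2 P)) = r/(r + n)` for `δ = 0`, `r = exp (t/2)`; `y' = r (r + n) (P/X)`, `y' (1 - s)/n = y' /(r + n) = r P / X = y`).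
Given `ε`: choose `B` with `W = 0` for `|t| > B` and `WT`-support in `|t'| ≤ B` too (then `WT n W (..) (tE (T e)) ≠ 0` bounds `r` and hence `tE e` when `m ≥ η X`, `X` large). Terms with `mE e ≤ η X` or `mE e' ≤ η X`: at most `C η X` (`cnt`) times the sup norm. For `mE ≥ η X`: uniform continuity of `K` gives `|K (y,t,1/X) - W y t| ≤ ε`,
and `e'` with `mE e' ≥ η X`, `|tE e'| ≤ B`, `WT ≠ 0` is an image for large `X`: `dot A e'.2 > 0` iff `m' > Q'` iff `Q' (P' - Q') > n^2` (`n dot A e'.2 = m' - Q'`, `P' Q' = m'^2 + n^2`), and `P'/Q' = exp (-t') ≥ exp T0 > 1`, `Q' → ∞`.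
(`apxN_abs`, m/G23.lean line 190, is a model for this kind of proof.) -/
theorem transfer (n : ℕ) (hn : 1 ≤ n) (Φ : ℝ → G × G → ℂ) (hΦ : ∀ X e, ‖Φ X e‖ ≤ 1)
    (H : ∀ (b : ℝ) (W : ℝ → ℝ → ℂ), TF b W →
      Tendsto (fun X : ℝ => (∑ e ∈ (EN n (b * X)).filter (fun e => cg n e.2 e.1),
        Φ X e * W (mE e / X) (tE e)) / X) atTop (nhds 0)) :
    EdgeSmall (fun X e => Φ X (e.2 + ((n : ℤ) : G) * e.1, e.2)) := by
  intro b W hW
  obtain ⟨R0, hR0, hR⟩ := ctw_supp hW
  obtain ⟨b', hb', hT⟩ := WT_tf n hn b W hW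
  obtain ⟨CW, hCW⟩ := hW.supp.exists_bound_of_continuous hW.cont
  have hC : ∀ y t, ‖W y t‖ ≤ CW := fun y t => hCW (y, t)
  have hCW0 : 0 ≤ CW := (norm_nonneg _).trans (hC 0 0)
  have hCT : ∀ y t, ‖WT n W y t‖ ≤ CW := by
    intro y t
    unfold WT
    split_ifs
    · exact hC _ _
    · rw [norm_zero]
      exact hCW0
  obtain ⟨K, B, hK, hKB⟩ := left_bound hn hW hR
  obtain ⟨C1, hC1, hC1'⟩ := cnt (R0 + 1)
  obtain ⟨C2, hC2, hC2'⟩ := cnt B
  have huc := hW.supp.uniformContinuous_of_continuous hW.cont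
  obtain ⟨bs, hbs⟩ : ∃ bs, bs = max b b' := ⟨_, rfl⟩
  have hbs1 : b ≤ bs := by rw [hbs]; exact le_max_left _ _
  have hbs2 : b' ≤ bs := by rw [hbs]; exact le_max_right _ _
  have hbs0 : 1 ≤ bs := hb'.trans hbs2
  have key : ∀ ε : ℝ, 0 < ε → ∀ᶠ X : ℝ in atTop,
      ‖(∑ e ∈ EN 1 (b * X), Φ X (TT n e) * W (mE e / X) (tE e)) -
        ∑ e ∈ (EN n (b' * X)).filter (fun e => cg n e.2 e.1),
          Φ X e * WT n W (mE e / X) (tE e)‖ ≤ ε * X := by
    intro ε hε
    have hε' : 0 < ε / (2 * C1 * bs) := by positivity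
    obtain ⟨δ, hδ, hδ'⟩ := Metric.uniformContinuous_iff.1 huc _ hε'
    have hu : ∀ y t y' t', |y - y'| < δ → |t - t'| < δ → ‖W y t - W y' t'‖ ≤ ε / (2 * C1 * bs) := by
      intro y t y' t' h1 h2
      have h3 : dist (y, t) (y', t') < δ := by
        rw [Prod.dist_eq, max_lt_iff]
        exact ⟨h1, h2⟩
      have h4 := hδ' h3
      rw [dist_eq_norm] at h4
      exact h4.le
    obtain ⟨M0, hM0⟩ : ∃ M0, M0 = max 1 (1 / δ) := ⟨_, rfl⟩
    have hM1 : 1 ≤ M0 := by rw [hM0]; exact le_max_left _ _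
    have hM2 : 1 / δ ≤ M0 := by rw [hM0]; exact le_max_right _ _
    filter_upwards [eventually_gt_atTop 0, eventually_gt_atTop (1 / δ), eventually_ge_atTop 1,
      eventually_ge_atTop ((C1 * M0 * (2 * CW) + C2 * K * CW) / (ε / 2))] with X hX0 hX1 hX2 hX3
    have hX1' : 1 / X < δ := by
      rw [div_lt_iff₀ hδ] at hX1
      rw [div_lt_iff₀ hX0]
      linarith
    rw [sum_one (n := n) hbs1 hW (Φ X) hX0, sum_two hn hbs2 hT (Φ X) hX0, ← sub_sub,
      ← sum_sub_distrib]
    refine (norm_sub_le _ _).trans ?_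
    -- the main part
    have hA : ‖∑ e ∈ EN 1 (bs * X), (Φ X (TT n e) * W (mE e / X) (tE e) -
        Φ X (TT n e) * WT n W (mE (TT n e) / X) (tE (TT n e)))‖ ≤
        ε / 2 * X + C1 * M0 * (2 * CW) := by
      refine (norm_sum_le _ _).trans ?_
      calc ∑ e ∈ EN 1 (bs * X), ‖Φ X (TT n e) * W (mE e / X) (tE e) -
              Φ X (TT n e) * WT n W (mE (TT n e) / X) (tE (TT n e))‖
          ≤ ∑ e ∈ EN 1 (bs * X), (if |tE e| ≤ R0 + 1 then
              (ε / (2 * C1 * bs) + if mE e ≤ M0 then 2 * CW else 0) else 0) := by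
            apply sum_le_sum
            intro e he
            rw [mem_EN (by norm_num)] at he
            rw [← mul_sub, norm_mul]
            have h1 := term_bound hn hR hC hε'.le hδ hu hX0 hX1' hM2 he.1
            calc _ ≤ 1 * ‖W (mE e / X) (tE e) - WT n W (mE (TT n e) / X) (tE (TT n e))‖ :=
                  mul_le_mul_of_nonneg_right (hΦ _ _) (norm_nonneg _)
              _ ≤ _ := by rw [one_mul]; exact h1
        _ = (((EN 1 (bs * X)).filter (fun e => |tE e| ≤ R0 + 1)).card : ℝ) * (ε / (2 * C1 * bs)) +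
            ((((EN 1 (bs * X)).filter (fun e => |tE e| ≤ R0 + 1)).filter
              (fun e => mE e ≤ M0)).card : ℝ) * (2 * CW) := by
            rw [← sum_filter, sum_add_distrib, sum_const, nsmul_eq_mul, ← sum_filter, sum_const,
              nsmul_eq_mul]
        _ ≤ (C1 * (bs * X)) * (ε / (2 * C1 * bs)) + (C1 * M0) * (2 * CW) := by
            apply add_le_add
            · apply mul_le_mul_of_nonneg_right _ hε'.le
              apply hC1' 1 (by norm_num)
              push_cast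
              nlinarith
            · apply mul_le_mul_of_nonneg_right _ (by positivity)
              refine le_trans ?_ (hC1' 1 (by norm_num) M0 (by push_cast; exact hM1))
              apply Nat.cast_le.2
              apply card_le_card
              intro e he
              rw [mem_filter, mem_filter, mem_EN (by norm_num)] at he
              rw [mem_filter, mem_EN (by norm_num)]
              exact ⟨⟨he.1.1.1, he.2⟩, he.1.2⟩
        _ = ε / 2 * X + C1 * M0 * (2 * CW) := by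
            field_simp
    have hB : ‖∑ e ∈ ((EN n (b' * X)).filter (fun e => cg n e.2 e.1)).filter
        (fun e' => ¬ ∃ e, En 1 e ∧ TT n e = e'), Φ X e * WT n W (mE e / X) (tE e)‖ ≤
        C2 * K * CW := by
      refine (norm_sum_le _ _).trans ?_
      calc _ ≤ ∑ e ∈ ((EN n (b' * X)).filter (fun e => cg n e.2 e.1)).filter
              (fun e' => ¬ ∃ e, En 1 e ∧ TT n e = e'),
              (if e ∈ (EN n K).filter (fun e => |tE e| ≤ B) then CW else 0) := by
            apply sum_le_sum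
            intro e he
            rw [mem_filter, mem_filter, mem_EN (by omega)] at he
            obtain ⟨⟨⟨h1, h2⟩, h3⟩, h4⟩ := he
            have h5 : mE e ≤ nm e.2 := by
              rcases TT_surj hn h1 h3 with h | h
              · exact absurd h h4
              · exact h
            rw [norm_mul]
            have h6 : ‖Φ X e‖ * ‖WT n W (mE e / X) (tE e)‖ ≤ ‖WT n W (mE e / X) (tE e)‖ := by
              calc _ ≤ 1 * ‖WT n W (mE e / X) (tE e)‖ :=
                    mul_le_mul_of_nonneg_right (hΦ _ _) (norm_nonneg _)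
                _ = _ := one_mul _
            refine h6.trans ?_
            split_ifs with h7
            · exact hCT _ _
            · rw [norm_le_zero_iff]
              by_contra h8
              have h9 := hKB e h1 h5 _ h8
              exact h7 (mem_filter.2 ⟨(mem_EN (by omega)).2 ⟨h1, h9.1⟩, h9.2⟩)
        _ ≤ ((EN n K).filter (fun e => |tE e| ≤ B)).card * CW := by
            rw [← sum_filter, sum_const, nsmul_eq_mul]
            apply mul_le_mul_of_nonneg_right _ hCW0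
            apply Nat.cast_le.2
            apply card_le_card
            intro e he
            exact (mem_filter.1 he).2
        _ ≤ _ := mul_le_mul_of_nonneg_right (hC2' n (by omega) K hK) hCW0
    rw [div_le_iff₀ (by positivity)] at hX3
    linarith
  have h1 := H b' (WT n W) hT
  have h2 : Tendsto (fun X : ℝ => ((∑ e ∈ EN 1 (b * X), Φ X (TT n e) * W (mE e / X) (tE e)) -
        ∑ e ∈ (EN n (b' * X)).filter (fun e => cg n e.2 e.1),
          Φ X e * WT n W (mE e / X) (tE e)) / X) atTop (nhds 0) := by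
    rw [Metric.tendsto_nhds]
    intro ε hε
    filter_upwards [key (ε / 2) (by positivity), eventually_gt_atTop 0] with X hX hX0
    rw [dist_zero_right, norm_div, Complex.norm_real, Real.norm_eq_abs, abs_of_pos hX0,
      div_lt_iff₀ hX0]
    refine hX.trans_lt ?_
    have := mul_pos hε hX0
    linarith
  have h3 := h2.add h1
  rw [add_zero] at h3
  refine h3.congr (fun X => ?_)
  rw [← add_div, sub_add_cancel]
  rfl

end Pool.Agent.FanL
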