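import Pool.Agent.Lib_MP_f1a94e_fl.SnLim
import Pool.Agent.Lib_MP_f1a94e_fl.Transfer
import Pool.Agent.Lib_MP_f1a94e_fl.Dp

/-!
# Piece PAIR: two members of the progression `m, m + d, m + 2 d, ...`
-/

set_option autoImplicit false

namespace Pool.Agent.FanL

open Finset Pool.Agent.GaussMR Pool.Agent.OmAll Pool.Agent.OmEq Pool.Agent.LPr Pool.Agent.OrbL MeasureTheory Filter

theorem er_shift0 (p : ℕ × ℕ) (i j : ℕ) : er (p.1, p.2 + j * p.1) i = er p (i + j) := by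
  unfold er
  simp only
  congr 3
  ring

/-- PROOF. `(d, m) ↦ (d, m + j d)` is a bijection from `DP X α β` onto `DP X (α + j) (β + j)` and `er (d, m) (i + j) = er (d, m + j d) i`. -/
theorem dp_shift (X α β : ℝ) (hX : 0 ≤ X) (hα : 0 ≤ α) (j : ℕ) (F : ℕ → ℕ → ℕ → ℂ) :
    ∑ p ∈ DP X α β, F p.1 (p.2 + j * p.1) (er p j) =
      ∑ p ∈ DP X (α + j) (β + j), F p.1 p.2 (er p 0) := by
  refine Finset.sum_bij' (fun p _ => (p.1, p.2 + j * p.1)) (fun p _ => (p.1, p.2 - j * p.1))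
    ?_ ?_ ?_ ?_ ?_
  · intro p hp
    rw [mem_DP hX] at hp ⊢
    obtain ⟨h1, h2, h3, h4, h5⟩ := hp
    refine ⟨h1, h2, ?_, ?_, ?_⟩
    · push_cast
      linarith
    · push_cast
      linarith
    · have e : (p.2 + j * p.1) ^ 2 + 1 = (p.2 ^ 2 + 1) + p.1 * (2 * j * p.2 + j ^ 2 * p.1) := by ring
      simp only
      rw [e]
      exact dvd_add h5 (dvd_mul_right _ _)
  · intro p hp
    rw [mem_DP hX] at hp ⊢
    obtain ⟨h1, h2, h3, h4, h5⟩ := hp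
    have hle : j * p.1 ≤ p.2 := by
      have : (j : ℝ) * p.1 ≤ p.2 := by
        have h6 : 0 ≤ α * (p.1 : ℝ) := mul_nonneg hα (Nat.cast_nonneg _)
        linarith
      exact_mod_cast this
    have hc : ((p.2 - j * p.1 : ℕ) : ℝ) = (p.2 : ℝ) - j * p.1 := by
      rw [Nat.cast_sub hle]
      push_cast
      ring
    refine ⟨h1, h2, ?_, ?_, ?_⟩
    · simp only
      rw [hc]
      linarith
    · simp only
      rw [hc]
      linarith
    · simp only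
      obtain ⟨m, hm⟩ := Nat.exists_eq_add_of_le hle
      have e1 : p.2 - j * p.1 = m := by omega
      rw [e1]
      have e : p.2 ^ 2 + 1 = (m ^ 2 + 1) + p.1 * (2 * j * m + j ^ 2 * p.1) := by
        rw [hm]; ring
      rw [e] at h5
      exact (Nat.dvd_add_left (dvd_mul_right _ _)).1 h5
  · intro p _
    simp
  · intro p hp
    rw [mem_DP hX] at hp
    obtain ⟨h1, h2, h3, h4, h5⟩ := hp
    have hle : j * p.1 ≤ p.2 := by
      have : (j : ℝ) * p.1 ≤ p.2 := by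
        have h6 : 0 ≤ α * (p.1 : ℝ) := mul_nonneg hα (Nat.cast_nonneg _)
        linarith
      exact_mod_cast this
    ext
    · rfl
    · simp only
      omega
  · intro p _
    simp only
    rw [er_shift0 p 0 j, zero_add]

theorem er_shift (p : ℕ × ℕ) (i j : ℕ) : er (p.1, p.2 + j * p.1) i = er p (i + j) := by
  unfold er
  simp only
  congr 3
  ring

theorem fz_one {n : ℕ} (h : n ≠ 0) : fz 1 1 n = 1 := by
  unfold fz
  rw [if_neg, one_pow]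
  rintro (h1 | h1)
  · exact h h1
  · exact h1 (Nat.coprime_one_right n)

theorem edge_ne {n : ℕ} (hn : 0 < n) {x : ℝ} {e : G × G} (he : e ∈ EN n x) :
    nm e.1 ≠ 0 ∧ nm e.2 ≠ 0 := by
  obtain ⟨⟨h1, _⟩, _⟩ := (mem_EN hn).1 he
  have key := dot_sq_add_det_sq e.1 e.2
  rw [h1] at key
  have hn2 : (0 : ℤ) < (n : ℤ) ^ 2 := by positivity
  have hpos : (0 : ℤ) < (nm e.1 : ℤ) * nm e.2 := by
    rw [← key]
    have := sq_nonneg (dot e.1 e.2)
    linarith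
  constructor
  · intro h
    rw [h] at hpos
    simp at hpos
  · intro h
    rw [h] at hpos
    simp at hpos

/-- the values of `er` on an edge -/
theorem er_edge {x : ℝ} {e : G × G} (he : e ∈ EN 1 x) (n : ℕ) :
    er (nm e.1, (dot e.1 e.2).toNat) n = nm (e.2 + ((n : ℤ) : G) * e.1) := by
  obtain ⟨⟨h1, h2, _⟩, _⟩ := (mem_EN one_pos).1 he
  have hne := (edge_ne one_pos he).1
  have hdot : (((dot e.1 e.2).toNat : ℕ) : ℤ) = dot e.1 e.2 := Int.toNat_of_nonneg h2.le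
  have hdet : det e.1 (e.2 + ((n : ℤ) : G) * e.1) = 1 := by
    have e0 : det e.1 (e.2 + ((n : ℤ) : G) * e.1) = det e.1 e.2 := by
      unfold det
      simp
      ring
    rw [e0, h1]
    rfl
  have hdot2 : dot e.1 (e.2 + ((n : ℤ) : G) * e.1) = dot e.1 e.2 + n * nm e.1 := by
    rw [nm_eq]
    unfold dot
    simp
    ring
  have key := dot_sq_add_det_sq e.1 (e.2 + ((n : ℤ) : G) * e.1)
  rw [hdet, hdot2] at key
  unfold er
  simp only
  apply Nat.div_eq_of_eq_mul_right (Nat.pos_of_ne_zero hne)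
  have h3 : (((((dot e.1 e.2).toNat + n * nm e.1) ^ 2 + 1 : ℕ)) : ℤ) =
      ((nm e.1 * nm (e.2 + ((n : ℤ) : G) * e.1) : ℕ) : ℤ) := by
    rw [Nat.cast_mul, ← key]
    push_cast
    rw [hdot]
  exact_mod_cast h3

theorem edge_congr {Φ Ψ : ℝ → G × G → ℂ} (h : ∀ X x e, e ∈ EN 1 x → Φ X e = Ψ X e)
    (H : EdgeSmall Φ) : EdgeSmall Ψ := by
  intro b W hW
  refine (H b W hW).congr fun X => ?_
  congr 1
  exact sum_congr rfl fun e he => by rw [h X _ e he]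

theorem comb_le (w1 w2 : ℂ) (hw1 : ‖w1‖ = 1) (hw2 : ‖w2‖ = 1) (φ1 φ2 : ℝ → ℂ) (hφ1 : StepF φ1)
    (hφ2 : StepF φ2) (X : ℝ) (a b : ℕ) :
    ‖(fx 1 w1 φ1 X a * fx 1 w2 φ2 X b - mm w1 φ1 * mm w2 φ2) / 2‖ ≤ 1 := by
  have h := norm_comb (fx 1 w1 φ1 X a * fx 1 w2 φ2 X b) 1 (mm w1 φ1 * mm w2 φ2) (by
    rw [norm_mul]
    exact mul_le_one₀ ((fx_FX 1 one_pos w1 hw1 φ1 hφ1).bd X _) (norm_nonneg _)
      ((fx_FX 1 one_pos w2 hw2 φ2 hφ2).bd X _)) (by simp) (by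
    rw [norm_mul]
    exact mul_le_one₀ (mm_le w1 φ1 hφ1) (norm_nonneg _) (mm_le w2 φ2 hφ2))
  rwa [mul_one] at h

/-- from `dp_lim` to sums of `2 F` over shifted regions -/
theorem dp_two (F : ℝ → ℕ × ℕ → ℂ) (hF : ∀ X p, ‖F X p‖ ≤ 1)
    (H : EdgeSmall (fun X e => F X (nm e.1, (dot e.1 e.2).toNat))) (α β : ℝ) (hα : 0 ≤ α) (hαβ : α ≤ β)
    (S : ℝ → ℂ) (hS : ∀ X : ℝ, 0 ≤ X → S X = 2 * ∑ p ∈ DP X α β, F X p) :
    Tendsto (fun X : ℝ => S X / X) atTop (nhds 0) := by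
  have h := (dp_lim F hF H α β hα hαβ).const_mul 2
  rw [mul_zero] at h
  refine h.congr' ?_
  filter_upwards [eventually_ge_atTop 0] with X hX
  rw [hS X hX, mul_div_assoc]

/-- PROOF. By `dp_shift` (`er_shift`) we may assume `j = 0`, `α ≥ 0`. `dp_lim` for `F X p = (fx 1 w1 φ1 X p.1 * fx 1 w2 φ2 X (er p 0) - mm w1 φ1 * mm w2 φ2) / 2`: for an edge `e` and `p = (nm e.1, dot)` we have `er p 0 = nm e.2`; the hypothesis is `sx_lim 1` (`Sx2`, `fz 1 1 n = 1` for `n ≠ 0`). -/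
theorem dp_edge (j : ℕ) (w1 w2 : ℂ) (hw1 : ‖w1‖ = 1) (hw2 : ‖w2‖ = 1) (φ1 φ2 : ℝ → ℂ) (hφ1 : StepF φ1)
    (hφ2 : StepF φ2) (α β : ℝ) (hα : 0 ≤ α) (hαβ : α ≤ β) :
    Tendsto (fun X : ℝ => (∑ p ∈ DP X α β, (fx 1 w1 φ1 X p.1 * fx 1 w2 φ2 X (er p j) -
      mm w1 φ1 * mm w2 φ2)) / X) atTop (nhds 0) := by
  refine dp_two (fun X p => (fx 1 w1 φ1 X p.1 * fx 1 w2 φ2 X (er p 0) - mm w1 φ1 * mm w2 φ2) / 2)
    (fun X p => comb_le w1 w2 hw1 hw2 φ1 φ2 hφ1 hφ2 X _ _) ?_ (α + j) (β + j) (by positivity)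
    (by linarith) _ ?_
  · intro b W hW
    have h := (sx_lim 1 one_pos w1 w2 hw1 hw2 φ1 φ2 hφ1 hφ2 b W hW).div_const 2
    rw [zero_div] at h
    refine h.congr fun X => ?_
    unfold Sx2
    rw [mul_sum, ← sum_sub_distrib, div_right_comm, sum_div]
    congr 1
    refine sum_congr rfl fun e he => ?_
    have hne := edge_ne one_pos he
    have h0 := er_edge he 0
    simp only [Nat.cast_zero, Int.cast_zero, zero_mul, add_zero] at h0
    show _ = (fx 1 w1 φ1 X (nm e.1) * fx 1 w2 φ2 X (er (nm e.1, (dot e.1 e.2).toNat) 0) -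
      mm w1 φ1 * mm w2 φ2) / 2 * W (mE e / X) (tE e)
    rw [fz_one hne.1, fz_one hne.2, h0]
    ring
  · intro X hX
    have h := dp_shift X α β hX hα j (fun a _ c => fx 1 w1 φ1 X a * fx 1 w2 φ2 X c - mm w1 φ1 * mm w2 φ2)
    rw [h, mul_sum]
    refine sum_congr rfl fun p _ => ?_
    ring

theorem dp_pair_lt (i j : ℕ) (hij : j < i) (w1 w2 : ℂ) (hw1 : ‖w1‖ = 1) (hw2 : ‖w2‖ = 1) (φ1 φ2 : ℝ → ℂ)
    (hφ1 : StepF φ1) (hφ2 : StepF φ2) (α β : ℝ) (hα : 0 ≤ α) (hαβ : α ≤ β) :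
    Tendsto (fun X : ℝ => (∑ p ∈ DP X α β, (fx 1 w1 φ1 X (er p i) * fx 1 w2 φ2 X (er p j) -
      mm w1 φ1 * mm w2 φ2)) / X) atTop (nhds 0) := by
  classical
  obtain ⟨n, hn0⟩ : ∃ n, n = i - j := ⟨_, rfl⟩
  have hn : 1 ≤ n := by omega
  have hi : n + j = i := by omega
  refine dp_two (fun X p => (fx 1 w1 φ1 X (er p n) * fx 1 w2 φ2 X (er p 0) - mm w1 φ1 * mm w2 φ2) / 2)
    (fun X p => comb_le w1 w2 hw1 hw2 φ1 φ2 hφ1 hφ2 X _ _) ?_ (α + j) (β + j) (by positivity)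
    (by linarith) _ ?_
  · refine edge_congr ?_ (transfer n hn
      (fun X e' => (fx 1 w1 φ1 X (nm e'.1) * fx 1 w2 φ2 X (nm e'.2) - mm w1 φ1 * mm w2 φ2) / 2)
      (fun X e => comb_le w1 w2 hw1 hw2 φ1 φ2 hφ1 hφ2 X _ _) ?_)
    · intro X x e he
      have h0 := er_edge he 0
      simp only [Nat.cast_zero, Int.cast_zero, zero_mul, add_zero] at h0
      simp only
      rw [h0, er_edge he n]
    · intro b W hW
      have h := (sn_lim n hn 1 one_pos w1 w2 hw1 hw2 φ1 φ2 hφ1 hφ2 b W hW).div_const 2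
      rw [zero_div] at h
      refine h.congr fun X => ?_
      unfold Sn
      rw [mul_sum, ← sum_sub_distrib, div_right_comm, sum_div]
      congr 1
      refine sum_congr rfl fun e he => ?_
      have hne := edge_ne hn (mem_filter.1 he).1
      rw [fz_one hne.1, fz_one hne.2]
      ring
  · intro X hX
    have h := dp_shift X α β hX hα j
      (fun a b c => fx 1 w1 φ1 X (er (a, b) n) * fx 1 w2 φ2 X c - mm w1 φ1 * mm w2 φ2)
    have h' : ∑ p ∈ DP X α β, (fx 1 w1 φ1 X (er p i) * fx 1 w2 φ2 X (er p j) - mm w1 φ1 * mm w2 φ2) =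
        ∑ p ∈ DP X α β, (fx 1 w1 φ1 X (er (p.1, p.2 + j * p.1) n) * fx 1 w2 φ2 X (er p j) -
          mm w1 φ1 * mm w2 φ2) := by
      refine sum_congr rfl fun p _ => ?_
      rw [er_shift0 p n j, hi]
    rw [h', h, mul_sum]
    refine sum_congr rfl fun p _ => ?_
    ring

/-- PROOF. By symmetry `j < i`, by `dp_shift` `j = 0`, `i = n ≥ 1`. `dp_lim` for `F X p = (fx 1 w1 φ1 X (er p n) * fx 1 w2 φ2 X (er p 0) - mm w1 φ1 * mm w2 φ2) / 2`: for an edge `e`, `p = (nm e.1, dot)`: `er p n = nm (e.2 + n e.1)`, `er p 0 = nm e.2`;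
the hypothesis is `transfer n` for `Φ X e' = (fx 1 w1 φ1 X (nm e'.1) * fx 1 w2 φ2 X (nm e'.2) - mm mm) / 2` and `sn_lim n 1` (`fz 1 1 n = 1` for `n ≠ 0`). -/
theorem dp_pair (i j : ℕ) (hij : i ≠ j) (w1 w2 : ℂ) (hw1 : ‖w1‖ = 1) (hw2 : ‖w2‖ = 1) (φ1 φ2 : ℝ → ℂ)
    (hφ1 : StepF φ1) (hφ2 : StepF φ2) (α β : ℝ) (hα : 0 ≤ α) (hαβ : α ≤ β) :
    Tendsto (fun X : ℝ => (∑ p ∈ DP X α β, (fx 1 w1 φ1 X (er p i) * fx 1 w2 φ2 X (er p j) -
      mm w1 φ1 * mm w2 φ2)) / X) atTop (nhds 0) := by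
  rcases lt_or_gt_of_ne hij with h | h
  · refine (dp_pair_lt j i h w2 w1 hw2 hw1 φ2 φ1 hφ2 hφ1 α β hα hαβ).congr fun X => ?_
    congr 1
    refine sum_congr rfl fun p _ => ?_
    ring
  · exact dp_pair_lt i j h w1 w2 hw1 hw2 φ1 φ2 hφ1 hφ2 α β hα hαβ

/-- PROOF. `gx (fun _ => 1) X n = 1` (`gx_const`), `⌊X⌋/X → 1`, uniqueness of limits (`mu_tendsto`). -/
theorem mm_one : mm 1 (fun _ => 1) = 1 := by
  have hs : StepF (fun _ => (1 : ℂ)) := by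
    refine ⟨fun _ => by simp, 0, Fin.elim0, Fin.elim0, Fin.elim0, fun i => i.elim0, fun t => by simp⟩
  have h := mu_tendsto (fun _ => 1) hs
  unfold mm
  rw [if_pos rfl]
  refine tendsto_nhds_unique h ?_
  have h1 : Tendsto (fun X : ℝ => (((⌊X⌋₊ : ℝ) / X : ℝ) : ℂ)) atTop (nhds ((1 : ℝ) : ℂ)) :=
    (Complex.continuous_ofReal.tendsto 1).comp (tendsto_nat_floor_div_atTop (R := ℝ))
  rw [Complex.ofReal_one] at h1
  refine h1.congr fun X => ?_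
  simp [gx_const]

end Pool.Agent.FanL
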