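import Pool.Agent.Lib_MP_f1a94e_fl.SnLimR
import Pool.Agent.Lib_MP_f1a94e_fl.PairLim

/-!
# Piece PAIR-R: two members of the progression `m, m + d, m + 2 d, ...`, with `R`
-/

set_option autoImplicit false

namespace Pool.Agent.FanL

open Finset Pool.Agent.GaussMR Pool.Agent.OmAll Pool.Agent.OmEq Pool.Agent.LPr Pool.Agent.OrbL MeasureTheory Filter

theorem comb_leR (R1 R2 : ℕ) (hR1 : 0 < R1) (hR2 : 0 < R2) (w1 w2 : ℂ) (hw1 : ‖w1‖ = 1) (hw2 : ‖w2‖ = 1)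
    (φ1 φ2 : ℝ → ℂ) (hφ1 : StepF φ1) (hφ2 : StepF φ2) (X : ℝ) (a b : ℕ) :
    ‖(fx R1 w1 φ1 X a * fx R2 w2 φ2 X b - mm w1 φ1 * mm w2 φ2 * (fz R1 1 a * fz R2 1 b)) / 2‖ ≤ 1 := by
  refine norm_comb (fx R1 w1 φ1 X a * fx R2 w2 φ2 X b) (fz R1 1 a * fz R2 1 b)
    (mm w1 φ1 * mm w2 φ2) ?_ ?_ ?_
  · rw [norm_mul]
    exact mul_le_one₀ ((fx_FX R1 hR1 w1 hw1 φ1 hφ1).bd X _) (norm_nonneg _)
      ((fx_FX R2 hR2 w2 hw2 φ2 hφ2).bd X _)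
  · rw [norm_mul]
    exact mul_le_one₀ ((fz_FX R1 hR1 1 (by simp)).bd X _) (norm_nonneg _)
      ((fz_FX R2 hR2 1 (by simp)).bd X _)
  · rw [norm_mul]
    exact mul_le_one₀ (mm_le w1 φ1 hφ1) (norm_nonneg _) (mm_le w2 φ2 hφ2)

/-- PROOF. By `dp_shift` we may assume `j = 0`, `α ≥ 0`. `dp_lim` for `F X p = (fx R w1 φ1 X p.1 * fx R w2 φ2 X (er p 0) - mm w1 φ1 * mm w2 φ2 * (fz R 1 p.1 * fz R 1 (er p 0))) / 2`: for an edge `e` and `p = (nm e.1, dot)` we have `er p 0 = nm e.2`; the hypothesis is `sx_lim R` (`Sx2`). -/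
theorem dp_edgeR (R : ℕ) (hR : 0 < R) (j : ℕ) (w1 w2 : ℂ) (hw1 : ‖w1‖ = 1) (hw2 : ‖w2‖ = 1) (φ1 φ2 : ℝ → ℂ)
    (hφ1 : StepF φ1) (hφ2 : StepF φ2) (α β : ℝ) (hα : 0 ≤ α) (hαβ : α ≤ β) :
    Tendsto (fun X : ℝ => (∑ p ∈ DP X α β, (fx R w1 φ1 X p.1 * fx R w2 φ2 X (er p j) -
      mm w1 φ1 * mm w2 φ2 * (fz R 1 p.1 * fz R 1 (er p j)))) / X) atTop (nhds 0) := by
  refine dp_two (fun X p => (fx R w1 φ1 X p.1 * fx R w2 φ2 X (er p 0) -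
      mm w1 φ1 * mm w2 φ2 * (fz R 1 p.1 * fz R 1 (er p 0))) / 2)
    (fun X p => comb_leR R R hR hR w1 w2 hw1 hw2 φ1 φ2 hφ1 hφ2 X _ _) ?_ (α + j) (β + j) (by positivity)
    (by linarith) _ ?_
  · intro b W hW
    have h := (sx_lim R hR w1 w2 hw1 hw2 φ1 φ2 hφ1 hφ2 b W hW).div_const 2
    rw [zero_div] at h
    refine h.congr fun X => ?_
    unfold Sx2
    rw [mul_sum, ← sum_sub_distrib, div_right_comm, sum_div]
    congr 1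
    refine sum_congr rfl fun e he => ?_
    have h0 := er_edge he 0
    simp only [Nat.cast_zero, Int.cast_zero, zero_mul, add_zero] at h0
    show _ = (fx R w1 φ1 X (nm e.1) * fx R w2 φ2 X (er (nm e.1, (dot e.1 e.2).toNat) 0) -
      mm w1 φ1 * mm w2 φ2 * (fz R 1 (nm e.1) * fz R 1 (er (nm e.1, (dot e.1 e.2).toNat) 0))) / 2 *
        W (mE e / X) (tE e)
    rw [h0]
    ring
  · intro X hX
    have h := dp_shift X α β hX hα j (fun a _ c => fx R w1 φ1 X a * fx R w2 φ2 X c -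
      mm w1 φ1 * mm w2 φ2 * (fz R 1 a * fz R 1 c))
    rw [h, mul_sum]
    refine sum_congr rfl fun p _ => ?_
    ring

theorem dp_pair_ltR (R1 R2 : ℕ) (hR1 : 0 < R1) (hR2 : 0 < R2) (i j : ℕ) (hij : j < i) (w1 w2 : ℂ)
    (hw1 : ‖w1‖ = 1) (hw2 : ‖w2‖ = 1) (φ1 φ2 : ℝ → ℂ)
    (hφ1 : StepF φ1) (hφ2 : StepF φ2) (α β : ℝ) (hα : 0 ≤ α) (hαβ : α ≤ β) :
    Tendsto (fun X : ℝ => (∑ p ∈ DP X α β, (fx R1 w1 φ1 X (er p i) * fx R2 w2 φ2 X (er p j) -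
      mm w1 φ1 * mm w2 φ2 * (fz R1 1 (er p i) * fz R2 1 (er p j)))) / X) atTop (nhds 0) := by
  classical
  obtain ⟨n, hn0⟩ : ∃ n, n = i - j := ⟨_, rfl⟩
  have hn : 1 ≤ n := by omega
  have hi : n + j = i := by omega
  refine dp_two (fun X p => (fx R1 w1 φ1 X (er p n) * fx R2 w2 φ2 X (er p 0) -
      mm w1 φ1 * mm w2 φ2 * (fz R1 1 (er p n) * fz R2 1 (er p 0))) / 2)
    (fun X p => comb_leR R1 R2 hR1 hR2 w1 w2 hw1 hw2 φ1 φ2 hφ1 hφ2 X _ _) ?_ (α + j) (β + j)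
    (by positivity) (by linarith) _ ?_
  · refine edge_congr ?_ (transfer n hn
      (fun X e' => (fx R1 w1 φ1 X (nm e'.1) * fx R2 w2 φ2 X (nm e'.2) -
        mm w1 φ1 * mm w2 φ2 * (fz R1 1 (nm e'.1) * fz R2 1 (nm e'.2))) / 2)
      (fun X e => comb_leR R1 R2 hR1 hR2 w1 w2 hw1 hw2 φ1 φ2 hφ1 hφ2 X _ _) ?_)
    · intro X x e he
      have h0 := er_edge he 0
      simp only [Nat.cast_zero, Int.cast_zero, zero_mul, add_zero] at h0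
      simp only
      rw [h0, er_edge he n]
    · intro b W hW
      have h := (sn_limR n hn R1 R2 hR1 hR2 w1 w2 hw1 hw2 φ1 φ2 hφ1 hφ2 b W hW).div_const 2
      rw [zero_div] at h
      refine h.congr fun X => ?_
      unfold Sn
      rw [mul_sum, ← sum_sub_distrib, div_right_comm, sum_div]
      congr 1
      refine sum_congr rfl fun e he => ?_
      ring
  · intro X hX
    have h := dp_shift X α β hX hα j
      (fun a b c => fx R1 w1 φ1 X (er (a, b) n) * fx R2 w2 φ2 X c -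
        mm w1 φ1 * mm w2 φ2 * (fz R1 1 (er (a, b) n) * fz R2 1 c))
    have h' : ∑ p ∈ DP X α β, (fx R1 w1 φ1 X (er p i) * fx R2 w2 φ2 X (er p j) -
          mm w1 φ1 * mm w2 φ2 * (fz R1 1 (er p i) * fz R2 1 (er p j))) =
        ∑ p ∈ DP X α β, (fx R1 w1 φ1 X (er (p.1, p.2 + j * p.1) n) * fx R2 w2 φ2 X (er p j) -
          mm w1 φ1 * mm w2 φ2 * (fz R1 1 (er (p.1, p.2 + j * p.1) n) * fz R2 1 (er p j))) := by
      refine sum_congr rfl fun p _ => ?_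
      rw [er_shift0 p n j, hi]
    rw [h', h, mul_sum]
    refine sum_congr rfl fun p _ => ?_
    ring

/-- PROOF. By symmetry `j < i`, by `dp_shift`, `er_shift` `j = 0`, `i = n ≥ 1`. `dp_lim` for `F X p = (fx R1 w1 φ1 X (er p n) * fx R2 w2 φ2 X (er p 0) - mm w1 φ1 * mm w2 φ2 * (fz R1 1 (er p n) * fz R2 1 (er p 0))) / 2`: for an edge `e`, `p = (nm e.1, dot)`: `er p n = nm (e.2 + n e.1)`, `er p 0 = nm e.2`;
the hypothesis is `transfer n` for `Φ X e' = (fx R1 w1 φ1 X (nm e'.1) * fx R2 w2 φ2 X (nm e'.2) - mm mm (fz R1 1 (nm e'.1) * fz R2 1 (nm e'.2))) / 2` and `sn_limR n R1 R2`. -/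
theorem dp_pairR (R1 R2 : ℕ) (hR1 : 0 < R1) (hR2 : 0 < R2) (i j : ℕ) (hij : i ≠ j) (w1 w2 : ℂ) (hw1 : ‖w1‖ = 1)
    (hw2 : ‖w2‖ = 1) (φ1 φ2 : ℝ → ℂ) (hφ1 : StepF φ1) (hφ2 : StepF φ2) (α β : ℝ) (hα : 0 ≤ α) (hαβ : α ≤ β) :
    Tendsto (fun X : ℝ => (∑ p ∈ DP X α β, (fx R1 w1 φ1 X (er p i) * fx R2 w2 φ2 X (er p j) -
      mm w1 φ1 * mm w2 φ2 * (fz R1 1 (er p i) * fz R2 1 (er p j)))) / X) atTop (nhds 0) := by
  rcases lt_or_gt_of_ne hij with h | h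
  · refine (dp_pair_ltR R2 R1 hR2 hR1 j i h w2 w1 hw2 hw1 φ2 φ1 hφ2 hφ1 α β hα hαβ).congr fun X => ?_
    congr 1
    refine sum_congr rfl fun p _ => ?_
    ring
  · exact dp_pair_ltR R1 R2 hR1 hR2 i j h w1 w2 hw1 hw2 φ1 φ2 hφ1 hφ2 α β hα hαβ

end Pool.Agent.FanL
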