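import Pool.Agent.Lib_MP_f1a94e_fl.ApxNm
import Pool.Agent.Lib_MP_f1a94e_fl.GrC

/-!
# Piece REDB: the correlations of determinant `4 n ^ 2 k` are small on average
-/

set_option autoImplicit false

namespace Pool.Agent.FanL

open Finset Pool.Agent.GaussMR Pool.Agent.OmAll Pool.Agent.OmEq Pool.Agent.LPr Pool.Agent.OrbL MeasureTheory Filter

/-- the correlations against the class `(1 + 4 n k)⁻¹` -/
private theorem gn_cc (n : ℕ) (hn : 1 ≤ n) (f : ℝ → ℕ → ℂ) (hf : ∀ X n, ‖f X n‖ ≤ 1) (h : ℝ → ℝ) (h1 h2 : ℝ)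
    (hh : HF h h1 h2) (J N k : ℕ) (hJ : 1 ≤ J) (hN : 1 ≤ N) (hk : 1 ≤ k) (b : ℝ) (hb : 0 < b) :
    Tendsto (fun X : ℝ => (Gn n (f X) h J N k (b * X) X -
      Cc (4 * n ^ 2 * k) ((((1 + 4 * n * k : ℕ) : ZMod (4 * n ^ 2 * k)))⁻¹) (f X) (f X) (b * X)
        (WN h J N (4 * n * k)) X) / X) atTop (nhds 0) := by
  classical
  have hm : 1 ≤ 4 * n ^ 2 * k := Nat.one_le_iff_ne_zero.mpr (by positivity)
  have hν : 1 ≤ 4 * n * k := Nat.one_le_iff_ne_zero.mpr (by positivity)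
  have : NeZero (4 * n ^ 2 * k) := ⟨by omega⟩
  refine squeeze_zero_norm' ?_ (apxNm h h1 h2 hh J N (4 * n ^ 2 * k) (4 * n * k) hJ hN hm hν b hb)
  filter_upwards [eventually_gt_atTop (0 : ℝ)] with X hX
  rw [norm_div, Complex.norm_real, Real.norm_eq_abs, abs_of_pos hX]
  refine div_le_div_of_nonneg_right ?_ hX.le
  have hfil : (EN (4 * n ^ 2 * k) (b * X)).filter
      (fun e => cg (4 * n ^ 2 * k) e.1 ((((1 + 4 * n * k : ℕ) : ℤ) : G) * e.2)) =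
      (EN (4 * n ^ 2 * k) (b * X)).filter
        (fun e => cl (4 * n ^ 2 * k) e = ((((1 + 4 * n * k : ℕ) : ZMod (4 * n ^ 2 * k)))⁻¹)) := by
    refine filter_congr fun e he => ?_
    exact cg_cl (4 * n ^ 2 * k) (1 + 4 * n * k) (unit_c n k hn hk).1 ((mem_EN (by omega)).mp he).1
  unfold Gn Cc
  rw [hfil, ← sum_sub_distrib]
  refine (norm_sum_le _ _).trans ?_
  refine (sum_le_sum (g := fun e => ‖((wN h J N (4 * n * k) X e : ℝ) : ℂ) -
    WN h J N (4 * n * k) (mE e / X) (tE e)‖) fun e _ => ?_).trans ?_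
  · rw [← mul_sub, norm_mul, norm_mul, RCLike.norm_conj]
    have h4 : ‖f X (nm e.1)‖ * ‖f X (nm e.2)‖ ≤ 1 :=
      mul_le_one₀ (hf X (nm e.1)) (norm_nonneg _) (hf X (nm e.2))
    calc ‖f X (nm e.1)‖ * ‖f X (nm e.2)‖ * _ ≤ 1 * _ := mul_le_mul_of_nonneg_right h4 (norm_nonneg _)
      _ ≤ _ := by rw [one_mul]
  · exact sum_le_sum_of_subset_of_nonneg (filter_subset _ _) fun e _ _ => norm_nonneg _

/-- one determinant: the limit statement -/
private theorem gn_one (n : ℕ) (hn : 1 ≤ n) (f : ℝ → ℕ → ℂ) (hf : ∀ X n, ‖f X n‖ ≤ 1) (hG : GCX f) (hT : TVX f)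
    (a : ℝ) (ha : 0 < a) (h' : ℝ → ℝ) (h1 h2 : ℝ) (hh : HF h' h1 h2) (J N k : ℕ) (hJ : 1 ≤ J) (hN : 1 ≤ N)
    (hk : 1 ≤ k) (b : ℝ) (hb : ((J : ℝ) + N) ^ 2 * h2 ≤ b) (hb0 : 0 < b) :
    Tendsto (fun X : ℝ => (Gn n (f (a * X)) h' J N k (b * X) X -
      ((kap (4 * n ^ 2 * k) / (4 * n ^ 2 * k).totient : ℝ) : ℂ) *
      Qs (f (a * X)) (4 * n ^ 2 * k) (b * X)
        (fun y t => (∫ s, WN h' J N (4 * n * k) y s) * ((ps0 t : ℝ) : ℂ)) X) / X) atTop (nhds 0) := by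
  have hm : 0 < 4 * n ^ 2 * k := by positivity
  have hν : 1 ≤ 4 * n * k := Nat.one_le_iff_ne_zero.mpr (by positivity)
  have hTF := WN_tf h' h1 h2 hh J N (4 * n * k) hJ hN hν b hb
  have e1 := gn_cc n hn (fun X => f (a * X)) (fun X n => hf (a * X) n) h' h1 h2 hh J N k hJ hN hk b hb0
  have e2 := hG (4 * n ^ 2 * k) hm _ (unit_c n k hn hk).2.1 (unit_c n k hn hk).2.2 b (WN h' J N (4 * n * k)) hTF a ha
  have e3 := (hT (4 * n ^ 2 * k) hm b _ (redb_tf hTF) (redb_zero hTF) a ha).const_mul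
    ((kap (4 * n ^ 2 * k) / (4 * n ^ 2 * k).totient : ℝ) : ℂ)
  rw [mul_zero] at e3
  have e4 := (e1.add e2).add e3
  rw [add_zero, add_zero] at e4
  refine e4.congr (fun X => ?_)
  have e5 : Qs (f (a * X)) (4 * n ^ 2 * k) (b * X) (fun y t => WN h' J N (4 * n * k) y t -
        (∫ s, WN h' J N (4 * n * k) y s) * ((ps0 t : ℝ) : ℂ)) X =
      Qs (f (a * X)) (4 * n ^ 2 * k) (b * X) (WN h' J N (4 * n * k)) X -
        Qs (f (a * X)) (4 * n ^ 2 * k) (b * X)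
          (fun y t => (∫ s, WN h' J N (4 * n * k) y s) * ((ps0 t : ℝ) : ℂ)) X := by
    unfold Qs
    rw [← Finset.sum_sub_distrib]
    refine Finset.sum_congr rfl (fun e _ => ?_)
    ring
  rw [e5]
  ring

/-- the multiples of `4 n ^ 2` up to `n N` -/
private theorem redb_bij (n N : ℕ) (hn : 1 ≤ n) (g : ℕ → ℂ) :
    ∑ k ∈ (Icc 1 N).filter (fun k => 4 * n * k ≤ N), g (4 * n ^ 2 * k) =
      ∑ m ∈ (Icc 1 (n * N)).filter (fun m => 4 * n ^ 2 ∣ m), g m := by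
  refine sum_nbij' (fun k => 4 * n ^ 2 * k) (fun m => m / (4 * n ^ 2)) ?_ ?_ ?_ ?_ ?_
  · intro k hk
    rw [mem_filter, mem_Icc] at hk
    rw [mem_filter, mem_Icc]
    refine ⟨⟨Nat.one_le_iff_ne_zero.mpr ?_, ?_⟩, Dvd.intro _ rfl⟩
    · have := hk.1.1
      positivity
    · calc 4 * n ^ 2 * k = n * (4 * n * k) := by ring
        _ ≤ n * N := Nat.mul_le_mul_left _ hk.2
  · intro m hm
    rw [mem_filter, mem_Icc] at hm
    obtain ⟨⟨h1, h2⟩, k, rfl⟩ := hm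
    have hk : 1 ≤ k := by
      rcases Nat.eq_zero_or_pos k with h | h
      · rw [h, mul_zero] at h1
        omega
      · exact h
    have hn2 : 0 < 4 * n ^ 2 := by positivity
    rw [Nat.mul_div_cancel_left _ hn2, mem_filter, mem_Icc]
    have h3 : 4 * n * k ≤ N := by
      have h4 : n * (4 * n * k) ≤ n * N := by
        calc n * (4 * n * k) = 4 * n ^ 2 * k := by ring
          _ ≤ n * N := h2
      exact Nat.le_of_mul_le_mul_left h4 hn
    refine ⟨⟨hk, ?_⟩, h3⟩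
    have h5 : k ≤ 4 * n * k := Nat.le_mul_of_pos_left _ (by positivity)
    omega
  · intro k _
    exact Nat.mul_div_cancel_left _ (by positivity)
  · intro m hm
    rw [mem_filter] at hm
    exact Nat.mul_div_cancel' hm.2
  · intro k _
    rfl

/-- PROOF. As `redB_X` (m: grep `theorem redB_X`, with `gm_cg`, `gmx_one` before it). Put `m = 4 n^2 k`, `ν = 4 n k` (`m = n ν`), `c_k = ((1 + 4 n k : ℕ) : ZMod m)⁻¹` (`unit_c`, `NeZero m`). `N0` from `hQ` with `D = 4 n^2` and `ε/4` (used at `n N ≥ N ≥ N0`),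
`J0` from `cnB h h1 h2 hh N _ η`. For `k` with `N ≤ ν`: `Gn = 0` (`wN_zero`). For `ν < N`:
(i) `apxNm` (step `ν`, determinant `m`), `‖f‖ ≤ 1`: `Gn n f h J N k (b X) X = ∑_(e ∈ EN m (b X), cg ..) f conj f WN h J N ν + o(X)`; by `cg_cl` the set is `cl m e = c_k`: this is `Cc m c_k f f (b X) (WN h J N ν) X`;
(ii) `GCX` (test function `WN_tf .. ν`): `= (kap m / φ(m)) Qs f m (b X) (WN h J N ν) X + o(X)`; (iii) `TVX` for `WN - (∫ WN) ps0` (`redb_tf`, `redb_zero`);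
(iv) `cnB` with `ν ≤ N` in place of `n`, `redb_cmp` (determinant `m`, `m ≤ b X` eventually): replace `∫ WN h J N ν y` by `2 ν N/J^2 h(y/J^2)^2 ww(ν/N)`; (v) `redb_scale` (determinant `m`), `Y = J^2 X`, family index `a / J^2`.
Main term: `∑_k (kap m/φ(m)) (2 ν N/J^2) ww(ν/N) q(m) = (2 N/J^2) (1/n) ∑_(m' ∈ Icc 1 (n N), 4 n^2 ∣ m') kap m' (m'/φ(m')) ww(m'/(n N)) q(m')` (bijection `k ↦ 4 n^2 k`; terms with `4 n k ≥ N`: `ww (ν/N) = 0` for `ν ≥ N` (`ww_props` or directly), or compare only `4 n k ≤ N`),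
at most `(2 N/J^2) (1/n) (ε/4) (n N) Y = (ε/2) N^2 X`. Errors as in `redB_X` (at most `N` values of `k`). -/
theorem redBn (n : ℕ) (hn : 1 ≤ n) (f : ℝ → ℕ → ℂ) (hf : ∀ X n, ‖f X n‖ ≤ 1) (hG : GCX f) (hT : TVX f)
    (hQ : QSmallD f) : GnSmall n f := by
  classical
  intro h' h1 h2 hh ε hε
  have h2one : (1 : ℝ) ≤ h2 := hh.one
  have h2pos : 0 < h2 := by linarith
  have hnr0 : (1 : ℝ) ≤ n := by exact_mod_cast hn
  have hnpos : (0 : ℝ) < n := by linarith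
  have hD : 1 ≤ 4 * n ^ 2 := Nat.one_le_iff_ne_zero.mpr (by positivity)
  obtain ⟨C, hC, hcnt⟩ := cnt 1
  obtain ⟨N0, hN0⟩ := hQ (4 * n ^ 2) hD h' h1 h2 hh (ε / 4) (by positivity)
  refine ⟨max N0 1, fun N hN => ?_⟩
  have hN1 : 1 ≤ N := le_trans (le_max_right _ _) hN
  have hNN0 : N0 ≤ n * N := (le_trans (le_max_left _ _) hN).trans (Nat.le_mul_of_pos_left _ hn)
  have hNr : (1 : ℝ) ≤ N := by exact_mod_cast hN1
  have hNpos : (0 : ℝ) < N := by linarith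
  set η : ℝ := ε / (40 * C * h2 * N) with hη
  have hηpos : 0 < η := by positivity
  obtain ⟨J0, hJ01, hcn⟩ := cnB h' h1 h2 hh N hN1 η hηpos
  refine ⟨max J0 N, fun J hJ a ha => ?_⟩
  have hJ0 : J0 ≤ J := le_trans (le_max_left _ _) hJ
  have hJN : N ≤ J := le_trans (le_max_right _ _) hJ
  have hJ1 : 1 ≤ J := le_trans hN1 hJN
  have hJNr : (N : ℝ) ≤ J := by exact_mod_cast hJN
  have hJr : (1 : ℝ) ≤ J := by linarith
  have hJpos : (0 : ℝ) < J := by linarith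
  set b : ℝ := ((J : ℝ) + N) ^ 2 * h2 + 1 with hb
  have hbpos : 0 < b := by positivity
  have hb1 : 1 ≤ b := by
    have : 0 ≤ ((J : ℝ) + N) ^ 2 * h2 := by positivity
    linarith
  have hb5 : b ≤ 5 * (J : ℝ) ^ 2 * h2 := by
    have e1 : ((J : ℝ) + N) ^ 2 ≤ 4 * (J : ℝ) ^ 2 := by nlinarith
    have e2 : (1 : ℝ) ≤ (J : ℝ) ^ 2 * h2 := by nlinarith
    nlinarith
  have hbJ : (J : ℝ) ^ 2 * h2 ≤ b := by
    have e1 : (J : ℝ) ^ 2 ≤ ((J : ℝ) + N) ^ 2 := by nlinarith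
    nlinarith
  obtain ⟨K, hK⟩ : ∃ K : Finset ℕ, K = (Icc 1 N).filter (fun k => 4 * n * k ≤ N) := ⟨_, rfl⟩
  have hK1 : ∀ k ∈ K, 1 ≤ k := by
    intro k hk
    rw [hK] at hk
    exact (mem_Icc.mp (mem_filter.mp hk).1).1
  have hK2 : ∀ k ∈ K, 4 * n * k ≤ N := by
    intro k hk
    rw [hK] at hk
    exact (mem_filter.mp hk).2
  have hKc : ((K.card : ℕ) : ℝ) ≤ N := by
    have : K.card ≤ N := by
      rw [hK]
      refine (card_filter_le _ _).trans ?_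
      rw [Nat.card_Icc, Nat.add_sub_cancel]
    exact_mod_cast this
  -- the limit part
  have hlim : Tendsto (fun X : ℝ => ∑ k ∈ K, (Gn n (f (a * X)) h' J N k (b * X) X -
      ((kap (4 * n ^ 2 * k) / (4 * n ^ 2 * k).totient : ℝ) : ℂ) *
      Qs (f (a * X)) (4 * n ^ 2 * k) (b * X)
        (fun y t => (∫ s, WN h' J N (4 * n * k) y s) * ((ps0 t : ℝ) : ℂ)) X) / X)
      atTop (nhds 0) := by
    have := tendsto_finsetSum K (fun k hk => gn_one n hn f hf hG hT a ha h' h1 h2 hh J N k hJ1 hN1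
      (hK1 k hk) b (by linarith) hbpos)
    rw [Finset.sum_const_zero] at this
    exact this
  have hev := (Metric.tendsto_nhds.mp hlim) (ε / 4) (by positivity)
  have hQev := (tendsto_id.const_mul_atTop (r := (J : ℝ) ^ 2) (by positivity)).eventually
    (hN0 (n * N) hNN0 (a / (J : ℝ) ^ 2) (by positivity))
  filter_upwards [hev, hQev, eventually_gt_atTop (0 : ℝ), eventually_ge_atTop ((n : ℝ) * N)] with X hX hXQ hX0 hXN
  rw [dist_zero_right, ← Finset.sum_div, norm_div, Complex.norm_real, Real.norm_eq_abs, abs_of_pos hX0,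
    div_lt_iff₀ hX0] at hX
  have hfa : a / (J : ℝ) ^ 2 * ((J : ℝ) ^ 2 * X) = a * X := by
    field_simp
  simp only [id] at hXQ
  rw [hfa] at hXQ
  set Y : ℝ := (J : ℝ) ^ 2 * X with hY
  obtain ⟨F, hF⟩ : ∃ F : ℕ → ℂ, F = f (a * X) := ⟨_, rfl⟩
  have hFb : ∀ n, ‖F n‖ ≤ 1 := by
    intro n
    rw [hF]
    exact hf (a * X) n
  rw [← hF] at hX hXQ ⊢
  -- notation
  set q : ℕ → ℂ := fun m => Qs F m (h2 * Y) (fun y t => ((h' y ^ 2 * ps0 t : ℝ) : ℂ)) Y with hq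
  set c : ℕ → ℂ := fun k => Qs F (4 * n ^ 2 * k) (b * X)
    (fun y t => (∫ s, WN h' J N (4 * n * k) y s) * ((ps0 t : ℝ) : ℂ)) X with hc
  set d : ℕ → ℂ := fun k => Qs F (4 * n ^ 2 * k) (b * X) (fun y t =>
    (((2 * (4 * n * k : ℕ) * N / (J : ℝ) ^ 2 * h' (y / (J : ℝ) ^ 2) ^ 2 * ww (((4 * n * k : ℕ) : ℝ) / N) : ℝ)) : ℂ) *
      ((ps0 t : ℝ) : ℂ)) X with hd
  have hdq : ∀ k ∈ K, d k = ((2 * (4 * n * k : ℕ) * N / (J : ℝ) ^ 2 * ww (((4 * n * k : ℕ) : ℝ) / N) : ℝ) : ℂ) *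
      q (4 * n ^ 2 * k) := by
    intro k hk
    have hk1 := hK1 k hk
    have e1 := redb_scale F h' h1 h2 hh (4 * n ^ 2 * k) (by positivity)
      (2 * (4 * n * k : ℕ) * N / (J : ℝ) ^ 2 * ww (((4 * n * k : ℕ) : ℝ) / N)) b X J hJ1 hX0 hbJ
    rw [hq]
    simp only
    rw [hY, ← e1, hd]
    simp only
    congr 1
    funext y t
    congr 2
    ring
  have hcd : ∀ k ∈ K, ‖c k - d k‖ ≤ 5 * η * N * N * C * h2 * X := by
    intro k hk
    have hk1 := hK1 k hk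
    have hk2 := hK2 k hk
    have hkr : (1 : ℝ) ≤ k := by exact_mod_cast hk1
    have hν1 : 1 ≤ 4 * n * k := Nat.one_le_iff_ne_zero.mpr (by positivity)
    have hνN : ((4 * n * k : ℕ) : ℝ) ≤ N := by exact_mod_cast hk2
    have hbX : ((4 * n ^ 2 * k : ℕ) : ℝ) ≤ b * X := by
      have e2 : ((4 * n ^ 2 * k : ℕ) : ℝ) ≤ (n : ℝ) * N := by
        have e3 : 4 * n ^ 2 * k ≤ n * N := by
          calc 4 * n ^ 2 * k = n * (4 * n * k) := by ring
            _ ≤ n * N := Nat.mul_le_mul_left _ hk2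
        exact_mod_cast e3
      have e4 : X ≤ b * X := by nlinarith
      linarith
    have e1 := redb_cmp F hFb C hcnt (4 * n ^ 2 * k) (by positivity) (fun y => ∫ s, WN h' J N (4 * n * k) y s)
      (fun y => (((2 * (4 * n * k : ℕ) * N / (J : ℝ) ^ 2 * h' (y / (J : ℝ) ^ 2) ^ 2 *
        ww (((4 * n * k : ℕ) : ℝ) / N) : ℝ)) : ℂ))
      (η * ((4 * n * k : ℕ) * N / (J : ℝ) ^ 2)) (by positivity)
      (fun y => hcn J hJ0 (4 * n * k) hν1 hk2 y) (b * X) X hbX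
    refine e1.trans ?_
    calc η * ((4 * n * k : ℕ) * N / (J : ℝ) ^ 2) * (C * (b * X)) ≤
          η * (N * N / (J : ℝ) ^ 2) * (C * ((5 * (J : ℝ) ^ 2 * h2) * X)) := by
          gcongr
      _ = 5 * η * N * N * C * h2 * X := by
          field_simp
  have hzero : ∑ k ∈ Icc 1 N, Gn n F h' J N k (b * X) X = ∑ k ∈ K, Gn n F h' J N k (b * X) X := by
    rw [hK]
    refine (sum_filter_of_ne ?_).symm
    intro k _ hne
    by_contra hc2
    push Not at hc2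
    apply hne
    unfold Gn
    refine sum_eq_zero fun e _ => ?_
    rw [wN_zero h' J N (4 * n * k) hJ1 hN1 hc2.le X e, Complex.ofReal_zero, mul_zero]
  -- the decomposition
  have hdec : ∑ k ∈ K, Gn n F h' J N k (b * X) X =
      ∑ k ∈ K, (Gn n F h' J N k (b * X) X - ((kap (4 * n ^ 2 * k) / (4 * n ^ 2 * k).totient : ℝ) : ℂ) * c k) +
      ∑ k ∈ K, ((kap (4 * n ^ 2 * k) / (4 * n ^ 2 * k).totient : ℝ) : ℂ) * (c k - d k) +
      ((2 * N / ((J : ℝ) ^ 2 * n) : ℝ) : ℂ) *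
        ∑ k ∈ K, ((kap (4 * n ^ 2 * k) * ((4 * n ^ 2 * k : ℕ) / (4 * n ^ 2 * k).totient) *
          ww (((4 * n ^ 2 * k : ℕ) : ℝ) / ((n * N : ℕ) : ℝ)) : ℝ) : ℂ) * q (4 * n ^ 2 * k) := by
    rw [Finset.mul_sum, ← Finset.sum_add_distrib, ← Finset.sum_add_distrib]
    refine Finset.sum_congr rfl (fun k hk => ?_)
    rw [hdq k hk]
    have e1 : ((4 * n ^ 2 * k : ℕ) : ℝ) / ((n * N : ℕ) : ℝ) = ((4 * n * k : ℕ) : ℝ) / N := by
      push_cast
      field_simp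
    rw [e1]
    have e2 : ((4 * n ^ 2 * k : ℕ) : ℝ) = n * ((4 * n * k : ℕ) : ℝ) := by
      push_cast
      ring
    have e3 : ((2 * N / ((J : ℝ) ^ 2 * n) : ℝ) : ℂ) *
        (((kap (4 * n ^ 2 * k) * ((4 * n ^ 2 * k : ℕ) / (4 * n ^ 2 * k).totient) *
          ww (((4 * n * k : ℕ) : ℝ) / N) : ℝ) : ℂ) * q (4 * n ^ 2 * k)) =
        ((kap (4 * n ^ 2 * k) / (4 * n ^ 2 * k).totient : ℝ) : ℂ) *
          (((2 * (4 * n * k : ℕ) * N / (J : ℝ) ^ 2 * ww (((4 * n * k : ℕ) : ℝ) / N) : ℝ) : ℂ) *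
            q (4 * n ^ 2 * k)) := by
      rw [← mul_assoc, ← mul_assoc, ← Complex.ofReal_mul, ← Complex.ofReal_mul]
      congr 2
      rw [e2]
      field_simp
    rw [e3]
    ring
  have hbij := redb_bij n N hn (fun m => ((kap m * (m / m.totient) *
    ww ((m : ℝ) / ((n * N : ℕ) : ℝ)) : ℝ) : ℂ) * q m)
  rw [← hK] at hbij
  rw [hbij] at hdec
  have hp1 : ‖∑ k ∈ K, (Gn n F h' J N k (b * X) X -
      ((kap (4 * n ^ 2 * k) / (4 * n ^ 2 * k).totient : ℝ) : ℂ) * c k)‖ ≤ ε / 4 * N ^ 2 * X := by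
    refine hX.le.trans ?_
    have : (1 : ℝ) ≤ (N : ℝ) ^ 2 := one_le_pow₀ hNr
    have h3 : ε / 4 * X * 1 ≤ ε / 4 * X * (N : ℝ) ^ 2 := mul_le_mul_of_nonneg_left this (by positivity)
    linarith
  have hp2 : ‖∑ k ∈ K, ((kap (4 * n ^ 2 * k) / (4 * n ^ 2 * k).totient : ℝ) : ℂ) * (c k - d k)‖ ≤
      ε / 4 * N ^ 2 * X := by
    calc ‖∑ k ∈ K, ((kap (4 * n ^ 2 * k) / (4 * n ^ 2 * k).totient : ℝ) : ℂ) * (c k - d k)‖
        ≤ ∑ k ∈ K, (2 * (5 * η * N * N * C * h2 * X)) := by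
          refine norm_sum_le_of_le _ (fun k hk => ?_)
          have hk1 := hK1 k hk
          have hφ : (1 : ℝ) ≤ (4 * n ^ 2 * k).totient := by
            exact_mod_cast Nat.totient_pos.mpr (by positivity)
          have k1 : 0 ≤ kap (4 * n ^ 2 * k) ∧ kap (4 * n ^ 2 * k) ≤ 2 := by
            unfold kap
            split_ifs <;> norm_num
          have k2 : kap (4 * n ^ 2 * k) / (4 * n ^ 2 * k).totient ≤ 2 := by
            rw [div_le_iff₀ (by linarith)]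
            nlinarith
          rw [norm_mul, Complex.norm_real, Real.norm_eq_abs, abs_of_nonneg (div_nonneg k1.1 (by linarith))]
          exact mul_le_mul k2 (hcd k hk) (norm_nonneg _) (by norm_num)
      _ = K.card * (2 * (5 * η * N * N * C * h2 * X)) := by
          rw [Finset.sum_const, nsmul_eq_mul]
      _ ≤ N * (2 * (5 * η * N * N * C * h2 * X)) := by
          refine mul_le_mul_of_nonneg_right hKc (by positivity)
      _ = ε / 4 * N ^ 2 * X := by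
          rw [hη]
          field_simp
          ring
  have hp3 : ‖((2 * N / ((J : ℝ) ^ 2 * n) : ℝ) : ℂ) *
        ∑ m ∈ (Icc 1 (n * N)).filter (fun m => 4 * n ^ 2 ∣ m), ((kap m * (m / m.totient) *
          ww ((m : ℝ) / ((n * N : ℕ) : ℝ)) : ℝ) : ℂ) * q m‖ ≤ ε / 2 * N ^ 2 * X := by
    rw [norm_mul, Complex.norm_real, Real.norm_eq_abs, abs_of_nonneg (by positivity)]
    calc (2 * N / ((J : ℝ) ^ 2 * n)) * ‖∑ m ∈ (Icc 1 (n * N)).filter (fun m => 4 * n ^ 2 ∣ m),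
            ((kap m * (m / m.totient) * ww ((m : ℝ) / ((n * N : ℕ) : ℝ)) : ℝ) : ℂ) * q m‖
        ≤ (2 * N / ((J : ℝ) ^ 2 * n)) * (ε / 4 * (n * N : ℕ) * Y) := mul_le_mul_of_nonneg_left hXQ (by positivity)
      _ = ε / 2 * N ^ 2 * X := by
          rw [hY]
          push_cast
          field_simp
          ring
  rw [hzero, hdec]
  refine (norm_add_le _ _).trans ?_
  have := norm_add_le (∑ k ∈ K, (Gn n F h' J N k (b * X) X -
      ((kap (4 * n ^ 2 * k) / (4 * n ^ 2 * k).totient : ℝ) : ℂ) * c k))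
    (∑ k ∈ K, ((kap (4 * n ^ 2 * k) / (4 * n ^ 2 * k).totient : ℝ) : ℂ) * (c k - d k))
  linarith

/-- PROOF. As `gmA_X` (m: grep `theorem gmA_X`): `N0 = J0 = 1`; (i) above and `GCA` for every `k ∈ Icc 1 N` (`WN_tf` with step `4 n k`); finite sum. -/
theorem gnA (n : ℕ) (hn : 1 ≤ n) (f : ℝ → ℕ → ℂ) (hf : ∀ X n, ‖f X n‖ ≤ 1) (hG : GCA f) : GnSmall n f := by
  classical
  intro h' h1 h2 hh ε hε
  refine ⟨1, fun N hN => ⟨1, fun J hJ a ha => ?_⟩⟩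
  set b : ℝ := ((J : ℝ) + N) ^ 2 * h2 + 1 with hb
  have h2one : (1 : ℝ) ≤ h2 := hh.one
  have hb0 : 0 < b := by
    have : 0 ≤ ((J : ℝ) + N) ^ 2 * h2 := by positivity
    linarith
  have hlim : ∀ k ∈ Icc 1 N, Tendsto (fun X : ℝ => Gn n (f (a * X)) h' J N k (b * X) X / X) atTop (nhds 0) := by
    intro k hk
    have hk1 : 1 ≤ k := (mem_Icc.mp hk).1
    have hν : 1 ≤ 4 * n * k := Nat.one_le_iff_ne_zero.mpr (by positivity)
    have e1 := gn_cc n hn (fun X => f (a * X)) (fun X n => hf (a * X) n) h' h1 h2 hh J N k hJ hN hk1 b hb0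
    have e2 := hG (4 * n ^ 2 * k) (by positivity) ((((1 + 4 * n * k : ℕ) : ZMod (4 * n ^ 2 * k)))⁻¹) b
      (WN h' J N (4 * n * k)) (WN_tf h' h1 h2 hh J N (4 * n * k) hJ hN hν b (by linarith)) a ha
    have e3 := e1.add e2
    rw [add_zero] at e3
    refine e3.congr (fun X => ?_)
    ring
  have hsum := tendsto_finsetSum (Icc 1 N) hlim
  rw [Finset.sum_const_zero] at hsum
  have hev := (Metric.tendsto_nhds.mp hsum) ε hε
  filter_upwards [hev, eventually_gt_atTop (0 : ℝ)] with X hX hX0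
  rw [dist_zero_right, ← Finset.sum_div, norm_div, Complex.norm_real, Real.norm_eq_abs, abs_of_pos hX0,
    div_lt_iff₀ hX0] at hX
  have hN1 : (1 : ℝ) ≤ N := by exact_mod_cast hN
  have hN2 : (1 : ℝ) ≤ (N : ℝ) ^ 2 := one_le_pow₀ hN1
  calc ‖∑ k ∈ Icc 1 N, Gn n (f (a * X)) h' J N k (b * X) X‖ ≤ ε * X := hX.le
    _ ≤ ε * N ^ 2 * X := by
      have : ε * 1 * X ≤ ε * (N : ℝ) ^ 2 * X := by gcongr
      linarith

end Pool.Agent.FanL
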