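import Pool.Agent.Lib_MP_f1a94e_fl.Defs

/-!
# Piece SHARP: sharp conditions `|V|^2 ≤ X`, `α |V|^2 ≤ V . V' < β |V|^2`
-/

set_option autoImplicit false

namespace Pool.Agent.FanL

open Finset Pool.Agent.GaussMR Pool.Agent.OmAll Pool.Agent.OmEq Pool.Agent.LPr Pool.Agent.OrbL MeasureTheory Filter

theorem shp_eq_small (c : ℝ) (hc : 0 < c) (t : ℝ) :
    Tendsto (fun X : ℝ => (((EN 1 (c * X)).filter (fun e => tE e = t)).card : ℝ) / X) atTop (nhds 0) := by
  obtain ⟨κ, hκ0, hκ⟩ := en_lim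
  rw [Metric.tendsto_nhds]
  intro ε hε
  have hδ : 0 < ε / (2 * (c * κ + 1)) := by positivity
  set δ := ε / (2 * (c * κ + 1)) with hδd
  have h1 := sharp_N_lim hκ t (t + δ) c (by linarith) hc
  have h2 : c * (κ * (t + δ - t)) < ε := by
    have h3 : c * (κ * (t + δ - t)) = (c * κ) * δ := by ring
    rw [h3, hδd]
    have h4 : 0 ≤ c * κ := by positivity
    rw [mul_div_assoc', div_lt_iff₀ (by positivity)]
    nlinarith
  have h3 := (tendsto_order.1 h1).2 _ h2
  filter_upwards [h3, eventually_gt_atTop 0] with X hX hX0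
  rw [dist_zero_right, Real.norm_eq_abs, abs_of_nonneg (by positivity)]
  refine lt_of_le_of_lt ?_ hX
  refine div_le_div_of_nonneg_right ?_ hX0.le
  unfold sharp_N
  exact_mod_cast card_le_card (fun e he => by
    rw [mem_filter] at he ⊢
    exact ⟨he.1, he.2.ge, by rw [he.2]; linarith⟩)

/-- PROOF. `sharpX` for the family `Φ' Y = Φ (Y / c)`, `Y = c X` (test functions `W (y / c) t`), and the edges with `tE e = t` are `o(X)` (`en_lim`: those with `t ≤ tE < t + δ` are `κ δ c X + o(X)`). -/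
theorem rect_lim (Φ : ℝ → G × G → ℂ) (hΦ : ∀ X e, ‖Φ X e‖ ≤ 1) (H : EdgeSmall Φ) (c : ℝ) (hc : 0 < c) (s t : ℝ)
    (hst : s ≤ t) :
    Tendsto (fun X : ℝ => (∑ e ∈ (EN 1 (c * X)).filter (fun e => s ≤ tE e ∧ tE e < t), Φ X e) / X) atTop
      (nhds 0) := by
  classical
  have hcC : (c : ℂ) ≠ 0 := by exact_mod_cast hc.ne'
  have h1 : ∀ (b : ℝ) (W : ℝ → ℝ → ℂ), TF b W →
      Tendsto (fun X : ℝ => (∑ e ∈ EN 1 (b * X), Φ (X / c) e * W (mE e / X) (tE e)) / X) atTop (nhds 0) := by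
    intro b W hW
    have hW' : TF (b * c) (fun y t => W (y / c) t) := by
      refine ⟨?_, ?_, fun y t hy => hW.lo _ _ (div_nonpos_of_nonpos_of_nonneg hy hc.le),
        fun y t hy => hW.hi _ _ (by rwa [le_div_iff₀ hc])⟩
      · exact hW.cont.comp (by fun_prop : Continuous fun p : ℝ × ℝ => (p.1 / c, p.2))
      · obtain ⟨R0, hR0, hR⟩ := ctw_supp hW
        refine HasCompactSupport.of_support_subset_isCompact
          ((isCompact_Icc (a := -(R0 * c)) (b := R0 * c)).prod (isCompact_Icc (a := -R0) (b := R0))) ?_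
        rintro ⟨y, t⟩ h
        rw [Function.mem_support] at h
        have h2 := hR (y / c) t h
        rw [Set.mem_prod, Set.mem_Icc, Set.mem_Icc, ← abs_le, ← abs_le]
        refine ⟨?_, h2.2⟩
        have h3 := h2.1
        rw [abs_div, abs_of_pos hc, div_le_iff₀ hc] at h3
        exact h3
    have h2 := ((H (b * c) _ hW').comp (tendsto_id.atTop_div_const hc)).const_mul ((c : ℂ)⁻¹)
    rw [mul_zero] at h2
    refine h2.congr' ?_
    filter_upwards [eventually_gt_atTop 0] with X hX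
    have hXC : (X : ℂ) ≠ 0 := by exact_mod_cast hX.ne'
    show (c : ℂ)⁻¹ * ((∑ e ∈ EN 1 (b * c * (X / c)), Φ (X / c) e * W (mE e / (X / c) / c) (tE e)) /
      ((X / c : ℝ) : ℂ)) = _
    have e1 : b * c * (X / c) = b * X := by field_simp
    have e2 : ∀ m : ℝ, m / (X / c) / c = m / X := by
      intro m
      field_simp
    rw [e1]
    simp only [e2]
    push_cast
    field_simp
  have h2 := sharpX (fun Y e => Φ (Y / c) e) (fun X e => hΦ _ e) h1 s t hst
  have h3 := (h2.comp (tendsto_id.const_mul_atTop hc)).const_mul (c : ℂ)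
  rw [mul_zero] at h3
  have h4 : Tendsto (fun X : ℝ => (∑ e ∈ (EN 1 (c * X)).filter (fun e => s ≤ tE e ∧ tE e ≤ t), Φ X e) / X) atTop
      (nhds 0) := by
    refine h3.congr' ?_
    filter_upwards [eventually_gt_atTop 0] with X hX
    have hXC : (X : ℂ) ≠ 0 := by exact_mod_cast hX.ne'
    show (c : ℂ) * ((∑ e ∈ (EN 1 (c * X)).filter (fun e => s ≤ tE e ∧ tE e ≤ t), Φ (c * X / c) e) /
      ((c * X : ℝ) : ℂ)) = _
    rw [mul_div_cancel_left₀ X hc.ne']
    push_cast
    field_simp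
  have h5 : Tendsto (fun X : ℝ => (∑ e ∈ (EN 1 (c * X)).filter (fun e => s ≤ tE e ∧ tE e ≤ t), Φ X e) / X -
      (∑ e ∈ (EN 1 (c * X)).filter (fun e => s ≤ tE e ∧ tE e < t), Φ X e) / X) atTop
      (nhds 0) := by
    refine squeeze_zero_norm' ?_ (shp_eq_small c hc t)
    filter_upwards [eventually_gt_atTop 0] with X hX
    rw [← sub_div, norm_div, Complex.norm_real, Real.norm_eq_abs, abs_of_pos hX]
    refine div_le_div_of_nonneg_right ?_ hX.le
    have h6 : (EN 1 (c * X)).filter (fun e => s ≤ tE e ∧ tE e < t) ⊆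
        (EN 1 (c * X)).filter (fun e => s ≤ tE e ∧ tE e ≤ t) := by
      intro e he
      rw [mem_filter] at he ⊢
      exact ⟨he.1, he.2.1, he.2.2.le⟩
    rw [← sum_sdiff h6, add_sub_cancel_right]
    refine (norm_sum_le_of_le _ (fun e _ => hΦ X e)).trans ?_
    rw [sum_const, nsmul_eq_mul, mul_one]
    exact_mod_cast card_le_card (fun e he => by
      rw [Finset.mem_sdiff, mem_filter, mem_filter] at he
      rw [mem_filter]
      refine ⟨he.1.1, le_antisymm he.1.2.2 ?_⟩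
      by_contra hc'
      exact he.2 ⟨he.1.1, he.1.2.1, lt_of_not_ge hc'⟩)
  have h6 := h4.sub h5
  rw [sub_zero] at h6
  refine h6.congr fun X => ?_
  ring

theorem shp_exp {e : G × G} (h : En 1 e) : 0 < (nm e.1 : ℝ) ∧ 0 < mE e ∧
    Real.exp (tE e) * (nm e.1 : ℝ) ^ 2 = mE e ^ 2 + 1 := by
  obtain ⟨h1, h2⟩ := sharp_nm_pos one_pos h
  have h1' : (0 : ℝ) < nm e.1 := by exact_mod_cast h1
  have h2' : (0 : ℝ) < nm e.2 := by exact_mod_cast h2
  refine ⟨h1', mE_pos h, ?_⟩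
  have h3 := dot_sq_add_det_sq e.1 e.2
  rw [((sharp_En_iff e).1 h).1] at h3
  have h4 : mE e ^ 2 + 1 = (nm e.1 : ℝ) * nm e.2 := by
    unfold mE
    exact_mod_cast h3
  rw [h4]
  unfold tE
  rw [Real.exp_sub, Real.exp_log h1', Real.exp_log h2']
  field_simp

theorem shp_lo {a : ℝ} (ha : 0 < a) {e : G × G} (h : En 1 e) :
    2 * Real.log a ≤ tE e ↔ (a * (nm e.1 : ℝ)) ^ 2 ≤ mE e ^ 2 + 1 := by
  obtain ⟨h1, h2, h3⟩ := shp_exp h
  rw [← h3, mul_pow]
  have h4 : a ^ 2 = Real.exp (2 * Real.log a) := by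
    rw [two_mul, Real.exp_add, Real.exp_log ha]
    ring
  rw [h4]
  have h5 : 0 < (nm e.1 : ℝ) ^ 2 := by positivity
  rw [mul_le_mul_iff_left₀ h5, Real.exp_le_exp]

theorem shp_hi {a : ℝ} (ha : 0 < a) {e : G × G} (h : En 1 e) (η : ℝ) :
    tE e < 2 * Real.log a + η ↔ mE e ^ 2 + 1 < (a * (nm e.1 : ℝ)) ^ 2 * Real.exp η := by
  obtain ⟨h1, h2, h3⟩ := shp_exp h
  rw [← h3, mul_pow]
  have h4 : a ^ 2 = Real.exp (2 * Real.log a) := by
    rw [two_mul, Real.exp_add, Real.exp_log ha]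
    ring
  rw [h4]
  have h5 : 0 < (nm e.1 : ℝ) ^ 2 := by positivity
  have h6 : Real.exp (2 * Real.log a) * (nm e.1 : ℝ) ^ 2 * Real.exp η =
      Real.exp (2 * Real.log a + η) * (nm e.1 : ℝ) ^ 2 := by
    rw [Real.exp_add]
    ring
  rw [h6, mul_lt_mul_iff_left₀ h5, Real.exp_lt_exp]

/-- the slice `D` minus the slice `R` -/
theorem shp_DR {X α β a b η P0 : ℝ} (ha : 0 < a) (hab : a ≤ b) (hbβ : b ≤ β) (hη : 0 < η)
    (hP0 : 0 < P0) (hP : 1 ≤ (a * P0) ^ 2 * (Real.exp η - 1)) {e : G × G}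
    (he : e ∈ FE X α β) (hD : a * nm e.1 ≤ mE e ∧ mE e < b * nm e.1)
    (hR : ¬ (e ∈ (EN 1 (a * X)).filter (fun e => 2 * Real.log a ≤ tE e ∧ tE e < 2 * Real.log b))) :
    (e ∈ (EN 1 (b * X)).filter (fun e => 2 * Real.log a ≤ tE e ∧ tE e < 2 * Real.log b + η) ∧
      ¬ e ∈ (EN 1 (a * X)).filter (fun e => 2 * Real.log a ≤ tE e ∧ tE e < 2 * Real.log b + η)) ∨
      e ∈ (EN 1 (β * X)).filter (fun e => 2 * Real.log b ≤ tE e ∧ tE e < 2 * Real.log b + η) ∨
      e ∈ EN 1 (β * P0) := by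
  unfold FE at he
  rw [mem_filter, mem_EN one_pos] at he
  obtain ⟨⟨h1, h2⟩, h3, h4, h5⟩ := he
  obtain ⟨g1, g2, g3⟩ := shp_exp h1
  have hb : 0 < b := by linarith
  by_cases hc : (nm e.1 : ℝ) < P0
  · right; right
    rw [mem_EN one_pos]
    refine ⟨h1, ?_⟩
    nlinarith [hD.2, mul_le_mul_of_nonneg_right hbβ g1.le, mul_le_mul_of_nonneg_left hc.le (hb.le.trans hbβ)]
  · rw [not_lt] at hc
    have hlo : 2 * Real.log a ≤ tE e := by
      rw [shp_lo ha h1]
      have := pow_le_pow_left₀ (by positivity) hD.1 2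
      linarith
    have hhi : tE e < 2 * Real.log b + η := by
      rw [shp_hi hb h1]
      have k1 : mE e ^ 2 < (b * (nm e.1 : ℝ)) ^ 2 := pow_lt_pow_left₀ hD.2 g2.le (by norm_num)
      have k2 : (a * P0) ^ 2 ≤ (b * (nm e.1 : ℝ)) ^ 2 :=
        pow_le_pow_left₀ (by positivity) (mul_le_mul hab hc hP0.le hb.le) 2
      have k3 : 0 ≤ Real.exp η - 1 := by
        have := Real.add_one_le_exp η
        linarith
      nlinarith [mul_le_mul_of_nonneg_right k2 k3]
    by_cases hm : mE e ≤ a * X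
    · right; left
      rw [mem_filter, mem_EN one_pos]
      refine ⟨⟨h1, h2⟩, ?_, hhi⟩
      by_contra hc2
      apply hR
      rw [mem_filter, mem_EN one_pos]
      exact ⟨⟨h1, hm⟩, hlo, lt_of_not_ge hc2⟩
    · left
      rw [mem_filter, mem_filter, mem_EN one_pos, mem_EN one_pos]
      refine ⟨⟨⟨h1, ?_⟩, hlo, hhi⟩, fun hh => hm hh.1.2⟩
      exact hD.2.le.trans (mul_le_mul_of_nonneg_left h3 hb.le)

/-- the slice `R` minus the slice `D` -/
theorem shp_RD {X α β a b η P0 : ℝ} (hα : α ≤ a) (ha : 0 < a) (hab : a ≤ b) (hbβ : b ≤ β) (hη : 0 < η)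
    (hX : 0 ≤ X) (hP0 : 0 < P0) (hP : 1 ≤ (a * P0) ^ 2 * (Real.exp η - 1)) {e : G × G}
    (hR : e ∈ (EN 1 (a * X)).filter (fun e => 2 * Real.log a ≤ tE e ∧ tE e < 2 * Real.log b))
    (hD : ¬ (e ∈ FE X α β ∧ (a * nm e.1 ≤ mE e ∧ mE e < b * nm e.1))) :
      e ∈ (EN 1 (β * X)).filter (fun e => 2 * Real.log a ≤ tE e ∧ tE e < 2 * Real.log a + η) ∨
      e ∈ EN 1 (β * P0) := by
  rw [mem_filter, mem_EN one_pos] at hR
  obtain ⟨⟨h1, h2⟩, h3, h4⟩ := hR
  obtain ⟨g1, g2, g3⟩ := shp_exp h1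
  have hb : 0 < b := by linarith
  have hmb : mE e < b * nm e.1 := by
    have k1 : tE e < 2 * Real.log b + 0 := by linarith
    rw [shp_hi hb h1, Real.exp_zero, mul_one] at k1
    exact lt_of_pow_lt_pow_left₀ 2 (by positivity) (by linarith)
  have hβX : mE e ≤ β * X := h2.trans (mul_le_mul_of_nonneg_right (hab.trans hbβ) hX)
  by_cases hc : (nm e.1 : ℝ) < P0
  · right
    rw [mem_EN one_pos]
    refine ⟨h1, ?_⟩
    nlinarith [mul_le_mul_of_nonneg_right hbβ g1.le, mul_le_mul_of_nonneg_left hc.le (hb.le.trans hbβ)]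
  · rw [not_lt] at hc
    left
    have hma : mE e < a * nm e.1 := by
      by_contra hcc
      rw [not_lt] at hcc
      apply hD
      refine ⟨?_, hcc, hmb⟩
      unfold FE
      rw [mem_filter, mem_EN one_pos]
      refine ⟨⟨h1, hβX⟩, ?_, (mul_le_mul_of_nonneg_right hα g1.le).trans hcc,
        hmb.trans_le (mul_le_mul_of_nonneg_right hbβ g1.le)⟩
      exact le_of_mul_le_mul_left (hcc.trans h2) ha
    rw [mem_filter, mem_EN one_pos]
    refine ⟨⟨h1, hβX⟩, h3, ?_⟩
    rw [shp_hi ha h1]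
    have k1 : mE e ^ 2 < (a * (nm e.1 : ℝ)) ^ 2 := pow_lt_pow_left₀ hma g2.le (by norm_num)
    have k2 : (a * P0) ^ 2 ≤ (a * (nm e.1 : ℝ)) ^ 2 :=
      pow_le_pow_left₀ (by positivity) (mul_le_mul_of_nonneg_left hc ha.le) 2
    have k3 : 0 ≤ Real.exp η - 1 := by
      have := Real.add_one_le_exp η
      linarith
    nlinarith [mul_le_mul_of_nonneg_right k2 k3]

open Classical in
theorem shp_diff (A B : Finset (G × G)) (Φ : G × G → ℂ) (hΦ : ∀ e, ‖Φ e‖ ≤ 1) :
    ‖∑ e ∈ A, Φ e - ∑ e ∈ B, Φ e‖ ≤ ((A \ B).card : ℝ) + ((B \ A).card : ℝ) := by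
  have h1 : ∑ e ∈ A, Φ e - ∑ e ∈ B, Φ e = ∑ e ∈ A \ B, Φ e - ∑ e ∈ B \ A, Φ e := by
    rw [← sum_inter_add_sum_sdiff A B, ← sum_inter_add_sum_sdiff B A, inter_comm B A]
    ring
  rw [h1]
  refine (norm_sub_le _ _).trans (add_le_add ?_ ?_)
  · refine (norm_sum_le_of_le _ (fun e _ => hΦ e)).trans ?_
    rw [sum_const, nsmul_eq_mul, mul_one]
  · refine (norm_sum_le_of_le _ (fun e _ => hΦ e)).trans ?_
    rw [sum_const, nsmul_eq_mul, mul_one]

/-- the error of one slice -/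
noncomputable def shpE (β a b η P0 X : ℝ) : ℝ :=
  (sharp_N (2 * Real.log a) (2 * Real.log b + η) (b * X) -
    sharp_N (2 * Real.log a) (2 * Real.log b + η) (a * X)) +
  sharp_N (2 * Real.log b) (2 * Real.log b + η) (β * X) + sharp_N (2 * Real.log a) (2 * Real.log a + η) (β * X) +
  2 * ((EN 1 (β * P0)).card : ℝ)

theorem shp_slice {X α β a b η P0 : ℝ} (hα : α ≤ a) (ha : 0 < a) (hab : a ≤ b) (hbβ : b ≤ β) (hη : 0 < η)
    (hX : 0 ≤ X) (hP0 : 0 < P0) (hP : 1 ≤ (a * P0) ^ 2 * (Real.exp η - 1))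
    (Φ : G × G → ℂ) (hΦ : ∀ e, ‖Φ e‖ ≤ 1) :
    ‖∑ e ∈ (FE X α β).filter (fun e => a * nm e.1 ≤ mE e ∧ mE e < b * nm e.1), Φ e -
      ∑ e ∈ (EN 1 (a * X)).filter (fun e => 2 * Real.log a ≤ tE e ∧ tE e < 2 * Real.log b), Φ e‖ ≤
      shpE β a b η P0 X := by
  classical
  refine (shp_diff _ _ Φ hΦ).trans ?_
  have hA : (EN 1 (a * X)).filter (fun e => 2 * Real.log a ≤ tE e ∧ tE e < 2 * Real.log b + η) ⊆
      (EN 1 (b * X)).filter (fun e => 2 * Real.log a ≤ tE e ∧ tE e < 2 * Real.log b + η) := by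
    intro e he
    rw [mem_filter, mem_EN one_pos] at he ⊢
    exact ⟨⟨he.1.1, he.1.2.trans (mul_le_mul_of_nonneg_right hab hX)⟩, he.2⟩
  have h1 := card_le_card (show ((FE X α β).filter (fun e => a * nm e.1 ≤ mE e ∧ mE e < b * nm e.1) \
      (EN 1 (a * X)).filter (fun e => 2 * Real.log a ≤ tE e ∧ tE e < 2 * Real.log b)) ⊆
      ((EN 1 (b * X)).filter (fun e => 2 * Real.log a ≤ tE e ∧ tE e < 2 * Real.log b + η) \
      (EN 1 (a * X)).filter (fun e => 2 * Real.log a ≤ tE e ∧ tE e < 2 * Real.log b + η)) ∪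
      ((EN 1 (β * X)).filter (fun e => 2 * Real.log b ≤ tE e ∧ tE e < 2 * Real.log b + η) ∪ EN 1 (β * P0)) by
    intro e he
    rw [Finset.mem_sdiff, mem_filter] at he
    rw [mem_union, mem_union, Finset.mem_sdiff]
    exact shp_DR ha hab hbβ hη hP0 hP he.1.1 he.1.2 he.2)
  have h2 := card_le_card (show ((EN 1 (a * X)).filter (fun e => 2 * Real.log a ≤ tE e ∧ tE e < 2 * Real.log b) \
      (FE X α β).filter (fun e => a * nm e.1 ≤ mE e ∧ mE e < b * nm e.1)) ⊆
      ((EN 1 (β * X)).filter (fun e => 2 * Real.log a ≤ tE e ∧ tE e < 2 * Real.log a + η) ∪ EN 1 (β * P0)) by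
    intro e he
    rw [Finset.mem_sdiff] at he
    rw [mem_union]
    refine shp_RD hα ha hab hbβ hη hX hP0 hP he.1 (fun hh => he.2 ?_)
    rw [mem_filter]
    exact hh)
  have h3 := h1.trans (card_union_le _ _)
  have h4 := card_union_le ((EN 1 (β * X)).filter (fun e => 2 * Real.log b ≤ tE e ∧ tE e < 2 * Real.log b + η))
    (EN 1 (β * P0))
  have h5 := h2.trans (card_union_le _ _)
  have h6 := card_sdiff_add_card_eq_card hA
  have h3' : (((FE X α β).filter (fun e => a * nm e.1 ≤ mE e ∧ mE e < b * nm e.1) \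
      (EN 1 (a * X)).filter (fun e => 2 * Real.log a ≤ tE e ∧ tE e < 2 * Real.log b)).card : ℝ) ≤
      (((EN 1 (b * X)).filter (fun e => 2 * Real.log a ≤ tE e ∧ tE e < 2 * Real.log b + η) \
      (EN 1 (a * X)).filter (fun e => 2 * Real.log a ≤ tE e ∧ tE e < 2 * Real.log b + η)).card : ℝ) +
      (((EN 1 (β * X)).filter (fun e => 2 * Real.log b ≤ tE e ∧ tE e < 2 * Real.log b + η) ∪
        EN 1 (β * P0)).card : ℝ) := by exact_mod_cast h3
  have h4' : (((EN 1 (β * X)).filter (fun e => 2 * Real.log b ≤ tE e ∧ tE e < 2 * Real.log b + η) ∪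
        EN 1 (β * P0)).card : ℝ) ≤ (((EN 1 (β * X)).filter
        (fun e => 2 * Real.log b ≤ tE e ∧ tE e < 2 * Real.log b + η)).card : ℝ) + ((EN 1 (β * P0)).card : ℝ) := by
    exact_mod_cast h4
  have h5' : (((EN 1 (a * X)).filter (fun e => 2 * Real.log a ≤ tE e ∧ tE e < 2 * Real.log b) \
      (FE X α β).filter (fun e => a * nm e.1 ≤ mE e ∧ mE e < b * nm e.1)).card : ℝ) ≤
      (((EN 1 (β * X)).filter (fun e => 2 * Real.log a ≤ tE e ∧ tE e < 2 * Real.log a + η)).card : ℝ) +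
      ((EN 1 (β * P0)).card : ℝ) := by
    exact_mod_cast h5
  have h6' : (((EN 1 (b * X)).filter (fun e => 2 * Real.log a ≤ tE e ∧ tE e < 2 * Real.log b + η) \
      (EN 1 (a * X)).filter (fun e => 2 * Real.log a ≤ tE e ∧ tE e < 2 * Real.log b + η)).card : ℝ) +
      (((EN 1 (a * X)).filter (fun e => 2 * Real.log a ≤ tE e ∧ tE e < 2 * Real.log b + η)).card : ℝ) =
      (((EN 1 (b * X)).filter (fun e => 2 * Real.log a ≤ tE e ∧ tE e < 2 * Real.log b + η)).card : ℝ) := by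
    exact_mod_cast h6
  unfold shpE sharp_N
  linarith

theorem shpE_lim {κ : ℝ} (hκ : ∀ s t : ℝ, s ≤ t → Tendsto (fun x : ℝ =>
    (((EN 1 x).filter (fun e => s ≤ tE e ∧ tE e < t)).card : ℝ) / x) atTop (nhds (κ * (t - s))))
    {β a b η : ℝ} (P0 : ℝ) (ha : 0 < a) (hab : a ≤ b) (hbβ : b ≤ β) (hη : 0 < η) :
    Tendsto (fun X : ℝ => shpE β a b η P0 X / X) atTop
      (nhds ((b - a) * (κ * (2 * (Real.log b - Real.log a) + η)) + 2 * (β * (κ * η)))) := by
  have hb : 0 < b := by linarith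
  have hβ : 0 < β := by linarith
  have hlog : Real.log a ≤ Real.log b := Real.log_le_log ha hab
  have h1 := sharp_N_lim hκ (2 * Real.log a) (2 * Real.log b + η) b (by linarith) hb
  have h2 := sharp_N_lim hκ (2 * Real.log a) (2 * Real.log b + η) a (by linarith) ha
  have h3 := sharp_N_lim hκ (2 * Real.log b) (2 * Real.log b + η) β (by linarith) hβ
  have h4 := sharp_N_lim hκ (2 * Real.log a) (2 * Real.log a + η) β (by linarith) hβ
  have h5 : Tendsto (fun X : ℝ => 2 * ((EN 1 (β * P0)).card : ℝ) / X) atTop (nhds 0) :=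
    tendsto_const_nhds.div_atTop tendsto_id
  have h6 := (((h1.sub h2).add h3).add h4).add h5
  have e1 : b * (κ * (2 * Real.log b + η - 2 * Real.log a)) - a * (κ * (2 * Real.log b + η - 2 * Real.log a)) +
      β * (κ * (2 * Real.log b + η - 2 * Real.log b)) + β * (κ * (2 * Real.log a + η - 2 * Real.log a)) + 0 =
      (b - a) * (κ * (2 * (Real.log b - Real.log a) + η)) + 2 * (β * (κ * η)) := by ring
  rw [e1] at h6
  refine h6.congr fun X => ?_
  unfold shpE
  ring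

theorem shp_part (X α β : ℝ) (r : ℕ → ℝ) (hr : ∀ k, r k ≤ r (k + 1)) (Φ : G × G → ℂ) (n : ℕ) :
    ∑ k ∈ range n, ∑ e ∈ (FE X α β).filter (fun e => r k * nm e.1 ≤ mE e ∧ mE e < r (k + 1) * nm e.1), Φ e =
      ∑ e ∈ (FE X α β).filter (fun e => r 0 * nm e.1 ≤ mE e ∧ mE e < r n * nm e.1), Φ e := by
  classical
  induction n with
  | zero =>
    rw [sum_range_zero]
    symm
    apply sum_eq_zero
    intro e he
    rw [mem_filter] at he
    linarith [he.2.1, he.2.2]
  | succ n ih =>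
    rw [sum_range_succ, ih]
    simp only [sum_filter]
    rw [← sum_add_distrib]
    refine sum_congr rfl fun e _ => ?_
    have h0 : (0 : ℝ) ≤ nm e.1 := Nat.cast_nonneg _
    have h1 : r 0 * nm e.1 ≤ r n * nm e.1 :=
      mul_le_mul_of_nonneg_right (monotone_nat_of_le_succ hr (Nat.zero_le n)) h0
    have h2 : r n * nm e.1 ≤ r (n + 1) * nm e.1 := mul_le_mul_of_nonneg_right (hr n) h0
    by_cases h3 : r 0 * nm e.1 ≤ mE e
    · by_cases h4 : mE e < r n * nm e.1
      · rw [if_pos ⟨h3, h4⟩, if_neg (fun h => absurd h.1 (not_le.2 h4)), if_pos ⟨h3, h4.trans_le h2⟩, add_zero]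
      · rw [if_neg (fun h => h4 h.2), zero_add]
        by_cases h5 : mE e < r (n + 1) * nm e.1
        · rw [if_pos ⟨not_lt.1 h4, h5⟩, if_pos ⟨h3, h5⟩]
        · rw [if_neg (fun h => h5 h.2), if_neg (fun h => h5 h.2)]
    · rw [if_neg (fun h => h3 h.1), if_neg (fun h => h3 (h1.trans h.1)), if_neg (fun h => h3 h.1), add_zero]

/-- properties of the division points -/
theorem shp_r {α β : ℝ} (hα : 0 < α) (hαβ : α < β) {M : ℕ} (hM : 0 < M) {r : ℕ → ℝ}
    (hr : ∀ k, r k = α * (β / α) ^ ((k : ℝ) / M)) : r 0 = α ∧ r M = β ∧ (∀ k, r k ≤ r (k + 1)) ∧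
      (∀ k, Real.log (r (k + 1)) - Real.log (r k) = Real.log (β / α) / M) ∧ ∀ k, α ≤ r k := by
  have hM' : (0 : ℝ) < M := by exact_mod_cast hM
  have hρ : 1 < β / α := by rwa [lt_div_iff₀ hα, one_mul]
  have hρ0 : 0 < β / α := by linarith
  have h3 : ∀ k, r k ≤ r (k + 1) := by
    intro k
    rw [hr, hr]
    refine mul_le_mul_of_nonneg_left (Real.rpow_le_rpow_of_exponent_le hρ.le ?_) hα.le
    refine div_le_div_of_nonneg_right ?_ hM'.le
    push_cast
    linarith
  have h0 : r 0 = α := by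
    rw [hr]
    simp
  refine ⟨h0, ?_, h3, ?_, ?_⟩
  · rw [hr, div_self hM'.ne', Real.rpow_one]
    field_simp
  · intro k
    rw [hr, hr, Real.log_mul hα.ne' (Real.rpow_pos_of_pos hρ0 _).ne',
      Real.log_mul hα.ne' (Real.rpow_pos_of_pos hρ0 _).ne', Real.log_rpow hρ0, Real.log_rpow hρ0]
    push_cast
    ring
  · intro k
    rw [← h0]
    exact monotone_nat_of_le_succ h3 (Nat.zero_le k)

/-- Comparison with slices. PROOF. `κ` from `en_lim`. Let `r_k = α (1 + δ)^k`, `M` minimal with `r_M ≥ β`; slices `D_k = {e ∈ FE : r_k ≤ m/P < r_(k+1)}` (the last one cut at `β`; or choose `δ` with `r_M = β`: `r_k = α (β/α)^(k/M)`), `P = nm e.1`, `m = mE e`,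
and `R_k = {e ∈ EN 1 (r_k X) : 2 log r_k ≤ tE e < 2 log r_(k+1)}`. As `exp (tE e) = (m/P)^2 + 1/P^2`, `D_k` and `R_k` differ by edges with `r_k X < m ≤ r_(k+1) X` and `2 log r_k ≤ tE < 2 log r_(k+1) + η`, or with `tE` in `[2 log r_k, 2 log r_k + η)` or `[2 log r_(k+1), 2 log r_(k+1) + η)` (`P ≥ P0(η)`), or with `P ≤ P0(η)`
(then `m ≤ β P0`, a bounded number). By `en_lim` the number of all these edges is, for `X` large, at most `κ (β - α) X (2 log (r_1/r_0) + η) + 2 M κ η β X + o(X)`: first `M` large, then `η` small. -/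
theorem fe_cmp (α β : ℝ) (hα : 0 < α) (hαβ : α < β) (ε : ℝ) (hε : 0 < ε) : ∃ M0 : ℕ, ∀ M : ℕ, M0 ≤ M → 0 < M → ∀ r : ℕ → ℝ,
    (∀ k, r k = α * (β / α) ^ ((k : ℝ) / M)) → ∀ᶠ X : ℝ in atTop, ∀ Φ : G × G → ℂ, (∀ e, ‖Φ e‖ ≤ 1) →
      ‖∑ e ∈ FE X α β, Φ e - ∑ k ∈ range M, ∑ e ∈ (EN 1 (r k * X)).filter
        (fun e => 2 * Real.log (r k) ≤ tE e ∧ tE e < 2 * Real.log (r (k + 1))), Φ e‖ ≤ ε * X := by
  obtain ⟨κ, hκ0, hκ⟩ := en_lim
  have hρ : 1 < β / α := by rwa [lt_div_iff₀ hα, one_mul]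
  have hL : 0 < Real.log (β / α) := Real.log_pos hρ
  have hβ : 0 < β := by linarith
  have hba : 0 < β - α := by linarith
  refine ⟨⌈4 * κ * (β - α) * Real.log (β / α) / ε⌉₊ + 1, fun M hM hM0 r hr => ?_⟩
  have hM' : (0 : ℝ) < M := by exact_mod_cast hM0
  obtain ⟨r0, rM, rmono, rlog, rα⟩ := shp_r hα hαβ hM0 hr
  have hmain : κ * (β - α) * (2 * (Real.log (β / α) / M)) < ε / 2 := by
    have h1 : 4 * κ * (β - α) * Real.log (β / α) / ε < M := by
      refine lt_of_le_of_lt (Nat.le_ceil _) ?_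
      exact_mod_cast hM
    rw [div_lt_iff₀ hε] at h1
    have h2 : κ * (β - α) * (2 * (Real.log (β / α) / M)) = (4 * κ * (β - α) * Real.log (β / α)) / (2 * M) := by
      field_simp
      ring
    rw [h2, div_lt_div_iff₀ (by positivity) (by norm_num)]
    nlinarith
  have hK : 0 ≤ κ * ((β - α) + 2 * M * β) := by positivity
  obtain ⟨η, hη, hηε⟩ : ∃ η : ℝ, 0 < η ∧ κ * ((β - α) + 2 * M * β) * η < ε / 2 := by
    refine ⟨ε / (4 * (κ * ((β - α) + 2 * M * β) + 1)), by positivity, ?_⟩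
    rw [mul_div_assoc', div_lt_div_iff₀ (by positivity) (by norm_num)]
    nlinarith
  have hE : 0 < Real.exp η - 1 := by
    have := Real.add_one_lt_exp hη.ne'
    linarith
  obtain ⟨P0, hP0, hP⟩ : ∃ P0 : ℝ, 0 < P0 ∧ 1 ≤ (α * P0) ^ 2 * (Real.exp η - 1) := by
    refine ⟨(1 + 1 / (Real.exp η - 1)) / α, by positivity, ?_⟩
    rw [mul_div_cancel₀ _ hα.ne']
    have h1 : (1 + 1 / (Real.exp η - 1)) * (Real.exp η - 1) = (Real.exp η - 1) + 1 := by
      field_simp
    have h2 : 1 ≤ 1 + 1 / (Real.exp η - 1) := by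
      have : 0 ≤ 1 / (Real.exp η - 1) := by positivity
      linarith
    rw [sq, mul_assoc, h1]
    nlinarith
  have hrβ : ∀ k, k < M → r (k + 1) ≤ β := by
    intro k hk
    rw [← rM]
    exact monotone_nat_of_le_succ rmono hk
  have hlim : Tendsto (fun X : ℝ => ∑ k ∈ range M, shpE β (r k) (r (k + 1)) η P0 X / X) atTop
      (nhds (∑ k ∈ range M, ((r (k + 1) - r k) * (κ * (2 * (Real.log (r (k + 1)) - Real.log (r k)) + η)) +
        2 * (β * (κ * η))))) := by
    refine tendsto_finsetSum _ fun k hk => ?_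
    exact shpE_lim hκ P0 (lt_of_lt_of_le hα (rα k)) (rmono k) (hrβ k (mem_range.1 hk)) hη
  have hval : ∑ k ∈ range M, ((r (k + 1) - r k) * (κ * (2 * (Real.log (r (k + 1)) - Real.log (r k)) + η)) +
        2 * (β * (κ * η))) < ε := by
    simp only [rlog]
    rw [sum_add_distrib, ← sum_mul, sum_range_sub, r0, rM, sum_const, card_range, nsmul_eq_mul]
    have e1 : (β - α) * (κ * (2 * (Real.log (β / α) / M) + η)) + M * (2 * (β * (κ * η))) =
        κ * (β - α) * (2 * (Real.log (β / α) / M)) + κ * ((β - α) + 2 * M * β) * η := by ring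
    rw [e1]
    linarith
  have hev := (tendsto_order.1 hlim).2 _ hval
  filter_upwards [hev, eventually_gt_atTop 0] with X hX hX0 Φ hΦ
  have h1 : ∑ e ∈ FE X α β, Φ e = ∑ k ∈ range M,
      ∑ e ∈ (FE X α β).filter (fun e => r k * nm e.1 ≤ mE e ∧ mE e < r (k + 1) * nm e.1), Φ e := by
    rw [shp_part X α β r rmono Φ M, r0, rM]
    congr 1
    symm
    rw [filter_eq_self]
    intro e he
    unfold FE at he
    rw [mem_filter] at he
    exact he.2.2
  rw [h1, ← sum_sub_distrib]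
  refine (norm_sum_le_of_le _ (fun k hk => ?_)).trans (?_ : ∑ k ∈ range M, shpE β (r k) (r (k + 1)) η P0 X ≤ ε * X)
  · refine shp_slice (rα k) (lt_of_lt_of_le hα (rα k)) (rmono k) (hrβ k (mem_range.1 hk)) hη hX0.le hP0 ?_ Φ hΦ
    refine hP.trans (mul_le_mul_of_nonneg_right ?_ hE.le)
    exact pow_le_pow_left₀ (by positivity) (mul_le_mul_of_nonneg_right (rα k) hP0.le) 2
  · rw [← sum_div, div_lt_iff₀ hX0] at hX
    exact hX.le

/-- PROOF. `fe_cmp` and `rect_lim` for every `k < M`; `α = β`: empty sum. -/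
theorem fe_sharp (Φ : ℝ → G × G → ℂ) (hΦ : ∀ X e, ‖Φ X e‖ ≤ 1) (H : EdgeSmall Φ) (α β : ℝ) (hα : 0 < α)
    (hαβ : α ≤ β) : Tendsto (fun X : ℝ => (∑ e ∈ FE X α β, Φ X e) / X) atTop (nhds 0) := by
  rcases hαβ.eq_or_lt with rfl | hlt
  · refine tendsto_const_nhds.congr fun X => ?_
    have h1 : FE X α α = ∅ := by
      unfold FE
      rw [filter_eq_empty_iff]
      intro e _ h
      linarith [h.2.1, h.2.2]
    rw [h1, sum_empty, zero_div]
  · rw [Metric.tendsto_nhds]
    intro ε hε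
    obtain ⟨M0, hM0⟩ := fe_cmp α β hα hlt (ε / 2) (by linarith)
    set M := M0 + 1 with hM
    set r : ℕ → ℝ := fun k => α * (β / α) ^ ((k : ℝ) / M) with hr
    obtain ⟨-, -, rmono, -, rα⟩ := shp_r hα hlt (show 0 < M by omega) (r := r) (fun k => rfl)
    have h1 := hM0 M (by omega) (by omega) r (fun k => rfl)
    have h2 : Tendsto (fun X : ℝ => ∑ k ∈ range M, (∑ e ∈ (EN 1 (r k * X)).filter
        (fun e => 2 * Real.log (r k) ≤ tE e ∧ tE e < 2 * Real.log (r (k + 1))), Φ X e) / (X : ℂ)) atTop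
        (nhds (∑ k ∈ range M, (0 : ℂ))) := by
      refine tendsto_finsetSum _ fun k _ => ?_
      have hk : 0 < r k := lt_of_lt_of_le hα (rα k)
      refine rect_lim Φ hΦ H (r k) hk _ _ ?_
      have := Real.log_le_log hk (rmono k)
      linarith
    rw [sum_const_zero] at h2
    have h3 := (Metric.tendsto_nhds.1 h2) (ε / 2) (by linarith)
    filter_upwards [h1, h3, eventually_gt_atTop 0] with X g1 g2 hX
    rw [dist_zero_right] at g2 ⊢
    have g3 := g1 (Φ X) (hΦ X)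
    rw [← sum_div] at g2
    set F := ∑ e ∈ FE X α β, Φ X e with hF
    set K := ∑ k ∈ range M, ∑ e ∈ (EN 1 (r k * X)).filter
        (fun e => 2 * Real.log (r k) ≤ tE e ∧ tE e < 2 * Real.log (r (k + 1))), Φ X e with hK
    have g4 : F / X = (F - K) / X + K / X := by ring
    rw [g4]
    have g5 : ‖(F - K) / (X : ℂ)‖ ≤ ε / 2 := by
      rw [norm_div, Complex.norm_real, Real.norm_eq_abs, abs_of_pos hX, div_le_iff₀ hX]
      exact g3
    calc ‖(F - K) / (X : ℂ) + K / X‖ ≤ ‖(F - K) / (X : ℂ)‖ + ‖K / (X : ℂ)‖ := norm_add_le _ _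
      _ < ε / 2 + ε / 2 := add_lt_add_of_le_of_lt g5 g2
      _ = ε := by ring

/-- PROOF. `κ` from `totR 1` (positive; `Coprime 1` trivial) or `en_lim`; `fe_cmp` with `Φ = 1` for `M` arbitrarily large : `∑_k κ r_k 2 log (r_(k+1)/r_k) = 2 κ (β - α) (log q/(q - 1))`, `q = (β/α)^(1/M) → 1`. Limit `2 κ (β - α)`. -/
theorem fe_count : ∃ κ : ℝ, 0 < κ ∧ ∀ α β : ℝ, 0 < α → α ≤ β →
    Tendsto (fun X : ℝ => ((FE X α β).card : ℝ) / X) atTop (nhds (κ * (β - α))) := by
  classical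
  obtain ⟨κ, hκ0, hκ⟩ := en_lim
  obtain ⟨κ1, hκ1, hκ1l⟩ := totR 1 one_pos
  have hκp : 0 < κ := by
    have h1 := hκ1l 0 1 (by norm_num)
    have h2 := hκ 0 2 (by norm_num)
    have h3 : κ1 * (1 - 0) ≤ κ * (2 - 0) := by
      refine le_of_tendsto_of_tendsto h1 h2 ?_
      filter_upwards [eventually_gt_atTop 0] with X hX
      refine div_le_div_of_nonneg_right ?_ hX.le
      exact_mod_cast card_le_card (fun e he => by
        rw [mem_filter] at he ⊢
        exact ⟨he.1, he.2.1.1, by linarith [he.2.1.2]⟩)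
    linarith
  refine ⟨2 * κ, by linarith, fun α β hα hαβ => ?_⟩
  rcases hαβ.eq_or_lt with rfl | hlt
  · rw [sub_self, mul_zero]
    refine tendsto_const_nhds.congr fun X => ?_
    have h1 : FE X α α = ∅ := by
      unfold FE
      rw [filter_eq_empty_iff]
      intro e _ h
      linarith [h.2.1, h.2.2]
    rw [h1, card_empty, Nat.cast_zero, zero_div]
  · rw [Metric.tendsto_nhds]
    intro ε hε
    have hρ : 1 < β / α := by rwa [lt_div_iff₀ hα, one_mul]
    have hL : 0 < Real.log (β / α) := Real.log_pos hρ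
    have hba : 0 < β - α := by linarith
    obtain ⟨M0, hM0⟩ := fe_cmp α β hα hlt (ε / 3) (by linarith)
    obtain ⟨M, hMM0, hM, hMε⟩ : ∃ M : ℕ, M0 ≤ M ∧ 0 < M ∧
        2 * κ * (β - α) * (Real.log (β / α) / M) < ε / 3 := by
      refine ⟨M0 + ⌈6 * κ * (β - α) * Real.log (β / α) / ε⌉₊ + 1, by omega, by omega, ?_⟩
      have h1 : 6 * κ * (β - α) * Real.log (β / α) / ε <
          ((M0 + ⌈6 * κ * (β - α) * Real.log (β / α) / ε⌉₊ + 1 : ℕ) : ℝ) := by
        refine lt_of_le_of_lt (Nat.le_ceil _) ?_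
        push_cast
        have : (0 : ℝ) ≤ M0 := Nat.cast_nonneg _
        linarith
      have h0 : (0 : ℝ) < ((M0 + ⌈6 * κ * (β - α) * Real.log (β / α) / ε⌉₊ + 1 : ℕ) : ℝ) := by positivity
      generalize ((M0 + ⌈6 * κ * (β - α) * Real.log (β / α) / ε⌉₊ + 1 : ℕ) : ℝ) = m at h0 h1 ⊢
      rw [div_lt_iff₀ hε] at h1
      rw [mul_div_assoc', div_lt_div_iff₀ h0 (by norm_num)]
      nlinarith
    have hM' : (0 : ℝ) < M := by exact_mod_cast hM
    set r : ℕ → ℝ := fun k => α * (β / α) ^ ((k : ℝ) / M) with hr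
    obtain ⟨r0, rM, rmono, rlog, rα⟩ := shp_r hα hlt hM (r := r) (fun k => rfl)
    have h1 := hM0 M hMM0 hM r (fun k => rfl)
    have hrp : ∀ k, 0 < r k := fun k => lt_of_lt_of_le hα (rα k)
    have h2 : Tendsto (fun X : ℝ => ∑ k ∈ range M,
        sharp_N (2 * Real.log (r k)) (2 * Real.log (r (k + 1))) (r k * X) / X) atTop
        (nhds (∑ k ∈ range M, r k * (κ * (2 * Real.log (r (k + 1)) - 2 * Real.log (r k))))) := by
      refine tendsto_finsetSum _ fun k _ => ?_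
      refine sharp_N_lim hκ _ _ _ ?_ (hrp k)
      have := Real.log_le_log (hrp k) (rmono k)
      linarith
    have h3 := (Metric.tendsto_nhds.1 h2) (ε / 3) (by linarith)
    -- the value of the sum
    have hup : ∑ k ∈ range M, r k * (κ * (2 * Real.log (r (k + 1)) - 2 * Real.log (r k))) ≤ 2 * κ * (β - α) := by
      calc ∑ k ∈ range M, r k * (κ * (2 * Real.log (r (k + 1)) - 2 * Real.log (r k)))
          ≤ ∑ k ∈ range M, 2 * κ * (r (k + 1) - r k) := by
            refine sum_le_sum fun k _ => ?_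
            have g1 := Real.log_le_sub_one_of_pos (div_pos (hrp (k + 1)) (hrp k))
            rw [Real.log_div (hrp _).ne' (hrp _).ne'] at g1
            have g2 := mul_le_mul_of_nonneg_left g1 (hrp k).le
            have g3 : r k * (r (k + 1) / r k - 1) = r (k + 1) - r k := by
              have := (hrp k).ne'
              field_simp
            rw [g3] at g2
            nlinarith
        _ = 2 * κ * (β - α) := by
            rw [← mul_sum, sum_range_sub, r0, rM]
    have hlo : 2 * κ * (β - α) - 2 * κ * (β - α) * (Real.log (β / α) / M) ≤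
        ∑ k ∈ range M, r k * (κ * (2 * Real.log (r (k + 1)) - 2 * Real.log (r k))) := by
      calc 2 * κ * (β - α) - 2 * κ * (β - α) * (Real.log (β / α) / M)
          = ∑ k ∈ range M, 2 * κ * (r (k + 1) - r k) * (1 - Real.log (β / α) / M) := by
            rw [← sum_mul, ← mul_sum, sum_range_sub, r0, rM]
            ring
        _ ≤ _ := by
            refine sum_le_sum fun k _ => ?_
            have g0 : 0 ≤ r (k + 1) - r k := by linarith [rmono k]
            have g1 := Real.log_le_sub_one_of_pos (div_pos (hrp k) (hrp (k + 1)))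
            rw [Real.log_div (hrp _).ne' (hrp _).ne'] at g1
            have g2 := rlog k
            rw [← g2]
            set ℓ := Real.log (r (k + 1)) - Real.log (r k) with hℓ
            have g3 : 1 - ℓ ≤ r k / r (k + 1) := by linarith
            have g3' : 1 - r k / r (k + 1) ≤ ℓ := by linarith
            have g4 : r (k + 1) * (r k / r (k + 1)) = r k := by
              have := (hrp (k + 1)).ne'
              field_simp
            have g5 : (r (k + 1) - r k) * (1 - ℓ) ≤ r k * ℓ := by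
              calc (r (k + 1) - r k) * (1 - ℓ) ≤ (r (k + 1) - r k) * (r k / r (k + 1)) :=
                    mul_le_mul_of_nonneg_left g3 g0
                _ = r k * (1 - r k / r (k + 1)) := by
                    rw [sub_mul, g4]
                    ring
                _ ≤ r k * ℓ := mul_le_mul_of_nonneg_left g3' (hrp k).le
            have g6 : r k * (κ * (2 * Real.log (r (k + 1)) - 2 * Real.log (r k))) = 2 * κ * (r k * ℓ) := by
              rw [hℓ]
              ring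
            rw [g6, mul_assoc (2 * κ)]
            exact mul_le_mul_of_nonneg_left g5 (by positivity)
    filter_upwards [h1, h3, eventually_gt_atTop 0] with X g1 g2 hX
    have g3 := g1 (fun _ => 1) (fun _ => by simp)
    simp only [sum_const, nsmul_eq_mul, mul_one] at g3
    have g4 : |((FE X α β).card : ℝ) - ∑ k ∈ range M,
        sharp_N (2 * Real.log (r k)) (2 * Real.log (r (k + 1))) (r k * X)| ≤ ε / 3 * X := by
      have e1 : (((FE X α β).card : ℂ) - ∑ k ∈ range M, (((EN 1 (r k * X)).filter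
        (fun e => 2 * Real.log (r k) ≤ tE e ∧ tE e < 2 * Real.log (r (k + 1)))).card : ℂ)) =
        ((((FE X α β).card : ℝ) - ∑ k ∈ range M,
        sharp_N (2 * Real.log (r k)) (2 * Real.log (r (k + 1))) (r k * X) : ℝ) : ℂ) := by
        unfold sharp_N
        push_cast
        rfl
      rw [e1, Complex.norm_real, Real.norm_eq_abs] at g3
      exact g3
    rw [Real.dist_eq, ← sum_div] at g2
    rw [Real.dist_eq]
    set S := ∑ k ∈ range M, sharp_N (2 * Real.log (r k)) (2 * Real.log (r (k + 1))) (r k * X) with hS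
    set V := ∑ k ∈ range M, r k * (κ * (2 * Real.log (r (k + 1)) - 2 * Real.log (r k))) with hV
    have g5 : |((FE X α β).card : ℝ) / X - S / X| ≤ ε / 3 := by
      rw [← sub_div, abs_div, abs_of_pos hX, div_le_iff₀ hX]
      exact g4
    rw [abs_le] at g5
    rw [abs_lt] at g2 ⊢
    constructor
    · linarith [g5.1, g2.1]
    · linarith [g5.2, g2.2]

end Pool.Agent.FanL
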