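import Pool.Agent.Lib_MP_f1a94e_fl.ClsLim
import Pool.Agent.Lib_MP_f1a94e_fl.LimXn
import Pool.Agent.Lib_MP_f1a94e_fl.RedBn
import Pool.Agent.Lib_MP_f1a94e_fl.DsumD

/-!
# Piece SNL: limits of the sums over pairs of determinant `n`
-/

set_option autoImplicit false

namespace Pool.Agent.FanL

open Finset Pool.Agent.GaussMR Pool.Agent.OmAll Pool.Agent.OmEq Pool.Agent.LPr Pool.Agent.OrbL MeasureTheory Filter

/-- PROOF. As `gm_pm` (m/G29.lean, line 279) with `redBn`, `comb_GCX`, `comb_TVX`, `dsumD`, `qdsX`, `mrpX` (`mroX`, `csx`, `fx_two`, `fz_two` as there). -/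
theorem gn_pm (n : ℕ) (hn : 1 ≤ n) (R : ℕ) (hR : 0 < R) (w : ℂ) (hw : w = 1 ∨ w = -1) (φ : ℝ → ℂ) (hφ : StepF φ) :
    GnSmall n (fun X m => (fx R w φ X m - mm w φ * fz R w m) / 2) := by
  have hw1 : ‖w‖ = 1 := by rcases hw with h | h <;> simp [h]
  have h1 := fx_FX R hR w hw1 φ hφ
  have h0 := fz_FX R hR w hw1
  have hbd : ∀ (X : ℝ) (n : ℕ), ‖(fx R w φ X n - mm w φ * fz R w n) / 2‖ ≤ 1 := fun X n =>
    norm_comb _ _ _ (h1.bd X n) (h0.bd X n) (mm_le w φ hφ)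
  have hM : MROX (fun X n => (fx R w φ X n - mm w φ * fz R w n) / 2) :=
    mroX R (fx R w φ) (fz R w) (mm w φ) (mm_le w φ hφ) (fun X => fx_UF R hR w hw1 φ hφ.un X) (fz_UF R hR w hw1)
      (csx R hR w hw φ hφ)
  have h2 : ∀ᶠ X : ℝ in atTop, ∀ n : ℕ, (fx R w φ X (2 * n) - mm w φ * fz R w (2 * n)) / 2 =
      (if 2 ∣ R then 0 else w) * ((fx R w φ X n - mm w φ * fz R w n) / 2) := by
    filter_upwards [fx_two R hR w φ hφ] with X hX n
    rw [hX, fz_two R hR]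
    ring
  have hc : ‖(if 2 ∣ R then 0 else w : ℂ)‖ ≤ 1 := by
    split_ifs
    · simp
    · exact hw1.le
  have hMP := mrpX _ hbd _ hc h2 hM
  exact redBn n hn _ hbd (comb_GCX _ w hw1 _ _ h1 h0 _) (comb_TVX _ w hw1 _ _ h1 h0 _) (dsumD _ hbd (qdsX _ hbd hMP))

/-- replace the second function by its multiple of the base function -/
private theorem sn_second (n : ℕ) (hn : 1 ≤ n) (R : ℕ) (hR : 0 < R) (w : ℂ) (hw : w = 1 ∨ w = -1) (φ : ℝ → ℂ)
    (hφ : StepF φ) (f1 : ℝ → ℕ → ℂ) (h1 : FX f1 R.primeFactors w) (b : ℝ) (W : ℝ → ℝ → ℂ) (hW : TF b W) :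
    Tendsto (fun X : ℝ => (Sn n (f1 X) (fx R w φ X) (b * X) W X - mm w φ * Sn n (f1 X) (fz R w) (b * X) W X) / X)
      atTop (nhds 0) := by
  have hw1 : ‖w‖ = 1 := by rcases hw with h | h <;> simp [h]
  have h2 := fx_FX R hR w hw1 φ hφ
  have h0 := fz_FX R hR w hw1
  have hbd : ∀ (X : ℝ) (n : ℕ), ‖(fx R w φ X n - mm w φ * fz R w n) / 2‖ ≤ 1 := fun X n =>
    norm_comb _ _ _ (h2.bd X n) (h0.bd X n) (mm_le w φ hφ)
  have h := smXn n hn f1 _ h1.bd hbd (comb_PTn n hn _ w hw1 _ _ _ h1 h2 h0 (mm w φ)) (gn_pm n hn R hR w hw φ hφ) b W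
    hW 1 one_pos
  have h' := h.const_mul 2
  rw [mul_zero] at h'
  refine h'.congr fun X => ?_
  rw [one_mul, sn_comb]
  ring

/-- the same `w` at both places -/
private theorem sn_self (n : ℕ) (hn : 1 ≤ n) (R : ℕ) (hR : 0 < R) (w : ℂ) (hw1 : ‖w‖ = 1) (φ1 φ2 : ℝ → ℂ)
    (hφ1 : StepF φ1) (hφ2 : StepF φ2) (b : ℝ) (W : ℝ → ℝ → ℂ) (hW : TF b W) :
    Tendsto (fun X : ℝ => (Sn n (fx R w φ1 X) (fx R w φ2 X) (b * X) W X -
      mm w φ1 * mm w φ2 * Sn n (fz R w) (fz R w) (b * X) W X) / X) atTop (nhds 0) := by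
  have h1 := fx_FX R hR w hw1 φ1 hφ1
  have h2 := fx_FX R hR w hw1 φ2 hφ2
  have h0 := fz_FX R hR w hw1
  by_cases hw2 : w ^ 2 = 1
  · have hw : w = 1 ∨ w = -1 := by
      have h4 : (w - 1) * (w + 1) = 0 := by linear_combination hw2
      rcases mul_eq_zero.1 h4 with h5 | h5
      · exact Or.inl (sub_eq_zero.1 h5)
      · exact Or.inr (eq_neg_of_add_eq_zero_left h5)
    have t1 := sn_second n hn R hR w hw φ2 hφ2 (fx R w φ1) h1 b W hW
    have t2 := sn_second n hn R hR w hw φ1 hφ1 (fun _ => fz R w) h0 b (fun y t => W y (-t)) (tf_neg hW)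
    have t := t1.add (t2.const_mul (mm w φ2))
    rw [mul_zero, add_zero] at t
    refine t.congr fun X => ?_
    rw [sn_swap n hn (fx R w φ1 X) (fz R w), sn_swap n hn (fz R w) (fz R w) (b * X) W]
    ring
  · have hmm : mm w φ1 = 0 := by
      unfold mm
      rw [if_neg]
      rintro rfl
      exact hw2 (one_pow 2)
    have hP : PTn n (fx R w φ1) (fx R w φ2) := ptn n hn _ _ _ w w h1 h2 hw1 hw1
    have h := smXn n hn _ _ h1.bd h2.bd hP (gnA n hn _ h2.bd (gca_of _ w hw1 hw2 _ h2)) b W hW 1 one_pos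
    refine h.congr fun X => ?_
    rw [one_mul, hmm, zero_mul, zero_mul, sub_zero]

/-- PROOF. As `sx_second`, `sx_self`, `sx_lim` (m/G29.lean or G31: grep `theorem sx_lim`): `w1 ≠ w2`: `cls_lim` (and one of `mm w1 φ1`, `mm w2 φ2` is zero). `w1 = w2 = w`, `w^2 = 1`: `smXn` with `comb_PTn`, `gn_pm` replaces the second function by `mm w φ2 * fz R w`, `sn_swap` and the same for
the first; if `w = -1` then `mm = 0`, if `w = 1` this is the claim. `w^2 ≠ 1`: `smXn` with `ptn`, `gnA`, `gca_of`; `mm = 0`. -/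
theorem sn_lim (n : ℕ) (hn : 1 ≤ n) (R : ℕ) (hR : 0 < R) (w1 w2 : ℂ) (hw1 : ‖w1‖ = 1) (hw2 : ‖w2‖ = 1)
    (φ1 φ2 : ℝ → ℂ) (hφ1 : StepF φ1) (hφ2 : StepF φ2) (b : ℝ) (W : ℝ → ℝ → ℂ) (hW : TF b W) :
    Tendsto (fun X : ℝ => (Sn n (fx R w1 φ1 X) (fx R w2 φ2 X) (b * X) W X -
      mm w1 φ1 * mm w2 φ2 * Sn n (fz R 1) (fz R 1) (b * X) W X) / X) atTop (nhds 0) := by
  by_cases h : w1 = w2
  · subst h
    have t := sn_self n hn R hR w1 hw1 φ1 φ2 hφ1 hφ2 b W hW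
    by_cases hw : w1 = 1
    · subst hw
      exact t
    · have hmm : mm w1 φ1 = 0 := by
        unfold mm
        rw [if_neg hw]
      rw [hmm] at t ⊢
      simpa using t
  · have hmm : mm w1 φ1 * mm w2 φ2 = 0 := by
      unfold mm
      by_cases hw : w1 = 1
      · have h' : w2 ≠ 1 := fun h' => h (hw.trans h'.symm)
        rw [if_neg h', mul_zero]
      · rw [if_neg hw, zero_mul]
    have t := cls_lim n hn _ _ _ w1 w2 (fx_FX R hR w1 hw1 φ1 hφ1) (fx_FX R hR w2 hw2 φ2 hφ2) hw1 hw2 b W hW (Or.inl h)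
    refine t.congr fun X => ?_
    rw [hmm, zero_mul, sub_zero]

end Pool.Agent.FanL
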