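import Pool.Agent.Lib_MP_f1a94e_fl.SnLim

/-!
# Piece SNL-R: limits of the sums over pairs of determinant `n`, different `R1`, `R2`
-/

set_option autoImplicit false

namespace Pool.Agent.FanL

open Finset Pool.Agent.GaussMR Pool.Agent.OmAll Pool.Agent.OmEq Pool.Agent.LPr Pool.Agent.OrbL MeasureTheory Filter

private theorem fxmono {f : ℝ → ℕ → ℂ} {E E' : Finset ℕ} {ω : ℂ} (h : FX f E ω) (hE : E ⊆ E') : FX f E' ω := by
  refine ⟨h.mul, h.bd, fun T => ?_⟩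
  filter_upwards [h.pr T] with X hX p hp1 hp2 hp3 hp4
  exact hX p hp1 hp2 hp3 (fun h5 => hp4 (hE h5))

/-- replace the second function by its multiple of the base function -/
private theorem snr_second (n : ℕ) (hn : 1 ≤ n) (R : ℕ) (hR : 0 < R) (E : Finset ℕ) (hE : R.primeFactors ⊆ E) (w : ℂ)
    (hw : w = 1 ∨ w = -1) (φ : ℝ → ℂ) (hφ : StepF φ) (f1 : ℝ → ℕ → ℂ) (h1 : FX f1 E w) (b : ℝ) (W : ℝ → ℝ → ℂ)
    (hW : TF b W) :
    Tendsto (fun X : ℝ => (Sn n (f1 X) (fx R w φ X) (b * X) W X - mm w φ * Sn n (f1 X) (fz R w) (b * X) W X) / X)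
      atTop (nhds 0) := by
  have hw1 : ‖w‖ = 1 := by rcases hw with h | h <;> simp [h]
  have h2 := fx_FX R hR w hw1 φ hφ
  have h0 := fz_FX R hR w hw1
  have hbd : ∀ (X : ℝ) (n : ℕ), ‖(fx R w φ X n - mm w φ * fz R w n) / 2‖ ≤ 1 := fun X n =>
    norm_comb _ _ _ (h2.bd X n) (h0.bd X n) (mm_le w φ hφ)
  have h := smXn n hn f1 _ h1.bd hbd (comb_PTn n hn E w hw1 _ _ _ h1 (fxmono h2 hE) (fxmono h0 hE) (mm w φ))
    (gn_pm n hn R hR w hw φ hφ) b W hW 1 one_pos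
  have h' := h.const_mul 2
  rw [mul_zero] at h'
  refine h'.congr fun X => ?_
  rw [one_mul, sn_comb]
  ring

/-- the same `w` at both places -/
private theorem snr_self (n : ℕ) (hn : 1 ≤ n) (R1 R2 : ℕ) (hR1 : 0 < R1) (hR2 : 0 < R2) (w : ℂ) (hw1 : ‖w‖ = 1)
    (φ1 φ2 : ℝ → ℂ) (hφ1 : StepF φ1) (hφ2 : StepF φ2) (b : ℝ) (W : ℝ → ℝ → ℂ) (hW : TF b W) :
    Tendsto (fun X : ℝ => (Sn n (fx R1 w φ1 X) (fx R2 w φ2 X) (b * X) W X -
      mm w φ1 * mm w φ2 * Sn n (fz R1 w) (fz R2 w) (b * X) W X) / X) atTop (nhds 0) := by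
  have hE1 : R1.primeFactors ⊆ R1.primeFactors ∪ R2.primeFactors := subset_union_left
  have hE2 : R2.primeFactors ⊆ R1.primeFactors ∪ R2.primeFactors := subset_union_right
  have h1 := fxmono (fx_FX R1 hR1 w hw1 φ1 hφ1) hE1
  have h2 := fxmono (fx_FX R2 hR2 w hw1 φ2 hφ2) hE2
  have h0 := fxmono (fz_FX R2 hR2 w hw1) hE2
  by_cases hw2 : w ^ 2 = 1
  · have hw : w = 1 ∨ w = -1 := by
      have h4 : (w - 1) * (w + 1) = 0 := by linear_combination hw2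
      rcases mul_eq_zero.1 h4 with h5 | h5
      · exact Or.inl (sub_eq_zero.1 h5)
      · exact Or.inr (eq_neg_of_add_eq_zero_left h5)
    have t1 := snr_second n hn R2 hR2 _ hE2 w hw φ2 hφ2 (fx R1 w φ1) h1 b W hW
    have t2 := snr_second n hn R1 hR1 _ hE1 w hw φ1 hφ1 (fun _ => fz R2 w) h0 b (fun y t => W y (-t)) (tf_neg hW)
    have t := t1.add (t2.const_mul (mm w φ2))
    rw [mul_zero, add_zero] at t
    refine t.congr fun X => ?_
    rw [sn_swap n hn (fx R1 w φ1 X) (fz R2 w), sn_swap n hn (fz R1 w) (fz R2 w) (b * X) W]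
    ring
  · have hmm : mm w φ1 = 0 := by
      unfold mm
      rw [if_neg]
      rintro rfl
      exact hw2 (one_pow 2)
    have hP : PTn n (fx R1 w φ1) (fx R2 w φ2) := ptn n hn _ _ _ w w h1 h2 hw1 hw1
    have h := smXn n hn _ _ h1.bd h2.bd hP (gnA n hn _ h2.bd (gca_of _ w hw1 hw2 _ h2)) b W hW 1 one_pos
    refine h.congr fun X => ?_
    rw [one_mul, hmm, zero_mul, zero_mul, sub_zero]

/-- different `R1`, `R2` -/
theorem sn_limR (n : ℕ) (hn : 1 ≤ n) (R1 R2 : ℕ) (hR1 : 0 < R1) (hR2 : 0 < R2) (w1 w2 : ℂ) (hw1 : ‖w1‖ = 1)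
    (hw2 : ‖w2‖ = 1) (φ1 φ2 : ℝ → ℂ) (hφ1 : StepF φ1) (hφ2 : StepF φ2) (b : ℝ) (W : ℝ → ℝ → ℂ) (hW : TF b W) :
    Tendsto (fun X : ℝ => (Sn n (fx R1 w1 φ1 X) (fx R2 w2 φ2 X) (b * X) W X -
      mm w1 φ1 * mm w2 φ2 * Sn n (fz R1 1) (fz R2 1) (b * X) W X) / X) atTop (nhds 0) := by
  by_cases h : w1 = w2
  · subst h
    have t := snr_self n hn R1 R2 hR1 hR2 w1 hw1 φ1 φ2 hφ1 hφ2 b W hW
    by_cases hw : w1 = 1
    · subst hw
      exact t
    · have hmm : mm w1 φ1 = 0 := by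
        unfold mm
        rw [if_neg hw]
      rw [hmm] at t ⊢
      simpa using t
  · have hmm : mm w1 φ1 * mm w2 φ2 = 0 := by
      unfold mm
      by_cases hw : w1 = 1
      · have h' : w2 ≠ 1 := fun h' => h (hw.trans h'.symm)
        rw [if_neg h', mul_zero]
      · rw [if_neg hw, zero_mul]
    have t := cls_lim n hn (R1.primeFactors ∪ R2.primeFactors) _ _ w1 w2
      (fxmono (fx_FX R1 hR1 w1 hw1 φ1 hφ1) subset_union_left) (fxmono (fx_FX R2 hR2 w2 hw2 φ2 hφ2) subset_union_right)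
      hw1 hw2 b W hW (Or.inl h)
    refine t.congr fun X => ?_
    rw [hmm, zero_mul, sub_zero]

end Pool.Agent.FanL
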