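import Pool.Agent.Lib_MP_f1a94e_fl.KPat
import Pool.Agent.Lib_MP_f1a94e_fl.FinR

/-!
# Sums over `k`-tuples of members

Two members are uncorrelated; so (Bessel's inequality) every bounded weight is nearly uncorrelated with most members,
and `k` members are jointly independent, and independent of any event, for almost all `k`-tuples of members.
-/

set_option autoImplicit false

namespace Pool.Agent.FanL

open Finset Pool.Agent.GaussMR Pool.Agent.OmAll Pool.Agent.OmEq Pool.Agent.LPr Pool.Agent.OrbL Filter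

/-- Bessel's inequality for nearly orthogonal functions -/
theorem bes_fin (D : Finset (ℕ × ℕ)) (f : ℕ → ℕ × ℕ → ℝ) (G : ℕ × ℕ → ℝ) (hG : ∀ p, |G p| ≤ 1) (J : ℕ) (A B C : ℝ)
    (hA : (D.card : ℝ) ≤ A) (hB : ∀ j < J, ∑ p ∈ D, f j p * f j p ≤ B) (hC0 : 0 ≤ C)
    (hC : ∀ i < J, ∀ j < J, i ≠ j → |∑ p ∈ D, f i p * f j p| ≤ C) :
    ∑ j ∈ range J, |∑ p ∈ D, G p * f j p| ≤ √(A * (J * B + J * J * C)) := by
  set s : ℕ → ℝ := fun j => if 0 ≤ ∑ p ∈ D, G p * f j p then 1 else -1 with hs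
  have hs1 : ∀ j, s j = 1 ∨ s j = -1 := by
    intro j
    simp only [hs]
    split_ifs
    · exact Or.inl rfl
    · exact Or.inr rfl
  have e1 : ∑ j ∈ range J, |∑ p ∈ D, G p * f j p| = ∑ p ∈ D, G p * ∑ j ∈ range J, s j * f j p := by
    have e0 : ∀ j, |∑ p ∈ D, G p * f j p| = ∑ p ∈ D, G p * (s j * f j p) := by
      intro j
      have e : ∑ p ∈ D, G p * (s j * f j p) = s j * ∑ p ∈ D, G p * f j p := by
        rw [mul_sum]
        exact sum_congr rfl fun p _ => by ring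
      rw [e]
      simp only [hs]
      split_ifs with h
      · rw [abs_of_nonneg h, one_mul]
      · rw [abs_of_neg (not_le.1 h), neg_one_mul]
    rw [sum_congr rfl fun j _ => e0 j, sum_comm]
    exact sum_congr rfl fun p _ => (mul_sum _ _ _).symm
  rw [e1]
  refine (le_abs_self _).trans (Real.abs_le_sqrt ?_)
  refine (sum_mul_sq_le_sq_mul_sq _ _ _).trans ?_
  have h1 : ∑ p ∈ D, G p ^ 2 ≤ A := by
    refine le_trans (sum_le_card_nsmul D (fun p => G p ^ 2) 1 fun p _ => ?_) ?_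
    · have := hG p
      rw [abs_le] at this
      nlinarith
    · rw [nsmul_eq_mul, mul_one]
      exact hA
  have h2 : ∑ p ∈ D, (∑ j ∈ range J, s j * f j p) ^ 2 ≤ J * B + J * J * C := by
    have e2 : ∑ p ∈ D, (∑ j ∈ range J, s j * f j p) ^ 2 =
        ∑ i ∈ range J, ∑ j ∈ range J, s i * s j * ∑ p ∈ D, f i p * f j p := by
      have e3 : ∀ p ∈ D, (∑ j ∈ range J, s j * f j p) ^ 2 =
          ∑ i ∈ range J, ∑ j ∈ range J, s i * s j * (f i p * f j p) := by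
        intro p _
        rw [sq, sum_mul_sum]
        refine sum_congr rfl fun i _ => sum_congr rfl fun j _ => by ring
      rw [sum_congr rfl e3, sum_comm]
      refine sum_congr rfl fun i _ => ?_
      rw [sum_comm]
      refine sum_congr rfl fun j _ => ?_
      rw [mul_sum]
    rw [e2]
    have h3 : ∀ i ∈ range J, ∑ j ∈ range J, s i * s j * ∑ p ∈ D, f i p * f j p ≤ B + J * C := by
      intro i hi
      rw [← add_sum_erase _ _ hi]
      have h4 : s i * s i * ∑ p ∈ D, f i p * f i p ≤ B := by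
        have : s i * s i = 1 := by rcases hs1 i with h | h <;> rw [h] <;> norm_num
        rw [this, one_mul]
        exact hB i (mem_range.1 hi)
      have h5 : ∑ j ∈ (range J).erase i, s i * s j * ∑ p ∈ D, f i p * f j p ≤ J * C := by
        refine (sum_le_card_nsmul _ _ C fun j hj => ?_).trans ?_
        · rw [mem_erase] at hj
          have h6 := hC i (mem_range.1 hi) j (mem_range.1 hj.2) (Ne.symm hj.1)
          rw [abs_le] at h6
          rcases hs1 i with a | a <;> rcases hs1 j with b | b <;> rw [a, b] <;> linarith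
        · rw [nsmul_eq_mul]
          refine mul_le_mul_of_nonneg_right ?_ hC0
          have := card_erase_le (s := range J) (a := i)
          rw [card_range] at this
          exact_mod_cast this
      linarith
    refine (sum_le_card_nsmul _ _ _ h3).trans (le_of_eq ?_)
    rw [card_range, nsmul_eq_mul]
    ring
  have h3 : 0 ≤ ∑ p ∈ D, (∑ j ∈ range J, s j * f j p) ^ 2 := sum_nonneg fun p _ => sq_nonneg _
  have h4 : 0 ≤ A := le_trans (Nat.cast_nonneg _) hA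
  exact mul_le_mul h1 h2 h3 h4

/-- Bessel's inequality in the limit, uniformly in the weight -/
theorem bes_ev (D : ℝ → Finset (ℕ × ℕ)) (f : ℝ → ℕ → ℕ × ℕ → ℝ) (N V : ℝ)
    (hcard : ∀ ε : ℝ, 0 < ε → ∀ᶠ X : ℝ in atTop, ((D X).card : ℝ) ≤ (N + ε) * X)
    (hdiag : ∀ (j : ℕ) (ε : ℝ), 0 < ε → ∀ᶠ X : ℝ in atTop, ∑ p ∈ D X, f X j p * f X j p ≤ (V + ε) * X)
    (hoff : ∀ i j : ℕ, i ≠ j → Tendsto (fun X : ℝ => (∑ p ∈ D X, f X i p * f X j p) / X) atTop (nhds 0))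
    (J : ℕ) (ε : ℝ) (hε : 0 < ε) :
    ∀ᶠ X : ℝ in atTop, ∀ G : ℕ × ℕ → ℝ, (∀ p, |G p| ≤ 1) →
      ∑ j ∈ range J, |∑ p ∈ D X, G p * f X j p| ≤ (√(N * (J * V)) + ε) * X := by
  have hcont : Continuous fun δ : ℝ => √((N + δ) * (J * (V + δ) + J * J * δ)) := by fun_prop
  have h0 : ∀ᶠ δ : ℝ in nhds 0, √((N + δ) * (J * (V + δ) + J * J * δ)) < √(N * (J * V)) + ε := by
    refine hcont.continuousAt.eventually (gt_mem_nhds ?_)
    simp only [add_zero, mul_zero]
    linarith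
  obtain ⟨δ, hδ1, hδ⟩ := ((h0.filter_mono nhdsWithin_le_nhds).and (self_mem_nhdsWithin (s := Set.Ioi (0 : ℝ)))).exists
  have hδ0 : (0 : ℝ) < δ := hδ
  have a1 : ∀ᶠ X : ℝ in atTop, ∀ j ∈ range J, ∑ p ∈ D X, f X j p * f X j p ≤ (V + δ) * X :=
    (eventually_all_finset _).2 fun j _ => hdiag j δ hδ0
  have a2 : ∀ᶠ X : ℝ in atTop, ∀ i ∈ range J, ∀ j ∈ range J, i ≠ j → |∑ p ∈ D X, f X i p * f X j p| ≤ δ * X := by
    refine (eventually_all_finset _).2 fun i _ => (eventually_all_finset _).2 fun j _ => ?_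
    by_cases hij : i = j
    · exact Eventually.of_forall fun X h => absurd hij h
    · have h1 := (hoff i j hij).abs
      rw [abs_zero] at h1
      filter_upwards [h1.eventually (gt_mem_nhds hδ0), eventually_gt_atTop (0 : ℝ)] with X h2 h3 _
      rw [abs_div, abs_of_pos h3, div_lt_iff₀ h3] at h2
      exact h2.le
  filter_upwards [hcard δ hδ0, a1, a2, eventually_gt_atTop (0 : ℝ)] with X b1 b2 b3 b4 G hG
  refine (bes_fin (D X) (f X) G hG J _ _ (δ * X) b1 (fun j hj => b2 j (mem_range.2 hj)) (by positivity)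
    (fun i hi j hj => b3 i (mem_range.2 hi) j (mem_range.2 hj))).trans ?_
  have e1 : (N + δ) * X * (J * ((V + δ) * X) + J * J * (δ * X)) =
      ((N + δ) * (J * (V + δ) + J * J * δ)) * (X * X) := by ring
  rw [e1, Real.sqrt_mul' _ (mul_self_nonneg X), Real.sqrt_mul_self b4.le]
  exact mul_le_mul_of_nonneg_right hδ1.le b4.le

private theorem abs_prod_le {k : ℕ} (f : Fin k → ℝ) (hf : ∀ l, |f l| ≤ 1) : |∏ l, f l| ≤ 1 := by
  rw [abs_prod]
  exact prod_le_one (fun l _ => abs_nonneg _) fun l _ => hf l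

private theorem sum_cons {k J : ℕ} (F : (Fin (k + 1) → Fin J) → ℝ) :
    ∑ a : Fin (k + 1) → Fin J, F a = ∑ a0 : Fin J, ∑ a : Fin k → Fin J, F (Fin.cons a0 a) := by
  rw [← (Fin.consEquiv fun _ => Fin J).sum_comp, Fintype.sum_prod_type]
  rfl

/-- from one member to `k`-tuples of members -/
theorem tup (D : Finset (ℕ × ℕ)) (J : ℕ) (M : ℝ) : ∀ (k : ℕ) (u v : Fin k → ℕ → ℕ × ℕ → ℝ),
    (∀ l j p, |u l j p| ≤ 1) → (∀ l j p, |v l j p| ≤ 1) →
    (∀ l, ∀ G : ℕ × ℕ → ℝ, (∀ p, |G p| ≤ 1) → ∑ j ∈ range J, |∑ p ∈ D, G p * (u l j p - v l j p)| ≤ M) →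
    ∀ G : ℕ × ℕ → ℝ, (∀ p, |G p| ≤ 1) →
      ∑ a : Fin k → Fin J, |∑ p ∈ D, G p * (∏ l, u l (a l) p - ∏ l, v l (a l) p)| ≤ k * (J : ℝ) ^ (k - 1) * M := by
  intro k
  induction k with
  | zero =>
    intro u v _ _ _ G _
    simp
  | succ k ih =>
    intro u v hu hv h G hG
    rw [sum_cons]
    have e1 : ∀ (a0 : Fin J) (a : Fin k → Fin J),
        |∑ p ∈ D, G p * (∏ l, u l ((Fin.cons a0 a : Fin (k + 1) → Fin J) l) p -
          ∏ l, v l ((Fin.cons a0 a : Fin (k + 1) → Fin J) l) p)| ≤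
        |∑ p ∈ D, (G p * u 0 a0 p) * (∏ l : Fin k, u l.succ (a l) p - ∏ l : Fin k, v l.succ (a l) p)| +
        |∑ p ∈ D, (G p * ∏ l : Fin k, v l.succ (a l) p) * (u 0 a0 p - v 0 a0 p)| := by
      intro a0 a
      refine le_trans (le_of_eq ?_) (abs_add_le _ _)
      rw [← sum_add_distrib]
      congr 1
      refine sum_congr rfl fun p _ => ?_
      rw [Fin.prod_univ_succ, Fin.prod_univ_succ]
      simp only [Fin.cons_zero, Fin.cons_succ]
      ring
    have hone : ∀ x y : ℝ, |x| ≤ 1 → |y| ≤ 1 → |x * y| ≤ 1 := by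
      intro x y hx hy
      rw [abs_mul]
      exact mul_le_one₀ hx (abs_nonneg _) hy
    have h1 : ∑ a0 : Fin J, ∑ a : Fin k → Fin J,
        |∑ p ∈ D, (G p * u 0 a0 p) * (∏ l : Fin k, u l.succ (a l) p - ∏ l : Fin k, v l.succ (a l) p)| ≤
        k * (J : ℝ) ^ k * M := by
      refine (sum_le_card_nsmul _ _ (k * (J : ℝ) ^ (k - 1) * M) fun a0 _ => ?_).trans ?_
      · exact ih (fun l => u l.succ) (fun l => v l.succ) (fun l => hu _) (fun l => hv _) (fun l => h _)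
          (fun p => G p * u 0 a0 p) (fun p => hone _ _ (hG p) (hu _ _ _))
      · rw [card_univ, Fintype.card_fin, nsmul_eq_mul]
        rcases Nat.eq_zero_or_pos k with h0 | h0
        · rw [h0]
          simp
        · have e2 : (J : ℝ) ^ k = J * (J : ℝ) ^ (k - 1) := by
            rw [← pow_succ']
            congr 1
            omega
          rw [e2]
          exact le_of_eq (by ring)
    have h2 : ∑ a0 : Fin J, ∑ a : Fin k → Fin J,
        |∑ p ∈ D, (G p * ∏ l : Fin k, v l.succ (a l) p) * (u 0 a0 p - v 0 a0 p)| ≤ (J : ℝ) ^ k * M := by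
      rw [sum_comm]
      refine (sum_le_card_nsmul _ _ M fun a _ => ?_).trans ?_
      · have h3 := h 0 (fun p => G p * ∏ l : Fin k, v l.succ (a l) p)
          (fun p => hone _ _ (hG p) (abs_prod_le _ fun l => hv _ _ _))
        rw [sum_range] at h3
        exact h3
      · rw [card_univ, Fintype.card_fun, Fintype.card_fin, Fintype.card_fin, nsmul_eq_mul]
        push_cast
        exact le_rfl
    refine (sum_le_sum fun a0 _ => sum_le_sum fun a _ => e1 a0 a).trans ?_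
    simp only [sum_add_distrib]
    refine (add_le_add h1 h2).trans (le_of_eq ?_)
    rw [Nat.add_sub_cancel]
    push_cast
    ring

/-! ### the functions of one member -/

open Classical in
/-- the indicator of the condition -/
noncomputable def iC (R q a : ℕ) (u v : ℕ → ℝ) (r : ℕ) (k : ℕ → ℕ) (X : ℝ) (n : ℕ) : ℝ :=
  if CndR R q a u v r k X n then 1 else 0

open Classical in
/-- the indicator of the numbers prime to `R` -/
noncomputable def iR (R n : ℕ) : ℝ := if n.Coprime R then 1 else 0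

open Classical in
theorem tup_orth (R : ℕ) (hR : 0 < R) (q : ℕ) (hq : 0 < q) (K : ℕ) (u0 : ℝ) (u v : ℕ → ℝ) (r : ℕ) (k : ℕ → ℕ) (c : ℝ)
    (h1 : WD K u0 u v r k c) (a : ℕ) (α β : ℝ) (hα : 0 ≤ α) (hαβ : α ≤ β) (i j : ℕ) (hij : i ≠ j) :
    Tendsto (fun X : ℝ => (∑ P ∈ DP X α β, (iC R q a u v r k X (er P i) - c / q * iR R (er P i)) *
      (iC R q a u v r k X (er P j) - c / q * iR R (er P j))) / X) atTop (nhds 0) := by
  set p : ℝ := c / q with hp
  set F : ℝ → ℕ → ℕ × ℕ → ℝ := fun X j P => if CndR R q a u v r k X (er P j) then 1 else 0 with hF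
  set E : ℕ → ℕ × ℕ → ℝ := fun j P => if (er P j).Coprime R then 1 else 0 with hE
  have w0 := WD.none K u0 h1.pos h1.big u v k
  have a1 := law_pairR R R hR hR q q hq hq K u0 u v u v r r k k c c h1 h1 a a i j hij α β hα hαβ
  have a2 := law_pairR R R hR hR q 1 hq one_pos K u0 u v u v r 0 k k c 1 h1 w0 a 0 i j hij α β hα hαβ
  have a3 := law_pairR R R hR hR 1 q one_pos hq K u0 u v u v 0 r k k 1 c w0 h1 0 a i j hij α β hα hαβ
  have a4 := (a1.sub (a2.const_mul p)).sub (a3.const_mul p)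
  rw [show (0 : ℝ) - p * 0 - p * 0 = 0 by ring] at a4
  refine a4.congr (fun X => ?_)
  simp only [vr_none]
  have e1 : ∑ P ∈ DP X α β, (iC R q a u v r k X (er P i) - p * iR R (er P i)) *
        (iC R q a u v r k X (er P j) - p * iR R (er P j)) =
      ∑ P ∈ DP X α β, F X i P * F X j P - p * ∑ P ∈ DP X α β, F X i P * E j P -
      p * ∑ P ∈ DP X α β, E i P * F X j P + p ^ 2 * ∑ P ∈ DP X α β, E i P * E j P := by
    rw [mul_sum, mul_sum, mul_sum, ← sum_sub_distrib, ← sum_sub_distrib, ← sum_add_distrib]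
    refine sum_congr rfl fun P _ => ?_
    simp only [hF, hE, iC, iR]
    ring
  rw [e1]
  simp only [hF, hE]
  rw [vr_sum, vr_sum, vr_sum, vr_sum]
  have e2 : c * c / ((q : ℝ) * q) = p * p := by rw [hp, div_mul_div_comm]
  have e3 : c * 1 / ((q : ℝ) * ((1 : ℕ) : ℝ)) = p := by rw [hp]; push_cast; rw [mul_one, mul_one]
  have e4 : 1 * c / (((1 : ℕ) : ℝ) * (q : ℝ)) = p := by rw [hp]; push_cast; rw [one_mul, one_mul]
  rw [e2, e3, e4]
  ring

open Classical in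
theorem tup_diag (R : ℕ) (hR : 0 < R) (q : ℕ) (hq : 0 < q) (K : ℕ) (u0 : ℝ) (u v : ℕ → ℝ) (r : ℕ) (k : ℕ → ℕ) (c : ℝ)
    (h1 : WD K u0 u v r k c) (a : ℕ) (α β : ℝ) (hα : 0 ≤ α) (hαβ : α ≤ β) (j : ℕ) :
    Tendsto (fun X : ℝ => (∑ P ∈ DP X α β, (iC R q a u v r k X (er P j) - c / q * iR R (er P j)) *
      (iC R q a u v r k X (er P j) - c / q * iR R (er P j)) -
        c / q * (1 - c / q) * ∑ P ∈ DP X α β, iR R (er P j)) / X) atTop (nhds 0) := by
  set p : ℝ := c / q with hp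
  have a1 := (law_oneR R hR q hq K u0 u v r k c h1 a j α β hα hαβ).const_mul (1 - 2 * p)
  rw [mul_zero] at a1
  refine a1.congr (fun X => ?_)
  have e1 : ∑ P ∈ DP X α β, (iC R q a u v r k X (er P j) - p * iR R (er P j)) *
        (iC R q a u v r k X (er P j) - p * iR R (er P j)) =
      (1 - 2 * p) * ∑ P ∈ DP X α β, iC R q a u v r k X (er P j) + p ^ 2 * ∑ P ∈ DP X α β, iR R (er P j) := by
    rw [mul_sum, mul_sum, ← sum_add_distrib]
    refine sum_congr rfl fun P _ => ?_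
    have h2 : iC R q a u v r k X (er P j) * iR R (er P j) = iC R q a u v r k X (er P j) := by
      unfold iC iR
      by_cases h : CndR R q a u v r k X (er P j)
      · rw [if_pos h, if_pos h.1, one_mul]
      · rw [if_neg h, zero_mul]
    have h3 : iC R q a u v r k X (er P j) * iC R q a u v r k X (er P j) = iC R q a u v r k X (er P j) := by
      unfold iC
      split_ifs <;> ring
    have h4 : iR R (er P j) * iR R (er P j) = iR R (er P j) := by
      unfold iR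
      split_ifs <;> ring
    linear_combination h3 - 2 * p * h2 + p ^ 2 * h4
  rw [e1]
  simp only [iC, iR]
  rw [vr_sum1, vr_sum1]
  ring

theorem iR_01 (R n : ℕ) : 0 ≤ iR R n ∧ iR R n ≤ 1 := by
  unfold iR
  split_ifs <;> norm_num

theorem iC_01 (R q a : ℕ) (u v : ℕ → ℝ) (r : ℕ) (k : ℕ → ℕ) (X : ℝ) (n : ℕ) :
    0 ≤ iC R q a u v r k X n ∧ iC R q a u v r k X n ≤ 1 := by
  unfold iC
  split_ifs <;> norm_num

theorem ev_card (N : ℝ) (D : ℝ → Finset (ℕ × ℕ)) (h : Tendsto (fun X : ℝ => ((D X).card : ℝ) / X) atTop (nhds N))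
    (ε : ℝ) (hε : 0 < ε) : ∀ᶠ X : ℝ in atTop, ((D X).card : ℝ) ≤ (N + ε) * X := by
  filter_upwards [h.eventually (gt_mem_nhds (show N < N + ε by linarith)), eventually_gt_atTop (0 : ℝ)] with X h1 h2
  rw [div_lt_iff₀ h2] at h1
  exact h1.le

/-- one member against all weights -/
theorem tup_one (κ : ℝ) (hκ : ∀ α β : ℝ, 0 ≤ α → α ≤ β →
      Tendsto (fun X : ℝ => ((DP X α β).card : ℝ) / X) atTop (nhds (κ * (β - α))))
    (R : ℕ) (hR : 0 < R) (q : ℕ) (hq : 0 < q) (K : ℕ) (u0 : ℝ) (u v : ℕ → ℝ) (r : ℕ) (k : ℕ → ℕ) (c : ℝ)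
    (h1 : WD K u0 u v r k c) (a : ℕ) (α β : ℝ) (hα : 0 ≤ α) (hαβ : α ≤ β) (J : ℕ) (ε : ℝ) (hε : 0 < ε) :
    ∀ᶠ X : ℝ in atTop, ∀ G : ℕ × ℕ → ℝ, (∀ p, |G p| ≤ 1) →
      ∑ j ∈ range J, |∑ p ∈ DP X α β, G p * (iC R q a u v r k X (er p j) - c / q * iR R (er p j))| ≤
      (√(κ * (β - α) * (J * (κ * (β - α) / 4))) + ε) * X := by
  refine bes_ev (fun X => DP X α β) (fun X j p => iC R q a u v r k X (er p j) - c / q * iR R (er p j))
    (κ * (β - α)) (κ * (β - α) / 4) (fun ε hε => ev_card _ _ (hκ α β hα hαβ) ε hε) ?_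
    (fun i j hij => tup_orth R hR q hq K u0 u v r k c h1 a α β hα hαβ i j hij) J ε hε
  intro j ε hε
  have a1 := tup_diag R hR q hq K u0 u v r k c h1 a α β hα hαβ j
  filter_upwards [a1.eventually (gt_mem_nhds (show (0 : ℝ) < ε / 2 by linarith)),
    ev_card _ _ (hκ α β hα hαβ) ε hε, eventually_gt_atTop (0 : ℝ)] with X b1 b2 b3
  rw [div_lt_iff₀ b3] at b1
  have c1 : ∑ P ∈ DP X α β, iR R (er P j) ≤ (DP X α β).card := by
    refine (sum_le_card_nsmul _ _ 1 fun P _ => (iR_01 _ _).2).trans ?_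
    rw [nsmul_eq_mul, mul_one]
  have c2 : 0 ≤ ∑ P ∈ DP X α β, iR R (er P j) := sum_nonneg fun P _ => (iR_01 _ _).1
  have c3 : c / q * (1 - c / q) ≤ 1 / 4 := by nlinarith [sq_nonneg (c / q - 1 / 2)]
  have c4 : c / q * (1 - c / q) * ∑ P ∈ DP X α β, iR R (er P j) ≤ 1 / 4 * ((κ * (β - α) + ε) * X) :=
    (mul_le_mul_of_nonneg_right c3 c2).trans (mul_le_mul_of_nonneg_left (c1.trans b2) (by norm_num))
  have c5 : 0 < ε * X := mul_pos hε b3
  nlinarith

private theorem prod_ind {n : ℕ} (P : Fin n → Prop) [∀ l, Decidable (P l)] [Decidable (∀ l, P l)] :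
    ∏ l, (if P l then (1 : ℝ) else 0) = if ∀ l, P l then 1 else 0 := by
  rw [Finset.prod_ite_zero]
  simp

open Classical in
private theorem sum_ind {n : ℕ} (D : Finset (ℕ × ℕ)) (E : Set (ℕ × ℕ)) (P : Fin n → ℕ × ℕ → Prop)
    [∀ l, DecidablePred (P l)] :
    ∑ p ∈ D, (if p ∈ E then (1 : ℝ) else 0) * ∏ l, (if P l p then (1 : ℝ) else 0) =
      ((D.filter (fun p => p ∈ E ∧ ∀ l, P l p)).card : ℝ) := by
  rw [card_filter]
  push_cast
  refine sum_congr rfl fun p _ => ?_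
  rw [prod_ind]
  by_cases h1 : p ∈ E
  · by_cases h2 : ∀ l, P l p
    · simp [h1, h2]
    · simp [h2]
  · simp [h1]

private theorem sqrt_half (N : ℝ) (hN : 0 ≤ N) (J : ℕ) : √(N * (J * (N / 4))) = N / 2 * √J := by
  rw [show N * ((J : ℝ) * (N / 4)) = (N / 2) ^ 2 * J by ring, Real.sqrt_mul (sq_nonneg _),
    Real.sqrt_sq (by linarith)]

private theorem dens_01 (P : ℝ → ℕ → Prop) (c : ℝ)
    (h : Tendsto (fun x : ℝ => (Set.ncard {m : ℕ | 1 ≤ m ∧ (m : ℝ) ≤ x ∧ P x m} : ℝ) / x) atTop (nhds c)) :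
    0 ≤ c ∧ c ≤ 1 := by
  constructor
  · refine ge_of_tendsto h ?_
    filter_upwards [eventually_gt_atTop (0 : ℝ)] with x hx
    positivity
  · refine le_of_tendsto h ?_
    filter_upwards [eventually_gt_atTop (0 : ℝ)] with x hx
    rw [div_le_one hx]
    have h1 : Set.ncard {m : ℕ | 1 ≤ m ∧ (m : ℝ) ≤ x ∧ P x m} ≤ ((Icc 1 ⌊x⌋₊ : Finset ℕ) : Set ℕ).ncard := by
      refine Set.ncard_le_ncard ?_ (Finset.finite_toSet _)
      intro m hm
      rw [Set.mem_ofPred_eq] at hm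
      rw [mem_coe, mem_Icc]
      exact ⟨hm.1, Nat.le_floor hm.2.1⟩
    rw [Set.ncard_coe_finset, Nat.card_Icc, Nat.add_sub_cancel] at h1
    have h2 : (Set.ncard {m : ℕ | 1 ≤ m ∧ (m : ℝ) ≤ x ∧ P x m} : ℝ) ≤ (⌊x⌋₊ : ℝ) := by exact_mod_cast h1
    exact h2.trans (Nat.floor_le hx.le)

open Classical in
/-- the law for almost all `n`-tuples of members -/
theorem tup_law (κ : ℝ) (hκ0 : 0 < κ) (hκ : ∀ α β : ℝ, 0 ≤ α → α ≤ β →
      Tendsto (fun X : ℝ => ((DP X α β).card : ℝ) / X) atTop (nhds (κ * (β - α))))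
    (n R : ℕ) (hR : 0 < R) (q : Fin n → ℕ) (hq : ∀ l, 0 < q l) (u v : Fin n → ℕ → ℝ) (r : Fin n → ℕ)
    (k : Fin n → ℕ → ℕ) (hu : ∀ l, ∀ i < r l, 0 < u l i ∧ u l i ≤ v l i) : ∃ c : Fin n → ℝ,
      (∀ l, Tendsto (fun x : ℝ => (Set.ncard {m : ℕ | 1 ≤ m ∧ (m : ℝ) ≤ x ∧
        ∀ i < r l, wc x (u l i) (v l i) m = k l i} : ℝ) / x) atTop (nhds (c l))) ∧
      ∀ (a : Fin n → ℤ) (α β : ℝ) (J : ℕ) (ε : ℝ), 0 ≤ α → α ≤ β → 0 < ε → ∀ᶠ x : ℝ in atTop,
        ∀ E : Set (ℕ × ℕ), ∑ j : Fin n → Fin J,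
          |(Set.ncard {p | p ∈ PS x α β ∧ (p ∈ E ∧
              ∀ l, PrfR R (q l) (a l) (u l) (v l) (r l) (k l) x (er p (j l)))} : ℝ) -
            (∏ l, c l / q l) * Set.ncard {p | p ∈ PS x α β ∧ (p ∈ E ∧ ∀ l, (er p (j l)).Coprime R)}| ≤
          (κ * (β - α) * n / 2 * J ^ (n - 1) * √J + ε) * x := by
  have hex : ∀ l, ∃ (c : ℝ) (K : ℕ) (u0 : ℝ), WD K u0 (u l) (v l) (r l) (k l) c ∧
      Tendsto (fun x : ℝ => (Set.ncard {m : ℕ | 1 ≤ m ∧ (m : ℝ) ≤ x ∧
        ∀ i < r l, wc x (u l i) (v l i) m = k l i} : ℝ) / x) atTop (nhds c) := by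
    intro l
    obtain ⟨u1, hu1, hu1'⟩ := exists_u0 (u l) (r l) (fun i hi => (hu l i hi).1)
    have hur : ∀ i < r l, u1 ≤ u l i ∧ u l i ≤ v l i := fun i hi => ⟨hu1' i hi, (hu l i hi).2⟩
    obtain ⟨K, hK, hk, -⟩ := fin_exists_K u1 hu1 (r l) (r l) (k l) (k l)
    obtain ⟨c, hc, hc1⟩ := int_lawG K u1 hu1 (u l) (v l) (r l) hur hK (k l) hk
    exact ⟨c, K, u1, ⟨hu1, hK, hur, hk, hc⟩, hc1⟩
  choose c K u0 hW hd using hex
  refine ⟨c, hd, ?_⟩
  intro a α β J ε hα hαβ hε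
  have hexa : ∀ l, ∃ a' : ℕ, ∀ m : ℕ, m ≡ a' [MOD q l] ↔ (m : ℤ) ≡ a l [ZMOD q l] := by
    intro l
    obtain ⟨a', -, ha⟩ := exists_nat_cl (q l) (hq l) (a l)
    exact ⟨a', fun m => ha m⟩
  choose a' ha' using hexa
  have hc01 : ∀ l, 0 ≤ c l / q l ∧ c l / q l ≤ 1 := by
    intro l
    obtain ⟨h1, h2⟩ := dens_01 _ _ (hd l)
    have h3 : (1 : ℝ) ≤ q l := by exact_mod_cast hq l
    exact ⟨by positivity, (div_le_one (by linarith)).2 (h2.trans h3)⟩
  set N : ℝ := κ * (β - α) with hN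
  have hN0 : 0 ≤ N := mul_nonneg hκ0.le (by linarith)
  set δ : ℝ := ε / (n * (J : ℝ) ^ (n - 1) + 1) with hδ
  have hp : (0 : ℝ) < n * (J : ℝ) ^ (n - 1) + 1 := by positivity
  have hδ0 : 0 < δ := div_pos hε hp
  have hall : ∀ᶠ X : ℝ in atTop, ∀ l : Fin n, ∀ G : ℕ × ℕ → ℝ, (∀ p, |G p| ≤ 1) →
      ∑ j ∈ range J, |∑ p ∈ DP X α β, G p * (iC R (q l) (a' l) (u l) (v l) (r l) (k l) X (er p j) -
        c l / q l * iR R (er p j))| ≤ (√(N * (J * (N / 4))) + δ) * X :=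
    eventually_all.2 fun l => tup_one κ hκ R hR (q l) (hq l) (K l) (u0 l) (u l) (v l) (r l) (k l) (c l) (hW l) (a' l)
      α β hα hαβ J δ hδ0
  filter_upwards [hall, eventually_ge_atTop (0 : ℝ)] with X hX hX0 E
  have h1 := tup (DP X α β) J ((√(N * (J * (N / 4))) + δ) * X) n
    (fun l j p => iC R (q l) (a' l) (u l) (v l) (r l) (k l) X (er p j))
    (fun l j p => c l / q l * iR R (er p j))
    (fun l j p => by
      obtain ⟨h1, h2⟩ := iC_01 R (q l) (a' l) (u l) (v l) (r l) (k l) X (er p j)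
      rw [abs_of_nonneg h1]
      exact h2)
    (fun l j p => by
      obtain ⟨h1, h2⟩ := iR_01 R (er p j)
      obtain ⟨h3, h4⟩ := hc01 l
      rw [abs_of_nonneg (mul_nonneg h3 h1)]
      exact mul_le_one₀ h4 h1 h2)
    hX (fun p => if p ∈ E then 1 else 0)
    (fun p => by split_ifs <;> norm_num)
  have h2 : ∀ j : Fin n → Fin J,
      (Set.ncard {p | p ∈ PS X α β ∧ (p ∈ E ∧
              ∀ l, PrfR R (q l) (a l) (u l) (v l) (r l) (k l) X (er p (j l)))} : ℝ) -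
            (∏ l, c l / q l) * Set.ncard {p | p ∈ PS X α β ∧ (p ∈ E ∧ ∀ l, (er p (j l)).Coprime R)} =
      ∑ p ∈ DP X α β, (if p ∈ E then (1 : ℝ) else 0) *
        (∏ l, iC R (q l) (a' l) (u l) (v l) (r l) (k l) X (er p (j l)) -
        ∏ l, (c l / q l * iR R (er p (j l)))) := by
    intro j
    have e1 : ∑ p ∈ DP X α β, (if p ∈ E then (1 : ℝ) else 0) *
        (∏ l, iC R (q l) (a' l) (u l) (v l) (r l) (k l) X (er p (j l)) -
        ∏ l, (c l / q l * iR R (er p (j l)))) =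
        ∑ p ∈ DP X α β, (if p ∈ E then (1 : ℝ) else 0) *
          ∏ l, iC R (q l) (a' l) (u l) (v l) (r l) (k l) X (er p (j l)) -
        (∏ l, c l / q l) * ∑ p ∈ DP X α β, (if p ∈ E then (1 : ℝ) else 0) * ∏ l, iR R (er p (j l)) := by
      rw [mul_sum, ← sum_sub_distrib]
      refine sum_congr rfl fun p _ => ?_
      rw [prod_mul_distrib]
      ring
    rw [e1]
    simp only [iC, iR]
    rw [sum_ind (DP X α β) E (fun l p => CndR R (q l) (a' l) (u l) (v l) (r l) (k l) X (er p (j l))),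
      sum_ind (DP X α β) E (fun l p => (er p (j l)).Coprime R),
      ps_card_iff X α β hX0 (fun p => p ∈ E ∧ ∀ l, PrfR R (q l) (a l) (u l) (v l) (r l) (k l) X (er p (j l)))
        (fun p => p ∈ E ∧ ∀ l, CndR R (q l) (a' l) (u l) (v l) (r l) (k l) X (er p (j l)))
        (fun p => and_congr Iff.rfl (forall_congr' fun l => and_congr Iff.rfl (and_congr (ha' l _) Iff.rfl))),
      ps_card_iff X α β hX0 (fun p => p ∈ E ∧ ∀ l, (er p (j l)).Coprime R)
        (fun p => p ∈ E ∧ ∀ l, (er p (j l)).Coprime R) (fun p => Iff.rfl)]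
  rw [sum_congr rfl fun j _ => congrArg abs (h2 j)]
  refine h1.trans ?_
  rw [sqrt_half N hN0 J]
  have h3 : (n : ℝ) * (J : ℝ) ^ (n - 1) * δ ≤ ε := by
    rw [hδ, mul_div_assoc', div_le_iff₀ hp]
    nlinarith
  have h4 : (n : ℝ) * (J : ℝ) ^ (n - 1) * ((N / 2 * √J + δ) * X) =
      (N * n / 2 * J ^ (n - 1) * √J + n * (J : ℝ) ^ (n - 1) * δ) * X := by ring
  rw [h4]
  exact mul_le_mul_of_nonneg_right (by linarith) hX0

/-- the Liouville function at almost all `n`-tuples of members -/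
theorem tup_lam (κ : ℝ) (hκ0 : 0 < κ) (hκ : ∀ α β : ℝ, 0 ≤ α → α ≤ β →
      Tendsto (fun X : ℝ => ((DP X α β).card : ℝ) / X) atTop (nhds (κ * (β - α))))
    (n : ℕ) (α β : ℝ) (J : ℕ) (ε : ℝ) (hα : 0 ≤ α) (hαβ : α ≤ β) (hε : 0 < ε) : ∀ᶠ x : ℝ in atTop,
        ∀ G : ℕ × ℕ → ℝ, (∀ p, |G p| ≤ 1) → ∑ j : Fin (n + 1) → Fin J,
          |∑ p ∈ DP x α β, G p * ∏ l, (lx p (j l) : ℝ)| ≤
          (κ * (β - α) * J ^ n * √J + ε) * x := by
  set N : ℝ := κ * (β - α) with hN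
  have hN0 : 0 ≤ N := mul_nonneg hκ0.le (by linarith)
  set δ : ℝ := ε / ((J : ℝ) ^ n + 1) with hδ
  have hp : (0 : ℝ) < (J : ℝ) ^ n + 1 := by positivity
  have hδ0 : 0 < δ := div_pos hε hp
  have hs : ∀ (p : ℕ × ℕ) (j : ℕ), (lx p j : ℝ) = 1 ∨ (lx p j : ℝ) = -1 := by
    intro p j
    have h : lx p j = 1 ∨ lx p j = -1 := by
      unfold lx lam
      exact neg_one_pow_eq_or ℤ _
    rcases h with h | h
    · left
      rw [h]
      norm_num
    · right
      rw [h]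
      norm_num
  have h1 := bes_ev (fun X => DP X α β) (fun _ j p => (lx p j : ℝ)) N N
    (fun ε hε => ev_card _ _ (hκ α β hα hαβ) ε hε)
    (fun j ε hε => by
      filter_upwards [ev_card _ _ (hκ α β hα hαβ) ε hε] with X hX
      refine le_trans (le_of_eq ?_) hX
      have e : ∀ p ∈ DP X α β, (lx p j : ℝ) * (lx p j : ℝ) = 1 := by
        intro p _
        rcases hs p j with h | h <;> rw [h] <;> norm_num
      rw [sum_congr rfl e, sum_const, nsmul_eq_mul, mul_one])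
    (fun i j hij => by
      have h := lx_pair i j hij α β hα hαβ
      exact h.congr fun X => rfl) J δ hδ0
  filter_upwards [h1, eventually_ge_atTop (0 : ℝ)] with X hX hX0 G hG
  rw [sum_cons, sum_comm]
  have e1 : √(N * (J * N)) = N * √J := by
    rw [show N * ((J : ℝ) * N) = N ^ 2 * J by ring, Real.sqrt_mul (sq_nonneg _), Real.sqrt_sq hN0]
  rw [e1] at hX
  refine (sum_le_card_nsmul _ _ ((N * √J + δ) * X) fun a _ => ?_).trans ?_
  · have h3 := hX (fun p => G p * ∏ l : Fin n, (lx p (a l) : ℝ)) (fun p => by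
      rw [abs_mul]
      refine mul_le_one₀ (hG p) (abs_nonneg _) (abs_prod_le _ fun l => ?_)
      rcases hs p (a l) with h | h <;> rw [h] <;> norm_num)
    rw [sum_range] at h3
    refine le_trans (le_of_eq ?_) h3
    refine sum_congr rfl fun a0 _ => ?_
    congr 1
    refine sum_congr rfl fun p _ => ?_
    rw [Fin.prod_univ_succ]
    simp only [Fin.cons_zero, Fin.cons_succ]
    ring
  · rw [card_univ, Fintype.card_fun, Fintype.card_fin, Fintype.card_fin, nsmul_eq_mul]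
    push_cast
    have h3 : (J : ℝ) ^ n * δ ≤ ε := by
      rw [hδ, mul_div_assoc', div_le_iff₀ hp]
      nlinarith [pow_nonneg (Nat.cast_nonneg (α := ℝ) J) n]
    have h4 : (J : ℝ) ^ n * ((N * √J + δ) * X) = (N * J ^ n * √J + (J : ℝ) ^ n * δ) * X := by ring
    rw [h4]
    exact mul_le_mul_of_nonneg_right (by linarith) hX0

open Classical in
/-- `tup_lam` for events -/
theorem tup_lamE (κ : ℝ) (hκ0 : 0 < κ) (hκ : ∀ α β : ℝ, 0 ≤ α → α ≤ β →
      Tendsto (fun X : ℝ => ((DP X α β).card : ℝ) / X) atTop (nhds (κ * (β - α))))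
    (n : ℕ) (α β : ℝ) (J : ℕ) (ε : ℝ) (hα : 0 ≤ α) (hαβ : α ≤ β) (hε : 0 < ε) : ∀ᶠ x : ℝ in atTop,
        ∀ E : Set (ℕ × ℕ), ∑ j : Fin (n + 1) → Fin J,
          |(Set.ncard {p | p ∈ PS x α β ∧ (p ∈ E ∧ ∏ l, lx p (j l) = 1)} : ℝ) -
            Set.ncard {p | p ∈ PS x α β ∧ (p ∈ E ∧ ∏ l, lx p (j l) = -1)}| ≤
          (κ * (β - α) * J ^ n * √J + ε) * x := by
  filter_upwards [tup_lam κ hκ0 hκ n α β J ε hα hαβ hε, eventually_ge_atTop (0 : ℝ)] with x h1 h2 E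
  refine le_trans (le_of_eq ?_) (h1 (fun p => if p ∈ E then 1 else 0) (fun p => by split_ifs <;> norm_num))
  refine sum_congr rfl fun j _ => ?_
  congr 1
  rw [← ps_card_iff x α β h2 (fun p => p ∈ E ∧ ∏ l, lx p (j l) = 1) (fun p => p ∈ E ∧ ∏ l, lx p (j l) = 1)
      (fun p => Iff.rfl),
    ← ps_card_iff x α β h2 (fun p => p ∈ E ∧ ∏ l, lx p (j l) = -1) (fun p => p ∈ E ∧ ∏ l, lx p (j l) = -1)
      (fun p => Iff.rfl), card_filter, card_filter]
  push_cast
  rw [← sum_sub_distrib]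
  refine sum_congr rfl fun p _ => ?_
  have h3 : ∏ l, lx p (j l) = 1 ∨ ∏ l, lx p (j l) = -1 := by
    refine prod_induction (fun l => lx p (j l)) (fun z => z = 1 ∨ z = -1) ?_ (Or.inl rfl) fun l _ => ?_
    · rintro a b (ha | ha) (hb | hb) <;> rw [ha, hb] <;> norm_num
    · unfold lx lam
      exact neg_one_pow_eq_or ℤ _
  have h4 : ∏ l, (lx p (j l) : ℝ) = ((∏ l, lx p (j l) : ℤ) : ℝ) := by push_cast; rfl
  rw [h4]
  by_cases hE : p ∈ E
  · rcases h3 with h | h <;> rw [h] <;> simp [hE]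
  · simp [hE]

end Pool.Agent.FanL
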