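import Pool.Agent.Lib_MP_f1a94e_fl.Law

/-!
# Piece VAR: the exact variance in progressions of bounded length
-/

set_option autoImplicit false

namespace Pool.Agent.FanL

open Finset Pool.Agent.GaussMR Pool.Agent.OmAll Pool.Agent.OmEq Pool.Agent.LPr Pool.Agent.OrbL MeasureTheory Filter

open Classical in
/-- PROOF. Let `p = c / q`, `I_j` the indicator of `Cnd .. (er P j)`: `(∑_(j < L) I_j - L p)^2 = ∑_(i ≠ j) I_i I_j + ∑_j I_j - 2 L p ∑_j I_j + L^2 p^2`. Sum over `P ∈ DP X 0 1`, divide by `X`: `law_pair` (`κ p^2` each, `L (L-1)` pairs), `law_one` (`κ p`), `hκ 0 1`: `κ (L (L-1) p^2 + L p - 2 L^2 p^2 + L^2 p^2) = κ L p (1 - p)`. -/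
theorem var_law (κ : ℝ) (hκ : ∀ α β : ℝ, 0 ≤ α → α ≤ β →
      Tendsto (fun X : ℝ => ((DP X α β).card : ℝ) / X) atTop (nhds (κ * (β - α))))
    (q : ℕ) (hq : 0 < q) (K : ℕ) (u0 : ℝ) (u v : ℕ → ℝ) (r : ℕ) (k : ℕ → ℕ) (c : ℝ)
    (h1 : WD K u0 u v r k c) (a L : ℕ) :
    Tendsto (fun X : ℝ => (∑ P ∈ DP X 0 1, ((((range L).filter (fun j => Cnd q a u v r k X (er P j))).card : ℝ) -
      L * (c / q)) ^ 2) / X) atTop (nhds (κ * (L * (c / q) * (1 - c / q)))) := by
  have hq0 : (q : ℝ) ≠ 0 := by exact_mod_cast hq.ne'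
  -- the limits of the one and two point counts
  have l1 : ∀ i : ℕ, Tendsto (fun X : ℝ => (((DP X 0 1).filter (fun P => Cnd q a u v r k X (er P i))).card : ℝ) / X)
      atTop (nhds (κ * (c / q))) := by
    intro i
    have h := law_one κ hκ q hq K u0 u v r k c h1 a i 0 1 le_rfl zero_le_one
    rwa [show κ * (1 - 0) * c / (q : ℝ) = κ * (c / q) by ring] at h
  have l2 : ∀ i j : ℕ, Tendsto (fun X : ℝ => (((DP X 0 1).filter (fun P => Cnd q a u v r k X (er P i) ∧
      Cnd q a u v r k X (er P j))).card : ℝ) / X)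
      atTop (nhds (if i = j then κ * (c / q) else κ * (c / q) ^ 2)) := by
    intro i j
    by_cases hij : i = j
    · subst hij
      rw [if_pos rfl]
      simpa only [and_self] using l1 i
    · rw [if_neg hij]
      have h := law_pair κ hκ q hq K u0 u v u v r r k k c c h1 h1 a a i j hij 0 1 le_rfl zero_le_one
      rwa [show κ * (1 - 0) * c * c / (q : ℝ) ^ 2 = κ * (c / q) ^ 2 by ring] at h
  have l0 : Tendsto (fun X : ℝ => ((DP X 0 1).card : ℝ) / X) atTop (nhds κ) := by
    have h := hκ 0 1 le_rfl zero_le_one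
    rwa [show κ * (1 - 0) = κ by ring] at h
  -- the expansion of the square
  have e1 : ∀ X : ℝ, (∑ P ∈ DP X 0 1, ((((range L).filter (fun j => Cnd q a u v r k X (er P j))).card : ℝ) -
      L * (c / q)) ^ 2) / X =
      ∑ i ∈ range L, ∑ j ∈ range L, (((DP X 0 1).filter (fun P => Cnd q a u v r k X (er P i) ∧
        Cnd q a u v r k X (er P j))).card : ℝ) / X -
      2 * (L * (c / q)) * ∑ j ∈ range L, (((DP X 0 1).filter (fun P => Cnd q a u v r k X (er P j))).card : ℝ) / X +
      (L * (c / q)) ^ 2 * (((DP X 0 1).card : ℝ) / X) := by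
    intro X
    have s1 : ∀ P : ℕ × ℕ, ((((range L).filter (fun j => Cnd q a u v r k X (er P j))).card : ℝ) -
        L * (c / q)) ^ 2 = ∑ i ∈ range L, ∑ j ∈ range L,
          (if Cnd q a u v r k X (er P i) ∧ Cnd q a u v r k X (er P j) then (1 : ℝ) else 0) -
        2 * (L * (c / q)) * ∑ j ∈ range L, (if Cnd q a u v r k X (er P j) then (1 : ℝ) else 0) +
        (L * (c / q)) ^ 2 := by
      intro P
      have t1 : (((range L).filter (fun j => Cnd q a u v r k X (er P j))).card : ℝ) =
          ∑ j ∈ range L, (if Cnd q a u v r k X (er P j) then (1 : ℝ) else 0) := by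
        rw [card_filter]
        push_cast
        rfl
      have t2 : ∑ i ∈ range L, ∑ j ∈ range L,
          (if Cnd q a u v r k X (er P i) ∧ Cnd q a u v r k X (er P j) then (1 : ℝ) else 0) =
          (∑ j ∈ range L, (if Cnd q a u v r k X (er P j) then (1 : ℝ) else 0)) *
          (∑ j ∈ range L, (if Cnd q a u v r k X (er P j) then (1 : ℝ) else 0)) := by
        rw [sum_mul_sum]
        refine sum_congr rfl fun i _ => sum_congr rfl fun j _ => ?_
        by_cases c1 : Cnd q a u v r k X (er P i)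
        · by_cases c2 : Cnd q a u v r k X (er P j)
          · rw [if_pos ⟨c1, c2⟩, if_pos c1, if_pos c2, one_mul]
          · rw [if_neg (fun h => c2 h.2), if_neg c2, mul_zero]
        · rw [if_neg (fun h => c1 h.1), if_neg c1, zero_mul]
      rw [t1, t2]
      ring
    have s2 : ∑ P ∈ DP X 0 1, ((((range L).filter (fun j => Cnd q a u v r k X (er P j))).card : ℝ) -
        L * (c / q)) ^ 2 = ∑ i ∈ range L, ∑ j ∈ range L, (((DP X 0 1).filter (fun P => Cnd q a u v r k X (er P i) ∧
        Cnd q a u v r k X (er P j))).card : ℝ) -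
        2 * (L * (c / q)) * ∑ j ∈ range L, (((DP X 0 1).filter (fun P => Cnd q a u v r k X (er P j))).card : ℝ) +
        (L * (c / q)) ^ 2 * ((DP X 0 1).card : ℝ) := by
      rw [sum_congr rfl (fun P _ => s1 P), sum_add_distrib, sum_sub_distrib, ← mul_sum, sum_const, nsmul_eq_mul]
      have t1 : ∑ P ∈ DP X 0 1, ∑ i ∈ range L, ∑ j ∈ range L,
          (if Cnd q a u v r k X (er P i) ∧ Cnd q a u v r k X (er P j) then (1 : ℝ) else 0) =
          ∑ i ∈ range L, ∑ j ∈ range L, (((DP X 0 1).filter (fun P => Cnd q a u v r k X (er P i) ∧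
          Cnd q a u v r k X (er P j))).card : ℝ) := by
        rw [sum_comm]
        refine sum_congr rfl fun i _ => ?_
        rw [sum_comm]
        refine sum_congr rfl fun j _ => ?_
        rw [card_filter]
        push_cast
        rfl
      have t2 : ∑ P ∈ DP X 0 1, ∑ j ∈ range L, (if Cnd q a u v r k X (er P j) then (1 : ℝ) else 0) =
          ∑ j ∈ range L, (((DP X 0 1).filter (fun P => Cnd q a u v r k X (er P j))).card : ℝ) := by
        rw [sum_comm]
        refine sum_congr rfl fun j _ => ?_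
        rw [card_filter]
        push_cast
        rfl
      rw [t1, t2]
      ring
    rw [s2, add_div, sub_div, sum_div, mul_div_assoc, sum_div, mul_div_assoc]
    congr 2
    refine sum_congr rfl fun i _ => ?_
    rw [sum_div]
  have e2 : κ * (L * (c / q) * (1 - c / q)) =
      ∑ i ∈ range L, ∑ j ∈ range L, (if i = j then κ * (c / q) else κ * (c / q) ^ 2) -
      2 * (L * (c / q)) * ∑ _j ∈ range L, κ * (c / q) + (L * (c / q)) ^ 2 * κ := by
    have t1 : ∀ i ∈ range L, ∑ j ∈ range L, (if i = j then κ * (c / q) else κ * (c / q) ^ 2) =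
        κ * (c / q) + (L - 1) * (κ * (c / q) ^ 2) := by
      intro i hi
      have t2 : ∀ j ∈ range L, (if i = j then κ * (c / q) else κ * (c / q) ^ 2) =
          (if i = j then κ * (c / q) - κ * (c / q) ^ 2 else 0) + κ * (c / q) ^ 2 := by
        intro j _
        split_ifs <;> ring
      rw [sum_congr rfl t2, sum_add_distrib, sum_ite_eq, if_pos hi, sum_const, card_range, nsmul_eq_mul]
      ring
    rw [sum_congr rfl t1, sum_const, sum_const, card_range, nsmul_eq_mul, nsmul_eq_mul]
    ring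
  rw [e2, tendsto_congr e1]
  refine Tendsto.add (Tendsto.sub ?_ (Tendsto.const_mul _ ?_)) (Tendsto.const_mul _ l0)
  · exact tendsto_finsetSum _ fun i _ => tendsto_finsetSum _ fun j _ => l2 i j
  · exact tendsto_finsetSum _ fun j _ => l1 j

end Pool.Agent.FanL
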