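import Pool.Agent.Lib_MP_f1a94e_fl.LawR

/-!
# Piece VAR-R: the exact variance in progressions of bounded length
-/

set_option autoImplicit false

namespace Pool.Agent.FanL

open Finset Pool.Agent.GaussMR Pool.Agent.OmAll Pool.Agent.OmEq Pool.Agent.LPr Pool.Agent.OrbL MeasureTheory Filter

/-- the condition without class and windows -/
theorem vr_none (R : ℕ) (u v : ℕ → ℝ) (k : ℕ → ℕ) (X : ℝ) (n : ℕ) : CndR R 1 0 u v 0 k X n ↔ n.Coprime R :=
  ⟨fun h => h.1, fun h => ⟨h, Nat.modEq_one, fun i hi => absurd hi (Nat.not_lt_zero i)⟩⟩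

theorem vr_sum (D : Finset (ℕ × ℕ)) (A B : ℕ × ℕ → Prop) [DecidablePred A] [DecidablePred B] :
    ∑ P ∈ D, (if A P then (1 : ℝ) else 0) * (if B P then (1 : ℝ) else 0) =
      ((D.filter (fun P => A P ∧ B P)).card : ℝ) := by
  rw [card_filter]
  push_cast
  refine sum_congr rfl fun P _ => ?_
  by_cases h1 : A P
  · by_cases h2 : B P
    · simp [h1, h2]
    · simp [h2]
  · simp [h1]

theorem vr_sum1 (D : Finset (ℕ × ℕ)) (A : ℕ × ℕ → Prop) [DecidablePred A] :
    ∑ P ∈ D, (if A P then (1 : ℝ) else 0) = ((D.filter (fun P => A P)).card : ℝ) := by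
  rw [card_filter]
  push_cast
  rfl

open Classical in
/-- PROOF. Let `p = c / q`, `F_j`, `E_j` the indicators of `CndR .. (er P j)` and of `(er P j).Coprime R`, `T_j = F_j - p E_j`. `(∑_(j ∈ S) T_j)^2 = ∑_(i ≠ j) T_i T_j + ∑_j T_j^2`. For `i ≠ j`: `T_i T_j = F_i F_j - p F_i E_j - p E_i F_j + p^2 E_i E_j`; with `N_ij = ∑_P E_i E_j`, `law_pairR` (for `F_i E_j`: `CndR R 1 0`, no windows, `WD.none`)
gives `∑_P T_i T_j = (p^2 - p^2 - p^2 + p^2) N_ij + o(X) = o(X)`. `T_j^2 = (1 - 2 p) F_j + p^2 E_j`, by `law_oneR` `∑_P T_j^2 = p (1 - p) ∑_P E_j + o(X)`. -/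
theorem var_lawR (R : ℕ) (hR : 0 < R) (q : ℕ) (hq : 0 < q) (K : ℕ) (u0 : ℝ) (u v : ℕ → ℝ) (r : ℕ) (k : ℕ → ℕ) (c : ℝ)
    (h1 : WD K u0 u v r k c) (a : ℕ) (S : Finset ℕ) (α β : ℝ) (hα : 0 ≤ α) (hαβ : α ≤ β) :
    Tendsto (fun X : ℝ => (∑ P ∈ DP X α β, (((S.filter (fun j => CndR R q a u v r k X (er P j))).card : ℝ) -
      c / q * ((S.filter (fun j => (er P j).Coprime R)).card : ℝ)) ^ 2 -
      c / q * (1 - c / q) * ∑ P ∈ DP X α β, ((S.filter (fun j => (er P j).Coprime R)).card : ℝ)) / X) atTop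
      (nhds 0) := by
  set p : ℝ := c / q with hp
  set F : ℝ → ℕ → ℕ × ℕ → ℝ := fun X j P => if CndR R q a u v r k X (er P j) then 1 else 0 with hF
  set E : ℕ → ℕ × ℕ → ℝ := fun j P => if (er P j).Coprime R then 1 else 0 with hE
  -- the two point sums
  have hpair : ∀ i j : ℕ, i ≠ j → Tendsto (fun X : ℝ =>
      (∑ P ∈ DP X α β, (F X i P - p * E i P) * (F X j P - p * E j P)) / X) atTop (nhds 0) := by
    intro i j hij
    have w0 := WD.none K u0 h1.pos h1.big u v k
    have a1 := law_pairR R R hR hR q q hq hq K u0 u v u v r r k k c c h1 h1 a a i j hij α β hα hαβ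
    have a2 := law_pairR R R hR hR q 1 hq one_pos K u0 u v u v r 0 k k c 1 h1 w0 a 0 i j hij α β hα hαβ
    have a3 := law_pairR R R hR hR 1 q one_pos hq K u0 u v u v 0 r k k 1 c w0 h1 0 a i j hij α β hα hαβ
    have a4 := (a1.sub (a2.const_mul p)).sub (a3.const_mul p)
    rw [show (0 : ℝ) - p * 0 - p * 0 = 0 by ring] at a4
    refine a4.congr (fun X => ?_)
    simp only [vr_none]
    have e1 : ∑ P ∈ DP X α β, (F X i P - p * E i P) * (F X j P - p * E j P) =
        ∑ P ∈ DP X α β, F X i P * F X j P - p * ∑ P ∈ DP X α β, F X i P * E j P -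
        p * ∑ P ∈ DP X α β, E i P * F X j P + p ^ 2 * ∑ P ∈ DP X α β, E i P * E j P := by
      rw [mul_sum, mul_sum, mul_sum, ← sum_sub_distrib, ← sum_sub_distrib, ← sum_add_distrib]
      refine sum_congr rfl fun P _ => ?_
      ring
    rw [e1]
    simp only [hF, hE]
    rw [vr_sum, vr_sum, vr_sum, vr_sum]
    have e2 : c * c / ((q : ℝ) * q) = p * p := by rw [hp, div_mul_div_comm]
    have e3 : c * 1 / ((q : ℝ) * ((1 : ℕ) : ℝ)) = p := by rw [hp]; push_cast; rw [mul_one, mul_one]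
    have e4 : 1 * c / (((1 : ℕ) : ℝ) * (q : ℝ)) = p := by rw [hp]; push_cast; rw [one_mul, one_mul]
    rw [e2, e3, e4]
    ring
  have hdiag : ∀ j : ℕ, Tendsto (fun X : ℝ =>
      (∑ P ∈ DP X α β, (F X j P - p * E j P) * (F X j P - p * E j P) -
        p * (1 - p) * ∑ P ∈ DP X α β, E j P) / X) atTop (nhds 0) := by
    intro j
    have a1 := (law_oneR R hR q hq K u0 u v r k c h1 a j α β hα hαβ).const_mul (1 - 2 * p)
    rw [mul_zero] at a1
    refine a1.congr (fun X => ?_)
    have e1 : ∑ P ∈ DP X α β, (F X j P - p * E j P) * (F X j P - p * E j P) =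
        (1 - 2 * p) * ∑ P ∈ DP X α β, F X j P + p ^ 2 * ∑ P ∈ DP X α β, E j P := by
      rw [mul_sum, mul_sum, ← sum_add_distrib]
      refine sum_congr rfl fun P _ => ?_
      have h2 : F X j P * E j P = F X j P := by
        simp only [hF, hE]
        by_cases h : CndR R q a u v r k X (er P j)
        · rw [if_pos h, if_pos h.1, one_mul]
        · rw [if_neg h, zero_mul]
      have h3 : F X j P * F X j P = F X j P := by
        simp only [hF]
        split_ifs <;> ring
      have h4 : E j P * E j P = E j P := by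
        simp only [hE]
        split_ifs <;> ring
      linear_combination h3 - 2 * p * h2 + p ^ 2 * h4
    rw [e1]
    simp only [hF, hE]
    rw [vr_sum1, vr_sum1]
    ring
  -- the expansion
  have hexp : ∀ X : ℝ, (∑ P ∈ DP X α β, (((S.filter (fun j => CndR R q a u v r k X (er P j))).card : ℝ) -
      p * ((S.filter (fun j => (er P j).Coprime R)).card : ℝ)) ^ 2 -
      p * (1 - p) * ∑ P ∈ DP X α β, ((S.filter (fun j => (er P j).Coprime R)).card : ℝ)) / X =
      ∑ i ∈ S, (∑ j ∈ S.erase i, (∑ P ∈ DP X α β, (F X i P - p * E i P) * (F X j P - p * E j P)) / X +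
        (∑ P ∈ DP X α β, (F X i P - p * E i P) * (F X i P - p * E i P) -
        p * (1 - p) * ∑ P ∈ DP X α β, E i P) / X) := by
    intro X
    have t1 : ∀ P : ℕ × ℕ, ((S.filter (fun j => CndR R q a u v r k X (er P j))).card : ℝ) = ∑ j ∈ S, F X j P := by
      intro P
      rw [card_filter]
      push_cast
      rfl
    have t2 : ∀ P : ℕ × ℕ, ((S.filter (fun j => (er P j).Coprime R)).card : ℝ) = ∑ j ∈ S, E j P := by
      intro P
      rw [card_filter]
      push_cast
      rfl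
    have t3 : ∑ P ∈ DP X α β, (((S.filter (fun j => CndR R q a u v r k X (er P j))).card : ℝ) -
        p * ((S.filter (fun j => (er P j).Coprime R)).card : ℝ)) ^ 2 =
        ∑ i ∈ S, ∑ j ∈ S, ∑ P ∈ DP X α β, (F X i P - p * E i P) * (F X j P - p * E j P) := by
      have t4 : ∀ P ∈ DP X α β, (((S.filter (fun j => CndR R q a u v r k X (er P j))).card : ℝ) -
          p * ((S.filter (fun j => (er P j).Coprime R)).card : ℝ)) ^ 2 =
          ∑ i ∈ S, ∑ j ∈ S, (F X i P - p * E i P) * (F X j P - p * E j P) := by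
        intro P _
        rw [t1, t2, mul_sum, ← sum_sub_distrib, sq, sum_mul_sum]
      rw [sum_congr rfl t4, sum_comm]
      refine sum_congr rfl fun i _ => ?_
      rw [sum_comm]
    have t5 : ∑ P ∈ DP X α β, ((S.filter (fun j => (er P j).Coprime R)).card : ℝ) =
        ∑ i ∈ S, ∑ P ∈ DP X α β, E i P := by
      rw [sum_congr rfl (fun P _ => t2 P), sum_comm]
    rw [t3, t5, mul_sum, ← sum_sub_distrib, sum_div]
    refine sum_congr rfl fun i hi => ?_
    rw [← sum_erase_add S _ hi, ← sum_div]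
    ring
  rw [tendsto_congr hexp]
  have hz : (0 : ℝ) = ∑ i ∈ S, (∑ j ∈ S.erase i, (0 : ℝ) + 0) := by simp
  rw [hz]
  refine tendsto_finsetSum _ fun i _ => Tendsto.add ?_ (hdiag i)
  exact tendsto_finsetSum _ fun j hj => hpair i j (ne_of_mem_erase hj).symm

end Pool.Agent.FanL
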